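import Pool.Agent.Helper93.Fin.Work

/-!
# MP_f09395_gt, module T: the map `Theta x y = exp(-x) * (D exp)_x y`
-/

noncomputable section

namespace Pool.Agent.Helper93.Fin

open scoped ContDiff
open NormedSpace

namespace ThetaAux

/-! ### A general lemma on `Df(x)(x) = w(x) - c f(x)` -/

section gen
variable {E F : Type*} [NormedAddCommGroup E] [NormedSpace ℝ E] [NormedAddCommGroup F]
  [NormedSpace ℝ F]

theorem fderiv_self_zero {f w : E → F} (hf : ContDiff ℝ ∞ f) (hw : ContDiff ℝ ∞ w) (c : ℝ)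
    (h : ∀ x, fderiv ℝ f x x = w x - c • f x) (a : E) :
    (c + 1) • fderiv ℝ f 0 a = fderiv ℝ w 0 a := by
  have hf1 : ContDiff ℝ ∞ (fderiv ℝ f) := hf.fderiv_right (m := ∞) (by simp)
  have h1 : HasFDerivAt (fun x => fderiv ℝ f x x) _ (0 : E) :=
    (hf1.differentiable (by simp) 0).hasFDerivAt.clm_apply (hasFDerivAt_id (0 : E))
  have h2 : HasFDerivAt (fun x => w x - c • f x) _ (0 : E) :=
    (hw.differentiable (by simp) 0).hasFDerivAt.sub
      ((hf.differentiable (by simp) 0).hasFDerivAt.const_smul c)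
  have h3 : (fun x => fderiv ℝ f x x) = fun x => w x - c • f x := funext h
  rw [h3] at h1
  have h4 := congrArg (fun T => T a) (h1.unique h2)
  simp at h4
  rw [add_smul, one_smul]
  nth_rewrite 2 [h4]
  abel

theorem fderiv_fderiv_apply {f : E → F} (hf : ContDiff ℝ ∞ f) (x a b : E) :
    fderiv ℝ (fun z => fderiv ℝ f z b) x a = fderiv ℝ (fderiv ℝ f) x a b := by
  have hf1 : ContDiff ℝ ∞ (fderiv ℝ f) := hf.fderiv_right (m := ∞) (by simp)
  have h1 : HasFDerivAt (fun x => fderiv ℝ f x b) _ x :=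
    (hf1.differentiable (by simp) x).hasFDerivAt.clm_apply (hasFDerivAt_const b x)
  rw [h1.fderiv]
  simp

theorem fderiv_fderiv_symm {f : E → F} (hf : ContDiff ℝ ∞ f) (x a b : E) :
    fderiv ℝ (fderiv ℝ f) x a b = fderiv ℝ (fderiv ℝ f) x b a := by
  have := (hf.contDiffAt (x := x)).isSymmSndFDerivAt (by
    rw [minSmoothness_of_isRCLikeNormedField]; exact WithTop.coe_le_coe.2 le_top)
  exact this a b

theorem contDiff_fderiv_const {f : E → F} (hf : ContDiff ℝ ∞ f) (b : E) :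
    ContDiff ℝ ∞ (fun z => fderiv ℝ f z b) :=
  (hf.fderiv_right (m := ∞) (by simp)).clm_apply contDiff_const

/-- differentiating the identity `Df(x)(x) = w(x) - c f(x)` -/
theorem fderiv_self_next {f w : E → F} (hf : ContDiff ℝ ∞ f) (hw : ContDiff ℝ ∞ w) (c : ℝ)
    (h : ∀ x, fderiv ℝ f x x = w x - c • f x) (a x : E) :
    fderiv ℝ (fun z => fderiv ℝ f z a) x x
      = fderiv ℝ w x a - (c + 1) • fderiv ℝ f x a := by
  have hf1 : ContDiff ℝ ∞ (fderiv ℝ f) := hf.fderiv_right (m := ∞) (by simp)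
  have h1 : HasFDerivAt (fun x => fderiv ℝ f x x) _ x :=
    (hf1.differentiable (by simp) x).hasFDerivAt.clm_apply (hasFDerivAt_id x)
  have h2 : HasFDerivAt (fun x => w x - c • f x) _ x :=
    (hw.differentiable (by simp) x).hasFDerivAt.sub
      ((hf.differentiable (by simp) x).hasFDerivAt.const_smul c)
  have h3 : (fun x => fderiv ℝ f x x) = fun x => w x - c • f x := funext h
  rw [h3] at h1
  have h4 := congrArg (fun T => T a) (h1.unique h2)
  simp at h4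
  rw [fderiv_fderiv_apply hf, fderiv_fderiv_symm hf, add_smul, one_smul]
  have h5 : fderiv ℝ (fderiv ℝ f) x a x = fderiv ℝ w x a - c • fderiv ℝ f x a
      - fderiv ℝ f x a := by
    rw [← h4]; abel
  rw [h5]; abel

end gen

section alg
variable {𝔸 : Type*} [NormedRing 𝔸] [NormedAlgebra ℝ 𝔸] [FiniteDimensional ℝ 𝔸]

theorem exp_contDiff : ContDiff ℝ ∞ (exp : 𝔸 → 𝔸) := by
  have : CompleteSpace 𝔸 := FiniteDimensional.complete ℝ 𝔸
  exact AnalyticOnNhd.contDiff fun x _ => exp_analytic x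

theorem exp_neg_mul (x : 𝔸) : exp (-x) * exp x = 1 := by
  have : CompleteSpace 𝔸 := FiniteDimensional.complete ℝ 𝔸
  let _ : NormedAlgebra ℚ 𝔸 := NormedAlgebra.restrictScalars ℚ ℝ 𝔸
  rw [← exp_add_of_commute ((Commute.refl x).neg_left), neg_add_cancel, exp_zero]

theorem exp_mul_neg (x : 𝔸) : exp x * exp (-x) = 1 := by
  have := exp_neg_mul (-x)
  rwa [neg_neg] at this

omit [FiniteDimensional ℝ 𝔸] in
theorem comm_exp (x : 𝔸) : x * exp (-x) = exp (-x) * x := by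
  let _ : NormedAlgebra ℚ 𝔸 := NormedAlgebra.restrictScalars ℚ ℝ 𝔸
  exact ((Commute.refl x).neg_right.exp_right).eq

/-- `DE(x)x = x E(x)` -/
theorem dexp_self (x : 𝔸) : fderiv ℝ (exp : 𝔸 → 𝔸) x x = x * exp x := by
  have : CompleteSpace 𝔸 := FiniteDimensional.complete ℝ 𝔸
  have h1 := hasDerivAt_exp_smul_const' (𝕂 := ℝ) x (1 : ℝ)
  have h2 : HasFDerivAt (exp : 𝔸 → 𝔸) (fderiv ℝ exp x) ((1 : ℝ) • x) := by
    rw [one_smul]
    exact (exp_contDiff.differentiable (by simp) x).hasFDerivAt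
  have h3 : HasDerivAt (fun u : ℝ => u • x) x 1 := by
    simpa using (hasDerivAt_id (1 : ℝ)).smul_const x
  have h4 := h2.comp_hasDerivAt (1 : ℝ) h3
  have h5 := h4.unique h1
  simpa using h5

/-- (b) `D²E(x)(x, v) = v E(x) + x DE(x) v - DE(x) v` -/
theorem d2exp_self (x v : 𝔸) : fderiv ℝ (fderiv ℝ (exp : 𝔸 → 𝔸)) x x v
    = v * exp x + x * fderiv ℝ (exp : 𝔸 → 𝔸) x v - fderiv ℝ (exp : 𝔸 → 𝔸) x v := by
  have hE := exp_contDiff (𝔸 := 𝔸)
  have hw : ContDiff ℝ ∞ (fun x : 𝔸 => x * exp x) := contDiff_id.mul hE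
  have h := fderiv_self_next hE hw 0 (fun x => by rw [dexp_self]; simp) v x
  rw [fderiv_fderiv_apply hE] at h
  rw [h]
  have h1 : HasFDerivAt (fun x : 𝔸 => x * exp x) _ x :=
    (hasFDerivAt_id x).mul' ((hE.differentiable (by simp) x).hasFDerivAt)
  rw [h1.fderiv]
  simp
  abel

theorem dexp_zero (v : 𝔸) : fderiv ℝ (exp : 𝔸 → 𝔸) 0 v = v := by
  have := d2exp_self (0 : 𝔸) v
  simp at this
  exact (sub_eq_zero.1 this.symm).symm

theorem d2exp_zero (a b : 𝔸) : (2 : ℝ) • fderiv ℝ (fderiv ℝ (exp : 𝔸 → 𝔸)) 0 a b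
    = a * b + b * a := by
  have hE := exp_contDiff (𝔸 := 𝔸)
  have hf := contDiff_fderiv_const hE b
  have hw : ContDiff ℝ ∞ (fun x : 𝔸 => b * exp x + x * fderiv ℝ (exp : 𝔸 → 𝔸) x b) :=
    (contDiff_const.mul hE).add (contDiff_id.mul hf)
  have h := fderiv_self_zero hf hw 1 (fun x => by
    rw [fderiv_fderiv_apply hE, d2exp_self, one_smul]) a
  rw [fderiv_fderiv_apply hE] at h
  have h1 : HasFDerivAt (fun x : 𝔸 => b * exp x + x * fderiv ℝ (exp : 𝔸 → 𝔸) x b) _ (0 : 𝔸) :=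
    ((hasFDerivAt_const b (0 : 𝔸)).mul' ((hE.differentiable (by simp) (0 : 𝔸)).hasFDerivAt)).add
    ((hasFDerivAt_id (0 : 𝔸)).mul' ((hf.differentiable (by simp) (0 : 𝔸)).hasFDerivAt))
  rw [h1.fderiv] at h
  norm_num at h
  rw [dexp_zero, dexp_zero] at h
  rw [h, add_comm]

/-- derivative of `x ↦ exp (-x)` -/
theorem hasFDerivAt_exp_neg (x : 𝔸) :
    HasFDerivAt (fun x : 𝔸 => exp (-x)) (-(fderiv ℝ (exp : 𝔸 → 𝔸) (-x))) x := by
  have hE := exp_contDiff (𝔸 := 𝔸)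
  have h1 : HasFDerivAt (fun x : 𝔸 => exp (-x)) _ x :=
    ((hE.differentiable (by simp) (-x)).hasFDerivAt).comp x ((hasFDerivAt_id x).neg)
  convert h1 using 1
  ext v
  simp

theorem dexp_neg (x a : 𝔸) : fderiv ℝ (exp : 𝔸 → 𝔸) (-x) a
    = exp (-x) * fderiv ℝ (exp : 𝔸 → 𝔸) x a * exp (-x) := by
  have hE := exp_contDiff (𝔸 := 𝔸)
  have h1 : HasFDerivAt (fun x : 𝔸 => exp (-x) * exp x) _ x :=
    (hasFDerivAt_exp_neg x).mul' ((hE.differentiable (by simp) x).hasFDerivAt)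
  have h2 : (fun x : 𝔸 => exp (-x) * exp x) = fun _ => 1 := funext exp_neg_mul
  rw [h2] at h1
  have h3 := congrArg (fun T => T a) (h1.unique (hasFDerivAt_const 1 x))
  simp at h3
  have h4 : exp (-x) * fderiv ℝ (exp : 𝔸 → 𝔸) x a = fderiv ℝ (exp : 𝔸 → 𝔸) (-x) a * exp x := by
    rw [← sub_eq_zero, ← h3]; abel
  rw [h4, mul_assoc, exp_mul_neg, mul_one]

/-- `W x v = E(-x) v E(x)` -/
def W (v x : 𝔸) : 𝔸 := exp (-x) * v * exp x

theorem W_contDiff (v : 𝔸) : ContDiff ℝ ∞ (W v) :=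
  ((exp_contDiff.comp contDiff_neg).mul contDiff_const).mul exp_contDiff

omit [FiniteDimensional ℝ 𝔸] in
theorem Theta_apply (x v : 𝔸) :
    Theta x v = exp (-x) * fderiv ℝ (exp : 𝔸 → 𝔸) x v := by
  simp [Theta]

end alg

end ThetaAux

section T
open ThetaAux
variable {𝔸 : Type*} [NormedRing 𝔸] [NormedAlgebra ℝ 𝔸] [FiniteDimensional ℝ 𝔸]

theorem Theta_contDiff : ContDiff ℝ ∞ (Theta : 𝔸 → 𝔸 →L[ℝ] 𝔸) := by
  have hE := exp_contDiff (𝔸 := 𝔸)
  have h1 : ContDiff ℝ ∞ (fderiv ℝ (exp : 𝔸 → 𝔸)) := hE.fderiv_right (m := ∞) (by simp)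
  have h2 : ContDiff ℝ ∞ (fun x : 𝔸 => ContinuousLinearMap.mul ℝ 𝔸 (exp (-x))) :=
    (ContinuousLinearMap.mul ℝ 𝔸).contDiff.comp (hE.comp contDiff_neg)
  exact h2.clm_comp h1

theorem Theta_zero : Theta (0 : 𝔸) = ContinuousLinearMap.id ℝ 𝔸 := by
  ext v
  rw [Theta_apply, dexp_zero]
  simp

theorem Theta_self (x : 𝔸) : Theta x x = x := by
  rw [Theta_apply, dexp_self, ← mul_assoc, ← comm_exp, mul_assoc, exp_neg_mul, mul_one]

/-- derivative of `Theta` -/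
theorem fderiv_Theta (x a b : 𝔸) : fderiv ℝ Theta x a b
    = exp (-x) * fderiv ℝ (fderiv ℝ (exp : 𝔸 → 𝔸)) x a b - Theta x a * Theta x b := by
  have hE := exp_contDiff (𝔸 := 𝔸)
  have hb := contDiff_fderiv_const hE b
  have h1 : HasFDerivAt (fun x : 𝔸 => Theta x b) _ x :=
    ((Theta_contDiff.differentiable (by simp) x).hasFDerivAt).clm_apply (hasFDerivAt_const b x)
  have h2 : HasFDerivAt (fun x : 𝔸 => exp (-x) * fderiv ℝ (exp : 𝔸 → 𝔸) x b) _ x :=
    (hasFDerivAt_exp_neg x).mul' ((hb.differentiable (by simp) x).hasFDerivAt)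
  have h3 : (fun x : 𝔸 => Theta x b) = fun x => exp (-x) * fderiv ℝ (exp : 𝔸 → 𝔸) x b :=
    funext fun x => Theta_apply x b
  rw [h3] at h1
  have h4 := congrArg (fun T => T a) (h1.unique h2)
  simp at h4
  rw [h4, fderiv_fderiv_apply hE, dexp_neg, Theta_apply, Theta_apply]
  simp only [mul_assoc]
  abel

/-- Maurer–Cartan -/
theorem Theta_MC (x a b : 𝔸) : fderiv ℝ Theta x a b - fderiv ℝ Theta x b a
    = -⁅Theta x a, Theta x b⁆ := by
  rw [fderiv_Theta, fderiv_Theta, fderiv_fderiv_symm exp_contDiff x a b, Ring.lie_def]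
  abel

/-- `DΘ(x)(x) v = W(x) v - Θ(x) v` -/
theorem fderiv_Theta_self (x v : 𝔸) : fderiv ℝ Theta x x v = W v x - Theta x v := by
  rw [fderiv_Theta, d2exp_self, Theta_self, Theta_apply, W]
  rw [mul_sub, mul_add, ← mul_assoc (exp (-x)) x, ← comm_exp]
  simp only [mul_assoc]
  abel

theorem fderiv_Theta_const (v x a : 𝔸) :
    fderiv ℝ (fun z => Theta z v) x a = fderiv ℝ Theta x a v := by
  have h1 : HasFDerivAt (fun x : 𝔸 => Theta x v) _ x :=
    ((Theta_contDiff.differentiable (by simp) x).hasFDerivAt).clm_apply (hasFDerivAt_const v x)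
  rw [h1.fderiv]
  simp

theorem Theta_contDiff_const (v : 𝔸) : ContDiff ℝ ∞ (fun z : 𝔸 => Theta z v) :=
  Theta_contDiff.clm_apply contDiff_const

theorem fderiv_W (v x a : 𝔸) : fderiv ℝ (W v) x a
    = exp (-x) * v * fderiv ℝ (exp : 𝔸 → 𝔸) x a
      - fderiv ℝ (exp : 𝔸 → 𝔸) (-x) a * v * exp x := by
  have hE := exp_contDiff (𝔸 := 𝔸)
  have h1 : HasFDerivAt (fun x : 𝔸 => exp (-x) * v * exp x) _ x :=
    ((hasFDerivAt_exp_neg x).mul' (hasFDerivAt_const v x)).mul'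
      ((hE.differentiable (by simp) x).hasFDerivAt)
  have h2 : (W v : 𝔸 → 𝔸) = fun x : 𝔸 => exp (-x) * v * exp x := rfl
  rw [h2, h1.fderiv]
  simp
  abel

theorem dTheta_zero (a b : 𝔸) : fderiv ℝ Theta (0 : 𝔸) a b = -(1 / 2 : ℝ) • ⁅a, b⁆ := by
  have h := fderiv_self_zero (Theta_contDiff_const b) (W_contDiff b) 1 (fun x => by
    rw [fderiv_Theta_const, fderiv_Theta_self, one_smul]) a
  rw [fderiv_Theta_const, fderiv_W] at h
  simp at h
  rw [dexp_zero] at h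
  have h2 : (2 : ℝ) • fderiv ℝ Theta (0 : 𝔸) a b = -⁅a, b⁆ := by
    rw [show (2 : ℝ) = 1 + 1 by norm_num, h, Ring.lie_def]; abel
  have h3 : fderiv ℝ Theta (0 : 𝔸) a b = (1 / 2 : ℝ) • ((2 : ℝ) • fderiv ℝ Theta (0 : 𝔸) a b) := by
    rw [smul_smul]; norm_num
  rw [h3, h2, smul_neg, neg_smul]

theorem d2Theta_zero (a b v : 𝔸) : fderiv ℝ (fderiv ℝ Theta) (0 : 𝔸) a b v
    = (1 / 6 : ℝ) • (⁅a, ⁅b, v⁆⁆ + ⁅b, ⁅a, v⁆⁆) := by
  have hE := exp_contDiff (𝔸 := 𝔸)
  have hEb := contDiff_fderiv_const hE b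
  have hf := Theta_contDiff_const v
  have hfb := contDiff_fderiv_const hf b
  have hwb := contDiff_fderiv_const (W_contDiff v) b
  have h := fderiv_self_zero hfb hwb 2 (fun x => by
    rw [fderiv_self_next hf (W_contDiff v) 1 (fun x => by
      rw [fderiv_Theta_const, fderiv_Theta_self, one_smul])]
    norm_num) a
  -- the left hand side
  have h1 : fderiv ℝ (fun z : 𝔸 => fderiv ℝ (fun z : 𝔸 => Theta z v) z b) 0 a
      = fderiv ℝ (fderiv ℝ Theta) (0 : 𝔸) a b v := by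
    have e1 : (fun z : 𝔸 => fderiv ℝ (fun z : 𝔸 => Theta z v) z b)
        = fun z : 𝔸 => fderiv ℝ Theta z b v := funext fun z => fderiv_Theta_const v z b
    have hT1 : ContDiff ℝ ∞ (fderiv ℝ (Theta : 𝔸 → 𝔸 →L[ℝ] 𝔸)) :=
      Theta_contDiff.fderiv_right (m := ∞) (by simp)
    have e2 : HasFDerivAt (fun z : 𝔸 => fderiv ℝ Theta z b v) _ (0 : 𝔸) :=
      (((hT1.differentiable (by simp) (0 : 𝔸)).hasFDerivAt).clm_apply
        (hasFDerivAt_const b (0 : 𝔸))).clm_apply (hasFDerivAt_const v (0 : 𝔸))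
    rw [e1, e2.fderiv]
    simp
  -- the right hand side
  have h2 : fderiv ℝ (fun z : 𝔸 => fderiv ℝ (W v) z b) 0 a
      = v * fderiv ℝ (fderiv ℝ (exp : 𝔸 → 𝔸)) 0 a b
        + fderiv ℝ (fderiv ℝ (exp : 𝔸 → 𝔸)) 0 a b * v - a * v * b - b * v * a := by
    have e1 : (fun z : 𝔸 => fderiv ℝ (W v) z b)
        = fun x : 𝔸 => exp (-x) * v * fderiv ℝ (exp : 𝔸 → 𝔸) x b
          - fderiv ℝ (exp : 𝔸 → 𝔸) (-x) b * v * exp x := funext fun z => fderiv_W v z b
    have hneg : HasFDerivAt (fun x : 𝔸 => fderiv ℝ (exp : 𝔸 → 𝔸) (-x) b) _ (0 : 𝔸) :=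
      ((hEb.differentiable (by simp) (-(0 : 𝔸))).hasFDerivAt).comp (0 : 𝔸)
        ((hasFDerivAt_id (0 : 𝔸)).neg)
    have e2 : HasFDerivAt (fun x : 𝔸 => exp (-x) * v * fderiv ℝ (exp : 𝔸 → 𝔸) x b
          - fderiv ℝ (exp : 𝔸 → 𝔸) (-x) b * v * exp x) _ (0 : 𝔸) :=
      (((hasFDerivAt_exp_neg (0 : 𝔸)).mul' (hasFDerivAt_const v (0 : 𝔸))).mul'
        ((hEb.differentiable (by simp) (0 : 𝔸)).hasFDerivAt)).sub
      ((hneg.mul' (hasFDerivAt_const v (0 : 𝔸))).mul'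
        ((hE.differentiable (by simp) (0 : 𝔸)).hasFDerivAt))
    rw [e1, e2.fderiv]
    simp [dexp_zero, fderiv_fderiv_apply hE]
    abel
  rw [h1, h2] at h
  have h3 := d2exp_zero a b
  set D := fderiv ℝ (fderiv ℝ (exp : 𝔸 → 𝔸)) 0 a b with hD
  set X := fderiv ℝ (fderiv ℝ Theta) (0 : 𝔸) a b v with hX
  have h4 : (6 : ℝ) • X = ⁅a, ⁅b, v⁆⁆ + ⁅b, ⁅a, v⁆⁆ := by
    have e : (6 : ℝ) • X = (2 : ℝ) • (((2 : ℝ) + 1) • X) := by rw [smul_smul]; norm_num
    rw [e, h, smul_sub, smul_sub, smul_add, ← mul_smul_comm, ← smul_mul_assoc, h3]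
    simp only [Ring.lie_def, two_smul]
    noncomm_ring
  have h5 : X = (1 / 6 : ℝ) • ((6 : ℝ) • X) := by rw [smul_smul]; norm_num
  rw [h5, h4]

/-- derivative of `s ↦ W v (s x)` -/
theorem hasDerivAt_W (x v : 𝔸) (s : ℝ) :
    HasDerivAt (fun s : ℝ => s • Theta (s • x) v) (W v (s • x)) s := by
  have h1 : HasDerivAt (fun s : ℝ => Theta (s • x) v)
      (fderiv ℝ (fun z : 𝔸 => Theta z v) (s • x) x) s := by
    have h3 : HasDerivAt (fun u : ℝ => u • x) x s := by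
      simpa using (hasDerivAt_id s).smul_const x
    exact (((Theta_contDiff_const v).differentiable (by simp) (s • x)).hasFDerivAt).comp_hasDerivAt
      s h3
  have h2 := (hasDerivAt_id s).smul h1
  refine h2.congr_deriv ?_
  have h4 := fderiv_Theta_self (s • x) v
  rw [fderiv_Theta_const]
  simp only [id, map_smul, one_smul, _root_.smul_apply] at h4 ⊢
  rw [h4]
  abel

/-- `exp(-z) y exp(z)` stays in a Lie subalgebra -/
theorem W_mem {g : Submodule ℝ 𝔸} (hg : ∀ X ∈ g, ∀ Y ∈ g, ⁅X, Y⁆ ∈ g) {z y : 𝔸}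
    (hz : z ∈ g) (hy : y ∈ g) : W y z ∈ g := by
  have : CompleteSpace 𝔸 := FiniteDimensional.complete ℝ 𝔸
  have : CompleteSpace (𝔸 →L[ℝ] 𝔸) := FiniteDimensional.complete ℝ _
  obtain ⟨T, hT⟩ : ∃ T : 𝔸 →L[ℝ] 𝔸, ∀ X, T X = X * z - z * X :=
    ⟨(ContinuousLinearMap.mul ℝ 𝔸).flip z - ContinuousLinearMap.mul ℝ 𝔸 z, fun X => by simp⟩
  have hTg : ∀ X ∈ g, T X ∈ g := by
    intro X hX
    rw [hT]
    have := hg X hX z hz
    rwa [Ring.lie_def] at this
  have hpow : ∀ n : ℕ, (T ^ n) y ∈ g := by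
    intro n
    induction n with
    | zero => simpa using hy
    | succ n ih =>
      rw [pow_succ']
      exact hTg _ ih
  have hmem : (exp T) y ∈ g := by
    have h1 := exp_series_hasSum_exp' (𝕂 := ℝ) T
    have h2 : HasSum (fun n : ℕ => ((n.factorial : ℝ)⁻¹ • T ^ n) y) ((exp T) y) := by
      exact h1.mapL (ContinuousLinearMap.apply ℝ 𝔸 y)
    refine (Submodule.closed_of_finiteDimensional g).mem_of_tendsto h2
      (Filter.Eventually.of_forall fun s => ?_)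
    refine g.sum_mem fun n _ => ?_
    rw [_root_.smul_apply]
    exact g.smul_mem _ (hpow n)
  -- `exp(T) y = exp(-z) y exp(z)`
  have hder : ∀ s : ℝ, HasDerivAt
      (fun s : ℝ => exp (s • z) * (exp (s • T)) y * exp (s • (-z))) 0 s := by
    intro s
    have e1 := hasDerivAt_exp_smul_const (𝕂 := ℝ) z s
    have e2 : HasDerivAt (fun s : ℝ => (exp (s • T)) y) (T ((exp (s • T)) y)) s := by
      have := (hasDerivAt_exp_smul_const' (𝕂 := ℝ) T s).clm_apply (hasDerivAt_const s y)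
      simpa using this
    have e3 := hasDerivAt_exp_smul_const' (𝕂 := ℝ) (-z) s
    have e4 := (e1.mul e2).mul e3
    refine e4.congr_deriv ?_
    simp only [Pi.mul_apply]
    rw [hT]
    noncomm_ring
  have hconst := is_const_of_deriv_eq_zero (𝕜 := ℝ)
    (f := fun s : ℝ => exp (s • z) * (exp (s • T)) y * exp (s • (-z)))
    (fun s => (hder s).differentiableAt) (fun s => (hder s).deriv) 1 0
  have hT0 : (0 : ℝ) • T = 0 := zero_smul ℝ T
  have hT1 : (1 : ℝ) • T = T := one_smul ℝ T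
  have hy1 : (exp (0 : 𝔸 →L[ℝ] 𝔸)) y = y := by rw [exp_zero]; rfl
  beta_reduce at hconst
  rw [hT0, hT1, hy1, one_smul, one_smul, zero_smul, zero_smul, exp_zero, one_mul, mul_one]
    at hconst
  have hfin : W y z = (exp T) y := by
    have h5 : exp (-z) * y * exp z
        = exp (-z) * (exp z * (exp T) y * exp (-z)) * exp z := by rw [hconst]
    rw [W, h5]
    calc exp (-z) * (exp z * (exp T) y * exp (-z)) * exp z
        = (exp (-z) * exp z) * (exp T) y * (exp (-z) * exp z) := by noncomm_ring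
      _ = (exp T) y := by rw [exp_neg_mul, one_mul, mul_one]
  rw [hfin]
  exact hmem

theorem Theta_mem {g : Submodule ℝ 𝔸} (hg : ∀ X ∈ g, ∀ Y ∈ g, ⁅X, Y⁆ ∈ g) {x y : 𝔸}
    (hx : x ∈ g) (hy : y ∈ g) : Theta x y ∈ g := by
  by_contra hne
  obtain ⟨f, hf, hker⟩ := Submodule.exists_le_ker_of_notMem hne
  let F : 𝔸 →L[ℝ] ℝ := LinearMap.toContinuousLinearMap f
  have hder : ∀ s : ℝ, HasDerivAt (fun s : ℝ => F (s • Theta (s • x) y)) 0 s := by
    intro s
    have h1 := (F.hasFDerivAt).comp_hasDerivAt s (hasDerivAt_W x y s)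
    have h2 : F (W y (s • x)) = 0 := by
      have := hker (W_mem hg (g.smul_mem s hx) hy)
      simpa [F] using this
    rw [h2] at h1
    exact h1
  have hconst := is_const_of_deriv_eq_zero (𝕜 := ℝ)
    (f := fun s : ℝ => F (s • Theta (s • x) y))
    (fun s => (hder s).differentiableAt) (fun s => (hder s).deriv) 1 0
  simp at hconst
  exact hf (by simpa [F] using hconst)

end T

end Pool.Agent.Helper93.Fin
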