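import Pool.Agent.helper23.HB.Stmts

/-!
# HB-BLK : the blocks of a Brownian motion are independent and identically distributed
-/

open MeasureTheory ProbabilityTheory Set Filter Topology
open scoped ENNReal NNReal

namespace Pool.Agent.helper74.HB

open Pool.Agent.helper23.HB

/-- the path of a continuous function as an element of `Pth` -/
noncomputable def toPth (f : ℝ → ℝ) (hf : Continuous f) : Pth :=
  ⟨fun t => f (max t 0) - f 0, (hf.comp (continuous_id.max continuous_const)).sub continuous_const,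
    fun t ht => by
      change f (max t 0) - f 0 = 0
      rw [max_eq_right ht, sub_self]⟩

theorem toPth_apply (f : ℝ → ℝ) (hf : Continuous f) (t : ℝ) :
    (toPth f hf : ℝ → ℝ) t = f (max t 0) - f 0 := rfl

theorem blk_toPth {h : ℝ} (hh : 0 < h) (f : ℝ → ℝ) (hf : Continuous f) :
    blk h (toPth f hf : ℝ → ℝ) = blk h f := by
  funext k
  have hk : 0 ≤ (k : ℝ) * h := mul_nonneg (Nat.cast_nonneg k) hh.le
  have h1 : ∀ r : ℝ, 0 ≤ r → (toPth f hf : ℝ → ℝ) (k * h + r) - (toPth f hf : ℝ → ℝ) (k * h)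
      = f (k * h + r) - f (k * h) := by
    intro r hr
    rw [toPth_apply, toPth_apply, max_eq_left hk, max_eq_left (add_nonneg hk hr)]
    ring
  unfold blk
  rw [h1 h hh.le]
  congr 1
  apply iSup_congr
  intro r
  rw [h1 r r.2.1]

variable {Ω : Type} [MeasurableSpace Ω] {P : Measure Ω} {X : Ω → ℝ → ℝ}

theorem map_blk_eq (hBL : St_BLAW) {h : ℝ} (hh : 0 < h) [IsProbabilityMeasure P] (hX : BMp P X)
    {Ω' : Type} [MeasurableSpace Ω'] {P' : Measure Ω'} [IsProbabilityMeasure P']
    {X' : Ω' → ℝ → ℝ} (hX' : BMp P' X') :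
    Measure.map (fun ω => blk h (X ω)) P = Measure.map (fun ω => blk h (X' ω)) P' := by
  have key : ∀ {Ω : Type} [MeasurableSpace Ω] {P : Measure Ω} [IsProbabilityMeasure P]
      {X : Ω → ℝ → ℝ} (hX : BMp P X),
      Measurable (fun ω => toPth (X ω) (hX.cont ω)) ∧
      IsPreBrownianReal (fun (t : ℝ≥0) ω => (toPth (X ω) (hX.cont ω) : ℝ → ℝ) (t : ℝ)) P ∧
      Measure.map (fun ω => blk h (X ω)) P =
        (Measure.map (fun ω => toPth (X ω) (hX.cont ω)) P).map
          (fun b : Pth => blk h (b : ℝ → ℝ)) := by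
    intro Ω _ P _ X hX
    have hm : Measurable (fun ω => toPth (X ω) (hX.cont ω)) := by
      apply measurable_to_pth
      intro t
      exact (hX.meas _).sub (hX.meas _)
    refine ⟨hm, ?_, ?_⟩
    · apply hX.bm.congr
      intro t
      have h0 := hX.bm.eval_zero_ae_eq_zero
      filter_upwards [h0] with ω hω
      rw [toPth_apply, max_eq_left (NNReal.coe_nonneg t)]
      have h1 : X ω 0 = 0 := hω
      rw [h1, sub_zero]
    · rw [Measure.map_map (measurable_blk_pth h) hm]
      congr 1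
      funext ω
      exact (blk_toPth hh (X ω) (hX.cont ω)).symm
  obtain ⟨a1, a2, a3⟩ := key hX
  obtain ⟨b1, b2, b3⟩ := key hX'
  rw [a3, b3, hBL Ω Ω' P P' _ _ a1 b1 a2 b2]

theorem shiftBM (hX : BMp P X) {t0 : ℝ} (h0 : 0 ≤ t0) :
    BMp P (fun ω t => X ω (t0 + t) - X ω t0) where
  cont ω := ((hX.cont ω).comp (continuous_const.add continuous_id)).sub continuous_const
  meas _ := (hX.meas _).sub (hX.meas _)
  bm := hX.bm.shift ⟨t0, h0⟩

theorem blk_shift (h t0 : ℝ) (f : ℝ → ℝ) (k j : ℕ) (hj : t0 = j * h) :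
    blk h (fun t => f (t0 + t) - f t0) k = blk h f (j + k) := by
  have h1 : ∀ r : ℝ, t0 + ((k : ℝ) * h + r) = ((j + k : ℕ) : ℝ) * h + r := by
    intro r
    rw [hj]
    push_cast
    ring
  have h2 : t0 + (k : ℝ) * h = ((j + k : ℕ) : ℝ) * h := by
    rw [hj]
    push_cast
    ring
  unfold blk
  simp only [h1, h2, sub_sub_sub_cancel_right]

/-- block supremum along a dense sequence -/
theorem iSup_dense {h : ℝ} [Nonempty (Icc (0 : ℝ) h)] {f : ℝ → ℝ} (hf : Continuous f) (a : ℝ) :
    ⨆ r : Icc (0 : ℝ) h, |f (a + r) - f a| =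
      ⨆ n : ℕ, |f (a + (TopologicalSpace.denseSeq (Icc (0 : ℝ) h) n : Icc (0 : ℝ) h)) - f a| := by
  have hc : Continuous fun r : Icc (0 : ℝ) h => |f (a + r) - f a| :=
    ((hf.comp (continuous_const.add continuous_subtype_val)).sub continuous_const).abs
  exact iSup_eq_iSup_dense hc (isCompact_range hc).bddAbove

/-- first block and all the other blocks are independent -/
theorem indep_first [IsProbabilityMeasure P] (hX : BMp P X) {h : ℝ} (hh : 0 < h) :
    IndepFun (fun ω => blk h (fun t => X ω (h + t) - X ω h)) (fun ω => blk h (X ω) 0) P := by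
  have : Nonempty (Icc (0 : ℝ) h) := ⟨⟨0, le_rfl, hh.le⟩⟩
  have h1 := hX.bm.indepFun_shift ⟨h, hh.le⟩
  -- the functional of the future
  let φ : (ℝ≥0 → ℝ) → ℕ → ℝ × ℝ := fun g k =>
    (g ((k : ℝ≥0) * ⟨h, hh.le⟩ + ⟨h, hh.le⟩) - g ((k : ℝ≥0) * ⟨h, hh.le⟩),
      ⨆ n : ℕ, |g ((k : ℝ≥0) * ⟨h, hh.le⟩ + ⟨(TopologicalSpace.denseSeq (Icc (0 : ℝ) h) n :
        Icc (0 : ℝ) h), (TopologicalSpace.denseSeq (Icc (0 : ℝ) h) n).2.1⟩)
          - g ((k : ℝ≥0) * ⟨h, hh.le⟩)|)
  have hφ : Measurable φ := by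
    refine measurable_pi_lambda _ fun k => ?_
    refine Measurable.prodMk ((measurable_pi_apply _).sub (measurable_pi_apply _)) ?_
    refine Measurable.iSup fun n => ?_
    exact Measurable.abs (Measurable.sub (measurable_pi_apply _) (measurable_pi_apply _))
  -- the functional of the past
  let ψ : (Set.Iic (⟨h, hh.le⟩ : ℝ≥0) → ℝ) → ℝ × ℝ := fun g =>
    (g ⟨⟨h, hh.le⟩, Set.mem_Iic.2 le_rfl⟩ - g ⟨0, Set.mem_Iic.2 zero_le⟩,
      ⨆ n : ℕ, |g ⟨⟨(TopologicalSpace.denseSeq (Icc (0 : ℝ) h) n :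
        Icc (0 : ℝ) h), (TopologicalSpace.denseSeq (Icc (0 : ℝ) h) n).2.1⟩,
          Set.mem_Iic.2 (TopologicalSpace.denseSeq (Icc (0 : ℝ) h) n).2.2⟩ - g ⟨0, Set.mem_Iic.2 zero_le⟩|)
  have hψ : Measurable ψ := by
    refine Measurable.prodMk ((measurable_pi_apply _).sub (measurable_pi_apply _)) ?_
    refine Measurable.iSup fun n => ?_
    exact Measurable.abs (Measurable.sub (measurable_pi_apply _) (measurable_pi_apply _))
  have h2 := h1.comp hφ hψ
  have e1 : (fun ω => blk h (fun t => X ω (h + t) - X ω h)) =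
      φ ∘ (fun ω (t : ℝ≥0) => X ω ((⟨h, hh.le⟩ + t : ℝ≥0) : ℝ) - X ω ((⟨h, hh.le⟩ : ℝ≥0) : ℝ)) := by
    funext ω k
    have hc : Continuous (fun t => X ω (h + t) - X ω h) :=
      ((hX.cont ω).comp (continuous_const.add continuous_id)).sub continuous_const
    unfold blk
    rw [iSup_dense hc]
    rfl
  have e2 : (fun ω => blk h (X ω) 0) =
      ψ ∘ (fun ω (t : Set.Iic (⟨h, hh.le⟩ : ℝ≥0)) => X ω (t.1 : ℝ)) := by
    funext ω
    unfold blk
    rw [iSup_dense (hX.cont ω)]
    simp only [Nat.cast_zero, zero_mul, zero_add]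
    rfl
  rw [e1, e2]
  exact h2

theorem prob_blocks (hBL : St_BLAW) {h : ℝ} (hh : 0 < h) [IsProbabilityMeasure P] (hX : BMp P X)
    (n : ℕ) : ∀ A : ℕ → Set (ℝ × ℝ), (∀ k, MeasurableSet (A k)) →
    P {ω | ∀ k < n, blk h (X ω) k ∈ A k} =
      ∏ k ∈ Finset.range n, P {ω | blk h (X ω) 0 ∈ A k} := by
  induction n with
  | zero =>
    intro A _
    simp
  | succ n ih =>
    intro A hA
    have hY := shiftBM hX hh.le
    have hi := indep_first hX hh
    have hmX : Measurable (fun ω => blk h (X ω)) := measurable_blk h hX.cont hX.meas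
    have hmY : Measurable (fun ω => blk h (fun t => X ω (h + t) - X ω h)) :=
      measurable_blk h hY.cont hY.meas
    have hC : MeasurableSet {x : ℕ → ℝ × ℝ | ∀ k < n, x k ∈ A (k + 1)} := by
      have : {x : ℕ → ℝ × ℝ | ∀ k < n, x k ∈ A (k + 1)} =
          ⋂ k, ⋂ (_ : k < n), (fun x : ℕ → ℝ × ℝ => x k) ⁻¹' A (k + 1) := by
        ext x
        simp
      rw [this]
      exact MeasurableSet.iInter fun k => MeasurableSet.iInter fun _ =>
        measurable_pi_apply k (hA (k + 1))
    have e : {ω | ∀ k < n + 1, blk h (X ω) k ∈ A k} =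
        (fun ω => blk h (fun t => X ω (h + t) - X ω h)) ⁻¹' {x | ∀ k < n, x k ∈ A (k + 1)} ∩
          (fun ω => blk h (X ω) 0) ⁻¹' A 0 := by
      ext ω
      simp only [mem_ofPred_eq, mem_inter_iff, mem_preimage]
      constructor
      · intro hω
        refine ⟨fun k hk => ?_, hω 0 (Nat.succ_pos n)⟩
        rw [blk_shift h h (X ω) k 1 (by simp), show 1 + k = k + 1 from add_comm 1 k]
        exact hω (k + 1) (Nat.succ_lt_succ hk)
      · rintro ⟨h1, h2⟩ k hk
        rcases k with _ | k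
        · exact h2
        · have := h1 k (Nat.lt_of_succ_lt_succ hk)
          rw [blk_shift h h (X ω) k 1 (by simp), show 1 + k = k + 1 from add_comm 1 k] at this
          exact this
    rw [e, hi.measure_inter_preimage_eq_mul _ _ hC (hA 0), Finset.prod_range_succ', mul_comm,
      mul_comm (∏ k ∈ Finset.range n, _)]
    congr 1
    have h3 := map_blk_eq hBL hh hY hX
    have h4 := congrArg (fun μ : Measure (ℕ → ℝ × ℝ) => μ {x | ∀ k < n, x k ∈ A (k + 1)}) h3
    rw [Measure.map_apply hmY hC, Measure.map_apply hmX hC] at h4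
    rw [h4]
    exact ih (fun k => A (k + 1)) fun k => hA (k + 1)

theorem law_blk (hBL : St_BLAW) {h : ℝ} (hh : 0 < h) [IsProbabilityMeasure P] (hX : BMp P X)
    (k : ℕ) : Measure.map (fun ω => blk h (X ω) k) P = Measure.map (fun ω => blk h (X ω) 0) P := by
  have hk : 0 ≤ (k : ℝ) * h := mul_nonneg (Nat.cast_nonneg k) hh.le
  have hY := shiftBM hX hk
  have hmX : Measurable (fun ω => blk h (X ω)) := measurable_blk h hX.cont hX.meas
  have hmY : Measurable (fun ω => blk h (fun t => X ω (k * h + t) - X ω (k * h))) :=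
    measurable_blk h hY.cont hY.meas
  have h3 := map_blk_eq hBL hh hY hX
  have h4 := congrArg (fun μ : Measure (ℕ → ℝ × ℝ) => μ.map (fun x => x 0)) h3
  rw [Measure.map_map (measurable_pi_apply 0) hmY, Measure.map_map (measurable_pi_apply 0) hmX] at h4
  have e : (fun ω => blk h (X ω) k) =
      (fun x : ℕ → ℝ × ℝ => x 0) ∘ (fun ω => blk h (fun t => X ω (k * h + t) - X ω (k * h))) := by
    funext ω
    rw [Function.comp_apply, blk_shift h (k * h) (X ω) 0 k rfl, add_zero]
  rw [e, h4]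
  rfl

theorem mBLK (hBL : St_BLAW) : St_BLK := by
  intro Ω _ P _ X hX h hh
  have hmX : Measurable (fun ω => blk h (X ω)) := measurable_blk h hX.cont hX.meas
  have hmk : ∀ k, Measurable (fun ω => blk h (X ω) k) := fun k =>
    (measurable_pi_apply k).comp hmX
  refine ⟨?_, law_blk hBL hh hX, ?_⟩
  · rw [iIndepFun_iff_measure_inter_preimage_eq_mul]
    classical
    intro S sets hS
    obtain ⟨n, hn⟩ : ∃ n, ∀ i ∈ S, i < n := ⟨S.sup id + 1, fun i hi =>
      Nat.lt_succ_of_le (Finset.le_sup (f := id) hi)⟩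
    have hmeas : ∀ k, MeasurableSet (if k ∈ S then sets k else univ) := by
      intro k
      split_ifs with hk
      · exact hS k hk
      · exact MeasurableSet.univ
    have h1 := prob_blocks hBL hh hX n (fun k => if k ∈ S then sets k else univ) hmeas
    have e1 : {ω | ∀ k < n, blk h (X ω) k ∈ if k ∈ S then sets k else univ} =
        ⋂ i ∈ S, (fun ω => blk h (X ω) i) ⁻¹' sets i := by
      ext ω
      simp only [mem_ofPred_eq, mem_iInter, mem_preimage]
      constructor
      · intro hω i hi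
        have := hω i (hn i hi)
        rw [if_pos hi] at this
        exact this
      · intro hω k _
        split_ifs with hk
        · exact hω k hk
        · exact mem_univ _
    rw [← e1, h1]
    have e2 : ∏ i ∈ S, P ((fun ω => blk h (X ω) i) ⁻¹' sets i) =
        ∏ i ∈ S, P {ω | blk h (X ω) 0 ∈ if i ∈ S then sets i else univ} := by
      apply Finset.prod_congr rfl
      intro i hi
      rw [if_pos hi]
      have h2 := congrArg (fun μ : Measure (ℝ × ℝ) => μ (sets i)) (law_blk hBL hh hX i)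
      rw [Measure.map_apply (hmk i) (hS i hi), Measure.map_apply (hmk 0) (hS i hi)] at h2
      exact h2
    rw [e2]
    symm
    apply Finset.prod_subset
    · intro i hi
      exact Finset.mem_range.2 (hn i hi)
    · intro i _ hi
      rw [if_neg hi]
      simp
  · intro Ω' _ P' _ X' hX'
    exact map_blk_eq hBL hh hX hX'

end Pool.Agent.helper74.HB
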