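import Pool.Agent.helper74.ForSym

/-!
# Countable generic models
-/

namespace Pool.Agent.helper74.Forc

open Pool.Agent.helper31.ZF

/-! ### formulas are countable -/

/-- A code of a formula. -/
def code : {n : ℕ} → Fml n → List ℕ
  | _, .mem i j => [0, i.val, j.val]
  | _, .eq i j => [1, i.val, j.val]
  | _, .neg φ => 2 :: code φ
  | _, .and φ ψ => 3 :: (code φ ++ code ψ)
  | _, .all φ => 4 :: code φ

theorem code_inj {n : ℕ} (φ : Fml n) : ∀ (ψ : Fml n) (l l' : List ℕ),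
    code φ ++ l = code ψ ++ l' → φ = ψ ∧ l = l' := by
  induction φ with
  | mem i j =>
    intro ψ l l' h
    cases ψ <;> simp [code] at h
    obtain ⟨h1, h2, h3⟩ := h
    exact ⟨by rw [Fin.ext h1, Fin.ext h2], h3⟩
  | eq i j =>
    intro ψ l l' h
    cases ψ <;> simp [code] at h
    obtain ⟨h1, h2, h3⟩ := h
    exact ⟨by rw [Fin.ext h1, Fin.ext h2], h3⟩
  | neg φ ih =>
    intro ψ l l' h
    cases ψ <;> simp [code] at h
    obtain ⟨h1, h2⟩ := ih _ _ _ h
    exact ⟨by rw [h1], h2⟩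
  | and φ ψ ih1 ih2 =>
    intro χ l l' h
    cases χ <;> simp [code] at h
    obtain ⟨h1, h2⟩ := ih1 _ _ _ h
    obtain ⟨h3, h4⟩ := ih2 _ _ _ h2
    exact ⟨by rw [h1, h3], h4⟩
  | all φ ih =>
    intro ψ l l' h
    cases ψ <;> simp [code] at h
    obtain ⟨h1, h2⟩ := ih _ _ _ h
    exact ⟨by rw [h1], h2⟩

instance instCountableFml (n : ℕ) : Countable (Fml n) := by
  refine Function.Injective.countable (f := code (n := n)) fun φ ψ h => ?_
  exact (code_inj φ ψ [] [] (by simpa using h)).1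

section gen

variable {G P : Type} [Group G] [Preorder P] [MulAction G P] [SymSys G P]

theorem exists_generic {ι : Type*} [Countable ι] (D : ι → P → Prop)
    (hD : ∀ i p, ∃ q ≤ p, D i q) (p0 : P) :
    ∃ g : ℕ → P, Antitone g ∧ g 0 ≤ p0 ∧ ∀ i, ∃ n, D i (g n) := by
  classical
  by_cases hne : Nonempty ι
  · obtain ⟨e, he⟩ := exists_surjective_nat ι
    let g : ℕ → P := fun n => Nat.rec p0 (fun k q => (hD (e k) q).choose) n
    have hg : ∀ n, g (n + 1) = (hD (e n) (g n)).choose := fun n => rfl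
    refine ⟨g, antitone_nat_of_succ_le fun n => ?_, le_rfl, fun i => ?_⟩
    · rw [hg]
      exact (hD (e n) (g n)).choose_spec.1
    · obtain ⟨n, rfl⟩ := he i
      refine ⟨n + 1, ?_⟩
      rw [hg]
      exact (hD (e n) (g n)).choose_spec.2
  · exact ⟨fun _ => p0, fun _ _ _ => le_rfl, le_rfl, fun i => absurd ⟨i⟩ hne⟩

variable (G P) in
/-- The empty name. -/
def em : HN G P := ⟨.mk PEmpty (fun i => i.elim) (fun i => i.elim),
  HS.intro ⟨⊤, SymSys.big_top, fun g _ p => feq_of_el (fun i => i.elim) (fun i => i.elim)⟩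
    (fun i => i.elim)⟩

open Classical in
/-- A witness for a negated universal formula. -/
noncomputable def wit {n : ℕ} (φ : Fml (n + 1)) (v : Fin n → HN G P) (p : P) : HN G P :=
  if h : ∃ x, F (.neg φ) (push v x) p then h.choose else em G P

open Classical in
/-- A witness for membership. -/
noncomputable def witEl (x y : HN G P) (p : P) : HN G P :=
  if h : ∃ i, Dw y.1.wt i p ∧ feq x.1 (y.1.el i) p then y.el h.choose else em G P

/-- One closure step. -/
def step (H : Set (HN G P)) : Set (HN G P) :=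
  H ∪ (⋃ n : ℕ, Set.range fun s : Fml (n + 1) × P × (Fin n → H) =>
    wit s.1 (fun i => (s.2.2 i).1) s.2.1) ∪ Set.range fun s : H × H × P =>
    witEl s.1.1 s.2.1.1 s.2.2

theorem step_countable [Countable P] {H : Set (HN G P)} (h : H.Countable) : (step H).Countable := by
  have : Countable H := h
  refine (h.union (Set.countable_iUnion fun n => Set.countable_range _)).union
    (Set.countable_range _)

/-- A countable set of names closed under witnesses. -/
theorem exists_closed [Countable P] (H0 : Set (HN G P)) (h0 : H0.Countable) :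
    ∃ H : Set (HN G P), H.Countable ∧ H0 ⊆ H ∧
      (∀ (n : ℕ) (φ : Fml (n + 1)) (v : Fin n → HN G P) (p : P), (∀ i, v i ∈ H) →
        wit φ v p ∈ H) ∧ ∀ x ∈ H, ∀ y ∈ H, ∀ p, witEl x y p ∈ H := by
  let S : ℕ → Set (HN G P) := fun k => Nat.rec H0 (fun _ H => step H) k
  have hS : ∀ k, S (k + 1) = step (S k) := fun k => rfl
  have hc : ∀ k, (S k).Countable := by
    intro k
    induction k with
    | zero => exact h0
    | succ k ih =>
      rw [hS]
      exact step_countable ih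
  have hmono : Monotone S := monotone_nat_of_le_succ fun k => by
    rw [hS]
    exact fun x hx => Or.inl (Or.inl hx)
  refine ⟨⋃ k, S k, Set.countable_iUnion hc, Set.subset_iUnion S 0, ?_, ?_⟩
  · intro n φ v p hv
    have h1 : ∀ i, ∃ k, v i ∈ S k := fun i => Set.mem_iUnion.1 (hv i)
    choose f hf using h1
    let k := Finset.univ.sup f
    have hk : ∀ i, v i ∈ S k := fun i => hmono (Finset.le_sup (Finset.mem_univ i)) (hf i)
    refine Set.mem_iUnion.2 ⟨k + 1, ?_⟩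
    rw [hS]
    refine Or.inl (Or.inr (Set.mem_iUnion.2 ⟨n, ⟨(φ, p, fun i => ⟨v i, hk i⟩), rfl⟩⟩))
  · intro x hx y hy p
    obtain ⟨k, hk⟩ := Set.mem_iUnion.1 hx
    obtain ⟨l, hl⟩ := Set.mem_iUnion.1 hy
    refine Set.mem_iUnion.2 ⟨max k l + 1, ?_⟩
    rw [hS]
    exact Or.inr ⟨(⟨x, hmono (le_max_left _ _) hk⟩, ⟨y, hmono (le_max_right _ _) hl⟩, p), rfl⟩

theorem push_mem {n : ℕ} {H : Set (HN G P)} {v : Fin n → HN G P} {x : HN G P}
    (hv : ∀ i, v i ∈ H) (hx : x ∈ H) (i : Fin (n + 1)) : push v x i ∈ H := by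
  rcases Fin.eq_castSucc_or_eq_last i with ⟨j, rfl⟩ | rfl
  · rw [push_castSucc]
    exact hv j
  · rw [push_last]
    exact hx

theorem push_comp {α β : Type*} {n : ℕ} (h : α → β) (v : Fin n → α) (a : α) :
    (fun i => h (push v a i)) = push (fun i => h (v i)) (h a) := by
  funext i
  rcases Fin.eq_castSucc_or_eq_last i with ⟨j, rfl⟩ | rfl
  · rw [push_castSucc, push_castSucc]
  · rw [push_last, push_last]

variable (G P) in
/-- Generic data: an enumerated countable set of names and a generic sequence of conditions. -/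
structure Gen where
  /-- the names -/
  h : ℕ → HN G P
  /-- the conditions -/
  g : ℕ → P
  anti : Antitone g
  t1 : ∀ {n : ℕ} (φ : Fml n) (v : Fin n → ℕ), (∃ k, F φ (fun i => h (v i)) (g k)) ∨
    ∃ k, F (.neg φ) (fun i => h (v i)) (g k)
  t3 : ∀ {n : ℕ} (φ : Fml (n + 1)) (v : Fin n → ℕ), (∃ k, F (.all φ) (fun i => h (v i)) (g k)) ∨
    ∃ a k, F (.neg φ) (fun i => h (push v a i)) (g k)
  t4 : ∀ a b, (∃ k, fmem (h a).1 (h b).1 (g k)) → ∃ (i : (h b).1.ix) (c : ℕ),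
    h c = (h b).el i ∧ ∃ k, Dw (h b).1.wt i (g k) ∧ feq (h a).1 (h c).1 (g k)

theorem exists_gen [Countable P] (H0 : Set (HN G P)) (h0 : H0.Countable) (p0 : P) :
    ∃ Γ : Gen G P, (∀ x ∈ H0, ∃ a, Γ.h a = x) ∧ Γ.g 0 ≤ p0 := by
  classical
  obtain ⟨H, hHc, hH0, hw, hwe⟩ := exists_closed (insert (em G P) H0) (h0.insert _)
  have hcH : Countable H := hHc
  have hne : H.Nonempty := ⟨em G P, hH0 (Set.mem_insert _ _)⟩
  obtain ⟨h, hh⟩ := hHc.exists_eq_range hne
  have hhm : ∀ a, h a ∈ H := fun a => by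
    rw [hh]
    exact ⟨a, rfl⟩
  have hsur : ∀ x ∈ H, ∃ a, h a = x := fun x hx => by
    rw [hh] at hx
    exact hx
  -- the dense sets
  let D : ((Σ n : ℕ, Fml n × (Fin n → ℕ)) ⊕ ((Σ n : ℕ, Fml (n + 1) × (Fin n → ℕ)) ⊕ (ℕ × ℕ))) →
      P → Prop
    | .inl s, p => F s.2.1 (fun i => h (s.2.2 i)) p ∨ F (.neg s.2.1) (fun i => h (s.2.2 i)) p
    | .inr (.inl s), p => F (.all s.2.1) (fun i => h (s.2.2 i)) p ∨
        ∃ x, F (.neg s.2.1) (push (fun i => h (s.2.2 i)) x) p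
    | .inr (.inr s), p => (∀ q ≤ p, ¬ fmem (h s.1).1 (h s.2).1 q) ∨
        ∃ i, Dw (h s.2).1.wt i p ∧ feq (h s.1).1 ((h s.2).1.el i) p
  have hD : ∀ i p, ∃ q ≤ p, D i q := by
    rintro (⟨n, φ, v⟩ | ⟨n, φ, v⟩ | ⟨a, b⟩) p
    · by_cases hq : ∃ q ≤ p, F φ (fun i => h (v i)) q
      · obtain ⟨q, hq, hF⟩ := hq
        exact ⟨q, hq, Or.inl hF⟩
      · push Not at hq
        exact ⟨p, le_rfl, Or.inr hq⟩
    · by_cases hq : F (.all φ) (fun i => h (v i)) p
      · exact ⟨p, le_rfl, Or.inl hq⟩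
      · rw [F_all] at hq
        push Not at hq
        obtain ⟨x, hx⟩ := hq
        have hx' : ∃ q ≤ p, F (.neg φ) (push (fun i => h (v i)) x) q := by
          by_contra hcon
          push Not at hcon
          exact hx (F_of_not_neg hcon)
        obtain ⟨q, hq, hF⟩ := hx'
        exact ⟨q, hq, Or.inr ⟨x, hF⟩⟩
    · by_cases hq : ∃ q ≤ p, fmem (h a).1 (h b).1 q
      · obtain ⟨q, hq, hF⟩ := hq
        obtain ⟨r, hr, i, hi⟩ := hF q le_rfl
        exact ⟨r, hr.trans hq, Or.inr ⟨i, hi⟩⟩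
      · push Not at hq
        exact ⟨p, le_rfl, Or.inl hq⟩
  obtain ⟨g, hg, hg0, hgD⟩ := exists_generic D hD p0
  refine ⟨⟨h, g, hg, ?_, ?_, ?_⟩, fun x hx => hsur x (hH0 (Set.mem_insert_of_mem _ hx)), hg0⟩
  · intro n φ v
    obtain ⟨k, hk | hk⟩ := hgD (.inl ⟨n, φ, v⟩)
    · exact Or.inl ⟨k, hk⟩
    · exact Or.inr ⟨k, hk⟩
  · intro n φ v
    obtain ⟨k, hk | hk⟩ := hgD (.inr (.inl ⟨n, φ, v⟩))
    · exact Or.inl ⟨k, hk⟩
    · right
      have hk' : ∃ x, F (.neg φ) (push (fun i => h (v i)) x) (g k) := hk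
      have h1 : F (.neg φ) (push (fun i => h (v i)) (wit φ (fun i => h (v i)) (g k))) (g k) := by
        unfold wit
        rw [dif_pos hk']
        exact hk'.choose_spec
      obtain ⟨a, ha⟩ := hsur _ (hw n φ (fun i => h (v i)) (g k) fun i => hhm _)
      refine ⟨a, k, ?_⟩
      rw [push_comp, ha]
      exact h1
  · rintro a b ⟨m, hm⟩
    obtain ⟨k, hk | hk⟩ := hgD (.inr (.inr (a, b)))
    · exfalso
      exact hk (g (max k m)) (hg (le_max_left _ _)) (hm.mono (hg (le_max_right _ _)))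
    · have hk' : ∃ i, Dw (h b).1.wt i (g k) ∧ feq (h a).1 ((h b).1.el i) (g k) := hk
      obtain ⟨c, hc⟩ := hsur _ (hwe _ (hhm a) _ (hhm b) (g k))
      have h1 : witEl (h a) (h b) (g k) = (h b).el hk'.choose := by
        unfold witEl
        rw [dif_pos hk']
      rw [h1] at hc
      refine ⟨hk'.choose, c, hc, k, hk'.choose_spec.1, ?_⟩
      rw [hc]
      exact hk'.choose_spec.2

/-! ### the model -/

namespace Gen

variable (Γ : Gen G P)

/-- Truth. -/
def T {n : ℕ} (φ : Fml n) (v : Fin n → ℕ) : Prop := ∃ k, F φ (fun i => Γ.h (v i)) (Γ.g k)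

theorem T_neg {n : ℕ} (φ : Fml n) (v : Fin n → ℕ) : Γ.T (.neg φ) v ↔ ¬ Γ.T φ v := by
  constructor
  · rintro ⟨k, hk⟩ ⟨m, hm⟩
    exact hk (Γ.g (max k m)) (Γ.anti (le_max_left _ _)) (F_mono hm (Γ.anti (le_max_right _ _)))
  · intro h
    rcases Γ.t1 φ v with h1 | h1
    · exact absurd h1 h
    · exact h1

theorem T_and {n : ℕ} (φ ψ : Fml n) (v : Fin n → ℕ) :
    Γ.T (.and φ ψ) v ↔ Γ.T φ v ∧ Γ.T ψ v := by
  constructor
  · rintro ⟨k, h1, h2⟩
    exact ⟨⟨k, h1⟩, ⟨k, h2⟩⟩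
  · rintro ⟨⟨k, h1⟩, ⟨m, h2⟩⟩
    exact ⟨max k m, F_mono h1 (Γ.anti (le_max_left _ _)), F_mono h2 (Γ.anti (le_max_right _ _))⟩

theorem T_all {n : ℕ} (φ : Fml (n + 1)) (v : Fin n → ℕ) :
    Γ.T (.all φ) v ↔ ∀ a, Γ.T φ (push v a) := by
  constructor
  · rintro ⟨k, h⟩ a
    refine ⟨k, ?_⟩
    rw [push_comp]
    exact h _
  · intro h
    rcases Γ.t3 φ v with h1 | ⟨a, k, h1⟩
    · exact h1
    · have h2 : Γ.T (.neg φ) (push v a) := ⟨k, h1⟩
      rw [T_neg] at h2
      exact absurd (h a) h2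

/-- Equality of names. -/
def setoid : Setoid ℕ where
  r a b := ∃ k, feq (Γ.h a).1 (Γ.h b).1 (Γ.g k)
  iseqv := by
    refine ⟨fun a => ⟨0, feq.refl _ _⟩, fun ⟨k, h⟩ => ⟨k, h.symm⟩, fun ⟨k, h⟩ ⟨m, h'⟩ =>
      ⟨max k m, ?_⟩⟩
    exact (h.mono (Γ.anti (le_max_left _ _))).trans (h'.mono (Γ.anti (le_max_right _ _)))

/-- The model. -/
def Mod : Type := Quotient Γ.setoid

/-- Classes of names. -/
def cl (a : ℕ) : Γ.Mod := Quotient.mk Γ.setoid a

theorem cl_eq {a b : ℕ} : Γ.cl a = Γ.cl b ↔ ∃ k, feq (Γ.h a).1 (Γ.h b).1 (Γ.g k) :=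
  Quotient.eq (r := Γ.setoid)

theorem exists_cl (m : Γ.Mod) : ∃ a, Γ.cl a = m := Quotient.exists_rep m

/-- The membership relation of the model. -/
def E (x y : Γ.Mod) : Prop :=
  Quotient.liftOn₂ x y (fun a b => ∃ k, fmem (Γ.h a).1 (Γ.h b).1 (Γ.g k)) (by
    rintro a b a' b' ⟨k, h⟩ ⟨m, h'⟩
    apply propext
    constructor
    · rintro ⟨l, h2⟩
      refine ⟨max l (max k m), ?_⟩
      refine ((h2.mono (Γ.anti (le_max_left _ _))).congr_left (h.mono (Γ.anti ?_))).congr_right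
        (h'.mono (Γ.anti ?_))
      · exact (le_max_left _ _).trans (le_max_right _ _)
      · exact (le_max_right _ _).trans (le_max_right _ _)
    · rintro ⟨l, h2⟩
      refine ⟨max l (max k m), ?_⟩
      refine ((h2.mono (Γ.anti (le_max_left _ _))).congr_left (h.symm.mono (Γ.anti ?_))).congr_right
        (h'.symm.mono (Γ.anti ?_))
      · exact (le_max_left _ _).trans (le_max_right _ _)
      · exact (le_max_right _ _).trans (le_max_right _ _))

theorem E_cl {a b : ℕ} : Γ.E (Γ.cl a) (Γ.cl b) ↔ ∃ k, fmem (Γ.h a).1 (Γ.h b).1 (Γ.g k) := Iff.rfl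

theorem truth {n : ℕ} (φ : Fml n) : ∀ v : Fin n → ℕ,
    Sat Γ.E φ (fun i => Γ.cl (v i)) ↔ Γ.T φ v := by
  induction φ with
  | mem i j => exact fun v => Γ.E_cl
  | eq i j => exact fun v => Γ.cl_eq
  | neg φ ih =>
    intro v
    rw [T_neg, ← ih]
    rfl
  | and φ ψ ih1 ih2 =>
    intro v
    rw [T_and, ← ih1, ← ih2]
    rfl
  | all φ ih =>
    intro v
    rw [T_all]
    constructor
    · intro h a
      rw [← ih, push_comp]
      exact h (Γ.cl a)
    · intro h x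
      obtain ⟨a, rfl⟩ := Γ.exists_cl x
      have := (ih (push v a)).2 (h a)
      rw [push_comp] at this
      exact this

theorem exists_rep {n : ℕ} (v : Fin n → Γ.Mod) : ∃ w : Fin n → ℕ, (fun i => Γ.cl (w i)) = v := by
  choose w hw using fun i => Γ.exists_cl (v i)
  exact ⟨w, funext hw⟩

/-- A formula that is forced by every condition for all names holds in the model. -/
theorem sat_of_forced {n : ℕ} {φ : Fml n} (h : ∀ (v : Fin n → HN G P) (p : P), F φ v p)
    (v : Fin n → Γ.Mod) : Sat Γ.E φ v := by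
  obtain ⟨w, rfl⟩ := Γ.exists_rep v
  exact (Γ.truth φ w).2 ⟨0, h _ _⟩

end Gen

end gen

end Pool.Agent.helper74.Forc
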