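import Pool.Agent.helper31.ZFStmt

/-!
# Names and forcing of atomic statements
-/

namespace Pool.Agent.helper74.Forc

/-- Names for a preordered set `P`. -/
inductive Nm (P : Type) : Type 1
  | mk (ι : Type) (A : ι → Nm P) (W : ι → P → Prop) : Nm P

namespace Nm

variable {P : Type}

/-- The index type of a name. -/
def ix : Nm P → Type
  | mk ι _ _ => ι

/-- The elements of a name. -/
def el : (x : Nm P) → x.ix → Nm P
  | mk _ A _ => A

/-- The weights of a name. -/
def wt : (x : Nm P) → x.ix → P → Prop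
  | mk _ _ W => W

end Nm

section order

variable {P : Type} [Preorder P]

/-- Downward closure of the weights. -/
def Dw {ι : Type} (W : ι → P → Prop) (i : ι) (p : P) : Prop := ∃ s, p ≤ s ∧ W i s

theorem Dw.mono {ι : Type} {W : ι → P → Prop} {i : ι} {p q : P} (h : Dw W i p) (hq : q ≤ p) :
    Dw W i q := by
  obtain ⟨s, hs, h⟩ := h
  exact ⟨s, hq.trans hs, h⟩

/-- `feq x y p`: the condition `p` forces `x = y`. -/
def feq : Nm P → Nm P → P → Prop
  | .mk _ A W, .mk _ B V => fun p =>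
    (∀ i, ∀ q ≤ p, Dw W i q → ∃ r ≤ q, ∃ j, Dw V j r ∧ feq (A i) (B j) r) ∧
    (∀ j, ∀ q ≤ p, Dw V j q → ∃ r ≤ q, ∃ i, Dw W i r ∧ feq (A i) (B j) r)

theorem feq_def (x y : Nm P) (p : P) : feq x y p ↔
    (∀ i, ∀ q ≤ p, Dw x.wt i q → ∃ r ≤ q, ∃ j, Dw y.wt j r ∧ feq (x.el i) (y.el j) r) ∧
    (∀ j, ∀ q ≤ p, Dw y.wt j q → ∃ r ≤ q, ∃ i, Dw x.wt i r ∧ feq (x.el i) (y.el j) r) := by
  cases x
  cases y
  exact Iff.rfl

/-- `fmem x y p`: the condition `p` forces `x ∈ y`. -/
def fmem (x y : Nm P) (p : P) : Prop :=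
  ∀ q ≤ p, ∃ r ≤ q, ∃ i, Dw y.wt i r ∧ feq x (y.el i) r

theorem feq.mono {x y : Nm P} {p q : P} (h : feq x y p) (hq : q ≤ p) : feq x y q := by
  rw [feq_def] at h ⊢
  exact ⟨fun i r hr => h.1 i r (hr.trans hq), fun j r hr => h.2 j r (hr.trans hq)⟩

theorem feq.dense {x y : Nm P} {p : P} (h : ∀ q ≤ p, ∃ r ≤ q, feq x y r) : feq x y p := by
  rw [feq_def]
  refine ⟨fun i q hq hW => ?_, fun j q hq hW => ?_⟩
  · obtain ⟨r, hr, h1⟩ := h q hq
    rw [feq_def] at h1
    obtain ⟨s, hs, h2⟩ := h1.1 i r le_rfl (hW.mono hr)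
    exact ⟨s, hs.trans hr, h2⟩
  · obtain ⟨r, hr, h1⟩ := h q hq
    rw [feq_def] at h1
    obtain ⟨s, hs, h2⟩ := h1.2 j r le_rfl (hW.mono hr)
    exact ⟨s, hs.trans hr, h2⟩

theorem feq.refl (x : Nm P) (p : P) : feq x x p := by
  induction x generalizing p with
  | mk ι A W ih =>
    exact ⟨fun i q _ hW => ⟨q, le_rfl, i, hW, ih i q⟩, fun i q _ hW => ⟨q, le_rfl, i, hW, ih i q⟩⟩

theorem feq.symm {x y : Nm P} {p : P} (h : feq x y p) : feq y x p := by
  induction x generalizing y p with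
  | mk ι A W ih =>
    rw [feq_def] at h ⊢
    refine ⟨fun i q hq hW => ?_, fun j q hq hW => ?_⟩
    · obtain ⟨r, hr, j, hj, h1⟩ := h.2 i q hq hW
      exact ⟨r, hr, j, hj, ih j h1⟩
    · obtain ⟨r, hr, i, hi, h1⟩ := h.1 j q hq hW
      exact ⟨r, hr, i, hi, ih j h1⟩

theorem feq.trans {x y z : Nm P} {p : P} (h : feq x y p) (h' : feq y z p) : feq x z p := by
  induction x generalizing y z p with
  | mk ι A W ih =>
    rw [feq_def] at h h' ⊢
    refine ⟨fun i q hq hW => ?_, fun j q hq hW => ?_⟩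
    · obtain ⟨r, hr, j, hj, h1⟩ := h.1 i q hq hW
      obtain ⟨s, hs, k, hk, h2⟩ := h'.1 j r (hr.trans hq) hj
      exact ⟨s, hs.trans hr, k, hk, ih i (h1.mono hs) h2⟩
    · obtain ⟨r, hr, k, hk, h1⟩ := h'.2 j q hq hW
      obtain ⟨s, hs, i, hi, h2⟩ := h.2 k r (hr.trans hq) hk
      exact ⟨s, hs.trans hr, i, hi, ih i h2 (h1.mono hs)⟩

theorem fmem.mono {x y : Nm P} {p q : P} (h : fmem x y p) (hq : q ≤ p) : fmem x y q :=
  fun r hr => h r (hr.trans hq)

theorem fmem.dense {x y : Nm P} {p : P} (h : ∀ q ≤ p, ∃ r ≤ q, fmem x y r) : fmem x y p := by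
  intro q hq
  obtain ⟨r, hr, h1⟩ := h q hq
  obtain ⟨s, hs, h2⟩ := h1 r le_rfl
  exact ⟨s, hs.trans hr, h2⟩

theorem fmem_el (x : Nm P) {i : x.ix} {p : P} (h : Dw x.wt i p) : fmem (x.el i) x p :=
  fun q hq => ⟨q, le_rfl, i, h.mono hq, feq.refl _ _⟩

theorem fmem.congr_left {x x' y : Nm P} {p : P} (h : fmem x y p) (e : feq x x' p) :
    fmem x' y p := by
  intro q hq
  obtain ⟨r, hr, i, hi, h1⟩ := h q hq
  exact ⟨r, hr, i, hi, ((e.mono (hr.trans hq)).symm).trans h1⟩

theorem fmem.congr_right {x y y' : Nm P} {p : P} (h : fmem x y p) (e : feq y y' p) :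
    fmem x y' p := by
  intro q hq
  obtain ⟨r, hr, i, hi, h1⟩ := h q hq
  rw [feq_def] at e
  obtain ⟨s, hs, j, hj, h2⟩ := e.1 i r (hr.trans hq) hi
  exact ⟨s, hs.trans hr, j, hj, (h1.mono hs).trans h2⟩

theorem feq_of_el {x y : Nm P} {p : P}
    (h : ∀ i, ∀ q ≤ p, Dw x.wt i q → fmem (x.el i) y q)
    (h' : ∀ j, ∀ q ≤ p, Dw y.wt j q → fmem (y.el j) x q) : feq x y p := by
  rw [feq_def]
  refine ⟨fun i q hq hW => ?_, fun j q hq hW => ?_⟩
  · obtain ⟨r, hr, j, hj, h1⟩ := h i q hq hW q le_rfl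
    exact ⟨r, hr, j, hj, h1⟩
  · obtain ⟨r, hr, i, hi, h1⟩ := h' j q hq hW q le_rfl
    exact ⟨r, hr, i, hi, h1.symm⟩

theorem not_fmem_self (x : Nm P) (p : P) : ¬ fmem x x p := by
  induction x generalizing p with
  | mk ι A W ih =>
    intro h
    obtain ⟨r, _, i, hi, h1⟩ := h p le_rfl
    have h2 : fmem (A i) (.mk ι A W) r := fmem_el (.mk ι A W) hi
    exact ih i r (h2.congr_right h1)

/-- The names that are elements of a given name. -/
def Sub (x y : Nm P) : Prop := ∃ i : y.ix, y.el i = x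

omit [Preorder P] in
theorem sub_wf : WellFounded (Sub (P := P)) := by
  refine ⟨fun x => ?_⟩
  induction x with
  | mk ι A W ih =>
    refine ⟨_, fun y hy => ?_⟩
    obtain ⟨i, rfl⟩ := hy
    exact ih i

end order

/-! ### the group action -/

section act

variable {P : Type} {G : Type} [Group G] [MulAction G P]

/-- The action of the group on names. -/
def act (g : G) : Nm P → Nm P
  | .mk ι A W => .mk ι (fun i => act g (A i)) (fun i p => W i (g⁻¹ • p))

theorem act_mk (g : G) (ι : Type) (A : ι → Nm P) (W : ι → P → Prop) :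
    act g (.mk ι A W) = .mk ι (fun i => act g (A i)) (fun i p => W i (g⁻¹ • p)) := rfl

theorem act_one (x : Nm P) : act (1 : G) x = x := by
  induction x with
  | mk ι A W ih =>
    rw [act_mk]
    congr 1
    · funext i
      exact ih i
    · funext i p
      simp

theorem act_mul (g h : G) (x : Nm P) : act (g * h) x = act g (act h x) := by
  induction x with
  | mk ι A W ih =>
    rw [act_mk, act_mk, act_mk]
    congr 1
    · funext i
      exact ih i
    · funext i p
      rw [mul_inv_rev, mul_smul]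

theorem act_inv_act (g : G) (x : Nm P) : act g⁻¹ (act g x) = x := by
  rw [← act_mul, inv_mul_cancel, act_one]

theorem act_act_inv (g : G) (x : Nm P) : act g (act g⁻¹ x) = x := by
  rw [← act_mul, mul_inv_cancel, act_one]

variable [Preorder P]

/-- The group acts by automorphisms of the preorder. -/
class OrdAct (G P : Type) [Group G] [Preorder P] [MulAction G P] : Prop where
  le : ∀ (g : G) (p q : P), p ≤ q → g • p ≤ g • q

variable [OrdAct G P]

theorem smul_le_iff (g : G) {p q : P} : g • p ≤ g • q ↔ p ≤ q := by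
  constructor
  · intro h
    have := OrdAct.le g⁻¹ _ _ h
    simpa using this
  · exact OrdAct.le g p q

theorem le_smul_iff (g : G) {p q : P} : p ≤ g • q ↔ g⁻¹ • p ≤ q := by
  rw [← smul_le_iff g (p := g⁻¹ • p)]
  simp

theorem smul_le_iff' (g : G) {p q : P} : g • p ≤ q ↔ p ≤ g⁻¹ • q := by
  rw [← smul_le_iff g (q := g⁻¹ • q)]
  simp

theorem dw_act {ι : Type} (g : G) (W : ι → P → Prop) (i : ι) (p : P) :
    Dw (fun i p => W i (g⁻¹ • p)) i p ↔ Dw W i (g⁻¹ • p) := by
  constructor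
  · rintro ⟨s, hs, h⟩
    exact ⟨g⁻¹ • s, OrdAct.le _ _ _ hs, h⟩
  · rintro ⟨s, hs, h⟩
    refine ⟨g • s, ?_, ?_⟩
    · rw [le_smul_iff]
      exact hs
    · simpa using h

theorem feq_act_aux (g : G) {x y : Nm P} {p : P} (h : feq x y p) :
    feq (act g x) (act g y) (g • p) := by
  induction x generalizing y p with
  | mk ι A W ih =>
    cases y with
    | mk κ B V =>
      rw [act_mk, act_mk]
      refine ⟨fun i q hq hW => ?_, fun j q hq hW => ?_⟩
      · rw [dw_act] at hW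
        obtain ⟨r, hr, j, hj, h1⟩ := h.1 i (g⁻¹ • q) (by rwa [← le_smul_iff]) hW
        refine ⟨g • r, by rwa [smul_le_iff'], j, ?_, ih i h1⟩
        rw [dw_act]
        simpa using hj
      · rw [dw_act] at hW
        obtain ⟨r, hr, i, hi, h1⟩ := h.2 j (g⁻¹ • q) (by rwa [← le_smul_iff]) hW
        refine ⟨g • r, by rwa [smul_le_iff'], i, ?_, ih i h1⟩
        rw [dw_act]
        simpa using hi

theorem feq_act (g : G) {x y : Nm P} {p : P} : feq (act g x) (act g y) (g • p) ↔ feq x y p := by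
  refine ⟨fun h => ?_, feq_act_aux g⟩
  have := feq_act_aux g⁻¹ h
  rwa [act_inv_act, act_inv_act, inv_smul_smul] at this

theorem fmem_act_aux (g : G) {x y : Nm P} {p : P} (h : fmem x y p) :
    fmem (act g x) (act g y) (g • p) := by
  cases y with
  | mk κ B V =>
    intro q hq
    obtain ⟨r, hr, i, hi, h1⟩ := h (g⁻¹ • q) (by rwa [← le_smul_iff])
    refine ⟨g • r, by rwa [smul_le_iff'], i, ?_, feq_act_aux g h1⟩
    have hi' : Dw V i r := hi
    exact (dw_act g V i (g • r)).2 (by simpa using hi')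

theorem fmem_act (g : G) {x y : Nm P} {p : P} :
    fmem (act g x) (act g y) (g • p) ↔ fmem x y p := by
  refine ⟨fun h => ?_, fmem_act_aux g⟩
  have := fmem_act_aux g⁻¹ h
  rwa [act_inv_act, act_inv_act, inv_smul_smul] at this

end act

end Pool.Agent.helper74.Forc
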