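import Pool.Agent.helper74.ForZF
import Pool.Agent.helper31.ZFNat

/-!
# Natural numbers, hereditarily countable names, the axiom of infinity
-/

namespace Pool.Agent.helper74.Forc

open Pool.Agent.helper31.ZF

/-! ### hereditarily countable names -/

section tc

variable {P : Type}

/-- The name, its elements, the elements of its elements, … -/
def tc : Nm P → Set (Nm P)
  | .mk ι A W => insert (.mk ι A W) (⋃ i, tc (A i))

/-- Hereditarily countable names. -/
def HC : Nm P → Prop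
  | .mk ι A _ => Countable ι ∧ ∀ i, HC (A i)

theorem tc_self (x : Nm P) : x ∈ tc x := by
  cases x
  exact Set.mem_insert _ _

theorem tc_countable {x : Nm P} (h : HC x) : (tc x).Countable := by
  induction x with
  | mk ι A W ih =>
    have : Countable ι := h.1
    exact (Set.countable_iUnion fun i => ih i (h.2 i)).insert _

theorem tc_el {x y : Nm P} (h : y ∈ tc x) (i : y.ix) : y.el i ∈ tc x := by
  induction x with
  | mk ι A W ih =>
    rcases h with rfl | h
    · refine Set.mem_insert_of_mem _ (Set.mem_iUnion.2 ⟨i, ?_⟩)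
      exact tc_self _
    · obtain ⟨j, hj⟩ := Set.mem_iUnion.1 h
      exact Set.mem_insert_of_mem _ (Set.mem_iUnion.2 ⟨j, ih j hj⟩)

theorem tc_hs {G : Type} [Group G] [Preorder P] [MulAction G P] [SymSys G P] {x y : Nm P}
    (h : HS G x) (hy : y ∈ tc x) : HS G y := by
  induction x with
  | mk ι A W ih =>
    rcases hy with rfl | hy
    · exact h
    · obtain ⟨j, hj⟩ := Set.mem_iUnion.1 hy
      exact ih j (h.el j) hj

end tc

/-! ### natural numbers -/

section nn

variable {P : Type}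

variable (P) in
/-- The name of a natural number. -/
def nn : ℕ → Nm P
  | n => .mk (Fin n) (fun i => nn i.val) (fun _ _ => True)
termination_by n => n
decreasing_by exact i.2

theorem nn_eq (n : ℕ) : nn P n = .mk (Fin n) (fun i => nn P i.val) (fun _ _ => True) := by
  rw [nn]

variable (P) in
/-- The name of `ω`. -/
def omN : Nm P := .mk ℕ (fun n => nn P n) (fun _ _ => True)

theorem act_nn {G : Type} [Group G] [MulAction G P] (g : G) (n : ℕ) : act g (nn P n) = nn P n := by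
  induction n using Nat.strong_induction_on with
  | _ n ih =>
    rw [nn_eq, act_mk]
    congr 1
    funext i
    exact ih i i.2

variable [Preorder P]

theorem dw_true {ι : Type} (i : ι) (p : P) : Dw (fun _ _ => True) i p := ⟨p, le_rfl, trivial⟩

theorem fmem_nn_of_lt {m n : ℕ} (h : m < n) (p : P) : fmem (nn P m) (nn P n) p := by
  rw [nn_eq n]
  exact fmem_el (.mk (Fin n) (fun i => nn P i.val) (fun _ _ => True)) (i := ⟨m, h⟩) (dw_true _ _)

theorem nn_ne {m n : ℕ} (h : m ≠ n) (p : P) : ¬ feq (nn P m) (nn P n) p := by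
  intro he
  rcases lt_or_gt_of_ne h with h | h
  · exact not_fmem_self _ _ ((fmem_nn_of_lt h p).congr_right he.symm)
  · exact not_fmem_self _ _ ((fmem_nn_of_lt h p).congr_right he)

variable {G : Type} [Group G] [MulAction G P] [SymSys G P]

theorem hs_nn (n : ℕ) : HS G (nn P n) := by
  induction n using Nat.strong_induction_on with
  | _ n ih =>
    refine HS.intro ⟨⊤, SymSys.big_top, fun g _ p => ?_⟩ ?_
    · rw [act_nn]
      exact feq.refl _ _
    · rw [nn_eq]
      exact fun (i : Fin n) => ih i i.2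

theorem hs_omN : HS G (omN P) := by
  refine HS.intro ⟨⊤, SymSys.big_top, fun g _ p => ?_⟩ fun n => hs_nn n
  have : act g (omN P) = omN P := by
    unfold omN
    rw [act_mk]
    congr 1
    funext i
    exact act_nn g i
  rw [this]
  exact feq.refl _ _

omit [Preorder P] [MulAction G P] [SymSys G P] in
theorem hc_nn (n : ℕ) : HC (nn P n) := by
  induction n using Nat.strong_induction_on with
  | _ n ih =>
    rw [nn_eq]
    exact ⟨inferInstance, fun i => ih i i.2⟩

omit [Preorder P] [MulAction G P] [SymSys G P] in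
theorem hc_omN : HC (omN P) := ⟨inferInstance, fun n => hc_nn n⟩

end nn

/-! ### elements of the model given by names -/

section interface

variable {G P : Type} [Group G] [Preorder P] [MulAction G P] [SymSys G P]

namespace Gen

variable (Γ : Gen G P)

/-- The name `x` is in the countable set of names of the model. -/
def In (x : Nm P) : Prop := ∃ a, (Γ.h a).1 = x

open Classical in
/-- The element of the model with name `x`. -/
noncomputable def of (x : Nm P) : Γ.Mod :=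
  if h : ∃ a, (Γ.h a).1 = x then Γ.cl h.choose else Γ.cl 0

variable {Γ}

theorem of_cl (a : ℕ) : Γ.of (Γ.h a).1 = Γ.cl a := by
  have h : ∃ b, (Γ.h b).1 = (Γ.h a).1 := ⟨a, rfl⟩
  unfold of
  rw [dif_pos h]
  refine Γ.cl_eq.2 ⟨0, ?_⟩
  rw [h.choose_spec]
  exact feq.refl _ _

theorem of_eq {x y : Nm P} (hx : Γ.In x) (hy : Γ.In y) :
    Γ.of x = Γ.of y ↔ ∃ k, feq x y (Γ.g k) := by
  obtain ⟨a, rfl⟩ := hx
  obtain ⟨b, rfl⟩ := hy
  rw [of_cl, of_cl]
  exact Γ.cl_eq

theorem E_of {x y : Nm P} (hx : Γ.In x) (hy : Γ.In y) :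
    Γ.E (Γ.of x) (Γ.of y) ↔ ∃ k, fmem x y (Γ.g k) := by
  obtain ⟨a, rfl⟩ := hx
  obtain ⟨b, rfl⟩ := hy
  rw [of_cl, of_cl]
  exact Γ.E_cl

theorem exists_of (m : Γ.Mod) : ∃ x : Nm P, Γ.In x ∧ HS G x ∧ Γ.of x = m := by
  obtain ⟨a, rfl⟩ := Γ.exists_cl m
  exact ⟨(Γ.h a).1, ⟨a, rfl⟩, (Γ.h a).2, of_cl a⟩

theorem E_mk {ι : Type} {A : ι → Nm P} {W : ι → P → Prop} (hy : Γ.In (.mk ι A W)) {z : Γ.Mod} :
    Γ.E z (Γ.of (.mk ι A W)) ↔
      ∃ i, Γ.In (A i) ∧ z = Γ.of (A i) ∧ ∃ k, Dw W i (Γ.g k) := by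
  constructor
  · intro h
    obtain ⟨a, rfl⟩ := Γ.exists_cl z
    obtain ⟨b, hb⟩ := hy
    rw [← hb, of_cl, E_cl] at h
    obtain ⟨i, c, hc, k, hW, he⟩ := Γ.t4 a b h
    have hc' : (Γ.h c).1 = (Γ.h b).1.el i := by
      rw [hc]
      rfl
    have key : ∀ (y : Nm P), y = (.mk ι A W) → ∀ i : y.ix, (Γ.h c).1 = y.el i →
        Dw y.wt i (Γ.g k) → ∃ i, Γ.In (A i) ∧ Γ.cl a = Γ.of (A i) ∧ ∃ k, Dw W i (Γ.g k) := by
      rintro y rfl i hi hW
      refine ⟨i, ⟨c, hi⟩, ?_, k, hW⟩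
      change (Γ.h c).1 = A i at hi
      rw [← hi, of_cl, Γ.cl_eq]
      exact ⟨k, he⟩
    exact key _ hb i hc' hW
  · rintro ⟨i, hi, rfl, k, hW⟩
    rw [E_of hi hy]
    exact ⟨k, fmem_el (.mk ι A W) hW⟩

theorem E_mk_true {ι : Type} {A : ι → Nm P} (hy : Γ.In (.mk ι A fun _ _ => True))
    (hA : ∀ i, Γ.In (A i)) {z : Γ.Mod} :
    Γ.E z (Γ.of (.mk ι A fun _ _ => True)) ↔ ∃ i, z = Γ.of (A i) := by
  rw [E_mk hy]
  constructor
  · rintro ⟨i, _, h, _⟩
    exact ⟨i, h⟩
  · rintro ⟨i, h⟩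
    exact ⟨i, hA i, h, 0, dw_true _ _⟩

variable (Γ) in
/-- All names of natural numbers and of `ω` are in the model. -/
structure HasOm : Prop where
  nn : ∀ n, Γ.In (nn P n)
  om : Γ.In (omN P)

variable (Γ) in
/-- The natural number `n` in the model. -/
noncomputable def N (n : ℕ) : Γ.Mod := Γ.of (Forc.nn P n)

theorem E_N (h : Γ.HasOm) {n : ℕ} {z : Γ.Mod} : Γ.E z (Γ.N n) ↔ ∃ k < n, z = Γ.N k := by
  have h1 := h.nn n
  unfold N
  rw [nn_eq n] at h1 ⊢
  rw [E_mk_true h1 fun i => h.nn i]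
  constructor
  · rintro ⟨i, hi⟩
    exact ⟨i, i.2, hi⟩
  · rintro ⟨k, hk, hz⟩
    exact ⟨⟨k, hk⟩, hz⟩

theorem E_om (h : Γ.HasOm) {z : Γ.Mod} : Γ.E z (Γ.of (omN P)) ↔ ∃ n, z = Γ.N n :=
  E_mk_true h.om h.nn

theorem N_inj (h : Γ.HasOm) {m n : ℕ} (e : Γ.N m = Γ.N n) : m = n := by
  by_contra hne
  obtain ⟨k, hk⟩ := (of_eq (h.nn m) (h.nn n)).1 e
  exact nn_ne hne _ hk

variable (Γ) in
theorem isModelZF (h : Γ.HasOm) : IsModelZF Γ.Mod Γ.E where
  ext := Γ.ax_ext
  foundation := Γ.ax_foundation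
  pairing := Γ.ax_pairing
  union := Γ.ax_union
  power := Γ.ax_power
  infinity := by
    refine ⟨Γ.of (omN P), ⟨Γ.N 0, (E_om h).2 ⟨0, rfl⟩, fun z hz => ?_⟩, fun x hx => ?_⟩
    · obtain ⟨k, hk, _⟩ := (E_N h).1 hz
      exact absurd hk (Nat.not_lt_zero _)
    · obtain ⟨n, rfl⟩ := (E_om h).1 hx
      refine ⟨Γ.N (n + 1), (E_om h).2 ⟨_, rfl⟩, fun z => ?_⟩
      rw [E_N h, E_N h]
      constructor
      · rintro ⟨k, hk, rfl⟩
        rcases Nat.lt_succ_iff_lt_or_eq.1 hk with hk | rfl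
        · exact Or.inl ⟨k, hk, rfl⟩
        · exact Or.inr rfl
      · rintro (⟨k, hk, rfl⟩ | rfl)
        · exact ⟨k, hk.trans (Nat.lt_succ_self _), rfl⟩
        · exact ⟨n, Nat.lt_succ_self _, rfl⟩
  separation := Γ.ax_separation
  replacement := Γ.ax_replacement

end Gen

/-- There is a countable generic model whose names include a given countable set of hereditarily
countable, hereditarily symmetric names and everything below them. -/
theorem exists_gen' [Countable P] {ι : Type} [Countable ι] (X : ι → Nm P)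
    (hX : ∀ i, HC (X i)) (hX' : ∀ i, HS G (X i)) (p0 : P) :
    ∃ Γ : Gen G P, Γ.HasOm ∧ (∀ i, ∀ y ∈ tc (X i), Γ.In y) ∧ Γ.g 0 ≤ p0 := by
  have hc : (tc (omN P) ∪ ⋃ i, tc (X i)).Countable :=
    (tc_countable hc_omN).union (Set.countable_iUnion fun i => tc_countable (hX i))
  obtain ⟨Γ, hΓ, h0⟩ := exists_gen (G := G) {x : HN G P | x.1 ∈ tc (omN P) ∪ ⋃ i, tc (X i)}
    (hc.preimage Subtype.val_injective) p0
  have key : ∀ y, HS G y → y ∈ tc (omN P) ∪ ⋃ i, tc (X i) → Γ.In y := by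
    intro y hs hy
    obtain ⟨a, ha⟩ := hΓ ⟨y, hs⟩ hy
    exact ⟨a, by rw [ha]⟩
  have hn : ∀ n, Forc.nn P n ∈ tc (omN P) := fun n =>
    tc_el (y := omN P) (tc_self _) n
  refine ⟨Γ, ⟨fun n => key _ (hs_nn n) (Or.inl (hn n)), key _ hs_omN (Or.inl (tc_self _))⟩,
    fun i y hy => key y (tc_hs (hX' i) hy) (Or.inr (Set.mem_iUnion.2 ⟨i, hy⟩)), h0⟩

end interface

end Pool.Agent.helper74.Forc
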