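import Pool.Agent.helper74.ForNat
import Pool.Agent.helper31.ZFFin

/-!
# Ordered pairs and functions given by names
-/

namespace Pool.Agent.helper74.Forc

open Pool.Agent.helper31.ZF

section op

variable {P : Type}

/-- The name of an unordered pair. -/
def prN (x y : Nm P) : Nm P := .mk Bool (fun b => cond b x y) (fun _ _ => True)

/-- The name of an ordered pair. -/
def opN (x y : Nm P) : Nm P := prN (prN x x) (prN x y)

theorem hc_prN {x y : Nm P} (hx : HC x) (hy : HC y) : HC (prN x y) :=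
  ⟨inferInstance, fun b => by cases b <;> assumption⟩

theorem hc_opN {x y : Nm P} (hx : HC x) (hy : HC y) : HC (opN x y) :=
  hc_prN (hc_prN hx hx) (hc_prN hx hy)

theorem act_prN {G : Type} [Group G] [MulAction G P] (g : G) (x y : Nm P) :
    act g (prN x y) = prN (act g x) (act g y) := by
  unfold prN
  rw [act_mk]
  congr 1
  funext b
  cases b <;> rfl

theorem act_opN {G : Type} [Group G] [MulAction G P] (g : G) (x y : Nm P) :
    act g (opN x y) = opN (act g x) (act g y) := by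
  unfold opN
  rw [act_prN, act_prN, act_prN]

variable [Preorder P]

theorem prN_congr {x y x' y' : Nm P} {p : P} (hx : feq x x' p) (hy : feq y y' p) :
    feq (prN x y) (prN x' y') p := by
  refine (feq_def _ _ _).2 ⟨fun b q hq _ => ⟨q, le_rfl, b, dw_true _ _, ?_⟩,
    fun b q hq _ => ⟨q, le_rfl, b, dw_true _ _, ?_⟩⟩
  · cases b
    · exact hy.mono hq
    · exact hx.mono hq
  · cases b
    · exact hy.mono hq
    · exact hx.mono hq

theorem opN_congr {x y x' y' : Nm P} {p : P} (hx : feq x x' p) (hy : feq y y' p) :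
    feq (opN x y) (opN x' y') p := prN_congr (prN_congr hx hx) (prN_congr hx hy)

variable {G : Type} [Group G] [MulAction G P] [SymSys G P]

theorem hs_prN {x y : Nm P} (hx : HS G x) (hy : HS G y) : HS G (prN x y) := by
  refine HS.intro ?_ fun b => by cases b <;> assumption
  obtain ⟨H, hH, h⟩ := hx.sym
  obtain ⟨K, hK, h'⟩ := hy.sym
  refine ⟨H ⊓ K, SymSys.big_inf _ _ hH hK, fun g hg p => ?_⟩
  rw [act_prN]
  exact prN_congr (h g hg.1 p) (h' g hg.2 p)

theorem hs_opN {x y : Nm P} (hx : HS G x) (hy : HS G y) : HS G (opN x y) :=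
  hs_prN (hs_prN hx hx) (hs_prN hx hy)

/-- A family of names with the action permuting the family up to equality gives a symmetric name. -/
theorem hs_family {ι : Type} (A : ι → Nm P) (hA : ∀ i, HS G (A i)) (H : Subgroup G)
    (hH : SymSys.big P H)
    (h : ∀ g ∈ H, ∀ i, ∃ j, ∀ p, feq (act g (A i)) (A j) p) :
    HS G (.mk ι A fun _ _ => True) := by
  refine HS.intro ⟨H, hH, fun g hg p => ?_⟩ hA
  rw [act_mk, feq_def]
  refine ⟨fun i q _ _ => ?_, fun j q _ _ => ?_⟩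
  · obtain ⟨j, hj⟩ := h g hg i
    exact ⟨q, le_rfl, j, dw_true _ _, hj q⟩
  · obtain ⟨i, hi⟩ := h g⁻¹ (inv_mem hg) j
    refine ⟨q, le_rfl, i, dw_true _ _, ?_⟩
    have h1 := feq_act_aux g (hi (g⁻¹ • q))
    rw [act_act_inv, smul_inv_smul] at h1
    exact h1.symm

end op

section model

variable {G P : Type} [Group G] [Preorder P] [MulAction G P] [SymSys G P] {Γ : Gen G P}

instance instZFModel [h : Fact Γ.HasOm] : ZFModel Γ.Mod := ⟨Γ.E, Γ.isModelZF h.out⟩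

variable [hF : Fact Γ.HasOm]

namespace Gen

theorem mem_iff {x y : Γ.Mod} : x ∈ y ↔ Γ.E x y := Iff.rfl

theorem mem_mk_true {ι : Type} {A : ι → Nm P} (hy : Γ.In (.mk ι A fun _ _ => True))
    (hA : ∀ i, Γ.In (A i)) {z : Γ.Mod} :
    z ∈ Γ.of (.mk ι A fun _ _ => True) ↔ ∃ i, z = Γ.of (A i) := E_mk_true hy hA

theorem of_prN {x y : Nm P} (h : Γ.In (prN x y)) (hx : Γ.In x) (hy : Γ.In y) :
    Γ.of (prN x y) = pr (Γ.of x) (Γ.of y) := by
  refine ext fun z => ?_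
  unfold prN at h ⊢
  rw [mem_mk_true h (fun b => by cases b <;> assumption), mem_pr]
  constructor
  · rintro ⟨b, hb⟩
    cases b
    · exact Or.inr hb
    · exact Or.inl hb
  · rintro (h | h)
    · exact ⟨true, h⟩
    · exact ⟨false, h⟩

theorem of_opN {x y : Nm P} (h : Γ.In (opN x y)) (h1 : Γ.In (prN x x)) (h2 : Γ.In (prN x y))
    (hx : Γ.In x) (hy : Γ.In y) : Γ.of (opN x y) = op (Γ.of x) (Γ.of y) := by
  unfold opN at h ⊢
  rw [of_prN h h1 h2, of_prN h1 hx hx, of_prN h2 hx hy]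
  rfl

theorem N_zero : Γ.N 0 = (emp : Γ.Mod) := by
  refine ext fun z => ?_
  constructor
  · intro h
    obtain ⟨k, hk, _⟩ := (E_N hF.out).1 h
    exact absurd hk (Nat.not_lt_zero _)
  · intro h
    exact absurd h (not_mem_emp z)

theorem N_succ (n : ℕ) : Γ.N (n + 1) = suc (Γ.N n) := by
  refine ext fun z => ?_
  rw [mem_suc]
  constructor
  · intro h
    obtain ⟨k, hk, rfl⟩ := (E_N hF.out).1 h
    rcases Nat.lt_succ_iff_lt_or_eq.1 hk with hk | rfl
    · exact Or.inr ((E_N hF.out).2 ⟨k, hk, rfl⟩)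
    · exact Or.inl rfl
  · rintro (rfl | h)
    · exact (E_N hF.out).2 ⟨n, Nat.lt_succ_self _, rfl⟩
    · obtain ⟨k, hk, rfl⟩ := (E_N hF.out).1 h
      exact (E_N hF.out).2 ⟨k, hk.trans (Nat.lt_succ_self _), rfl⟩

theorem mem_om' {z : Γ.Mod} : z ∈ (om : Γ.Mod) ↔ ∃ n, z = Γ.N n := by
  constructor
  · intro h
    have h1 := om_ind (M := Γ.Mod) (P := fun z => z ∈ Γ.of (omN P))
      ((E_om hF.out).2 ⟨0, N_zero.symm⟩) (fun n _ hn => by
        obtain ⟨k, rfl⟩ := (E_om hF.out).1 hn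
        exact (E_om hF.out).2 ⟨k + 1, (N_succ k).symm⟩)
    exact (E_om hF.out).1 (h1 z h)
  · rintro ⟨n, rfl⟩
    induction n with
    | zero =>
      rw [N_zero]
      exact emp_mem_om
    | succ n ih =>
      rw [N_succ]
      exact suc_mem_om ih

theorem N_inj' {m n : ℕ} : Γ.N m = Γ.N n ↔ m = n := ⟨N_inj hF.out, fun h => by rw [h]⟩

theorem N_mem {m n : ℕ} : Γ.N m ∈ Γ.N n ↔ m < n := by
  constructor
  · intro h
    obtain ⟨k, hk, e⟩ := (E_N hF.out).1 h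
    rwa [N_inj'.1 e]
  · intro h
    exact (E_N hF.out).2 ⟨m, h, rfl⟩

/-- A set of natural numbers that is infinite in the model is infinite. -/
theorem exists_ge_of_infinite {D : Γ.Mod} (hD : D ⊆ om) (h : ¬ IsFinite D) (m : ℕ) :
    ∃ n, m ≤ n ∧ Γ.N n ∈ D := by
  by_contra hcon
  push Not at hcon
  refine h (isFinite_iff.2 (kfin_sub (kfin_nat (Γ.N m) (mem_om'.2 ⟨m, rfl⟩)) fun z hz => ?_))
  obtain ⟨n, rfl⟩ := mem_om'.1 (hD z hz)
  rw [N_mem]
  by_contra hlt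
  exact hcon n (not_lt.1 hlt) hz

/-- The name of a function on `ω`. -/
def seqN (A : ℕ → Nm P) : Nm P := .mk ℕ (fun n => opN (nn P n) (A n)) (fun _ _ => True)

theorem seq_in {A : ℕ → Nm P} (h : ∀ y ∈ tc (seqN A), Γ.In y) (n : ℕ) :
    Γ.In (opN (nn P n) (A n)) ∧ Γ.of (opN (nn P n) (A n)) = op (Γ.N n) (Γ.of (A n)) := by
  have h1 : opN (nn P n) (A n) ∈ tc (seqN A) := tc_el (y := seqN A) (tc_self _) n
  have h2 : prN (nn P n) (nn P n) ∈ tc (seqN A) := tc_el (y := opN (nn P n) (A n)) h1 true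
  have h3 : prN (nn P n) (A n) ∈ tc (seqN A) := tc_el (y := opN (nn P n) (A n)) h1 false
  have h4 : nn P n ∈ tc (seqN A) := tc_el (y := prN (nn P n) (A n)) h3 true
  have h5 : A n ∈ tc (seqN A) := tc_el (y := prN (nn P n) (A n)) h3 false
  exact ⟨h _ h1, of_opN (h _ h1) (h _ h2) (h _ h3) (h _ h4) (h _ h5)⟩

theorem mem_seqN {A : ℕ → Nm P} (h : ∀ y ∈ tc (seqN A), Γ.In y) {z : Γ.Mod} :
    z ∈ Γ.of (seqN A) ↔ ∃ n, z = op (Γ.N n) (Γ.of (A n)) := by
  have h0 : Γ.In (seqN A) := h _ (tc_self _)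
  unfold seqN at h0 ⊢
  rw [mem_mk_true h0 fun n => (seq_in h n).1]
  exact exists_congr fun n => by rw [(seq_in h n).2]

theorem seqN_fd {A : ℕ → Nm P} (h : ∀ y ∈ tc (seqN A), Γ.In y) :
    IsFD (Γ.of (seqN A)) (om : Γ.Mod) := by
  refine ⟨fun z hz => ?_, fun x hx => ?_⟩
  · obtain ⟨n, rfl⟩ := (mem_seqN h).1 hz
    exact ⟨_, mem_om'.2 ⟨n, rfl⟩, _, rfl⟩
  · obtain ⟨n, rfl⟩ := mem_om'.1 hx
    refine ⟨Γ.of (A n), (mem_seqN h).2 ⟨n, rfl⟩, fun y hy => ?_⟩
    obtain ⟨k, hk⟩ := (mem_seqN h).1 hy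
    rw [op_inj, N_inj'] at hk
    rw [hk.2, hk.1]

theorem ap_seqN {A : ℕ → Nm P} (h : ∀ y ∈ tc (seqN A), Γ.In y) (n : ℕ) :
    ap (Γ.of (seqN A)) (Γ.N n) = Γ.of (A n) :=
  (seqN_fd h).ap_eq ((mem_seqN h).2 ⟨n, rfl⟩)

end Gen

theorem hs_seqN {A : ℕ → Nm P} (hA : ∀ n, HS G (A n)) (H : Subgroup G) (hH : SymSys.big P H)
    (h : ∀ g ∈ H, ∀ n p, feq (act g (A n)) (A n) p) : HS G (Gen.seqN A) := by
  refine hs_family _ (fun n => hs_opN (hs_nn n) (hA n)) H hH fun g hg n => ⟨n, fun p => ?_⟩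
  rw [act_opN, act_nn]
  exact opN_congr (feq.refl _ _) (h g hg n p)

omit [Preorder P] in
theorem hc_seqN {A : ℕ → Nm P} (hA : ∀ n, HC (A n)) : HC (Gen.seqN A) :=
  ⟨inferInstance, fun n => hc_opN (hc_nn n) (hA n)⟩

end model

end Pool.Agent.helper74.Forc
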