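import Pool.Agent.helper74.ForName
import Pool.Agent.helper31.ZFDef

/-!
# Hereditarily symmetric names and forcing of formulas
-/

namespace Pool.Agent.helper74.Forc

open Pool.Agent.helper31.ZF

/-- A preordered set `P` with a group `G` of automorphisms and a normal filter of subgroups. -/
class SymSys (G P : Type) [Group G] [Preorder P] [MulAction G P] extends OrdAct G P where
  /-- the filter of subgroups -/
  big : Subgroup G → Prop
  big_top : big ⊤
  big_inf : ∀ H K, big H → big K → big (H ⊓ K)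
  big_up : ∀ H K, H ≤ K → big H → big K
  big_conj : ∀ H (g : G), big H → ∃ K, big K ∧ ∀ k ∈ K, g⁻¹ * k * g ∈ H

section sym

variable {G P : Type} [Group G] [Preorder P] [MulAction G P] [SymSys G P]

variable (G) in
/-- Symmetric names. -/
def Sym (x : Nm P) : Prop := ∃ H : Subgroup G, SymSys.big P H ∧ ∀ g ∈ H, ∀ p, feq (act g x) x p

variable (G) in
/-- Hereditarily symmetric names. -/
def HS : Nm P → Prop
  | .mk ι A W => Sym G (.mk ι A W) ∧ ∀ i, HS (A i)

theorem HS.sym {x : Nm P} (h : HS G x) : Sym G x := by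
  cases x
  exact h.1

theorem HS.el {x : Nm P} (h : HS G x) (i : x.ix) : HS G (x.el i) := by
  cases x
  exact h.2 i

theorem HS.intro {x : Nm P} (h : Sym G x) (h' : ∀ i, HS G (x.el i)) : HS G x := by
  cases x
  exact ⟨h, h'⟩

theorem Sym.act {x : Nm P} (h : Sym G x) (g : G) : Sym G (act g x) := by
  obtain ⟨H, hH, h⟩ := h
  obtain ⟨K, hK, hKH⟩ := SymSys.big_conj H g hH
  refine ⟨K, hK, fun k hk p => ?_⟩
  have h1 := h _ (hKH k hk) (g⁻¹ • p)
  have h2 := feq_act_aux g h1
  rw [smul_inv_smul, ← act_mul, mul_assoc, mul_inv_cancel_left, act_mul] at h2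
  exact h2

theorem HS.act {x : Nm P} (h : HS G x) (g : G) : HS G (act g x) := by
  induction x with
  | mk ι A W ih => exact ⟨h.1.act g, fun i => ih i (h.2 i)⟩

variable (G P) in
/-- The type of hereditarily symmetric names. -/
abbrev HN : Type 1 := {x : Nm P // HS G x}

/-- The action on hereditarily symmetric names. -/
def HN.act (g : G) (x : HN G P) : HN G P := ⟨Forc.act g x.1, x.2.act g⟩

/-- An element of a hereditarily symmetric name. -/
def HN.el (x : HN G P) (i : x.1.ix) : HN G P := ⟨x.1.el i, x.2.el i⟩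

/-- The condition `p` forces `φ`. -/
def F {n : ℕ} (φ : Fml n) : (Fin n → HN G P) → P → Prop :=
  Fml.rec (motive := fun n _ => (Fin n → HN G P) → P → Prop)
    (fun i j v p => fmem (v i).1 (v j).1 p)
    (fun i j v p => feq (v i).1 (v j).1 p)
    (fun _ h v p => ∀ q ≤ p, ¬ h v q)
    (fun _ _ h h' v p => h v p ∧ h' v p)
    (fun _ h v p => ∀ x, h (push v x) p) φ

variable {n : ℕ}

theorem F_mem (i j : Fin n) (v : Fin n → HN G P) (p : P) :
    F (.mem i j) v p ↔ fmem (v i).1 (v j).1 p := Iff.rfl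

theorem F_eq (i j : Fin n) (v : Fin n → HN G P) (p : P) :
    F (.eq i j) v p ↔ feq (v i).1 (v j).1 p := Iff.rfl

theorem F_neg (φ : Fml n) (v : Fin n → HN G P) (p : P) :
    F (.neg φ) v p ↔ ∀ q ≤ p, ¬ F φ v q := Iff.rfl

theorem F_and (φ ψ : Fml n) (v : Fin n → HN G P) (p : P) :
    F (.and φ ψ) v p ↔ F φ v p ∧ F ψ v p := Iff.rfl

theorem F_all (φ : Fml (n + 1)) (v : Fin n → HN G P) (p : P) :
    F (.all φ) v p ↔ ∀ x, F φ (push v x) p := Iff.rfl

theorem F_mono {φ : Fml n} {v : Fin n → HN G P} {p q : P} (h : F φ v p) (hq : q ≤ p) :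
    F φ v q := by
  induction φ with
  | mem i j => exact fmem.mono h hq
  | eq i j => exact feq.mono h hq
  | neg φ ih => exact fun r hr => h r (hr.trans hq)
  | and φ ψ ih1 ih2 => exact ⟨ih1 h.1, ih2 h.2⟩
  | all φ ih => exact fun x => ih (h x)

theorem F_dense {φ : Fml n} {v : Fin n → HN G P} {p : P} (h : ∀ q ≤ p, ∃ r ≤ q, F φ v r) :
    F φ v p := by
  induction φ with
  | mem i j => exact fmem.dense h
  | eq i j => exact feq.dense h
  | neg φ ih =>
    intro q hq hF
    obtain ⟨r, hr, h1⟩ := h q hq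
    exact h1 r le_rfl (F_mono hF hr)
  | and φ ψ ih1 ih2 =>
    refine ⟨ih1 fun q hq => ?_, ih2 fun q hq => ?_⟩
    · obtain ⟨r, hr, h1⟩ := h q hq
      exact ⟨r, hr, h1.1⟩
    · obtain ⟨r, hr, h1⟩ := h q hq
      exact ⟨r, hr, h1.2⟩
  | all φ ih =>
    refine fun x => ih fun q hq => ?_
    obtain ⟨r, hr, h1⟩ := h q hq
    exact ⟨r, hr, h1 x⟩

theorem F_of_not_neg {φ : Fml n} {v : Fin n → HN G P} {p : P} (h : ∀ q ≤ p, ¬ F (.neg φ) v q) :
    F φ v p := by
  refine F_dense fun q hq => ?_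
  have := h q hq
  rw [F_neg] at this
  push Not at this
  exact this

theorem F_congr {φ : Fml n} : ∀ {v w : Fin n → HN G P} {p : P},
    (∀ i, feq (v i).1 (w i).1 p) → (F φ v p ↔ F φ w p) := by
  induction φ with
  | mem i j =>
    intro v w p h
    exact ⟨fun h1 => (h1.congr_left (h i)).congr_right (h j),
      fun h1 => (h1.congr_left (h i).symm).congr_right (h j).symm⟩
  | eq i j =>
    intro v w p h
    exact ⟨fun h1 => ((h i).symm.trans h1).trans (h j), fun h1 => ((h i).trans h1).trans (h j).symm⟩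
  | neg φ ih =>
    intro v w p h
    rw [F_neg, F_neg]
    refine forall₂_congr fun q hq => not_congr (ih fun i => (h i).mono hq)
  | and φ ψ ih1 ih2 =>
    intro v w p h
    exact and_congr (ih1 h) (ih2 h)
  | all φ ih =>
    intro v w p h
    rw [F_all, F_all]
    refine forall_congr' fun x => ih fun i => ?_
    rcases Fin.eq_castSucc_or_eq_last i with ⟨j, rfl⟩ | rfl
    · rw [push_castSucc, push_castSucc]
      exact h j
    · rw [push_last, push_last]
      exact feq.refl _ _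

theorem HN.act_inv_act (g : G) (x : HN G P) : HN.act g⁻¹ (HN.act g x) = x :=
  Subtype.ext (Forc.act_inv_act g x.1)

theorem HN.act_act_inv (g : G) (x : HN G P) : HN.act g (HN.act g⁻¹ x) = x :=
  Subtype.ext (Forc.act_act_inv g x.1)

theorem push_act (g : G) (v : Fin n → HN G P) (x : HN G P) :
    push (fun i => HN.act g (v i)) (HN.act g x) = fun i => HN.act g (push v x i) := by
  funext i
  rcases Fin.eq_castSucc_or_eq_last i with ⟨j, rfl⟩ | rfl
  · rw [push_castSucc, push_castSucc]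
  · rw [push_last, push_last]

theorem F_act {φ : Fml n} : ∀ {v : Fin n → HN G P} {p : P} (g : G),
    F φ (fun i => HN.act g (v i)) (g • p) ↔ F φ v p := by
  induction φ with
  | mem i j => exact fun g => fmem_act g
  | eq i j => exact fun g => feq_act g
  | neg φ ih =>
    intro v p g
    rw [F_neg, F_neg]
    constructor
    · intro h q hq hF
      exact h (g • q) (OrdAct.le _ _ _ hq) ((ih g).2 hF)
    · intro h q hq hF
      refine h (g⁻¹ • q) (by rwa [← le_smul_iff]) ((ih g).1 ?_)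
      rwa [smul_inv_smul]
  | and φ ψ ih1 ih2 => exact fun g => and_congr (ih1 g) (ih2 g)
  | all φ ih =>
    intro v p g
    rw [F_all, F_all]
    constructor
    · intro h x
      have := h (HN.act g x)
      rw [push_act] at this
      exact (ih g).1 this
    · intro h x
      have h1 := (ih g).2 (h (HN.act g⁻¹ x))
      rw [← push_act, HN.act_act_inv] at h1
      exact h1

theorem F_rename {φ : Fml n} : ∀ {m : ℕ} (ρ : Fin n → Fin m) (v : Fin m → HN G P) (p : P),
    F (φ.rename ρ) v p ↔ F φ (fun i => v (ρ i)) p := by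
  induction φ with
  | mem i j => intro m ρ v p; rfl
  | eq i j => intro m ρ v p; rfl
  | neg φ ih => intro m ρ v p; exact forall₂_congr fun q _ => not_congr (ih ρ v q)
  | and φ ψ ih1 ih2 => intro m ρ v p; exact and_congr (ih1 ρ v p) (ih2 ρ v p)
  | all φ ih =>
    intro m ρ v p
    refine forall_congr' fun x => ?_
    change F (φ.rename (push (fun i => (ρ i).castSucc) (Fin.last m))) (push v x) p ↔
      F φ (push (fun i => v (ρ i)) x) p
    rw [ih]
    have : (fun i => push v x (push (fun i => (ρ i).castSucc) (Fin.last m) i)) =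
        push (fun i => v (ρ i)) x := by
      funext i
      rcases Fin.eq_castSucc_or_eq_last i with ⟨j, rfl⟩ | rfl
      · simp
      · simp
    rw [this]

/-! ### derived connectives -/

/-- Implication. -/
def fimp (φ ψ : Fml n) : Fml n := .neg (.and φ (.neg ψ))

/-- Equivalence. -/
def fiff (φ ψ : Fml n) : Fml n := .and (fimp φ ψ) (fimp ψ φ)

/-- Disjunction. -/
def fdis (φ ψ : Fml n) : Fml n := .neg (.and (.neg φ) (.neg ψ))

/-- Existential quantifier. -/
def fex (φ : Fml (n + 1)) : Fml n := .neg (.all (.neg φ))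

theorem F_imp {φ ψ : Fml n} {v : Fin n → HN G P} {p : P} :
    F (fimp φ ψ) v p ↔ ∀ q ≤ p, F φ v q → F ψ v q := by
  unfold fimp
  rw [F_neg]
  constructor
  · intro h q hq hφ
    refine F_of_not_neg fun r hr hr' => h r (hr.trans hq) ⟨F_mono hφ hr, hr'⟩
  · rintro h q hq ⟨hφ, hψ⟩
    exact hψ q le_rfl (h q hq hφ)

theorem F_iff {φ ψ : Fml n} {v : Fin n → HN G P} {p : P} :
    F (fiff φ ψ) v p ↔ ∀ q ≤ p, (F φ v q ↔ F ψ v q) := by
  unfold fiff
  rw [F_and, F_imp, F_imp]
  exact ⟨fun h q hq => ⟨h.1 q hq, h.2 q hq⟩, fun h => ⟨fun q hq => (h q hq).1,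
    fun q hq => (h q hq).2⟩⟩

theorem F_dis {φ ψ : Fml n} {v : Fin n → HN G P} {p : P} :
    F (fdis φ ψ) v p ↔ ∀ q ≤ p, ∃ r ≤ q, F φ v r ∨ F ψ v r := by
  unfold fdis
  rw [F_neg]
  constructor
  · intro h q hq
    by_contra hcon
    push Not at hcon
    refine h q hq ⟨fun r hr hr' => (hcon r hr).1 hr', fun r hr hr' => (hcon r hr).2 hr'⟩
  · rintro h q hq ⟨h1, h2⟩
    obtain ⟨r, hr, h3 | h3⟩ := h q hq
    · exact h1 r hr h3
    · exact h2 r hr h3

theorem F_ex {φ : Fml (n + 1)} {v : Fin n → HN G P} {p : P} :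
    F (fex φ) v p ↔ ∀ q ≤ p, ∃ r ≤ q, ∃ x, F φ (push v x) r := by
  unfold fex
  rw [F_neg]
  constructor
  · intro h q hq
    have h1 := h q hq
    rw [F_all] at h1
    push Not at h1
    obtain ⟨x, hx⟩ := h1
    rw [F_neg] at hx
    push Not at hx
    obtain ⟨r, hr, h2⟩ := hx
    exact ⟨r, hr, x, h2⟩
  · intro h q hq h1
    obtain ⟨r, hr, x, h2⟩ := h q hq
    exact h1 x r hr h2

theorem sat_imp {M : Type*} {E : M → M → Prop} {φ ψ : Fml n} {v : Fin n → M} :
    Sat E (fimp φ ψ) v ↔ (Sat E φ v → Sat E ψ v) := by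
  change ¬ (_ ∧ ¬ _) ↔ _
  tauto

theorem sat_iff {M : Type*} {E : M → M → Prop} {φ ψ : Fml n} {v : Fin n → M} :
    Sat E (fiff φ ψ) v ↔ (Sat E φ v ↔ Sat E ψ v) := by
  change Sat E (fimp φ ψ) v ∧ Sat E (fimp ψ φ) v ↔ _
  rw [sat_imp, sat_imp]
  tauto

theorem sat_dis {M : Type*} {E : M → M → Prop} {φ ψ : Fml n} {v : Fin n → M} :
    Sat E (fdis φ ψ) v ↔ (Sat E φ v ∨ Sat E ψ v) := by
  change ¬ (¬ _ ∧ ¬ _) ↔ _
  tauto

theorem sat_ex {M : Type*} {E : M → M → Prop} {φ : Fml (n + 1)} {v : Fin n → M} :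
    Sat E (fex φ) v ↔ ∃ x, Sat E φ (push v x) := by
  change ¬ (∀ x, ¬ _) ↔ _
  push Not
  rfl

/-! ### comprehension -/

theorem stab_all (m : ℕ) (v : Fin m → HN G P) : ∃ H : Subgroup G, SymSys.big P H ∧
    ∀ g ∈ H, ∀ i p, feq (HN.act g (v i)).1 (v i).1 p := by
  induction m with
  | zero => exact ⟨⊤, SymSys.big_top, fun g _ i => i.elim0⟩
  | succ m ih =>
    obtain ⟨H, hH, h⟩ := ih fun i => v i.castSucc
    obtain ⟨K, hK, h'⟩ := (v (Fin.last m)).2.sym
    refine ⟨H ⊓ K, SymSys.big_inf _ _ hH hK, fun g hg i p => ?_⟩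
    rcases Fin.eq_castSucc_or_eq_last i with ⟨j, rfl⟩ | rfl
    · exact h g hg.1 j p
    · exact h' g hg.2 p

/-- A name with hereditarily symmetric elements that is defined by a formula with parameters is
symmetric. -/
theorem hs_of_def (ψ : Fml (n + 1)) (v : Fin n → HN G P) (b : Nm P) (hb : ∀ i, HS G (b.el i))
    (h : ∀ (z : HN G P) (p : P), fmem z.1 b p ↔ F ψ (push v z) p) : HS G b := by
  refine HS.intro ?_ hb
  obtain ⟨H, hH, hHv⟩ := stab_all n v
  refine ⟨H, hH, fun g hg p => ?_⟩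
  have key : ∀ (z : HN G P) (q : P), fmem z.1 (act g b) q ↔ fmem z.1 b q := by
    intro z q
    have h1 : fmem z.1 (act g b) q ↔ fmem (HN.act g⁻¹ z).1 b (g⁻¹ • q) := by
      have h2 := fmem_act g (x := (HN.act g⁻¹ z).1) (y := b) (p := g⁻¹ • q)
      have e : act g (HN.act g⁻¹ z).1 = z.1 := act_act_inv g z.1
      rw [smul_inv_smul, e] at h2
      exact h2
    rw [h1, h, ← F_act g, smul_inv_smul, ← push_act, HN.act_act_inv, h]
    refine F_congr fun i => ?_
    rcases Fin.eq_castSucc_or_eq_last i with ⟨j, rfl⟩ | rfl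
    · rw [push_castSucc, push_castSucc]
      exact hHv g hg j q
    · rw [push_last, push_last]
      exact feq.refl _ _
  refine feq_of_el (fun i q _ hW => ?_) (fun i q _ hW => ?_)
  · have hs : HS G ((act g b).el i) := by
      cases b with
      | mk ι A W => exact (hb i).act g
    exact (key ⟨_, hs⟩ q).1 (fmem_el _ hW)
  · exact (key ⟨_, hb i⟩ q).2 (fmem_el _ hW)

end sym

end Pool.Agent.helper74.Forc
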