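import Pool.Agent.helper74.ZTopEmb

/-!
# The whole space is not `ℕ`-compact without partial choice
-/

namespace Pool.Agent.helper74.ZT

open Pool.Agent.helper31.ZF

universe u

variable {M : Type u} [ZFModel M]

/-- No partial choice function. -/
def NoChoice (A : M) : Prop := ∀ D f : M, D ⊆ om → ¬ IsFinite D → IsFD f D →
  ¬ ∀ n, n ∈ D → ap f n ∈ ap A n

section main

variable {A R : M}

theorem infinite_of_unbdd {D : M} (hD : D ⊆ om)
    (h : ∀ n, n ∈ (om : M) → ∃ m, m ∈ D ∧ n ∈ suc m) : ¬ IsFinite D := by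
  rw [isFinite_iff]
  intro hf
  obtain ⟨n, hn, hDn⟩ := kfin_bdd hf hD
  obtain ⟨m, hm, hnm⟩ := h n hn
  have h1 := hDn m hm
  rcases mem_suc.1 hnm with rfl | h2
  · exact not_mem_self _ h1
  · exact not_mem_cycle h1 h2

/-- A continuous function to `ω` is eventually constant along the points `p_n`. -/
theorem Seq.ev_const (h : Seq A R) (hNC : NoChoice A) (g : M)
    (hg : ∀ k, k ∈ (om : M) → sep (Xs A) (fun x => ap g x = k) ∈ Ts A R)
    (hgo : ∀ x, x ∈ Xs A → ap g x ∈ (om : M)) :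
    ∃ n, n ∈ (om : M) ∧ ∀ m, m ∈ (om : M) → n ∈ suc m → ap g (pt A m) = ap g (pt A n) := by
  -- the set of jumps
  let D : M := sep om fun m => ap g (pt A m) ≠ ap g (pt A (suc m))
  have hDm : ∀ m, m ∈ D ↔ m ∈ (om : M) ∧ ap g (pt A m) ≠ ap g (pt A (suc m)) := fun m => by
    simp only [D]
    rw [mem_sep]
  have hD : D ⊆ om := fun m hm => ((hDm m).1 hm).1
  have hbdd : ∃ n, n ∈ (om : M) ∧ ∀ m, m ∈ D → m ∈ n := by
    by_contra hcon
    push Not at hcon
    have hinf : ¬ IsFinite D := by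
      refine infinite_of_unbdd hD fun n hn => ?_
      obtain ⟨m, hm, hmn⟩ := hcon n hn
      refine ⟨m, hm, ?_⟩
      rcases om_tri hn (hD m hm) with h1 | rfl | h1
      · exact mem_suc.2 (Or.inr h1)
      · simp
      · exact absurd h1 hmn
    -- the greatest element of `A m` where `g` differs from the value at `p_{m+1}`
    let Q : M → M → Prop := fun m a => (a ∈ ap A m ∧ ap g (op m a) ≠ ap g (pt A (suc m))) ∧
      ∀ b, b ∈ ap A m → ap g (op m b) ≠ ap g (pt A (suc m)) → b = a ∨ op b a ∈ ap R m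
    have hQ : ∀ m, m ∈ D → ∃! a, Q m a := by
      intro m hm
      obtain ⟨hmo, hne⟩ := (hDm m).1 hm
      have Z := h m hmo
      have h0 := (mem_Ts.1 (hg _ (hgo _ (pt_mem hmo)))).2 m hmo
      have h1 := (mem_Ts.1 (hg _ (hgo _ (pt_mem (suc_mem_om hmo))))).2 m hmo
      obtain ⟨c, hc, hcv⟩ := h0.1 (mem_sep.2 ⟨pt_mem hmo, rfl⟩)
      obtain ⟨d, hd, hdv⟩ := h1.2 (mem_sep.2 ⟨pt_mem (suc_mem_om hmo), rfl⟩)
      obtain ⟨c', hc', hcc⟩ := Z.noMin c hc
      obtain ⟨d', hd', hdd⟩ := Z.noMax d hd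
      obtain ⟨a, ha, hamax⟩ := Z.max (sep (ap A m) fun a => ap g (op m a) ≠ ap g (pt A (suc m)))
        (fun z hz => (mem_sep.1 hz).1)
        ⟨c', mem_sep.2 ⟨hc', fun e => hne (((mem_sep.1 (hcv c' hc' hcc)).2).symm.trans e)⟩⟩
        ⟨d', hd', fun x hx => by
          rw [mem_sep] at hx
          rcases Z.total x d hx.1 hd with h2 | rfl | h2
          · exact Z.trans _ _ _ hx.1 hd hd' h2 hdd
          · exact hdd
          · exact absurd (mem_sep.1 (hdv x hx.1 h2)).2 hx.2⟩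
      rw [mem_sep] at ha
      refine ⟨a, ⟨ha, fun b hb hb' => hamax b (mem_sep.2 ⟨hb, hb'⟩)⟩, ?_⟩
      rintro b ⟨⟨hb, hb'⟩, hbmax⟩
      rcases hbmax a ha.1 ha.2 with h2 | h2
      · exact h2.symm
      · rcases hamax b (mem_sep.2 ⟨hb, hb'⟩) with h3 | h3
        · exact h3
        · exact absurd h2 (h.asymm hmo hb ha.1 h3)
    have iQ : F1 (fun m : M => the fun a => Q m a) := by
      simp only [Q]
      infer_instance
    refine hNC D (lam D fun m => the fun a => Q m a) hD hinf lam_fd fun m hm => ?_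
    rw [ap_lam hm]
    exact (the_spec (hQ m hm)).1.1
  obtain ⟨n, hn, hnD⟩ := hbdd
  refine ⟨n, hn, ?_⟩
  apply om_ind
  · intro h1
    rcases mem_suc.1 h1 with rfl | h1
    · rfl
    · exact absurd h1 (not_mem_emp _)
  · intro m hm ih h1
    rcases mem_suc.1 h1 with rfl | h1
    · rfl
    · have h2 := ih h1
      have h3 : ap g (pt A m) = ap g (pt A (suc m)) := by
        by_contra hne
        have h4 := hnD m ((hDm m).2 ⟨hm, hne⟩)
        rcases mem_suc.1 h1 with rfl | h5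
        · exact not_mem_self _ h4
        · exact not_mem_cycle h4 h5
      rw [← h3]
      exact h2

theorem Seq.not_nCompact (h : Seq A R) (hNC : NoChoice A) : ¬ IsNCompact (Xs A) (Ts A R) := by
  rintro ⟨J, K, e, _, hKJ, hKc, ⟨⟨he, hinj⟩, hsurj⟩, htop⟩
  have heK : ∀ x, x ∈ Xs A → ap e x ∈ K := he.2
  have heF : ∀ x, x ∈ Xs A → IsFn (ap e x) J om := fun x hx => mem_Fn.1 (hKJ _ (heK x hx))
  -- coordinates are continuous
  have hcont : ∀ j, j ∈ J → ∀ k, k ∈ (om : M) →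
      sep (Xs A) (fun x => ap (ap e x) j = k) ∈ Ts A R := by
    intro j hj k hk
    rw [htop _ fun x hx => (mem_sep.1 hx).1, mem_subTop]
    refine ⟨sep (Fn J om) fun f => ap f j = k, ?_, ?_⟩
    · rw [mem_prodTop]
      refine ⟨fun f hf => (mem_sep.1 hf).1, fun f hf => ⟨sg j, kfin_sg j, fun z hz => ?_,
        fun g hg hgf => mem_sep.2 ⟨hg, ?_⟩⟩⟩
      · rw [mem_sg] at hz
        rw [hz]
        exact hj
      · rw [hgf j (by simp)]
        exact (mem_sep.1 hf).2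
    · apply ext
      intro f
      rw [mem_img, mem_cap, mem_sep]
      constructor
      · rintro ⟨x, hx, rfl⟩
        rw [mem_sep] at hx
        exact ⟨⟨hKJ _ (heK x hx.1), hx.2⟩, heK x hx.1⟩
      · rintro ⟨⟨_, h2⟩, h3⟩
        obtain ⟨x, hx, rfl⟩ := hsurj f h3
        exact ⟨x, mem_sep.2 ⟨hx, h2⟩, rfl⟩
  have hev : ∀ j, j ∈ J → ∃ n, n ∈ (om : M) ∧ ∀ m, m ∈ (om : M) → n ∈ suc m →
      ap (ap e (pt A m)) j = ap (ap e (pt A n)) j := by
    intro j hj
    have hl : ∀ x, x ∈ Xs A → ap (lam (Xs A) fun x => ap (ap e x) j) x = ap (ap e x) j :=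
      fun x hx => by rw [ap_lam hx]
    obtain ⟨n, hn, hnc⟩ := h.ev_const hNC (lam (Xs A) fun x => ap (ap e x) j) (fun k hk => by
      have : sep (Xs A) (fun x => ap (lam (Xs A) fun x => ap (ap e x) j) x = k) =
          sep (Xs A) (fun x => ap (ap e x) j = k) := ext fun z => by
        rw [mem_sep, mem_sep]
        constructor
        · rintro ⟨h1, h2⟩
          rw [hl z h1] at h2
          exact ⟨h1, h2⟩
        · rintro ⟨h1, h2⟩
          rw [hl z h1]
          exact ⟨h1, h2⟩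
      rw [this]
      exact hcont j hj k hk) (fun x hx => by
        rw [hl x hx]
        exact (heF x hx).2 j hj)
    refine ⟨n, hn, fun m hm hnm => ?_⟩
    have := hnc m hm hnm
    rwa [hl _ (pt_mem hm), hl _ (pt_mem hn)] at this
  -- the limit
  let L : M → M → Prop := fun j k => ∃ n, n ∈ (om : M) ∧ ∀ m, m ∈ (om : M) → n ∈ suc m →
    ap (ap e (pt A m)) j = k
  have hL : ∀ j, j ∈ J → ∃! k, L j k := by
    intro j hj
    obtain ⟨n, hn, hnc⟩ := hev j hj
    refine ⟨_, ⟨n, hn, hnc⟩, ?_⟩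
    rintro k ⟨n', hn', hnc'⟩
    obtain ⟨q, hq, h1, h2⟩ := om_max (suc_mem_om hn) (suc_mem_om hn')
    have h3 : n ∈ suc q := mem_suc.2 (Or.inr (h1 n (by simp)))
    have h4 : n' ∈ suc q := mem_suc.2 (Or.inr (h2 n' (by simp)))
    rw [← hnc' q hq h4, ← hnc q hq h3]
  have iL : F1 (fun j : M => the fun k => L j k) := by
    simp only [L]
    infer_instance
  let z : M := lam J fun j => the fun k => L j k
  have hzj : ∀ j, j ∈ J → L j (ap z j) := by
    intro j hj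
    simp only [z]
    rw [ap_lam hj]
    exact the_spec (hL j hj)
  have hzF : z ∈ Fn J (om : M) := by
    rw [mem_Fn]
    refine ⟨lam_fd, fun j hj => ?_⟩
    obtain ⟨n, hn, hnc⟩ := hzj j hj

    rw [← hnc n hn (by simp)]
    exact (heF _ (pt_mem hn)).2 j hj
  -- finitely many coordinates
  have hfin : ∀ F, Kfin F → F ⊆ J → ∃ n, n ∈ (om : M) ∧ ∀ m, m ∈ (om : M) → n ∈ suc m →
      ∀ j, j ∈ F → ap (ap e (pt A m)) j = ap z j := by
    intro F hF
    refine fin_ind (P := fun F => F ⊆ J → ∃ n, n ∈ (om : M) ∧ ∀ m, m ∈ (om : M) → n ∈ suc m →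
      ∀ j, j ∈ F → ap (ap e (pt A m)) j = ap z j) ?_ ?_ hF
    · intro _
      exact ⟨emp, emp_mem_om, fun m _ _ j hj => absurd hj (not_mem_emp j)⟩
    · intro F _ ih j _ hFJ
      obtain ⟨n, hn, hnc⟩ := ih fun y hy => hFJ y (mem_ins.2 (Or.inr hy))
      obtain ⟨n', hn', hnc'⟩ := hzj j (hFJ j (by simp))
      obtain ⟨q, hq, h1, h2⟩ := om_max (suc_mem_om hn) (suc_mem_om hn')
      refine ⟨q, hq, fun m hm hqm y hy => ?_⟩
      have h3 : n ∈ suc m := by
        rcases mem_suc.1 hqm with rfl | h4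
        · exact mem_suc.2 (Or.inr (h1 n (by simp)))
        · exact mem_suc.2 (Or.inr (om_trans' hm h4 (h1 n (by simp))))
      have h4 : n' ∈ suc m := by
        rcases mem_suc.1 hqm with rfl | h4
        · exact mem_suc.2 (Or.inr (h2 n' (by simp)))
        · exact mem_suc.2 (Or.inr (om_trans' hm h4 (h2 n' (by simp))))
      rcases mem_ins.1 hy with rfl | hy
      · exact hnc' m hm h4
      · exact hnc m hm h3 y hy
  -- the limit is in `K`
  have hzK : z ∈ K := by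
    by_contra hz
    obtain ⟨F, hF, hFJ, hFK⟩ := (mem_prodTop.1 hKc).2 z (mem_df.2 ⟨hzF, hz⟩)
    obtain ⟨n, hn, hnc⟩ := hfin F hF hFJ
    have := hFK (ap e (pt A n)) (hKJ _ (heK _ (pt_mem hn))) (hnc n hn (by simp))
    exact (mem_df.1 this).2 (heK _ (pt_mem hn))
  obtain ⟨x, hx, hxz⟩ := hsurj z hzK
  -- a neighbourhood of `x` that contains only finitely many of the points `p_n`
  obtain ⟨k, hk, u, _, hxu⟩ := mem_Xs.1 hx
  let U : M := sep (Xs A) fun y => ∃ m, m ∈ suc k ∧ ∃ v, y = op m v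
  have hUm : ∀ y, y ∈ U ↔ y ∈ Xs A ∧ ∃ m, m ∈ suc k ∧ ∃ v, y = op m v := fun y => by
    simp only [U]
    rw [mem_sep]
  have hU : U ∈ Ts A R := by
    refine mem_Ts.2 ⟨fun y hy => ((hUm y).1 hy).1, fun n hn => ⟨fun hp => ?_, fun hp => ?_⟩⟩
    · obtain ⟨_, m, hm, v, e1⟩ := (hUm _).1 hp
      obtain ⟨rfl, _⟩ := op_inj.1 e1
      obtain ⟨c, hc⟩ := (h n hn).ne
      exact ⟨c, hc, fun a ha _ => (hUm _).2 ⟨op_mem hn ha, n, hm, a, rfl⟩⟩
    · obtain ⟨_, m, hm, v, e1⟩ := (hUm _).1 hp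
      obtain ⟨rfl, _⟩ := op_inj.1 e1
      obtain ⟨c, hc⟩ := (h n hn).ne
      exact ⟨c, hc, fun a ha _ => (hUm _).2 ⟨op_mem hn ha, n,
        om_trans' (suc_mem_om hk) hm (by simp), a, rfl⟩⟩
  have hUX : U ⊆ Xs A := fun y hy => ((hUm y).1 hy).1
  obtain ⟨W, hW, hWU⟩ := mem_subTop.1 ((htop U hUX).1 hU)
  have hzW : z ∈ cap W K := by
    rw [← hWU, mem_img]
    exact ⟨x, (hUm x).2 ⟨hx, k, by simp, u, hxu⟩, hxz.symm⟩
  rw [mem_cap] at hzW
  obtain ⟨F, hF, hFJ, hFW⟩ := (mem_prodTop.1 hW).2 z hzW.1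
  obtain ⟨n, hn, hnc⟩ := hfin F hF hFJ
  obtain ⟨q, hq, h1, h2⟩ := om_max (suc_mem_om hn) (suc_mem_om hk)
  have h3 : n ∈ suc q := mem_suc.2 (Or.inr (h1 n (by simp)))
  have h4 : k ∈ q := h2 k (by simp)
  have h5 : ap e (pt A q) ∈ cap W K := mem_cap.2
    ⟨hFW _ (hKJ _ (heK _ (pt_mem hq))) (hnc q hq h3), heK _ (pt_mem hq)⟩
  rw [← hWU, mem_img] at h5
  obtain ⟨y, hy, hye⟩ := h5
  have h6 : pt A q = y := hinj _ (pt_mem hq) _ (hUX y hy) hye
  rw [← h6] at hy
  obtain ⟨_, m, hm, v, e1⟩ := (hUm _).1 hy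
  obtain ⟨rfl, _⟩ := op_inj.1 e1
  rcases mem_suc.1 hm with rfl | h7
  · exact not_mem_self _ h4
  · exact not_mem_cycle h4 h7

theorem Seq.sub_Sn (h : Seq A R) {x : M} (hx : x ∈ Xs A) : ∃ n, n ∈ (om : M) ∧ x ∈ Sn A n := by
  have _ := h
  obtain ⟨k, hk, u, _, hxu⟩ := mem_Xs.1 hx
  exact ⟨suc k, suc_mem_om hk, mem_Sn.2 ⟨hx, Or.inr ⟨k, by simp, u, hxu⟩⟩⟩

end main

/-- In a model of ZF the statement of Q1 implies partial countable choice for linear orders of
type `ℤ`. -/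
theorem partialZChoice_of_statement (hQ : CountableUnionStatement M) : PartialZChoice M := by
  intro A R _ _ hZ
  by_contra hcon
  have h : Seq A R := hZ
  have hNC : NoChoice A := fun D f hD hinf hf hch => hcon ⟨D, f, hD, hinf, hf, hch⟩
  refine h.not_nCompact hNC (hQ (Xs A) (Ts A R) (lam om fun n => Sn A n) h.isTop h.isZeroDim
    h.isT1 lam_fd ?_ ?_ ?_ ?_)
  · intro n hn
    rw [ap_lam hn]
    exact Sn_sub
  · intro x hx
    obtain ⟨n, hn, hx⟩ := h.sub_Sn hx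
    refine ⟨n, hn, ?_⟩
    rw [ap_lam hn]
    exact hx
  · intro n hn
    rw [ap_lam hn]
    exact h.nCompact hn
  · intro n hn
    rw [ap_lam hn]
    exact h.cdEmb hn

end Pool.Agent.helper74.ZT
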