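import Pool.Agent.helper74.ForOp
import Pool.Agent.helper74.ZTopMain

/-!
# A model of ZF with a sequence of orders of type `ℤ` without a partial choice function
-/

namespace Pool.Agent.helper74.Forc

open Pool.Agent.helper31.ZF Pool.Agent.helper74.ZT

/-! ### the forcing: a sequence of `2`-adic integers -/

/-- Conditions: `(N, r)` says that the `m`-th `2`-adic integer is `r m` modulo `2 ^ N`, for
`m < N`. -/
structure Cd where
  /-- the level -/
  N : ℕ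
  /-- the residues -/
  r : ℕ →₀ ℤ

instance : Countable Cd := by
  refine Function.Injective.countable (f := fun c : Cd => (c.N, c.r)) ?_
  rintro ⟨N, r⟩ ⟨N', r'⟩ h
  simp only [Prod.mk.injEq] at h
  rw [h.1, h.2]

instance : Preorder Cd where
  le p q := q.N ≤ p.N ∧ ∀ m < q.N, (2 : ℤ) ^ q.N ∣ p.r m - q.r m
  le_refl p := ⟨le_rfl, fun m _ => by simp⟩
  le_trans p q s h h' := ⟨h'.1.trans h.1, fun m hm => by
    have h1 : (2 : ℤ) ^ s.N ∣ p.r m - q.r m :=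
      (pow_dvd_pow 2 h'.1).trans (h.2 m (lt_of_lt_of_le hm h'.1))
    have h2 := dvd_add h1 (h'.2 m hm)
    rwa [sub_add_sub_cancel] at h2⟩

theorem cd_le {p q : Cd} : p ≤ q ↔ q.N ≤ p.N ∧ ∀ m < q.N, (2 : ℤ) ^ q.N ∣ p.r m - q.r m := Iff.rfl

/-- The group: finitely supported sequences of integers, acting by translation. -/
abbrev Gp : Type := Multiplicative (ℕ →₀ ℤ)

noncomputable instance : MulAction Gp Cd where
  smul g p := ⟨p.N, g.toAdd + p.r⟩
  one_smul p := by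
    change Cd.mk p.N ((1 : Gp).toAdd + p.r) = p
    rw [toAdd_one, zero_add]
  mul_smul g h p := by
    change Cd.mk p.N ((g * h).toAdd + p.r) = Cd.mk p.N (g.toAdd + (h.toAdd + p.r))
    rw [toAdd_mul, add_assoc]

theorem smul_N (g : Gp) (p : Cd) : (g • p).N = p.N := rfl

theorem smul_r (g : Gp) (p : Cd) (m : ℕ) : (g • p).r m = g.toAdd m + p.r m := rfl

/-- The subgroup of translations that are zero below `m`. -/
def fixG (m : ℕ) : Subgroup Gp where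
  carrier := {g | ∀ i < m, g.toAdd i = 0}
  mul_mem' {a b} ha hb i hi := by
    rw [toAdd_mul, Finsupp.add_apply, ha i hi, hb i hi, add_zero]
  one_mem' i _ := by
    rw [toAdd_one, Finsupp.zero_apply]
  inv_mem' {a} ha i hi := by
    rw [toAdd_inv, Finsupp.neg_apply, ha i hi, neg_zero]

theorem mem_fixG {m : ℕ} {g : Gp} : g ∈ fixG m ↔ ∀ i < m, g.toAdd i = 0 := Iff.rfl

theorem fixG_anti {m n : ℕ} (h : m ≤ n) : fixG n ≤ fixG m := fun _ hg i hi => hg i (hi.trans_le h)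

instance : SymSys Gp Cd where
  le g p q h := by
    refine ⟨h.1, fun m hm => ?_⟩
    rw [smul_r, smul_r]
    have := h.2 m hm
    rwa [add_sub_add_left_eq_sub]
  big H := ∃ m, fixG m ≤ H
  big_top := ⟨0, le_top⟩
  big_inf := fun H K ⟨m, hm⟩ ⟨n, hn⟩ => ⟨max m n, le_inf ((fixG_anti (le_max_left _ _)).trans hm)
    ((fixG_anti (le_max_right _ _)).trans hn)⟩
  big_up := fun H K h ⟨m, hm⟩ => ⟨m, hm.trans h⟩
  big_conj := fun H g h => ⟨H, h, fun k hk => by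
    rw [mul_comm g⁻¹ k, mul_assoc, inv_mul_cancel, mul_one]
    exact hk⟩

/-! ### the names -/

/-- The code of a residue class. -/
def cod (s : ℕ × ℤ) : ℕ := Encodable.encode s

theorem cod_inj {s t : ℕ × ℤ} (h : cod s = cod t) : s = t := Encodable.encode_injective h

/-- The name of the `n`-th `2`-adic integer plus `k`. -/
def aN (n : ℕ) (k : ℤ) : Nm Cd := .mk (ℕ × ℤ) (fun s => nn Cd (cod s))
  (fun s p => s.1 ≤ p.N ∧ n < p.N ∧ (2 : ℤ) ^ s.1 ∣ p.r n + k - s.2)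

theorem act_aN (g : Gp) (n : ℕ) (k : ℤ) : act g (aN n k) = aN n (k - g.toAdd n) := by
  unfold aN
  rw [act_mk]
  congr 1
  · funext s
    exact act_nn g _
  · funext s p
    rw [smul_N, smul_r, toAdd_inv, Finsupp.neg_apply]
    congr! 3
    ring

theorem hs_aN (n : ℕ) (k : ℤ) : HS Gp (aN n k) := by
  refine HS.intro ⟨fixG (n + 1), ⟨n + 1, le_rfl⟩, fun g hg p => ?_⟩ fun s => hs_nn _
  rw [act_aN, hg n (Nat.lt_succ_self n), sub_zero]
  exact feq.refl _ _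

theorem hc_aN (n : ℕ) (k : ℤ) : HC (aN n k) := ⟨inferInstance, fun _ => hc_nn _⟩

theorem aN_ne (n : ℕ) {k l : ℤ} (hkl : k ≠ l) (p : Cd) : ¬ feq (aN n k) (aN n l) p := by
  intro h
  -- a strong extension of the condition
  obtain ⟨L, hL1, hL2, hL3⟩ : ∃ L : ℕ, p.N ≤ L ∧ n < L ∧ |l - k| < (2 : ℤ) ^ L := by
    refine ⟨max p.N (max (n + 1) (l - k).natAbs), le_max_left _ _, ?_, ?_⟩
    · exact lt_of_lt_of_le (Nat.lt_succ_self n) ((le_max_left _ _).trans (le_max_right _ _))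
    · have h1 : (l - k).natAbs < 2 ^ (max p.N (max (n + 1) (l - k).natAbs)) :=
        lt_of_lt_of_le Nat.lt_two_pow_self (Nat.pow_le_pow_right (by norm_num)
          ((le_max_right _ _).trans (le_max_right _ _)))
      have h2 : ((l - k).natAbs : ℤ) < ((2 ^ (max p.N (max (n + 1) (l - k).natAbs)) : ℕ) : ℤ) :=
        Int.ofNat_lt.2 h1
      rw [Int.natCast_natAbs] at h2
      push_cast at h2
      exact h2
  let q : Cd := ⟨L, p.r⟩
  have hq : q ≤ p := ⟨hL1, fun m _ => by simp [q]⟩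
  rw [feq_def] at h
  obtain ⟨s, hs, j, hj, he⟩ := h.1 (L, p.r n + k) q hq ⟨q, le_rfl, le_rfl, hL2, by simp [q]⟩
  have hj' : j = (L, p.r n + k) := by
    by_contra hne
    exact nn_ne (fun hc => hne (cod_inj hc).symm) s he
  obtain ⟨t, ht, h1, h2, h3⟩ : Dw (aN n l).wt (L, p.r n + k) s := by
    rw [← hj']
    exact hj
  change L ≤ t.N at h1
  change (2 : ℤ) ^ L ∣ t.r n + l - (p.r n + k) at h3
  have h4 : (2 : ℤ) ^ L ∣ s.r n - t.r n := (pow_dvd_pow 2 h1).trans (ht.2 n h2)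
  have h5 : (2 : ℤ) ^ L ∣ s.r n - p.r n := hs.2 n hL2
  have h6 : (2 : ℤ) ^ L ∣ l - k := by
    have := dvd_sub (dvd_add h4 h3) h5
    have e : s.r n - t.r n + (t.r n + l - (p.r n + k)) - (s.r n - p.r n) = l - k := by ring
    rwa [e] at this
  exact hkl (sub_eq_zero.1 (Int.eq_zero_of_abs_lt_dvd h6 hL3)).symm

/-- The name of the `n`-th order: the set. -/
def AN (n : ℕ) : Nm Cd := .mk ℤ (fun k => aN n k) (fun _ _ => True)

/-- The name of the `n`-th order: the relation. -/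
def RN (n : ℕ) : Nm Cd := .mk {s : ℤ × ℤ // s.1 < s.2} (fun s => opN (aN n s.1.1) (aN n s.1.2))
  (fun _ _ => True)

theorem hs_AN (n : ℕ) : HS Gp (AN n) := by
  refine hs_family _ (fun k => hs_aN n k) ⊤ SymSys.big_top fun g _ k =>
    ⟨k - g.toAdd n, fun p => ?_⟩
  rw [act_aN]
  exact feq.refl _ _

theorem feq_AN (g : Gp) (n : ℕ) (p : Cd) : feq (act g (AN n)) (AN n) p := by
  unfold AN
  rw [act_mk, feq_def]
  refine ⟨fun (k : ℤ) q _ _ => ⟨q, le_rfl, (k - g.toAdd n : ℤ), dw_true _ _, ?_⟩,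
    fun (k : ℤ) q _ _ => ⟨q, le_rfl, (k + g.toAdd n : ℤ), dw_true _ _, ?_⟩⟩
  · change feq (act g (aN n k)) (aN n (k - g.toAdd n)) q
    rw [act_aN]
    exact feq.refl _ _
  · change feq (act g (aN n (k + g.toAdd n))) (aN n k) q
    rw [act_aN, add_sub_cancel_right]
    exact feq.refl _ _

theorem feq_RN (g : Gp) (n : ℕ) (p : Cd) : feq (act g (RN n)) (RN n) p := by
  unfold RN
  rw [act_mk, feq_def]
  refine ⟨fun (s : {s : ℤ × ℤ // s.1 < s.2}) q _ _ => ⟨q, le_rfl,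
    (⟨(s.1.1 - g.toAdd n, s.1.2 - g.toAdd n), by
      have := s.2
      change s.1.1 - _ < s.1.2 - _
      omega⟩ : {s : ℤ × ℤ // s.1 < s.2}), dw_true _ _, ?_⟩,
    fun (s : {s : ℤ × ℤ // s.1 < s.2}) q _ _ => ⟨q, le_rfl,
    (⟨(s.1.1 + g.toAdd n, s.1.2 + g.toAdd n), by
      have := s.2
      change s.1.1 + _ < s.1.2 + _
      omega⟩ : {s : ℤ × ℤ // s.1 < s.2}), dw_true _ _, ?_⟩⟩
  · change feq (act g (opN (aN n s.1.1) (aN n s.1.2)))
      (opN (aN n (s.1.1 - g.toAdd n)) (aN n (s.1.2 - g.toAdd n))) q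
    rw [act_opN, act_aN, act_aN]
    exact feq.refl _ _
  · change feq (act g (opN (aN n (s.1.1 + g.toAdd n)) (aN n (s.1.2 + g.toAdd n))))
      (opN (aN n s.1.1) (aN n s.1.2)) q
    rw [act_opN, act_aN, act_aN, add_sub_cancel_right, add_sub_cancel_right]
    exact feq.refl _ _

theorem hs_RN (n : ℕ) : HS Gp (RN n) :=
  HS.intro ⟨⊤, SymSys.big_top, fun g _ p => feq_RN g n p⟩ fun _ => hs_opN (hs_aN _ _) (hs_aN _ _)

theorem hc_AN (n : ℕ) : HC (AN n) := ⟨inferInstance, fun _ => hc_aN _ _⟩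

theorem hc_RN (n : ℕ) : HC (RN n) := ⟨inferInstance, fun _ => hc_opN (hc_aN _ _) (hc_aN _ _)⟩

/-- All names that we need. -/
def XN : Bool ⊕ (ℕ × ℤ) → Nm Cd
  | .inl true => Gen.seqN AN
  | .inl false => Gen.seqN RN
  | .inr s => opN (nn Cd s.1) (aN s.1 s.2)

theorem hs_XN : ∀ i, HS Gp (XN i)
  | .inl true => hs_seqN hs_AN ⊤ SymSys.big_top fun g _ n p => feq_AN g n p
  | .inl false => hs_seqN hs_RN ⊤ SymSys.big_top fun g _ n p => feq_RN g n p
  | .inr _ => hs_opN (hs_nn _) (hs_aN _ _)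

theorem hc_XN : ∀ i, HC (XN i)
  | .inl true => hc_seqN hc_AN
  | .inl false => hc_seqN hc_RN
  | .inr _ => hc_opN (hc_nn _) (hc_aN _ _)

/-! ### the model -/

section model

open Gen

/-- Generic data with all names that we need. -/
class Good (Γ : Gen Gp Cd) : Prop where
  om : Γ.HasOm
  nm : ∀ i, ∀ y ∈ tc (XN i), Γ.In y

variable (Γ : Gen Gp Cd) [hΓ : Good Γ]

instance : Fact Γ.HasOm := ⟨hΓ.om⟩

variable {Γ}

theorem in_seqA : ∀ y ∈ tc (Gen.seqN AN), Γ.In y := hΓ.nm (.inl true)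

theorem in_seqR : ∀ y ∈ tc (Gen.seqN RN), Γ.In y := hΓ.nm (.inl false)

theorem in_op (n : ℕ) (k : ℤ) : ∀ y ∈ tc (opN (nn Cd n) (aN n k)), Γ.In y := hΓ.nm (.inr (n, k))

theorem in_nn (n : ℕ) : Γ.In (nn Cd n) := hΓ.om.nn n

theorem in_A (n : ℕ) : ∀ y ∈ tc (AN n), Γ.In y := by
  intro y hy
  refine in_seqA y ?_
  have : ∀ {x y z : Nm Cd}, x ∈ tc y → y ∈ tc z → x ∈ tc z := by
    intro x y z hx hy
    induction z with
    | mk ι A W ih =>
      rcases hy with rfl | hy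
      · exact hx
      · obtain ⟨i, hi⟩ := Set.mem_iUnion.1 hy
        exact Set.mem_insert_of_mem _ (Set.mem_iUnion.2 ⟨i, ih i hi⟩)
  refine this hy ?_
  exact tc_el (y := prN (nn Cd n) (AN n)) (tc_el (y := opN (nn Cd n) (AN n))
    (tc_el (y := Gen.seqN AN) (tc_self _) n) false) false

theorem in_R (n : ℕ) : ∀ y ∈ tc (RN n), Γ.In y := by
  intro y hy
  refine in_seqR y ?_
  have : ∀ {x y z : Nm Cd}, x ∈ tc y → y ∈ tc z → x ∈ tc z := by
    intro x y z hx hy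
    induction z with
    | mk ι A W ih =>
      rcases hy with rfl | hy
      · exact hx
      · obtain ⟨i, hi⟩ := Set.mem_iUnion.1 hy
        exact Set.mem_insert_of_mem _ (Set.mem_iUnion.2 ⟨i, ih i hi⟩)
  refine this hy ?_
  exact tc_el (y := prN (nn Cd n) (RN n)) (tc_el (y := opN (nn Cd n) (RN n))
    (tc_el (y := Gen.seqN RN) (tc_self _) n) false) false

theorem in_a (n : ℕ) (k : ℤ) : Γ.In (aN n k) :=
  in_A n _ (tc_el (y := AN n) (tc_self _) k)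

variable (Γ) in
/-- The elements of the orders. -/
noncomputable def al (n : ℕ) (k : ℤ) : Γ.Mod := Γ.of (aN n k)

theorem al_inj {n : ℕ} {k l : ℤ} : al Γ n k = al Γ n l ↔ k = l := by
  constructor
  · intro h
    by_contra hne
    obtain ⟨j, hj⟩ := (of_eq (in_a n k) (in_a n l)).1 h
    exact aN_ne n hne _ hj
  · rintro rfl
    rfl

theorem mem_A {n : ℕ} {z : Γ.Mod} : z ∈ Γ.of (AN n) ↔ ∃ k, z = al Γ n k :=
  mem_mk_true (in_A n _ (tc_self _)) fun k => in_a n k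

theorem of_opR {n : ℕ} {k l : ℤ} (h : k < l) : Γ.In (opN (aN n k) (aN n l)) ∧
    Γ.of (opN (aN n k) (aN n l)) = op (al Γ n k) (al Γ n l) := by
  have h1 : opN (aN n k) (aN n l) ∈ tc (RN n) := tc_el (y := RN n) (tc_self _) ⟨(k, l), h⟩
  have h2 : prN (aN n k) (aN n k) ∈ tc (RN n) := tc_el (y := opN (aN n k) (aN n l)) h1 true
  have h3 : prN (aN n k) (aN n l) ∈ tc (RN n) := tc_el (y := opN (aN n k) (aN n l)) h1 false
  exact ⟨in_R n _ h1, of_opN (in_R n _ h1) (in_R n _ h2) (in_R n _ h3) (in_a n k) (in_a n l)⟩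

theorem mem_R {n : ℕ} {k l : ℤ} : op (al Γ n k) (al Γ n l) ∈ Γ.of (RN n) ↔ k < l := by
  have h0 : Γ.In (RN n) := in_R n _ (tc_self _)
  have h1 : op (al Γ n k) (al Γ n l) ∈ Γ.of (RN n) ↔ ∃ s : {s : ℤ × ℤ // s.1 < s.2},
      op (al Γ n k) (al Γ n l) = Γ.of (opN (aN n s.1.1) (aN n s.1.2)) :=
    mem_mk_true h0 fun s => (of_opR s.2).1
  rw [h1]
  constructor
  · rintro ⟨s, hs⟩
    rw [(of_opR s.2).2, op_inj, al_inj, al_inj] at hs
    rw [hs.1, hs.2]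
    exact s.2
  · intro h
    exact ⟨⟨(k, l), h⟩, (of_opR h).2.symm⟩

theorem isZOrder (n : ℕ) : IsZOrder (Γ.of (AN n)) (Γ.of (RN n)) where
  ne := ⟨al Γ n 0, mem_A.2 ⟨0, rfl⟩⟩
  irr := by
    intro x hx
    obtain ⟨k, rfl⟩ := mem_A.1 hx
    rw [mem_R]
    exact lt_irrefl k
  trans := by
    intro x y z hx hy hz
    obtain ⟨k, rfl⟩ := mem_A.1 hx
    obtain ⟨l, rfl⟩ := mem_A.1 hy
    obtain ⟨m, rfl⟩ := mem_A.1 hz
    rw [mem_R, mem_R, mem_R]
    exact lt_trans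
  total := by
    intro x y hx hy
    obtain ⟨k, rfl⟩ := mem_A.1 hx
    obtain ⟨l, rfl⟩ := mem_A.1 hy
    rw [mem_R, mem_R, al_inj]
    exact lt_trichotomy k l
  noMax := by
    intro x hx
    obtain ⟨k, rfl⟩ := mem_A.1 hx
    exact ⟨al Γ n (k + 1), mem_A.2 ⟨_, rfl⟩, mem_R.2 (by omega)⟩
  noMin := by
    intro x hx
    obtain ⟨k, rfl⟩ := mem_A.1 hx
    exact ⟨al Γ n (k - 1), mem_A.2 ⟨_, rfl⟩, mem_R.2 (by omega)⟩
  max := by
    rintro B hB ⟨x, hx⟩ ⟨u, hu, hub⟩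
    obtain ⟨k, rfl⟩ := mem_A.1 (hB x hx)
    obtain ⟨b, rfl⟩ := mem_A.1 hu
    obtain ⟨m, hm, hmax⟩ := Int.exists_greatest_of_bdd (P := fun m => al Γ n m ∈ B)
      ⟨b, fun z hz => (mem_R.1 (hub _ hz)).le⟩ ⟨k, hx⟩
    refine ⟨_, hm, fun y hy => ?_⟩
    obtain ⟨l, rfl⟩ := mem_A.1 (hB y hy)
    rw [al_inj, mem_R]
    exact (hmax l hy).eq_or_lt
  min := by
    rintro B hB ⟨x, hx⟩ ⟨u, hu, hub⟩
    obtain ⟨k, rfl⟩ := mem_A.1 (hB x hx)
    obtain ⟨b, rfl⟩ := mem_A.1 hu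
    obtain ⟨m, hm, hmin⟩ := Int.exists_least_of_bdd (P := fun m => al Γ n m ∈ B)
      ⟨b, fun z hz => (mem_R.1 (hub _ hz)).le⟩ ⟨k, hx⟩
    refine ⟨_, hm, fun y hy => ?_⟩
    obtain ⟨l, rfl⟩ := mem_A.1 (hB y hy)
    rw [al_inj, mem_R]
    exact (hmin l hy).eq_or_lt.imp Eq.symm id

theorem of_opA (n : ℕ) (k : ℤ) : Γ.In (opN (nn Cd n) (aN n k)) ∧
    Γ.of (opN (nn Cd n) (aN n k)) = op (Γ.N n) (al Γ n k) := by
  have h1 : opN (nn Cd n) (aN n k) ∈ tc (opN (nn Cd n) (aN n k)) := tc_self _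
  have h2 : prN (nn Cd n) (nn Cd n) ∈ tc (opN (nn Cd n) (aN n k)) :=
    tc_el (y := opN (nn Cd n) (aN n k)) h1 true
  have h3 : prN (nn Cd n) (aN n k) ∈ tc (opN (nn Cd n) (aN n k)) :=
    tc_el (y := opN (nn Cd n) (aN n k)) h1 false
  exact ⟨in_op n k _ h1, of_opN (in_op n k _ h1) (in_op n k _ h2) (in_op n k _ h3) (in_nn n)
    (in_a n k)⟩

theorem not_partialZChoice : ¬ PartialZChoice Γ.Mod := by
  intro h
  obtain ⟨D, f, hD, hinf, hf, hch⟩ := h (Γ.of (Gen.seqN AN)) (Γ.of (Gen.seqN RN))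
    (seqN_fd in_seqA) (seqN_fd in_seqR) (fun x hx => by
      obtain ⟨n, rfl⟩ := mem_om'.1 hx
      rw [ap_seqN in_seqA, ap_seqN in_seqR]
      exact isZOrder n)
  obtain ⟨F, hF, hFs, rfl⟩ := exists_of f
  obtain ⟨H, ⟨m, hm⟩, hH⟩ := hFs.sym
  obtain ⟨n, hmn, hn⟩ := exists_ge_of_infinite hD hinf m
  have h1 := hch _ hn
  rw [ap_seqN in_seqA] at h1
  obtain ⟨k, hk⟩ := mem_A.1 h1
  have h2 : op (Γ.N n) (al Γ n k) ∈ Γ.of F := by
    rw [← hk]
    exact hf.op_ap hn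
  rw [← (of_opA n k).2, mem_iff, E_of (of_opA n k).1 hF] at h2
  obtain ⟨j, hj⟩ := h2
  let q : Cd := Γ.g j
  let g : Gp := Multiplicative.ofAdd (Finsupp.single n ((2 : ℤ) ^ q.N))
  have hg : ∀ i, g.toAdd i = if n = i then (2 : ℤ) ^ q.N else 0 := by
    intro i
    change (Finsupp.single n ((2 : ℤ) ^ q.N)) i = _
    rw [Finsupp.single_apply]
  have hgH : g ∈ H := by
    refine hm fun i hi => ?_
    rw [hg, if_neg (by omega)]
  have hq : q ≤ g • q := by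
    refine ⟨le_rfl, fun i _ => ?_⟩
    rw [smul_r, smul_N, hg]
    split_ifs
    · rw [show q.r i - (2 ^ q.N + q.r i) = -(2 ^ q.N) by ring]
      exact (dvd_refl _).neg_right
    · simp
  have h3 := fmem_act_aux g hj
  rw [act_opN, act_nn, act_aN, hg, if_pos rfl] at h3
  have h4 : fmem (opN (nn Cd n) (aN n (k - 2 ^ q.N))) F q :=
    (h3.congr_right (hH g hgH _)).mono hq
  have h5 : op (Γ.N n) (al Γ n (k - 2 ^ q.N)) ∈ Γ.of F := by
    rw [← (of_opA n _).2, mem_iff, E_of (of_opA n _).1 hF]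
    exact ⟨j, h4⟩
  have h6 := hf.ap_eq h5
  rw [hk, al_inj] at h6
  have : (0 : ℤ) < 2 ^ q.N := by positivity
  omega

end model

/-- There is a model of ZF in which partial countable choice for orders of type `ℤ` fails. -/
theorem exists_not_partialZChoice : ∃ (M : Type) (_ : ZFModel M), ¬ PartialZChoice M := by
  obtain ⟨Γ, h1, h2, _⟩ := exists_gen' (G := Gp) XN hc_XN hs_XN ⟨0, 0⟩
  have : Good Γ := ⟨h1, h2⟩
  exact ⟨Γ.Mod, inferInstance, not_partialZChoice⟩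

end Pool.Agent.helper74.Forc
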