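import Pool.Agent.helper74.ForGen

/-!
# The symmetric extension is a model of ZF
-/

namespace Pool.Agent.helper74.Forc

open Pool.Agent.helper31.ZF

section zf

variable {G P : Type} [Group G] [Preorder P] [MulAction G P] [SymSys G P]

/-- Names defined by formulas with parameters. -/
theorem comp_name {n : ℕ} (ψ : Fml (n + 1)) (v : Fin n → HN G P) (κ : Type) (B : κ → HN G P)
    (h : ∀ (z : HN G P) (p : P), F ψ (push v z) p → ∃ q ≤ p, ∃ i, feq z.1 (B i).1 q) :
    HS G (.mk κ (fun i => (B i).1) (fun i p => F ψ (push v (B i)) p) : Nm P) ∧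
    ∀ (z : HN G P) (p : P),
      fmem z.1 (.mk κ (fun i => (B i).1) (fun i p => F ψ (push v (B i)) p)) p ↔
        F ψ (push v z) p := by
  have key : ∀ (z : HN G P) (p : P),
      fmem z.1 (.mk κ (fun i => (B i).1) (fun i p => F ψ (push v (B i)) p)) p ↔
        F ψ (push v z) p := by
    intro z p
    have hc : ∀ (i : κ) (q : P), feq z.1 (B i).1 q → (F ψ (push v z) q ↔ F ψ (push v (B i)) q) := by
      intro i q hq
      refine F_congr fun j => ?_
      rcases Fin.eq_castSucc_or_eq_last j with ⟨j, rfl⟩ | rfl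
      · rw [push_castSucc, push_castSucc]
        exact feq.refl _ _
      · rw [push_last, push_last]
        exact hq
    constructor
    · intro hm
      refine F_dense fun q hq => ?_
      obtain ⟨r, hr, i, ⟨s, hs, hW⟩, he⟩ := hm q hq
      exact ⟨r, hr, (hc i r he).2 (F_mono hW hs)⟩
    · intro hF q hq
      obtain ⟨r, hr, i, he⟩ := h z q (F_mono hF hq)
      exact ⟨r, hr, i, ⟨r, le_rfl, (hc i r he).1 (F_mono hF (hr.trans hq))⟩, he⟩
  exact ⟨hs_of_def ψ v _ (fun i => (B i).2) key, key⟩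

namespace Gen

variable (Γ : Gen G P)

/-- Comprehension in the model from names. -/
theorem comp_model {n : ℕ} (ψ : Fml (n + 1))
    (h : ∀ v : Fin n → HN G P, ∃ (κ : Type) (B : κ → HN G P), ∀ (z : HN G P) (p : P),
      F ψ (push v z) p → ∃ q ≤ p, ∃ i, feq z.1 (B i).1 q) (v : Fin n → Γ.Mod) :
    ∃ b, ∀ z, Γ.E z b ↔ Sat Γ.E ψ (push v z) := by
  let ρ : Fin (n + 1) → Fin (n + 2) := push (fun i : Fin n => i.castSucc.castSucc)
    (Fin.last (n + 1))
  have hρ : ∀ {α : Type _} (v : Fin n → α) (b z : α),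
      (fun i => push (push v b) z (ρ i)) = push v z := by
    intro α v b z
    funext i
    rcases Fin.eq_castSucc_or_eq_last i with ⟨j, rfl⟩ | rfl
    · simp only [ρ, push_castSucc]
    · simp only [ρ, push_last]
  have hρ' : ∀ {α : Type} (v : Fin n → α) (b z : α),
      (fun i => push (push v b) z (ρ i)) = push v z := by
    intro α v b z
    funext i
    rcases Fin.eq_castSucc_or_eq_last i with ⟨j, rfl⟩ | rfl
    · simp only [ρ, push_castSucc]
    · simp only [ρ, push_last]
  let Φ : Fml n := fex (.all (fiff (.mem (Fin.last (n + 1)) (Fin.last n).castSucc)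
    (ψ.rename ρ)))
  have hΦ : Sat Γ.E Φ v := by
    refine Γ.sat_of_forced (fun v p => ?_) v
    rw [F_ex]
    intro q _
    obtain ⟨κ, B, hB⟩ := h v
    obtain ⟨hs, hb⟩ := comp_name ψ v κ B hB
    refine ⟨q, le_rfl, ⟨_, hs⟩, ?_⟩
    rw [F_all]
    intro z
    rw [F_iff]
    intro r _
    rw [F_rename, hρ, F_mem, push_last, push_castSucc, push_last]
    exact hb z r
  rw [sat_ex] at hΦ
  obtain ⟨b, hb⟩ := hΦ
  refine ⟨b, fun z => ?_⟩
  have h1 : Sat Γ.E (fiff (.mem (Fin.last (n + 1)) (Fin.last n).castSucc)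
    (ψ.rename ρ)) (push (push v b) z) := hb z
  rw [sat_iff, sat_rename, hρ'] at h1
  have h2 : Sat Γ.E (.mem (Fin.last (n + 1)) (Fin.last n).castSucc) (push (push v b) z) ↔
      Γ.E z b := by
    change Γ.E (push (push v b) z (Fin.last (n + 1))) (push (push v b) z (Fin.last n).castSucc) ↔ _
    rw [push_last, push_castSucc, push_last]
  rw [← h2]
  exact h1

theorem ax_ext (x y : Γ.Mod) (h : ∀ z, Γ.E z x ↔ Γ.E z y) : x = y := by
  let Φ : Fml 2 := fimp (.all (fiff (.mem 2 0) (.mem 2 1))) (.eq 0 1)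
  have hΦ : Sat Γ.E Φ (push (push Fin.elim0 x) y) := by
    refine Γ.sat_of_forced (fun v p => ?_) _
    rw [F_imp]
    intro q _ hq
    rw [F_all] at hq
    rw [F_eq]
    refine feq_of_el (fun i r hr hW => ?_) (fun i r hr hW => ?_)
    · have h1 := hq ((v 0).el i)
      rw [F_iff] at h1
      exact (h1 r hr).1 (fmem_el _ hW)
    · have h1 := hq ((v 1).el i)
      rw [F_iff] at h1
      exact (h1 r hr).2 (fmem_el _ hW)
  rw [sat_imp] at hΦ
  refine hΦ fun z => ?_
  change Sat Γ.E (fiff (.mem 2 0) (.mem 2 1)) (push (push (push Fin.elim0 x) y) z)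
  rw [sat_iff]
  exact h z

theorem ax_foundation (x : Γ.Mod) (h : ∃ y, Γ.E y x) :
    ∃ y, Γ.E y x ∧ ∀ z, Γ.E z y → ¬ Γ.E z x := by
  obtain ⟨y, hy⟩ := h
  obtain ⟨a, rfl⟩ := Γ.exists_cl y
  have hwf : WellFounded (fun a b : ℕ => Sub (Γ.h a).1 (Γ.h b).1) :=
    InvImage.wf (fun a => (Γ.h a).1) sub_wf
  obtain ⟨c, hc, hmin⟩ := hwf.has_min {c : ℕ | Γ.E (Γ.cl c) x} ⟨a, hy⟩
  refine ⟨Γ.cl c, hc, fun z hz hzx => ?_⟩
  obtain ⟨d, rfl⟩ := Γ.exists_cl z
  obtain ⟨i, e, he, k, _, hk⟩ := Γ.t4 d c hz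
  have h1 : Γ.cl d = Γ.cl e := Γ.cl_eq.2 ⟨k, hk⟩
  rw [h1] at hzx
  refine hmin e hzx ⟨i, ?_⟩
  rw [he]
  rfl

theorem ax_pairing (x y : Γ.Mod) : ∃ p, ∀ z, Γ.E z p ↔ (z = x ∨ z = y) := by
  obtain ⟨b, hb⟩ := Γ.comp_model (n := 2) (fdis (.eq 2 0) (.eq 2 1)) (fun v => by
    refine ⟨Bool, fun i => cond i (v 0) (v 1), fun z p h => ?_⟩
    rw [F_dis] at h
    obtain ⟨r, hr, h1 | h1⟩ := h p le_rfl
    · exact ⟨r, hr, true, h1⟩
    · exact ⟨r, hr, false, h1⟩) (push (push Fin.elim0 x) y)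
  refine ⟨b, fun z => ?_⟩
  rw [hb, sat_dis]
  rfl

theorem ax_union (x : Γ.Mod) : ∃ u, ∀ z, Γ.E z u ↔ ∃ y, Γ.E y x ∧ Γ.E z y := by
  obtain ⟨b, hb⟩ := Γ.comp_model (n := 1) (fex (.and (.mem 2 0) (.mem 1 2))) (fun v => by
    refine ⟨Σ i : (v 0).1.ix, ((v 0).el i).1.ix, fun s => ((v 0).el s.1).el s.2,
      fun z p h => ?_⟩
    rw [F_ex] at h
    obtain ⟨q, hq, y, hy, hz⟩ := h p le_rfl
    have hy' : fmem y.1 (v 0).1 q := hy
    have hz' : fmem z.1 y.1 q := hz
    obtain ⟨r, hr, i, hi, he⟩ := hy' q le_rfl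
    have hz2 : fmem z.1 ((v 0).el i).1 r := (hz'.mono hr).congr_right he
    obtain ⟨s, hs, j, hj, he'⟩ := hz2 r le_rfl
    exact ⟨s, hs.trans (hr.trans hq), ⟨i, j⟩, he'⟩) (push Fin.elim0 x)
  refine ⟨b, fun z => ?_⟩
  rw [hb, sat_ex]
  rfl

theorem ax_separation (n : ℕ) (φ : Fml (n + 1)) (p : Fin n → Γ.Mod) (a : Γ.Mod) :
    ∃ b, ∀ x, Γ.E x b ↔ (Γ.E x a ∧ Sat Γ.E φ (push p x)) := by
  let ρ : Fin (n + 1) → Fin (n + 2) := push (fun i : Fin n => i.castSucc.castSucc)
    (Fin.last (n + 1))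
  obtain ⟨b, hb⟩ := Γ.comp_model (n := n + 1)
    (.and (.mem (Fin.last (n + 1)) (Fin.last n).castSucc) (φ.rename ρ)) (fun v => by
    refine ⟨(v (Fin.last n)).1.ix, fun i => (v (Fin.last n)).el i, fun z p h => ?_⟩
    have h1 := h.1
    change F (.mem (Fin.last (n + 1)) (Fin.last n).castSucc) _ _ at h1
    rw [F_mem, push_last, push_castSucc] at h1
    obtain ⟨r, hr, i, _, he⟩ := h1 p le_rfl
    exact ⟨r, hr, i, he⟩) (push p a)
  refine ⟨b, fun x => ?_⟩
  rw [hb]
  change (Γ.E (push (push p a) x (Fin.last (n + 1)))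
    (push (push p a) x (Fin.last n).castSucc) ∧ Sat Γ.E (φ.rename ρ) (push (push p a) x)) ↔ _
  rw [push_last, push_castSucc, push_last, sat_rename]
  have : (fun i => push (push p a) x (ρ i)) = push p x := by
    funext i
    rcases Fin.eq_castSucc_or_eq_last i with ⟨j, rfl⟩ | rfl
    · simp only [ρ, push_castSucc]
    · simp only [ρ, push_last]
  rw [this]

open Classical in
theorem ax_power (x : Γ.Mod) : ∃ p, ∀ z, Γ.E z p ↔ ∀ t, Γ.E t z → Γ.E t x := by
  obtain ⟨b, hb⟩ := Γ.comp_model (n := 1) (.all (fimp (.mem 2 1) (.mem 2 0))) (fun v => by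
    refine ⟨(v 0).1.ix → P → Prop, fun χ => if h : HS G (.mk (v 0).1.ix (v 0).1.el χ) then
      ⟨_, h⟩ else em G P, fun z p h => ?_⟩
    rw [F_all] at h
    have h' : ∀ (t : HN G P), ∀ q ≤ p, fmem t.1 z.1 q → fmem t.1 (v 0).1 q := by
      intro t q hq ht
      have h1 := h t
      rw [F_imp] at h1
      exact h1 q hq ht
    obtain ⟨hs, hk⟩ := comp_name (n := 2) (.and (.mem 2 0) (.mem 2 1)) (push v z) (v 0).1.ix
      (fun i => (v 0).el i) (fun w q hw => by
        have h1 : fmem w.1 (v 0).1 q := hw.1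
        obtain ⟨r, hr, i, _, he⟩ := h1 q le_rfl
        exact ⟨r, hr, i, he⟩)
    refine ⟨p, le_rfl, fun i p => F (.and (.mem 2 0) (.mem 2 1)) (push (push v z) ((v 0).el i)) p,
      ?_⟩
    have hs' : HS G (.mk (v 0).1.ix (v 0).1.el (fun i p =>
      F (.and (.mem 2 0) (.mem 2 1)) (push (push v z) ((v 0).el i)) p)) := hs
    simp only [hs', dite_true]
    refine feq_of_el (fun i q hq hW => ?_) (fun i q hq hW => ?_)
    · have h1 : fmem (z.el i).1 z.1 q := fmem_el _ hW
      exact (hk (z.el i) q).2 ⟨h' _ q hq h1, h1⟩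
    · have h1 := (hk ((v 0).el i) q).1 (fmem_el _ hW)
      exact h1.2) (push Fin.elim0 x)
  refine ⟨b, fun z => ?_⟩
  rw [hb]
  refine forall_congr' fun t => ?_
  change Sat Γ.E (fimp (.mem 2 1) (.mem 2 0)) (push (push (push Fin.elim0 x) z) t) ↔ _
  rw [sat_imp]
  rfl

open Classical in
theorem ax_replacement (n : ℕ) (φ : Fml (n + 2)) (p : Fin n → Γ.Mod) (a : Γ.Mod)
    (h : ∀ x, Γ.E x a → ∃! y, Sat Γ.E φ (push (push p x) y)) :
    ∃ b, ∀ y, Γ.E y b ↔ ∃ x, Γ.E x a ∧ Sat Γ.E φ (push (push p x) y) := by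
  -- variables: parameters, `a`, `z`, `x`, `y'`
  let ρ1 : Fin (n + 2) → Fin (n + 3) := push (push
    (fun i : Fin n => i.castSucc.castSucc.castSucc) (Fin.last (n + 2))) (Fin.last (n + 1)).castSucc
  let ρ2 : Fin (n + 2) → Fin (n + 4) := push (push
    (fun i : Fin n => i.castSucc.castSucc.castSucc.castSucc) (Fin.last (n + 2)).castSucc)
    (Fin.last (n + 3))
  have e1 : ∀ {α : Type _} (v : Fin n → α) (a z x : α),
      (fun i => push (push (push v a) z) x (ρ1 i)) = push (push v x) z := by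
    intro α v a z x
    funext i
    rcases Fin.eq_castSucc_or_eq_last i with ⟨j, rfl⟩ | rfl
    · rcases Fin.eq_castSucc_or_eq_last j with ⟨j, rfl⟩ | rfl
      · simp only [ρ1, push_castSucc]
      · simp only [ρ1, push_last, push_castSucc]
    · simp only [ρ1, push_last, push_castSucc]
  have e1' : ∀ {α : Type} (v : Fin n → α) (a z x : α),
      (fun i => push (push (push v a) z) x (ρ1 i)) = push (push v x) z := by
    intro α v a z x
    funext i
    rcases Fin.eq_castSucc_or_eq_last i with ⟨j, rfl⟩ | rfl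
    · rcases Fin.eq_castSucc_or_eq_last j with ⟨j, rfl⟩ | rfl
      · simp only [ρ1, push_castSucc]
      · simp only [ρ1, push_last, push_castSucc]
    · simp only [ρ1, push_last, push_castSucc]
  have e2 : ∀ {α : Type _} (v : Fin n → α) (a z x y : α),
      (fun i => push (push (push (push v a) z) x) y (ρ2 i)) = push (push v x) y := by
    intro α v a z x y
    funext i
    rcases Fin.eq_castSucc_or_eq_last i with ⟨j, rfl⟩ | rfl
    · rcases Fin.eq_castSucc_or_eq_last j with ⟨j, rfl⟩ | rfl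
      · simp only [ρ2, push_castSucc]
      · simp only [ρ2, push_last, push_castSucc]
    · simp only [ρ2, push_last]
  have e2' : ∀ {α : Type} (v : Fin n → α) (a z x y : α),
      (fun i => push (push (push (push v a) z) x) y (ρ2 i)) = push (push v x) y := by
    intro α v a z x y
    funext i
    rcases Fin.eq_castSucc_or_eq_last i with ⟨j, rfl⟩ | rfl
    · rcases Fin.eq_castSucc_or_eq_last j with ⟨j, rfl⟩ | rfl
      · simp only [ρ2, push_castSucc]
      · simp only [ρ2, push_last, push_castSucc]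
    · simp only [ρ2, push_last]
  obtain ⟨b, hb⟩ := Γ.comp_model (n := n + 1)
    (fex (.and (.mem (Fin.last (n + 2)) (Fin.last n).castSucc.castSucc)
      (.and (φ.rename ρ1) (.all (fimp (φ.rename ρ2)
        (.eq (Fin.last (n + 3)) (Fin.last (n + 1)).castSucc.castSucc)))))) (fun v => by
    obtain ⟨v, a, rfl⟩ : ∃ (v' : Fin n → HN G P) (a : HN G P), v = push v' a :=
      ⟨_, _, (push_init v).symm⟩
    refine ⟨a.1.ix × P, fun s => if h : ∃ y, F φ (push (push v (a.el s.1)) y) s.2 then h.choose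
      else em G P, fun z p h => ?_⟩
    rw [F_ex] at h
    obtain ⟨q, hq, x, hx, hxz, hu⟩ := h p le_rfl
    change F (.mem (Fin.last (n + 2)) (Fin.last n).castSucc.castSucc) _ _ at hx
    rw [F_mem, push_last, push_castSucc, push_castSucc, push_last] at hx
    change F (φ.rename ρ1) _ _ at hxz
    rw [F_rename, e1] at hxz
    change F (.all (fimp (φ.rename ρ2)
        (.eq (Fin.last (n + 3)) (Fin.last (n + 1)).castSucc.castSucc))) _ _ at hu
    rw [F_all] at hu
    have hu' : ∀ y : HN G P, ∀ r ≤ q, F φ (push (push v x) y) r → feq y.1 z.1 r := by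
      intro y r hr hF
      have h1 := hu y
      rw [F_imp] at h1
      have h2 := h1 r hr (by
        rw [F_rename, e2]
        exact hF)
      rw [F_eq, push_last, push_castSucc, push_castSucc, push_last] at h2
      exact h2
    obtain ⟨r, hr, i, hi, he⟩ := hx q le_rfl
    have hc : ∀ y : HN G P, F φ (push (push v x) y) r ↔ F φ (push (push v (a.el i)) y) r := by
      intro y
      refine F_congr fun j => ?_
      rcases Fin.eq_castSucc_or_eq_last j with ⟨j, rfl⟩ | rfl
      · rw [push_castSucc, push_castSucc]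
        rcases Fin.eq_castSucc_or_eq_last j with ⟨j, rfl⟩ | rfl
        · rw [push_castSucc, push_castSucc]
          exact feq.refl _ _
        · rw [push_last, push_last]
          exact he
      · rw [push_last, push_last]
        exact feq.refl _ _
    have hex : ∃ y, F φ (push (push v (a.el i)) y) r := ⟨z, (hc z).1 (F_mono hxz hr)⟩
    refine ⟨r, hr.trans hq, (i, r), ?_⟩
    simp only [hex, dite_true]
    exact (hu' _ r hr ((hc _).2 hex.choose_spec)).symm) (push p a)
  refine ⟨b, fun z => ?_⟩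
  rw [hb, sat_ex]
  have key : ∀ x, Sat Γ.E (.and (.mem (Fin.last (n + 2)) (Fin.last n).castSucc.castSucc)
      (.and (φ.rename ρ1) (.all (fimp (φ.rename ρ2)
        (.eq (Fin.last (n + 3)) (Fin.last (n + 1)).castSucc.castSucc)))))
      (push (push (push p a) z) x) ↔ (Γ.E x a ∧ Sat Γ.E φ (push (push p x) z) ∧
        ∀ y, Sat Γ.E φ (push (push p x) y) → y = z) := by
    intro x
    change (Γ.E (push (push (push p a) z) x (Fin.last (n + 2)))
      (push (push (push p a) z) x (Fin.last n).castSucc.castSucc) ∧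
      Sat Γ.E (φ.rename ρ1) (push (push (push p a) z) x) ∧ ∀ y, Sat Γ.E (fimp (φ.rename ρ2)
        (.eq (Fin.last (n + 3)) (Fin.last (n + 1)).castSucc.castSucc))
        (push (push (push (push p a) z) x) y)) ↔ _
    rw [push_last, push_castSucc, push_castSucc, push_last, sat_rename, e1']
    refine and_congr Iff.rfl (and_congr Iff.rfl (forall_congr' fun y => ?_))
    rw [sat_imp, sat_rename, e2']
    refine imp_congr Iff.rfl ?_
    change push (push (push (push p a) z) x) y (Fin.last (n + 3)) =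
      push (push (push (push p a) z) x) y (Fin.last (n + 1)).castSucc.castSucc ↔ _
    rw [push_last, push_castSucc, push_castSucc, push_last]
  refine exists_congr fun x => (key x).trans ?_
  constructor
  · rintro ⟨h1, h2, _⟩
    exact ⟨h1, h2⟩
  · rintro ⟨h1, h2⟩
    exact ⟨h1, h2, fun y hy => (h x h1).unique hy h2⟩

end Gen

end zf

end Pool.Agent.helper74.Forc
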