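import Pool.Agent.helper74.HYX

/-!
# The group and the symmetric system
-/

namespace Pool.Agent.helper74.HY

open Cardinal
open Pool.Agent.helper31.ZF Pool.Agent.helper74.Forc

theorem perm_inv_self {α : Type} (f : Equiv.Perm α) (x : α) : f⁻¹ (f x) = x :=
  f.symm_apply_apply x

theorem perm_self_inv {α : Type} (f : Equiv.Perm α) (x : α) : f (f⁻¹ x) = x :=
  f.apply_symm_apply x

/-- The group as a subgroup. -/
def GpSub (I : Type) : Subgroup (Equiv.Perm I × Equiv.Perm (X I)) where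
  carrier := {g | ∀ t k ε J c, ∃ k', g.2 (.mk t k ε J c) = .mk t k' (g.1 ∘ ε) J (g.2 ∘ c)}
  one_mem' := fun t k ε J c => ⟨k, rfl⟩
  mul_mem' := by
    intro g h hg hh t k ε J c
    obtain ⟨k1, h1⟩ := hh t k ε J c
    obtain ⟨k2, h2⟩ := hg t k1 (h.1 ∘ ε) J (h.2 ∘ c)
    refine ⟨k2, ?_⟩
    change g.2 (h.2 (.mk t k ε J c)) = _
    rw [h1, h2]
    rfl
  inv_mem' := by
    intro g hg t k ε J c
    obtain ⟨⟨t', k', ε', J', c'⟩, hy⟩ : ∃ y, y = g.2⁻¹ (.mk t k ε J c) := ⟨_, rfl⟩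
    obtain ⟨k1, h1⟩ := hg t' k' ε' J' c'
    have h2 : g.2 (.mk t' k' ε' J' c') = .mk t k ε J c := by
      rw [hy]
      exact perm_self_inv _ _
    rw [h1] at h2
    injection h2 with e1 e2 e3 e4 e5
    subst e1 e4
    have e5' := eq_of_heq e5
    subst e3 e5'
    refine ⟨k', ?_⟩
    change g.2⁻¹ _ = _
    rw [← hy]
    congr 1
    · funext n
      change _ = g.1⁻¹ (g.1 (ε' n))
      rw [perm_inv_self]
    · funext j
      change _ = g.2⁻¹ (g.2 (c' j))
      rw [perm_inv_self]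

/-- The group. -/
abbrev Gp (I : Type) : Type := GpSub I

section gp

variable {I : Type}

theorem Gp.mk_eq (g : Gp I) (t : Tp I) (k : I) (ε : ℕ → I) (J : Set ℕ) (c : J → X I) :
    ∃ k', g.1.2 (.mk t k ε J c) = .mk t k' (g.1.1 ∘ ε) J (g.1.2 ∘ c) := g.2 t k ε J c

theorem ch_act (g : Gp I) (x : X I) : ch (g.1.2 x) = g.1.2 '' ch x := by
  induction x with
  | mk t k ε J c ih =>
    obtain ⟨k', hk⟩ := g.mk_eq t k ε J c
    rw [hk, ch_mk, ch_mk, Set.image_iUnion]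
    refine Set.iUnion_congr fun j => ?_
    rw [Set.image_insert_eq]
    change insert (g.1.2 (c j)) (ch (g.1.2 (c j))) = _
    rw [ih j]

/-- The action on facts at coordinates. -/
def mvF (g : Gp I) (f : Fa I) : Fa I := (g.1.2 f.1, mvZ g.1.1 f.2)

theorem mvF_mul (g h : Gp I) (f : Fa I) : mvF (g * h) f = mvF g (mvF h f) := by
  unfold mvF
  refine Prod.ext rfl ?_
  change mvZ _ f.2 = mvZ _ (mvZ _ f.2)
  rw [mvZ_mvZ]
  rfl

theorem mvF_one (f : Fa I) : mvF (1 : Gp I) f = f := by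
  unfold mvF
  exact Prod.ext rfl (mvZ_id f.2)

theorem mvF_inv (g : Gp I) (f : Fa I) : mvF g⁻¹ (mvF g f) = f := by
  rw [← mvF_mul, inv_mul_cancel, mvF_one]

theorem mvF_inv' (g : Gp I) (f : Fa I) : mvF g (mvF g⁻¹ f) = f := by
  rw [← mvF_mul, mul_inv_cancel, mvF_one]

theorem mvF_inj (g : Gp I) : Function.Injective (mvF g) := fun f f' h => by
  rw [← mvF_inv g f, h, mvF_inv]

theorem mvB_inv (s : Equiv.Perm I) (e : Bit I) : mvB (s⁻¹ : Equiv.Perm I) (mvB s e) = e := by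
  refine Prod.ext ?_ rfl
  change s⁻¹ (s e.1) = e.1
  exact perm_inv_self _ _

theorem mvB_inv' (s : Equiv.Perm I) (e : Bit I) : mvB s (mvB (s⁻¹ : Equiv.Perm I) e) = e := by
  refine Prod.ext ?_ rfl
  change s (s⁻¹ e.1) = e.1
  exact perm_self_inv _ _

theorem mvR_inv (s : Equiv.Perm I) (r : RN I) : mvR (s⁻¹ : Equiv.Perm I) (mvR s r) = r := by
  refine Prod.ext rfl ?_
  funext n
  change s⁻¹ (s (r.2 n)) = _
  exact perm_inv_self _ _

theorem mvR_inv' (s : Equiv.Perm I) (r : RN I) : mvR s (mvR (s⁻¹ : Equiv.Perm I) r) = r := by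
  refine Prod.ext rfl ?_
  funext n
  change s (s⁻¹ (r.2 n)) = _
  exact perm_self_inv _ _

theorem mvZ_inv (s : Equiv.Perm I) (z : Z I) : mvZ (s⁻¹ : Equiv.Perm I) (mvZ s z) = z := by
  rw [mvZ_mvZ]
  have : (s⁻¹ : Equiv.Perm I) ∘ s = id := by
    funext i
    exact perm_inv_self _ _
  rw [this, mvZ_id]

theorem mvZ_inv' (s : Equiv.Perm I) (z : Z I) : mvZ s (mvZ (s⁻¹ : Equiv.Perm I) z) = z := by
  rw [mvZ_mvZ]
  have : s ∘ (s⁻¹ : Equiv.Perm I) = id := by
    funext i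
    exact perm_self_inv _ _
  rw [this, mvZ_id]

theorem mvF_image_image (g : Gp I) (b : Set (Fa I)) : mvF g '' (mvF g⁻¹ '' b) = b := by
  rw [Set.image_image]
  simp only [mvF_inv', Set.image_id']

theorem mvF_image_image' (g : Gp I) (b : Set (Fa I)) : mvF g⁻¹ '' (mvF g '' b) = b := by
  rw [Set.image_image]
  simp only [mvF_inv, Set.image_id']

theorem mvB_image_image (s : Equiv.Perm I) (q : Set (Bit I)) :
    mvB s '' (mvB (s⁻¹ : Equiv.Perm I) '' q) = q := by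
  rw [Set.image_image]
  simp only [mvB_inv', Set.image_id']

theorem mvB_image_image' (s : Equiv.Perm I) (q : Set (Bit I)) :
    mvB (s⁻¹ : Equiv.Perm I) '' (mvB s '' q) = q := by
  rw [Set.image_image]
  simp only [mvB_inv, Set.image_id']

theorem mvZ_image_image' (s : Equiv.Perm I) (q : Set (Z I)) :
    mvZ (s⁻¹ : Equiv.Perm I) '' (mvZ s '' q) = q := by
  rw [Set.image_image]
  simp only [mvZ_inv, Set.image_id']

theorem mvB_mem (s : Equiv.Perm I) {q : Set (Bit I)} {e : Bit I} :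
    e ∈ mvB s '' q ↔ mvB (s⁻¹ : Equiv.Perm I) e ∈ q := by
  constructor
  · rintro ⟨e, he, rfl⟩
    rwa [mvB_inv]
  · intro h
    exact ⟨_, h, mvB_inv' s e⟩

theorem mvF_mem (g : Gp I) {b : Set (Fa I)} {f : Fa I} : f ∈ mvF g '' b ↔ mvF g⁻¹ f ∈ b := by
  constructor
  · rintro ⟨f, hf, rfl⟩
    rwa [mvF_inv]
  · intro h
    exact ⟨_, h, mvF_inv' g f⟩

theorem mvF_mem' (g : Gp I) {b : Set (Fa I)} {f : Fa I} : mvF g f ∈ mvF g '' b ↔ f ∈ b :=
  (mvF_inj g).mem_set_image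

theorem Con.image {q : Set (Bit I)} (h : Con q) (s : Equiv.Perm I) : Con (mvB s '' q) := by
  intro i n h1 h2
  rw [mvB_mem] at h1 h2
  exact h _ _ h1 h2

theorem sec_act (g : Gp I) (b : Set (Fa I)) (x : X I) :
    sec (mvF g '' b) (g.1.2 x) = mvZ g.1.1 '' sec b x := by
  ext z
  constructor
  · rintro ⟨⟨y, w⟩, hf, he⟩
    have h1 : g.1.2 y = g.1.2 x := congrArg Prod.fst he
    have h2 : mvZ g.1.1 w = z := congrArg Prod.snd he
    have h3 : y = x := g.1.2.injective h1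
    subst h3
    exact ⟨w, hf, h2⟩
  · rintro ⟨w, hw, rfl⟩
    exact ⟨(x, w), hw, rfl⟩

variable [Ix I]

theorem Viol.act (g : Gp I) {t : Tp I} {ε : ℕ → I} {J : Set ℕ} {c : J → X I} {B : Set (Z I)}
    {b : Set (Fa I)} {q : Set (Bit I)} (h : Viol t ε J c B b q) :
    Viol t (g.1.1 ∘ ε) J (g.1.2 ∘ c) (mvZ g.1.1 '' B) (mvF g '' b) (mvB g.1.1 '' q) := by
  obtain ⟨e, he, h1, s, hs, h2, h3, h4⟩ := h
  refine ⟨e, he, h1, g.1.1 * s, ?_, fun w hw => ?_, fun f hf => ?_, fun r hr => ?_⟩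
  · rw [← hs]
    rfl
  · exact ⟨_, h2 w hw, rfl⟩
  · obtain ⟨hJ, hf⟩ := h3 f hf
    refine ⟨hJ, _, hf, ?_⟩
    unfold mvF
    refine Prod.ext rfl ?_
    change mvZ _ (mvZ _ _) = _
    rw [mvZ_mvZ]
    rfl
  · obtain ⟨q0, hq0, hr0⟩ := h4 r hr
    refine ⟨q0.map (mvB g.1.1), fun w hw => ?_, _, hr0, rfl⟩
    obtain ⟨w, hw', rfl⟩ := List.mem_map.1 hw
    exact ⟨w, hq0 w hw', rfl⟩

theorem Viol.act_iff (g : Gp I) {t : Tp I} {ε : ℕ → I} {J : Set ℕ} {c : J → X I} {B : Set (Z I)}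
    {b : Set (Fa I)} {q : Set (Bit I)} :
    Viol t (g.1.1 ∘ ε) J (g.1.2 ∘ c) (mvZ g.1.1 '' B) (mvF g '' b) (mvB g.1.1 '' q) ↔
      Viol t ε J c B b q := by
  refine ⟨fun h => ?_, fun h => h.act g⟩
  have h1 := h.act g⁻¹
  rw [mvF_image_image'] at h1
  have e1 : (g⁻¹ : Gp I).1.1 = g.1.1⁻¹ := rfl
  have e2 : (g⁻¹ : Gp I).1.2 = g.1.2⁻¹ := rfl
  rw [e1, e2, mvB_image_image', mvZ_image_image'] at h1
  have e3 : (g.1.1⁻¹ : Equiv.Perm I) ∘ g.1.1 ∘ ε = ε := by
    funext n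
    exact perm_inv_self _ _
  have e4 : (g.1.2⁻¹ : Equiv.Perm (X I)) ∘ g.1.2 ∘ c = c := by
    funext n
    exact perm_inv_self _ _
  rw [e3, e4] at h1
  exact h1

theorem OK.act_iff (g : Gp I) {x : X I} {b : Set (Fa I)} :
    OK (g.1.2 x) (mvF g '' b) ↔ OK x b := by
  induction x generalizing b with
  | mk t k ε J c ih =>
    have hch := ch_act g (.mk t k ε J c)
    have hsec := sec_act g b (.mk t k ε J c)
    obtain ⟨k', hk⟩ := g.mk_eq t k ε J c
    rw [hk] at hch hsec ⊢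
    rw [OK_mk, OK_mk]
    refine and_congr (forall_congr' fun j => ih j) ?_
    rw [hsec]
    have key : ∀ b' : Set (Fa I), ((∀ f ∈ mvF g '' b,
        f.1 ∈ ch (.mk t k' (g.1.1 ∘ ε) J (g.1.2 ∘ c)) → f ∈ mvF g '' b') ↔
        ∀ f ∈ b, f.1 ∈ ch (.mk t k ε J c) → f ∈ b') := by
      intro b'
      rw [hch]
      constructor
      · intro h f hf hfc
        exact (mvF_mem' g).1 (h _ ⟨f, hf, rfl⟩ ⟨_, hfc, rfl⟩)
      · rintro h _ ⟨f, hf, rfl⟩ hfc
        refine (mvF_mem' g).2 (h f hf ?_)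
        exact (g.1.2.injective.mem_set_image).1 hfc
    constructor
    · intro h b' hb' hj hsub q hq hcon hv
      refine h (mvF g '' b') (hb'.image _) (fun j => (ih j).2 (hj j)) ((key b').2 hsub)
        (mvB g.1.1 '' q) (hq.image _) (hcon.image _) ((Viol.act_iff g).2 hv)
    · intro h b' hb' hj hsub q hq hcon hv
      obtain ⟨b'', rfl⟩ : ∃ b'', b' = mvF g '' b'' := ⟨_, (mvF_image_image g b').symm⟩
      obtain ⟨q', rfl⟩ : ∃ q', q = mvB g.1.1 '' q' := ⟨_, (mvB_image_image g.1.1 q).symm⟩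
      refine h b'' ?_ (fun j => (ih j).1 (hj j)) ((key b'').1 hsub) q' ?_ ?_
        ((Viol.act_iff g).1 hv)
      · have := hb'.image (mvF g⁻¹)
        rwa [mvF_image_image'] at this
      · have := hq.image (mvB (g.1.1⁻¹ : Equiv.Perm I))
        rwa [mvB_image_image'] at this
      · have := hcon.image g.1.1⁻¹
        rwa [mvB_image_image'] at this

theorem Valid.act {b : Set (Fa I)} (h : Valid b) (g : Gp I) : Valid (mvF g '' b) := by
  intro x
  obtain ⟨y, rfl⟩ := g.1.2.surjective x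
  exact (OK.act_iff g).2 (h y)

instance : MulAction (Gp I) (P I) where
  smul g p := ⟨(mvB g.1.1 '' p.q, mvF g '' p.a), p.2.1.image _, p.2.2.1.image _,
    p.2.2.2.1.image _, p.2.2.2.2.act g⟩
  one_smul p := by
    refine Subtype.ext (Prod.ext ?_ ?_)
    · change mvB id '' _ = _
      have : (mvB id : Bit I → Bit I) = id := funext mvB_id
      rw [this, Set.image_id]
    · change mvF 1 '' _ = _
      have : (mvF 1 : Fa I → Fa I) = id := funext mvF_one
      rw [this, Set.image_id]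
  mul_smul g h p := by
    refine Subtype.ext (Prod.ext ?_ ?_)
    · change mvB _ '' _ = mvB _ '' (mvB _ '' _)
      rw [Set.image_image]
      rfl
    · change mvF _ '' _ = mvF _ '' (mvF _ '' _)
      rw [Set.image_image]
      simp only [mvF_mul]

theorem P.smul_q (g : Gp I) (p : P I) : (g • p).q = mvB g.1.1 '' p.q := rfl

theorem P.smul_a (g : Gp I) (p : P I) : (g • p).a = mvF g '' p.a := rfl

/-- The group elements that fix the sets `E` and `F` pointwise. -/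
def Fix (E : Set I) (F : Set (X I)) (g : Gp I) : Prop :=
  (∀ i ∈ E, g.1.1 i = i) ∧ ∀ x ∈ F, g.1.2 x = x

omit [Ix I] in
theorem Fix.mono {E E' : Set I} {F F' : Set (X I)} {g : Gp I} (h : Fix E' F' g) (hE : E ⊆ E')
    (hF : F ⊆ F') : Fix E F g := ⟨fun i hi => h.1 i (hE hi), fun x hx => h.2 x (hF hx)⟩

instance : SymSys (Gp I) (P I) where
  le g p q h := ⟨Set.image_mono h.1, Set.image_mono h.2⟩
  big H := ∃ E F, E.Countable ∧ F.Countable ∧ ∀ g : Gp I, Fix E F g → g ∈ H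
  big_top := ⟨∅, ∅, Set.countable_empty, Set.countable_empty, fun _ _ => trivial⟩
  big_inf := by
    rintro H K ⟨E, F, hE, hF, h⟩ ⟨E', F', hE', hF', h'⟩
    exact ⟨E ∪ E', F ∪ F', hE.union hE', hF.union hF', fun g hg =>
      ⟨h g (hg.mono Set.subset_union_left Set.subset_union_left),
        h' g (hg.mono Set.subset_union_right Set.subset_union_right)⟩⟩
  big_up := by
    rintro H K hHK ⟨E, F, hE, hF, h⟩
    exact ⟨E, F, hE, hF, fun g hg => hHK (h g hg)⟩
  big_conj := by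
    rintro H g ⟨E, F, hE, hF, h⟩
    refine ⟨H.comap (MulAut.conj g⁻¹).toMonoidHom, ⟨g.1.1 '' E, g.1.2 '' F, hE.image _,
      hF.image _, fun k hk => ?_⟩, fun k hk => ?_⟩
    · have h1 : g⁻¹ * k * g ∈ H := by
        refine h _ ⟨fun i hi => ?_, fun x hx => ?_⟩
        · change g.1.1⁻¹ (k.1.1 (g.1.1 i)) = i
          rw [hk.1 _ ⟨i, hi, rfl⟩]
          exact perm_inv_self _ _
        · change g.1.2⁻¹ (k.1.2 (g.1.2 x)) = x
          rw [hk.2 _ ⟨x, hx, rfl⟩]
          exact perm_inv_self _ _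
      simpa [Subgroup.mem_comap] using h1
    · simpa [Subgroup.mem_comap] using hk

theorem big_fix {H : Subgroup (Gp I)} :
    SymSys.big (P I) H ↔ ∃ E F, E.Countable ∧ F.Countable ∧ ∀ g : Gp I, Fix E F g → g ∈ H :=
  Iff.rfl

/-- The pointwise stabilizer. -/
def stb (E : Set I) (F : Set (X I)) : Subgroup (Gp I) where
  carrier := {g | Fix E F g}
  one_mem' := ⟨fun _ _ => rfl, fun _ _ => rfl⟩
  mul_mem' := by
    intro g h hg hh
    refine ⟨fun i hi => ?_, fun x hx => ?_⟩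
    · change g.1.1 (h.1.1 i) = i
      rw [hh.1 i hi, hg.1 i hi]
    · change g.1.2 (h.1.2 x) = x
      rw [hh.2 x hx, hg.2 x hx]
  inv_mem' := by
    intro g hg
    refine ⟨fun i hi => ?_, fun x hx => ?_⟩
    · change g.1.1⁻¹ i = i
      rw [Equiv.Perm.inv_eq_iff_eq, hg.1 i hi]
    · change g.1.2⁻¹ x = x
      rw [Equiv.Perm.inv_eq_iff_eq, hg.2 x hx]

theorem big_stb {E : Set I} {F : Set (X I)} (hE : E.Countable) (hF : F.Countable) :
    SymSys.big (P I) (stb E F) := ⟨E, F, hE, hF, fun _ h => h⟩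

end gp

/-! ### making group elements -/

section mkG

variable {I : Type}

/-- The map on coordinates. -/
def rhoF (π : Equiv.Perm I) (β : Tp I → (ℕ → I) → (J : Set ℕ) → (J → X I) → Equiv.Perm I) :
    X I → X I
  | .mk t k ε J c => .mk t (β t ε J c k) (π ∘ ε) J (fun j => rhoF π β (c j))

/-- The inverse map on coordinates. -/
def rhoB (π : Equiv.Perm I) (β : Tp I → (ℕ → I) → (J : Set ℕ) → (J → X I) → Equiv.Perm I) :
    X I → X I
  | .mk t k ε J c => .mk t ((β t (π.symm ∘ ε) J (fun j => rhoB π β (c j))).symm k)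
      (π.symm ∘ ε) J (fun j => rhoB π β (c j))

theorem rhoB_rhoF (π : Equiv.Perm I)
    (β : Tp I → (ℕ → I) → (J : Set ℕ) → (J → X I) → Equiv.Perm I) (x : X I) :
    rhoB π β (rhoF π β x) = x := by
  induction x with
  | mk t k ε J c ih =>
    have h1 : (fun j => rhoB π β (rhoF π β (c j))) = c := funext ih
    have h2 : π.symm ∘ π ∘ ε = ε := by
      funext n
      simp
    rw [rhoF, rhoB, h1, h2, Equiv.symm_apply_apply]

theorem rhoF_rhoB (π : Equiv.Perm I)
    (β : Tp I → (ℕ → I) → (J : Set ℕ) → (J → X I) → Equiv.Perm I) (x : X I) :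
    rhoF π β (rhoB π β x) = x := by
  induction x with
  | mk t k ε J c ih =>
    have h1 : (fun j => rhoF π β (rhoB π β (c j))) = c := funext ih
    have h2 : π ∘ π.symm ∘ ε = ε := by
      funext n
      simp
    rw [rhoB, rhoF, h1, h2, Equiv.apply_symm_apply]

/-- A group element from a permutation of the indices and permutations of the labels. -/
def mkG (π : Equiv.Perm I)
    (β : Tp I → (ℕ → I) → (J : Set ℕ) → (J → X I) → Equiv.Perm I) : Gp I :=
  ⟨(π, ⟨rhoF π β, rhoB π β, rhoB_rhoF π β, rhoF_rhoB π β⟩),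
    fun t k ε J c => ⟨β t ε J c k, rfl⟩⟩

/-- The extension of a permutation of the indices. -/
def exG (π : Equiv.Perm I) : Gp I := mkG π fun _ _ _ _ => 1

theorem exG_fix {π : Equiv.Perm I} {x : X I} (h : ∀ i ∈ ixs x, π i = i) :
    (exG π).1.2 x = x := by
  induction x with
  | mk t k ε J c ih =>
    change X.mk t k (π ∘ ε) J (fun j => (exG π).1.2 (c j)) = _
    have h1 : (fun j => (exG π).1.2 (c j)) = c := funext fun j => ih j fun i hi =>
      h i (Or.inr (Set.mem_iUnion.2 ⟨j, hi⟩))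
    have h2 : π ∘ ε = ε := funext fun n => h _ (Or.inl ⟨n, rfl⟩)
    rw [h1, h2]

end mkG

end Pool.Agent.helper74.HY
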