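import Pool.Agent.helper74.HYHyp

/-!
# Dependent choices
-/

namespace Pool.Agent.helper74.HY

open Cardinal
open Pool.Agent.helper31.ZF Pool.Agent.helper74.Forc

section dc

variable {I : Type} [Ix I]

/-- The relation `R` on `X` is total and `X` is nonempty, forced. -/
def Tot (x r : Nm (P I)) (p : P I) : Prop :=
  (∀ q ≤ p, ∃ q' ≤ q, ∃ B : HN (Gp I) (P I), fmem B.1 x q') ∧
  ∀ B : HN (Gp I) (P I), ∀ q ≤ p, fmem B.1 x q → ∀ q1 ≤ q, ∃ q' ≤ q1,
    ∃ B' : HN (Gp I) (P I), fmem B'.1 x q' ∧ fmem (opN B.1 B'.1) r q'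

theorem dc_names {x r : Nm (P I)} {p : P I} (h : Tot x r p) :
    ∃ p' ≤ p, ∃ A : ℕ → HN (Gp I) (P I), (∀ n, fmem (A n).1 x p') ∧
      ∀ n, fmem (opN (A n).1 (A (n + 1)).1) r p' := by
  classical
  obtain ⟨h1, h2⟩ := h
  obtain ⟨p0, hp0, hq0, B0, hB0⟩ := mix (Ψ := fun B p => fmem B.1 x p)
    (fun B p q h hq => h.mono hq) (fun B p h => fmem.dense h)
    (fun B B' p h he => h.congr_left he) h1
  let St : Type 1 := {s : P I × HN (Gp I) (P I) // s.1 ≤ p ∧ s.1.q = p.q ∧ fmem s.2.1 x s.1}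
  have hstep : ∀ s : St, ∃ s' : St, s'.1.1 ≤ s.1.1 ∧
      fmem (opN s.1.2.1 s'.1.2.1) r s'.1.1 := by
    rintro ⟨⟨s, B⟩, hs, hsq, hB⟩
    obtain ⟨p', hp', hq', B', hB'⟩ := mix (Ψ := fun B' p => fmem B'.1 x p ∧
      fmem (opN B.1 B'.1) r p)
      (fun B p q h hq => ⟨h.1.mono hq, h.2.mono hq⟩)
      (fun B' p h => ⟨fmem.dense fun q hq => by
        obtain ⟨q', hq', h⟩ := h q hq
        exact ⟨q', hq', h.1⟩, fmem.dense fun q hq => by
        obtain ⟨q', hq', h⟩ := h q hq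
        exact ⟨q', hq', h.2⟩⟩)
      (fun B1 B2 p h he => ⟨h.1.congr_left he, h.2.congr_left (opN_congr (feq.refl _ _) he)⟩)
      (p := s) fun q hq => h2 B s hs hB q hq
    exact ⟨⟨(p', B'), hp'.trans hs, hq'.trans hsq, hB'.1⟩, hp', hB'.2⟩
  choose f hf1 hf2 using hstep
  let s : ℕ → St := fun n => Nat.rec ⟨(p0, B0), hp0, hq0, hB0⟩ (fun _ q => f q) n
  have hs : ∀ n, s (n + 1) = f (s n) := fun n => rfl
  have hanti : Antitone fun n => (s n).1.1 := antitone_nat_of_succ_le fun n => by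
    rw [hs]
    exact hf1 _
  have hq : ∀ n, (s n).1.1.q = (s 0).1.1.q := fun n =>
    (s n).2.2.1.trans (s 0).2.2.1.symm
  have hlim : ∀ n, P.lim _ hanti ≤ (s n).1.1 := P.lim_le _ hanti hq
  refine ⟨P.lim _ hanti, (hlim 0).trans (s 0).2.1, fun n => (s n).1.2,
    fun n => (s n).2.2.2.mono (hlim n), fun n => ?_⟩
  have h3 := (hf2 (s n)).mono (hlim (n + 1))
  exact h3

theorem hs_seq (A : ℕ → HN (Gp I) (P I)) : HS (Gp I) (Gen.seqN fun n => (A n).1) := by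
  obtain ⟨E, F, hE, hF, h⟩ := exists_common A
  exact hs_seqN (fun n => (A n).2) (stb E F) (big_stb hE hF) h

end dc

end Pool.Agent.helper74.HY
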