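import Pool.Agent.helper74.HYNoWO
import Pool.Agent.helper74.HYDC

/-!
# The model
-/

namespace Pool.Agent.helper74.HY

open Cardinal
open Pool.Agent.helper31.ZF Pool.Agent.helper74.Forc

section tasks

variable {I : Type} [Ix I]

/-- `x` is a coordinate for the hypergraph `τ`. -/
def Coord (τ : Nm (P I)) (x : X I) : Prop :=
  (∀ (p : P I) (l : List (RN I)), l ≠ [] → fmem (LN l) τ p → ¬ ∀ r ∈ l, WA x r p) ∧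
  ∀ (p : P I) (r : RN I), ∃ p' ≤ p, WA x r p' ∨ ∃ l, l ≠ [] ∧ fmem (LN l) τ p' ∧
    ∀ r' ∈ l, r' = r ∨ WA x r' p'

/-- `y` is forced to be a subset of `ω`. -/
def SubOm (y : Nm (P I)) (p : P I) : Prop :=
  ∀ z : y.ix, ∀ q ≤ p, Dw y.wt z q → fmem (y.el z) (omN (P I)) q

/-- The tasks. -/
inductive TI : Type
  | pr | real | ls (n : ℕ) | co | mx | dc | wo | hk

instance : Countable TI := by
  let F : TI → ℕ × ℕ := fun t => match t with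
    | .pr => (0, 0)
    | .real => (1, 0)
    | .ls n => (2, n)
    | .co => (3, 0)
    | .mx => (4, 0)
    | .dc => (5, 0)
    | .wo => (6, 0)
    | .hk => (7, 0)
  have hF : Function.Injective F := by
    intro s s' hs
    cases s <;> cases s' <;> simp [F] at hs ⊢ <;> try exact hs
  exact hF.countable

/-- Closure under pairs. -/
def taskPr : Task (Gp I) (P I) where
  n := 2
  T v C _ := (C 0).1 = prN (v 0).1 (v 1).1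
  dense v p := ⟨p, le_rfl, fun _ => ⟨_, hs_prN (v 0).2 (v 1).2⟩, rfl⟩

/-- Real names. -/
def taskReal : Task (Gp I) (P I) where
  n := 1
  T v C p := (∀ q ≤ p, ¬ SubOm (v 0).1 q) ∨ ∃ r, (C 0).1 = RNm r ∧ feq (v 0).1 (RNm r) p
  dense v p := by
    by_cases h : ∃ q ≤ p, SubOm (v 0).1 q
    · obtain ⟨q, hq, h⟩ := h
      obtain ⟨q', hq', r, hr⟩ := exists_real h
      exact ⟨q', hq'.trans hq, fun _ => ⟨RNm r, hs_RNm r⟩, Or.inr ⟨r, rfl, hr⟩⟩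
    · push Not at h
      exact ⟨p, le_rfl, fun _ => em _ _, Or.inl h⟩

/-- Names of finite sets of reals. -/
def taskLs (n : ℕ) : Task (Gp I) (P I) where
  n := n
  T v C _ := (∃ r : Fin n → RN I, (∀ i, RNm (r i) = (v i).1) ∧ (C 0).1 = LN (List.ofFn r)) ∨
    ¬ ∃ r : Fin n → RN I, ∀ i, RNm (r i) = (v i).1
  dense v p := by
    by_cases h : ∃ r : Fin n → RN I, ∀ i, RNm (r i) = (v i).1
    · obtain ⟨r, hr⟩ := h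
      exact ⟨p, le_rfl, fun _ => ⟨LN (List.ofFn r), hs_LN _⟩, Or.inl ⟨r, hr, rfl⟩⟩
    · exact ⟨p, le_rfl, fun _ => em _ _, Or.inr h⟩

/-- The generic maximal independent set. -/
def taskCo : Task (Gp I) (P I) where
  n := 1
  T v C _ := ∃ x, (C 0).1 = AN x ∧ Coord (v 0).1 x
  dense v p := by
    obtain ⟨x, hx⟩ := exists_coord (v 0)
    exact ⟨p, le_rfl, fun _ => ⟨AN x, hs_AN x⟩, x, rfl, hx⟩

/-- Maximality. -/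
def taskMx : Task (Gp I) (P I) where
  n := 3
  T v C p := (¬ ∃ x r, AN x = (v 1).1 ∧ Coord (v 0).1 x ∧ RNm r = (v 2).1) ∨
    ∃ x r, AN x = (v 1).1 ∧ Coord (v 0).1 x ∧ RNm r = (v 2).1 ∧
      (WA x r p ∨ ∃ l, l ≠ [] ∧ fmem (LN l) (v 0).1 p ∧ (C 0).1 = LN l ∧
        ∀ r' ∈ l, r' = r ∨ WA x r' p)
  dense v p := by
    by_cases h : ∃ x r, AN x = (v 1).1 ∧ Coord (v 0).1 x ∧ RNm r = (v 2).1
    · obtain ⟨x, r, h1, h2, h3⟩ := h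
      obtain ⟨q, hq, h4 | ⟨l, h4, h5, h6⟩⟩ := h2.2 p r
      · exact ⟨q, hq, fun _ => em _ _, Or.inr ⟨x, r, h1, h2, h3, Or.inl h4⟩⟩
      · exact ⟨q, hq, fun _ => ⟨LN l, hs_LN l⟩,
          Or.inr ⟨x, r, h1, h2, h3, Or.inr ⟨l, h4, h5, rfl, h6⟩⟩⟩
    · exact ⟨p, le_rfl, fun _ => em _ _, Or.inl h⟩

/-- Dependent choices. -/
def taskDC : Task (Gp I) (P I) where
  n := 2
  T v C p := (∀ q ≤ p, ∀ B : HN (Gp I) (P I), ¬ fmem B.1 (v 0).1 q) ∨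
    (fmem (C 0).1 (v 0).1 p ∧ ∀ q ≤ p, ∀ B : HN (Gp I) (P I),
      ¬ (fmem B.1 (v 0).1 q ∧ fmem (opN (C 0).1 B.1) (v 1).1 q)) ∨
    ∃ A : ℕ → HN (Gp I) (P I), (C 0).1 = Gen.seqN (fun n => (A n).1) ∧
      (∀ n, C (n + 1) = A n) ∧ (∀ n, fmem (A n).1 (v 0).1 p) ∧
      ∀ n, fmem (opN (A n).1 (A (n + 1)).1) (v 1).1 p
  dense v p := by
    by_cases h : Tot (v 0).1 (v 1).1 p
    · obtain ⟨q, hq, A, h1, h2⟩ := dc_names h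
      exact ⟨q, hq, fun n => Nat.casesOn n ⟨_, hs_seq A⟩ A,
        Or.inr (Or.inr ⟨A, rfl, fun _ => rfl, h1, h2⟩)⟩
    · unfold Tot at h
      rw [not_and_or] at h
      rcases h with h | h
      · push Not at h
        obtain ⟨q, hq, h⟩ := h
        exact ⟨q, hq, fun _ => em _ _, Or.inl h⟩
      · push Not at h
        obtain ⟨B, q, hq, h1, q1, hq1, h2⟩ := h
        refine ⟨q1, hq1.trans hq, fun _ => B, Or.inr (Or.inl ⟨h1.mono hq1, ?_⟩)⟩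
        rintro q2 hq2 B' ⟨h3, h4⟩
        exact h2 q2 hq2 B' h3 h4

/-- No well-order of the reals. -/
def taskWO (hV : IsVopenka #I) : Task (Gp I) (P I) where
  n := 1
  T v C p := (∃ r s, (C 0).1 = RNm r ∧ (C 1).1 = RNm s ∧
      ∀ q ≤ p, ¬ feq (RNm r) (RNm s) q ∧ ¬ inW (v 0).1 r s q ∧ ¬ inW (v 0).1 s r q) ∨
    ∃ V r, (C 0).1 = SN V ∧ (C 1).1 = RNm r ∧ fmem (RNm r) (SN V) p ∧
      ∀ q ≤ p, ∀ m, fmem (RNm m) (SN V) q → ∃ q' ≤ q, ∃ s, fmem (RNm s) (SN V) q' ∧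
        inW (v 0).1 s m q'
  dense v p := by
    by_contra hcon
    push Not at hcon
    refine noWO hV (v 0) p ⟨fun p' hp' r s hne => ?_, fun p' hp' V hV' r hr => ?_⟩
    · by_contra hcon'
      push Not at hcon'
      obtain ⟨q, hq, h1⟩ := (hcon p' hp' (fun n => Nat.casesOn n ⟨RNm r, hs_RNm r⟩
        fun _ => ⟨RNm s, hs_RNm s⟩)).1 r s rfl rfl
      have h2 := hcon' q hq
      exact h2.2 (h1 (hne q hq) h2.1)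
    · by_contra hcon'
      push Not at hcon'
      obtain ⟨q, hq, m, hm, h1⟩ := (hcon p' hp' (fun n => Nat.casesOn n ⟨SN V, hV'⟩
        fun _ => ⟨RNm r, hs_RNm r⟩)).2 V r rfl rfl hr
      obtain ⟨q', hq', s, h2, h3⟩ := hcon' q hq m hm
      exact h1 q' hq' s h2 h3

/-- Witnesses for the previous task. -/
def taskHk : Task (Gp I) (P I) where
  n := 3
  T v C p := (∀ q ≤ p, ¬ ∃ s : RN I, fmem (RNm s) (v 1).1 q ∧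
      fmem (opN (RNm s) (v 2).1) (v 0).1 q) ∨
    ∃ s, (C 0).1 = RNm s ∧ fmem (RNm s) (v 1).1 p ∧ fmem (opN (RNm s) (v 2).1) (v 0).1 p
  dense v p := by
    by_cases h : ∃ q ≤ p, ∃ s : RN I, fmem (RNm s) (v 1).1 q ∧
        fmem (opN (RNm s) (v 2).1) (v 0).1 q
    · obtain ⟨q, hq, s, h1, h2⟩ := h
      exact ⟨q, hq, fun _ => ⟨RNm s, hs_RNm s⟩, Or.inr ⟨s, rfl, h1, h2⟩⟩
    · refine ⟨p, le_rfl, fun _ => em _ _, Or.inl fun q hq hs => h ⟨q, hq, hs⟩⟩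

/-- All tasks. -/
def TT (hV : IsVopenka #I) : TI → Task (Gp I) (P I)
  | .pr => taskPr
  | .real => taskReal
  | .ls n => taskLs n
  | .co => taskCo
  | .mx => taskMx
  | .dc => taskDC
  | .wo => taskWO hV
  | .hk => taskHk

end tasks

section model

variable {I : Type} [Ix I]

/-- Properties of the generic model. -/
structure Full (Γ : Gen (Gp I) (P I)) : Prop where
  hasOm : Γ.HasOm
  pr : ∀ {x y}, Γ.In x → Γ.In y → Γ.In (prN x y)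
  real : ∀ a, ∃ k, (∀ q ≤ Γ.g k, ¬ SubOm (Γ.h a).1 q) ∨
    ∃ r, Γ.In (RNm r) ∧ feq (Γ.h a).1 (RNm r) (Γ.g k)
  ls : ∀ n (r : Fin n → RN I), (∀ i, Γ.In (RNm (r i))) → ∃ r' : Fin n → RN I,
    (∀ i, RNm (r' i) = RNm (r i)) ∧ Γ.In (LN (List.ofFn r'))
  co : ∀ a, ∃ x, Γ.In (AN x) ∧ Coord (Γ.h a).1 x
  mx : ∀ a x r, Coord (Γ.h a).1 x → Γ.In (AN x) → Γ.In (RNm r) → ∃ k x' r', AN x' = AN x ∧
    Coord (Γ.h a).1 x' ∧ RNm r' = RNm r ∧ (WA x' r' (Γ.g k) ∨ ∃ l, l ≠ [] ∧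
      fmem (LN l) (Γ.h a).1 (Γ.g k) ∧ Γ.In (LN l) ∧ ∀ r'' ∈ l, r'' = r' ∨ WA x' r'' (Γ.g k))
  dc : ∀ a b, ∃ k, (∀ q ≤ Γ.g k, ∀ B : HN (Gp I) (P I), ¬ fmem B.1 (Γ.h a).1 q) ∨
    (∃ c, fmem (Γ.h c).1 (Γ.h a).1 (Γ.g k) ∧ ∀ q ≤ Γ.g k, ∀ B : HN (Gp I) (P I),
      ¬ (fmem B.1 (Γ.h a).1 q ∧ fmem (opN (Γ.h c).1 B.1) (Γ.h b).1 q)) ∨
    ∃ A : ℕ → Nm (P I), (∀ n, Γ.In (A n)) ∧ Γ.In (Gen.seqN A) ∧
      (∀ n, fmem (A n) (Γ.h a).1 (Γ.g k)) ∧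
      ∀ n, fmem (opN (A n) (A (n + 1))) (Γ.h b).1 (Γ.g k)
  wo : ∀ a, ∃ k, (∃ r s, Γ.In (RNm r) ∧ Γ.In (RNm s) ∧ ∀ q ≤ Γ.g k,
      ¬ feq (RNm r) (RNm s) q ∧ ¬ inW (Γ.h a).1 r s q ∧ ¬ inW (Γ.h a).1 s r q) ∨
    ∃ V r, Γ.In (SN V) ∧ Γ.In (RNm r) ∧ fmem (RNm r) (SN V) (Γ.g k) ∧
      ∀ q ≤ Γ.g k, ∀ m, fmem (RNm m) (SN V) q → ∃ q' ≤ q, ∃ s, fmem (RNm s) (SN V) q' ∧
        inW (Γ.h a).1 s m q'
  hk : ∀ a, ∀ {x y}, Γ.In x → Γ.In y → ∃ k, (∀ q ≤ Γ.g k, ¬ ∃ s : RN I, fmem (RNm s) x q ∧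
      fmem (opN (RNm s) y) (Γ.h a).1 q) ∨
    ∃ s, Γ.In (RNm s) ∧ fmem (RNm s) x (Γ.g k) ∧ fmem (opN (RNm s) y) (Γ.h a).1 (Γ.g k)

/-- The trivial condition. -/
def P.top : P I := ⟨(∅, ∅), Set.finite_empty, fun _ _ h => absurd h (Set.notMem_empty _),
  Sm.of_countable Set.countable_empty, valid_empty⟩

theorem exists_full (hV : IsVopenka #I) : ∃ Γ : Gen (Gp I) (P I), Full Γ := by
  obtain ⟨Γ, _, h0, hT⟩ := exists_gen_tasks (TT hV) (fun n => Nat.casesOn n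
    (⟨omN (P I), hs_omN⟩ : HN (Gp I) (P I)) fun n => ⟨nn (P I) n, hs_nn n⟩) P.top
  refine ⟨Γ, ⟨⟨fun n => ?_, ?_⟩, ?_, fun a => ?_, fun n r hr => ?_, fun a => ?_,
    fun a x r hx hAx hr => ?_, fun a b => ?_, fun a => ?_, fun a x y hx hy => ?_⟩⟩
  · obtain ⟨a, ha⟩ := h0 (n + 1)
    exact ⟨a, congrArg Subtype.val ha⟩
  · obtain ⟨a, ha⟩ := h0 0
    exact ⟨a, congrArg Subtype.val ha⟩
  · rintro x y ⟨a, rfl⟩ ⟨b, rfl⟩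
    obtain ⟨k, C, hC⟩ := hT .pr ![a, b]
    exact ⟨C 0, hC⟩
  · obtain ⟨k, C, hC | ⟨r, h1, h2⟩⟩ := hT .real ![a]
    · exact ⟨k, Or.inl hC⟩
    · exact ⟨k, Or.inr ⟨r, ⟨C 0, h1⟩, h2⟩⟩
  · choose v hv using hr
    obtain ⟨k, C, ⟨r', h1, h2⟩ | h1⟩ := hT (.ls n) v
    · refine ⟨r', fun i => (h1 i).trans (hv i), C 0, h2⟩
    · exact absurd ⟨r, fun i => (hv i).symm⟩ h1
  · obtain ⟨k, C, x, h1, h2⟩ := hT .co ![a]
    exact ⟨x, ⟨C 0, h1⟩, h2⟩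
  · obtain ⟨b, hb⟩ := hAx
    obtain ⟨c, hc⟩ := hr
    obtain ⟨k, C, h1 | ⟨x', r', h1, h2, h3, h4⟩⟩ := hT .mx ![a, b, c]
    · exact absurd ⟨x, r, hb.symm, hx, hc.symm⟩ h1
    · refine ⟨k, x', r', h1.trans hb, h2, h3.trans hc, ?_⟩
      rcases h4 with h4 | ⟨l, h4, h5, h6, h7⟩
      · exact Or.inl h4
      · exact Or.inr ⟨l, h4, h5, ⟨C 0, h6⟩, h7⟩
  · obtain ⟨k, C, h1 | ⟨h1, h2⟩ | ⟨A, h1, h2, h3, h4⟩⟩ := hT .dc ![a, b]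
    · exact ⟨k, Or.inl h1⟩
    · exact ⟨k, Or.inr (Or.inl ⟨C 0, h1, h2⟩)⟩
    · refine ⟨k, Or.inr (Or.inr ⟨fun n => (A n).1, fun n => ⟨C (n + 1), ?_⟩, ⟨C 0, h1⟩,
        h3, h4⟩)⟩
      exact congrArg Subtype.val (h2 n)
  · obtain ⟨k, C, ⟨r, s, h1, h2, h3⟩ | ⟨V, r, h1, h2, h3, h4⟩⟩ := hT .wo ![a]
    · exact ⟨k, Or.inl ⟨r, s, ⟨C 0, h1⟩, ⟨C 1, h2⟩, h3⟩⟩
    · exact ⟨k, Or.inr ⟨V, r, ⟨C 0, h1⟩, ⟨C 1, h2⟩, h3, h4⟩⟩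
  · obtain ⟨b, rfl⟩ := hx
    obtain ⟨c, rfl⟩ := hy
    obtain ⟨k, C, h1 | ⟨s, h1, h2, h3⟩⟩ := hT .hk ![a, b, c]
    · exact ⟨k, Or.inl h1⟩
    · exact ⟨k, Or.inr ⟨s, ⟨C 0, h1⟩, h2, h3⟩⟩

end model

end Pool.Agent.helper74.HY
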