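import Pool.Agent.helper74.ForOp

/-!
# Generic models that meet countably many tasks
-/

namespace Pool.Agent.helper74.Forc

open Pool.Agent.helper31.ZF

section tasks

variable {G P : Type} [Group G] [Preorder P] [MulAction G P] [SymSys G P]

variable (G P) in
/-- A task: a relation of finitely many input names, countably many output names and a condition
such that for all inputs it can be achieved below every condition. -/
structure Task where
  /-- the number of inputs -/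
  n : ℕ
  /-- the relation -/
  T : (Fin n → HN G P) → (ℕ → HN G P) → P → Prop
  dense : ∀ v p, ∃ q ≤ p, ∃ C, T v C q

theorem exists_tasks {κ : Type} [Countable κ] (T : κ → Task G P) (C0 : ℕ → HN G P) (p0 : P) :
    ∃ (h : ℕ → HN G P) (g : ℕ → P), Antitone g ∧ g 0 ≤ p0 ∧ (∀ n, ∃ a, h a = C0 n) ∧
      ∀ (i : κ) (v : Fin (T i).n → ℕ), ∃ k, ∃ C : ℕ → ℕ,
        (T i).T (fun j => h (v j)) (fun j => h (C j)) (g k) := by
  classical
  by_cases hne : Nonempty (Σ i : κ, (Fin (T i).n → ℕ))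
  · obtain ⟨e, he⟩ := exists_surjective_nat (Σ i : κ, (Fin (T i).n → ℕ))
    have hd := fun (i : κ) (v : Fin (T i).n → HN G P) (p : P) => (T i).dense v p
    choose Q hQ C hC using hd
    let inp : (t : Σ i : κ, (Fin (T i).n → ℕ)) → (ℕ → ℕ → HN G P) → Fin (T t.1).n → HN G P :=
      fun t tab j => tab (Nat.unpair (t.2 j)).1 (Nat.unpair (t.2 j)).2
    let stp : ℕ → P × (ℕ → ℕ → HN G P) → P × (ℕ → ℕ → HN G P) := fun s σ =>
      (Q (e (Nat.unpair s).1).1 (inp (e (Nat.unpair s).1) σ.2) σ.1,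
        Function.update σ.2 (s + 1) (C (e (Nat.unpair s).1).1
          (inp (e (Nat.unpair s).1) σ.2) σ.1))
    let σ : ℕ → P × (ℕ → ℕ → HN G P) := fun s => Nat.rec (p0, fun _ => C0) stp s
    have hσ : ∀ s, σ (s + 1) = stp s (σ s) := fun s => rfl
    have hstab : ∀ s m, m ≤ s → (σ s).2 m = (σ m).2 m := by
      intro s
      induction s with
      | zero =>
        intro m hm
        obtain rfl : m = 0 := Nat.le_zero.1 hm
        rfl
      | succ s ih =>
        intro m hm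
        rcases Nat.lt_or_ge m (s + 1) with hlt | hge
        · rw [← ih m (Nat.lt_succ_iff.1 hlt), hσ]
          exact Function.update_of_ne hlt.ne _ _
        · obtain rfl : m = s + 1 := le_antisymm hm hge
          rfl
    refine ⟨fun a => (σ (Nat.unpair a).1).2 (Nat.unpair a).1 (Nat.unpair a).2, fun s => (σ s).1,
      antitone_nat_of_succ_le fun s => ?_, le_rfl, fun n => ⟨Nat.pair 0 n, ?_⟩, fun i v => ?_⟩
    · change (σ (s + 1)).1 ≤ (σ s).1
      rw [hσ]
      exact hQ _ _ _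
    · simp only [Nat.unpair_pair]
      rfl
    · obtain ⟨l, hl⟩ := he ⟨i, v⟩
      let m := Finset.univ.sup fun j => (Nat.unpair (v j)).1
      let s := Nat.pair l m
      have hs : (Nat.unpair s).1 = l := by simp [s]
      have hms : m ≤ s := Nat.right_le_pair l m
      refine ⟨s + 1, fun j => Nat.pair (s + 1) j, ?_⟩
      have h1 : ∀ j, (σ (Nat.unpair (v j)).1).2 (Nat.unpair (v j)).1 (Nat.unpair (v j)).2 =
          inp ⟨i, v⟩ (σ s).2 j := by
        intro j
        have : (Nat.unpair (v j)).1 ≤ s :=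
          (Finset.le_sup (f := fun j => (Nat.unpair (v j)).1) (Finset.mem_univ j)).trans hms
        change _ = (σ s).2 (Nat.unpair (v j)).1 (Nat.unpair (v j)).2
        rw [hstab s _ this]
      have h2 : (σ (s + 1)) = (Q i (inp ⟨i, v⟩ (σ s).2) (σ s).1,
          Function.update (σ s).2 (s + 1) (C i (inp ⟨i, v⟩ (σ s).2) (σ s).1)) := by
        have key : ∀ t : Σ i : κ, (Fin (T i).n → ℕ), t = ⟨i, v⟩ →
            ((Q t.1 (inp t (σ s).2) (σ s).1,
              Function.update (σ s).2 (s + 1) (C t.1 (inp t (σ s).2) (σ s).1)) :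
                P × (ℕ → ℕ → HN G P)) = (Q i (inp ⟨i, v⟩ (σ s).2) (σ s).1,
              Function.update (σ s).2 (s + 1) (C i (inp ⟨i, v⟩ (σ s).2) (σ s).1)) := by
          rintro _ rfl
          rfl
        rw [hσ]
        exact key _ (by rw [hs]; exact hl)
      have h3 := hC i (inp ⟨i, v⟩ (σ s).2) (σ s).1
      have h4 : (fun j => (σ (Nat.unpair (v j)).1).2 (Nat.unpair (v j)).1
          (Nat.unpair (v j)).2) = inp ⟨i, v⟩ (σ s).2 := funext h1
      rw [h4]
      have h5 : (fun j => (σ (Nat.unpair (Nat.pair (s + 1) j)).1).2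
          (Nat.unpair (Nat.pair (s + 1) j)).1 (Nat.unpair (Nat.pair (s + 1) j)).2) =
          C i (inp ⟨i, v⟩ (σ s).2) (σ s).1 := by
        funext j
        simp only [Nat.unpair_pair]
        rw [h2]
        simp
      rw [h5]
      change (T i).T _ _ (σ (s + 1)).1
      rw [h2]
      exact h3
  · refine ⟨C0, fun _ => p0, fun _ _ _ => le_rfl, le_rfl, fun n => ⟨n, rfl⟩, fun i v => ?_⟩
    exact absurd ⟨⟨i, v⟩⟩ hne

/-- Deciding a formula. -/
def taskT1 {n : ℕ} (φ : Fml n) : Task G P where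
  n := n
  T v _ p := F φ v p ∨ F (.neg φ) v p
  dense v p := by
    by_cases hq : ∃ q ≤ p, F φ v q
    · obtain ⟨q, hq, hF⟩ := hq
      exact ⟨q, hq, fun _ => em G P, Or.inl hF⟩
    · push Not at hq
      exact ⟨p, le_rfl, fun _ => em G P, Or.inr hq⟩

/-- Witnessing a negated universal formula. -/
def taskT3 {n : ℕ} (φ : Fml (n + 1)) : Task G P where
  n := n
  T v C p := F (.all φ) v p ∨ F (.neg φ) (push v (C 0)) p
  dense v p := by
    by_cases hq : F (.all φ) v p
    · exact ⟨p, le_rfl, fun _ => em G P, Or.inl hq⟩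
    · rw [F_all] at hq
      push Not at hq
      obtain ⟨x, hx⟩ := hq
      have hx' : ∃ q ≤ p, F (.neg φ) (push v x) q := by
        by_contra hcon
        push Not at hcon
        exact hx (F_of_not_neg hcon)
      obtain ⟨q, hq, hF⟩ := hx'
      exact ⟨q, hq, fun _ => x, Or.inr hF⟩

/-- Witnessing membership. -/
def taskT4 : Task G P where
  n := 2
  T v C p := (∀ q ≤ p, ¬ fmem (v 0).1 (v 1).1 q) ∨
    ∃ i, C 0 = (v 1).el i ∧ Dw (v 1).1.wt i p ∧ feq (v 0).1 (C 0).1 p
  dense v p := by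
    by_cases hq : ∃ q ≤ p, fmem (v 0).1 (v 1).1 q
    · obtain ⟨q, hq, hF⟩ := hq
      obtain ⟨r, hr, i, hi, he⟩ := hF q le_rfl
      exact ⟨r, hr.trans hq, fun _ => (v 1).el i, Or.inr ⟨i, rfl, hi, he⟩⟩
    · push Not at hq
      exact ⟨p, le_rfl, fun _ => em G P, Or.inl hq⟩

/-- A generic model that meets countably many tasks. -/
theorem exists_gen_tasks {κ : Type} [Countable κ] (T : κ → Task G P) (C0 : ℕ → HN G P) (p0 : P) :
    ∃ Γ : Gen G P, Γ.g 0 ≤ p0 ∧ (∀ n, ∃ a, Γ.h a = C0 n) ∧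
      ∀ (i : κ) (v : Fin (T i).n → ℕ), ∃ k, ∃ C : ℕ → ℕ,
        (T i).T (fun j => Γ.h (v j)) (fun j => Γ.h (C j)) (Γ.g k) := by
  let T' : κ ⊕ ((Σ n : ℕ, Fml n) ⊕ ((Σ n : ℕ, Fml (n + 1)) ⊕ Unit)) → Task G P
    | .inl i => T i
    | .inr (.inl s) => taskT1 s.2
    | .inr (.inr (.inl s)) => taskT3 s.2
    | .inr (.inr (.inr _)) => taskT4
  obtain ⟨h, g, hg, hg0, h0, hT⟩ := exists_tasks T' C0 p0
  refine ⟨⟨h, g, hg, fun φ v => ?_, fun φ v => ?_, fun a b => ?_⟩, hg0, h0,
    fun i v => hT (.inl i) v⟩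
  · obtain ⟨k, C, hk | hk⟩ := hT (.inr (.inl ⟨_, φ⟩)) v
    · exact Or.inl ⟨k, hk⟩
    · exact Or.inr ⟨k, hk⟩
  · obtain ⟨k, C, hk | hk⟩ := hT (.inr (.inr (.inl ⟨_, φ⟩))) v
    · exact Or.inl ⟨k, hk⟩
    · refine Or.inr ⟨C 0, k, ?_⟩
      rw [push_comp]
      exact hk
  · rintro ⟨m, hm⟩
    obtain ⟨k, C, hk | ⟨i, hC, hW, he⟩⟩ := hT (.inr (.inr (.inr ()))) ![a, b]
    · exfalso
      have h1 := hk (g (max k m)) (hg (le_max_left _ _))
      exact h1 (hm.mono (hg (le_max_right _ _)))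
    · exact ⟨i, C 0, hC, k, hW, he⟩

end tasks

end Pool.Agent.helper74.Forc
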