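import Pool.Agent.helper74.HYAct

/-!
# Homogeneity and fusion
-/

namespace Pool.Agent.helper74.HY

open Cardinal
open Pool.Agent.helper31.ZF Pool.Agent.helper74.Forc

section hom

variable {I : Type} [Ix I]

theorem exists_invol {L : Set I} (hL : Sm I L) :
    ∃ n : Equiv.Perm I, (∀ k, n (n k) = k) ∧ ∀ k ∈ L, n k ∉ L := by
  classical
  have : Infinite I := infinite_iff.2 Ix.reg.aleph0_le
  have h1 : #(Lᶜ : Set I) = #I := mk_compl_of_infinite L hL
  have h2 : #L ≤ #(Lᶜ : Set I) := by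
    rw [h1]
    exact hL.le
  obtain ⟨f⟩ := h2
  let n : I → I := fun k => if h : k ∈ L then (f ⟨k, h⟩ : I) else
    if h : ∃ l, (f l : I) = k then (h.choose : I) else k
  have hn1 : ∀ l : L, n l = f l := fun l => by
    change (if h : (l : I) ∈ L then (f ⟨l, h⟩ : I) else _) = _
    rw [dif_pos l.2]
  have hn2 : ∀ l : L, n (f l) = l := fun l => by
    have h3 : (f l : I) ∉ L := (f l).2
    have h4 : ∃ l', (f l' : I) = f l := ⟨l, rfl⟩
    change (if h : (f l : I) ∈ L then (f ⟨f l, h⟩ : I) else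
      if h : ∃ l', (f l' : I) = f l then (h.choose : I) else f l) = _
    rw [dif_neg h3, dif_pos h4]
    have h5 := h4.choose_spec
    rw [f.injective (Subtype.ext h5)]
  have hn3 : ∀ k, k ∉ L → (∀ l, (f l : I) ≠ k) → n k = k := fun k h3 h4 => by
    have h4' : ¬ ∃ l, (f l : I) = k := fun ⟨l, hl⟩ => h4 l hl
    change (if h : k ∈ L then (f ⟨k, h⟩ : I) else
      if h : ∃ l', (f l' : I) = k then (h.choose : I) else k) = _
    rw [dif_neg h3, dif_neg h4']
  have hn : Function.Involutive n := fun k => by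
    by_cases h3 : k ∈ L
    · rw [hn1 ⟨k, h3⟩, hn2]
    · by_cases h4 : ∃ l, (f l : I) = k
      · obtain ⟨l, rfl⟩ := h4
        rw [hn2, hn1]
      · push Not at h4
        rw [hn3 k h3 h4, hn3 k h3 h4]
  refine ⟨hn.toPerm n, hn, fun k hk => ?_⟩
  change n k ∉ L
  rw [hn1 ⟨k, hk⟩]
  exact (f ⟨k, hk⟩).2

theorem mvB_one_image (q : Set (Bit I)) : mvB (1 : Equiv.Perm I) '' q = q := by
  have : (mvB (1 : Equiv.Perm I) : Bit I → Bit I) = id := funext mvB_id
  rw [this, Set.image_id]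

/-- Homogeneity: a condition can be amalgamated with any extension of its restriction to a closed
set after moving it by a group element that fixes the closed set. -/
theorem hom {p p' : P I} {Y : Set (X I)} (hY : Cl Y) (hYs : Sm I Y) (h : p' ≤ p.rs Y hY) :
    ∃ g : Gp I, g.1.1 = 1 ∧ (∀ x ∈ Y, g.1.2 x = x) ∧ ∃ p'' ≤ p', p'' ≤ g • p := by
  classical
  let D : Set (X I) := clo (Y ∪ (Prod.fst '' p.a ∪ Prod.fst '' p'.a))
  have hD : Sm I D := clo_sm (hYs.union ((p.2.2.2.1.image _).union (p'.2.2.2.1.image _)))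
  have hDc : Cl D := cl_clo _
  have hYD : Y ⊆ D := Set.subset_union_left.trans (subset_clo _)
  have hpD : ∀ f ∈ p.a, f.1 ∈ D := fun f hf => subset_clo _ (Or.inr (Or.inl ⟨f, hf, rfl⟩))
  have hp'D : ∀ f ∈ p'.a, f.1 ∈ D := fun f hf => subset_clo _ (Or.inr (Or.inr ⟨f, hf, rfl⟩))
  obtain ⟨n, hn, hnL⟩ := exists_invol (hD.image lab)
  let S : Set (X I) := D \ Y
  have hinv : ∀ t ε J c, Function.Involutive
      (fun k => if X.mk t k ε J c ∈ S ∨ X.mk t (n k) ε J c ∈ S then n k else k) := by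
    intro t ε J c k
    beta_reduce
    by_cases hk : X.mk t k ε J c ∈ S ∨ X.mk t (n k) ε J c ∈ S
    · have hk' : X.mk t (n k) ε J c ∈ S ∨ X.mk t (n (n k)) ε J c ∈ S := by
        rw [hn]
        exact hk.symm
      rw [if_pos hk, if_pos hk', hn]
    · rw [if_neg hk, if_neg hk]
  let g : Gp I := mkG 1 fun t ε J c => (hinv t ε J c).toPerm _
  have hg : ∀ t k ε J c, g.1.2 (.mk t k ε J c) =
      .mk t (if X.mk t k ε J c ∈ S ∨ X.mk t (n k) ε J c ∈ S then n k else k) ε J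
        (fun j => g.1.2 (c j)) := fun t k ε J c => rfl
  have hgY : ∀ x ∈ Y, g.1.2 x = x := by
    intro x
    induction x with
    | mk t k ε J c ih =>
      intro hx
      rw [hg]
      have h1 : ¬ (X.mk t k ε J c ∈ S ∨ X.mk t (n k) ε J c ∈ S) := by
        rintro (h1 | h1)
        · exact h1.2 hx
        · exact hnL k ⟨_, hYD hx, rfl⟩ ⟨_, h1.1, rfl⟩
      rw [if_neg h1]
      congr 1
      funext j
      exact ih j (hY _ hx (child_mem j))
  have hgS : ∀ x ∈ S, g.1.2 x ∉ D := by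
    intro x hx hx'
    cases x with
    | mk t k ε J c =>
      rw [hg, if_pos (Or.inl hx)] at hx'
      exact hnL k ⟨_, hx.1, rfl⟩ ⟨_, hx', rfl⟩
  have hval : Valid ((g • p).a ∪ p'.a) := by
    refine Valid.union (g • p).2.2.2.2 p'.2.2.2.2 hDc hp'D ?_
    rintro _ ⟨f, hf, rfl⟩ hfD
    have h1 : f.1 ∈ Y := by
      by_contra hfY
      exact hgS f.1 ⟨hpD f hf, hfY⟩ hfD
    have h2 : mvF g f = f := Prod.ext (hgY _ h1) (mvZ_id f.2)
    rw [h2]
    exact h.2 ⟨hf, h1⟩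
  refine ⟨g, rfl, hgY, ⟨(p'.q, (g • p).a ∪ p'.a), p'.2.1, p'.2.2.1,
    (g • p).2.2.2.1.union p'.2.2.2.1, hval⟩, ⟨subset_rfl, Set.subset_union_right⟩,
    ⟨?_, Set.subset_union_left⟩⟩
  change mvB (1 : Equiv.Perm I) '' p.q ⊆ _
  rw [mvB_one_image]
  exact h.1

/-- Statements with support in a closed set pass to the restriction. -/
theorem hom_pred {Φ : P I → Prop} (hmono : ∀ p q, Φ p → q ≤ p → Φ q)
    (hdense : ∀ p, (∀ q ≤ p, ∃ r ≤ q, Φ r) → Φ p) {Y : Set (X I)} (hY : Cl Y) (hYs : Sm I Y)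
    (hinv : ∀ g : Gp I, g.1.1 = 1 → (∀ x ∈ Y, g.1.2 x = x) → ∀ p, Φ p → Φ (g • p)) {p : P I}
    (h : Φ p) : Φ (p.rs Y hY) := by
  refine hdense _ fun q hq => ?_
  obtain ⟨g, hg1, hg2, r, hr, hr'⟩ := hom hY hYs hq
  exact ⟨r, hr, hmono _ _ (hinv g hg1 hg2 p h) hr'⟩

/-! ### antichains of Cohen conditions -/

omit [Ix I] in
theorem con_iff {q : Set (Bit I)} : Con q ↔ ∀ i n b, (i, n, b) ∈ q → (i, n, !b) ∉ q := by
  constructor
  · rintro h i n (_ | _) h1 h2
    · exact h i n h2 h1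
    · exact h i n h1 h2
  · intro h i n h1 h2
    exact h i n true h1 h2

/-- Incompatible sets of bits. -/
def Inc (q q' : Set (Bit I)) : Prop := ∃ i n b, (i, n, b) ∈ q ∧ (i, n, !b) ∈ q'

omit [Ix I] in
theorem Inc.symm {q q' : Set (Bit I)} (h : Inc q q') : Inc q' q := by
  obtain ⟨i, n, b, h1, h2⟩ := h
  exact ⟨i, n, !b, h2, by simpa using h1⟩

omit [Ix I] in
theorem inc_iff {q q' : Set (Bit I)} (h : Con q) (h' : Con q') : Inc q q' ↔ ¬ Con (q ∪ q') := by
  constructor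
  · rintro ⟨i, n, b, h1, h2⟩ hc
    rw [con_iff] at hc
    exact hc i n b (Or.inl h1) (Or.inr h2)
  · intro hc
    rw [con_iff] at hc h h'
    push Not at hc
    obtain ⟨i, n, b, h1, h2⟩ := hc
    rcases h1 with h1 | h1 <;> rcases h2 with h2 | h2
    · exact absurd h2 (h i n b h1)
    · exact ⟨i, n, b, h1, h2⟩
    · exact ⟨i, n, !b, h2, by simpa using h1⟩
    · exact absurd h2 (h' i n b h1)

omit [Ix I] in
theorem not_inc_self {q : Set (Bit I)} (h : Con q) : ¬ Inc q q := by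
  rintro ⟨i, n, b, h1, h2⟩
  exact con_iff.1 h i n b h1 h2

omit [Ix I] in
/-- Antichains of consistent sets of bounded size have bounded size. -/
theorem antichain_bound (m : ℕ) : ∃ N : ℕ, ∀ Q : Finset (Set (Bit I)),
    (∀ q ∈ Q, q.Finite ∧ q.ncard ≤ m ∧ Con q) → (∀ q ∈ Q, ∀ q' ∈ Q, q ≠ q' → Inc q q') →
      Q.card ≤ N := by
  classical
  induction m with
  | zero =>
    refine ⟨1, fun Q h1 h2 => ?_⟩
    rw [Finset.card_le_one]
    intro q hq q' hq'
    have e : ∀ q ∈ Q, q = ∅ := fun q hq => by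
      have := (h1 q hq).2.1
      exact (Set.ncard_eq_zero (h1 q hq).1).1 (Nat.le_zero.1 this)
    rw [e q hq, e q' hq']
  | succ m ih =>
    obtain ⟨N, hN⟩ := ih
    refine ⟨1 + (m + 1) * N, fun Q h1 h2 => ?_⟩
    rcases Q.eq_empty_or_nonempty with rfl | ⟨q0, hq0⟩
    · simp
    · have hfin := (h1 q0 hq0).1
      let fl : Bit I → Bit I := fun e => (e.1, e.2.1, !e.2.2)
      have hfl : ∀ e, fl (fl e) = e := fun e => by simp [fl]
      have hcon : ∀ q ∈ Q, ∀ e ∈ q, fl e ∉ q := fun q hq e he =>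
        con_iff.1 (h1 q hq).2.2 _ _ _ he
      have hsub : Q.erase q0 ⊆ hfin.toFinset.biUnion fun e => Q.filter fun q => fl e ∈ q := by
        intro q hq
        obtain ⟨hne, hq⟩ := Finset.mem_erase.1 hq
        obtain ⟨i, n, b, h3, h4⟩ := h2 q0 hq0 q hq hne.symm
        refine Finset.mem_biUnion.2 ⟨(i, n, b), hfin.mem_toFinset.2 h3,
          Finset.mem_filter.2 ⟨hq, h4⟩⟩
      have hcard : ∀ e, (Q.filter fun q => fl e ∈ q).card ≤ N := by
        intro e
        have hinj : Set.InjOn (fun q : Set (Bit I) => q \ {fl e})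
            (Q.filter fun q => fl e ∈ q : Finset (Set (Bit I))) := by
          intro q hq q' hq' heq
          have hq1 := (Finset.mem_filter.1 (Finset.mem_coe.1 hq)).2
          have hq2 := (Finset.mem_filter.1 (Finset.mem_coe.1 hq')).2
          have heq' : q \ {fl e} = q' \ {fl e} := heq
          rw [← Set.insert_diff_self_of_mem hq1, heq', Set.insert_diff_self_of_mem hq2]
        rw [← Finset.card_image_of_injOn hinj]
        refine hN _ ?_ ?_
        · intro q1 hq1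
          obtain ⟨q, hq2, rfl⟩ := Finset.mem_image.1 hq1
          obtain ⟨hq, he⟩ := Finset.mem_filter.1 hq2
          obtain ⟨h3, h4, h5⟩ := h1 q hq
          refine ⟨h3.diff, ?_, h5.mono Set.diff_subset⟩
          have h6 := Set.ncard_diff_singleton_add_one he h3
          omega
        · intro q1 hq1 q1' hq1' hne
          obtain ⟨q, hq2, rfl⟩ := Finset.mem_image.1 hq1
          obtain ⟨q', hq2', rfl⟩ := Finset.mem_image.1 hq1'
          obtain ⟨hq, he⟩ := Finset.mem_filter.1 hq2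
          obtain ⟨hq', he'⟩ := Finset.mem_filter.1 hq2'
          have hne' : q ≠ q' := fun h => hne (by rw [h])
          obtain ⟨i, n, b, h3, h4⟩ := h2 q hq q' hq' hne'
          refine ⟨i, n, b, ⟨h3, fun h5 => ?_⟩, h4, fun h5 => ?_⟩
          · have h5' : (i, n, b) = fl e := h5
            rw [← h5'] at he'
            exact hcon q' hq' _ he' h4
          · have h5' : (i, n, !b) = fl e := h5
            rw [← h5'] at he
            exact hcon q hq _ h3 he
      have h3 : (Q.erase q0).card ≤ (m + 1) * N := by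
        calc (Q.erase q0).card ≤ _ := Finset.card_le_card hsub
          _ ≤ ∑ e ∈ hfin.toFinset, (Q.filter fun q => fl e ∈ q).card := Finset.card_biUnion_le
          _ ≤ ∑ e ∈ hfin.toFinset, N := Finset.sum_le_sum fun e _ => hcard e
          _ = hfin.toFinset.card * N := by rw [Finset.sum_const, smul_eq_mul]
          _ ≤ (m + 1) * N := by
            refine Nat.mul_le_mul_right _ ?_
            rw [← Set.ncard_eq_toFinset_card q0 hfin]
            exact (h1 q0 hq0).2.1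
      have h4 := Finset.card_erase_add_one hq0
      omega

/-! ### fusion -/

/-- The condition with Cohen part of the first and facts of the second. -/
def P.jn (r s : P I) : P I := ⟨(r.q, s.a), r.2.1, r.2.2.1, s.2.2.2.1, s.2.2.2.2⟩

/-- Adding the bits of the second condition to the first. -/
def P.un (r s : P I) (h : Con (r.q ∪ s.q)) : P I :=
  ⟨(r.q ∪ s.q, r.a), r.2.1.union s.2.1, h, r.2.2.2.1, r.2.2.2.2⟩

theorem P.un_le_left (r s : P I) (h : Con (r.q ∪ s.q)) : r.un s h ≤ r :=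
  ⟨Set.subset_union_left, subset_rfl⟩

theorem P.un_le_right (r s : P I) (h : Con (r.q ∪ s.q)) (h' : s.a ⊆ r.a) : r.un s h ≤ s :=
  ⟨Set.subset_union_right, h'⟩

/-- Limit of a decreasing sequence of conditions with the same Cohen part. -/
def P.lim (p : ℕ → P I) (h : Antitone p) : P I :=
  ⟨((p 0).q, ⋃ n, (p n).a), (p 0).2.1, (p 0).2.2.1, Sm.iUnion fun n => (p n).2.2.2.1,
    Valid.iUnion (fun n => (p n).2.2.2.2) (directed_of_isDirected_le fun _ _ hmn => (h hmn).2)⟩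

theorem P.lim_le (p : ℕ → P I) (h : Antitone p) (hq : ∀ n, (p n).q = (p 0).q) (n : ℕ) :
    P.lim p h ≤ p n := ⟨(hq n).subset, Set.subset_iUnion (fun n => (p n).a) n⟩

/-- One step of the fusion. -/
theorem fusion_step {Φ : P I → Prop} (p : P I) (m : ℕ) :
    ∃ p' ≤ p, p'.q = p.q ∧ ∃ Q : Finset (Set (Bit I)),
      (∀ q ∈ Q, q.ncard ≤ m ∧ ∃ r : P I, r ≤ p' ∧ r.q = q ∧ r.a = p'.a ∧ Φ r) ∧
      (∀ q ∈ Q, ∀ q' ∈ Q, q ≠ q' → Inc q q') ∧
      ∀ p'' ≤ p', p''.q = p'.q → ∀ Q' : Finset (Set (Bit I)),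
        (∀ q ∈ Q', q.ncard ≤ m ∧ ∃ r : P I, r ≤ p'' ∧ r.q = q ∧ r.a = p''.a ∧ Φ r) →
        (∀ q ∈ Q', ∀ q' ∈ Q', q ≠ q' → Inc q q') → Q'.card ≤ Q.card := by
  obtain ⟨N, hN⟩ := antichain_bound (I := I) m
  let S : Set ℕ := {n | ∃ p' ≤ p, p'.q = p.q ∧ ∃ Q : Finset (Set (Bit I)),
      (∀ q ∈ Q, q.ncard ≤ m ∧ ∃ r : P I, r ≤ p' ∧ r.q = q ∧ r.a = p'.a ∧ Φ r) ∧
      (∀ q ∈ Q, ∀ q' ∈ Q, q ≠ q' → Inc q q') ∧ Q.card = n}
  have hne : S.Nonempty := ⟨0, p, le_rfl, rfl, ∅, by simp, by simp, rfl⟩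
  have hbdd : BddAbove S := by
    refine ⟨N, ?_⟩
    rintro n ⟨p', _, _, Q, h1, h2, rfl⟩
    refine hN Q (fun q hq => ?_) h2
    obtain ⟨h3, r, _, rfl, _, _⟩ := h1 q hq
    exact ⟨r.2.1, h3, r.2.2.1⟩
  obtain ⟨p', hp', hq', Q, h1, h2, h3⟩ := Nat.sSup_mem hne hbdd
  refine ⟨p', hp', hq', Q, h1, h2, fun p'' hp'' hq'' Q' h4 h5 => ?_⟩
  rw [h3]
  exact le_csSup hbdd ⟨p'', hp''.trans hp', hq''.trans hq', Q', h4, h5, rfl⟩

/-- Fusion: below every condition there is one with the same Cohen part over which a dense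
property is decided by countably many Cohen conditions. -/
theorem fusion {Φ : P I → Prop} (hmono : ∀ p q, Φ p → q ≤ p → Φ q) {p : P I}
    (hd : ∀ q ≤ p, ∃ r ≤ q, Φ r) :
    ∃ p' ≤ p, p'.q = p.q ∧ ∃ Q : ℕ → P I, (∀ j, Q j ≤ p' ∧ (Q j).a = p'.a ∧ Φ (Q j)) ∧
      ∀ r ≤ p', ∃ j, Con (r.q ∪ (Q j).q) := by
  classical
  have hstep := fun (p : P I) (m : ℕ) => fusion_step (Φ := Φ) p m
  choose f hf1 hf2 A hA1 hA2 hA3 using hstep
  let s : ℕ → P I := fun n => Nat.rec p (fun m q => f q m) n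
  have hs : ∀ n, s (n + 1) = f (s n) n := fun n => rfl
  have hanti : Antitone s := antitone_nat_of_succ_le fun n => by
    rw [hs]
    exact hf1 _ _
  have hq : ∀ n, (s n).q = (s 0).q := by
    intro n
    induction n with
    | zero => rfl
    | succ n ih => rw [hs, hf2, ih]
  let p' := P.lim s hanti
  have hp' : ∀ n, p' ≤ s n := P.lim_le s hanti hq
  have hpq : p'.q = p.q := rfl
  -- the countable family
  let C : Set (P I) := {c | c ≤ p' ∧ c.a = p'.a ∧ Φ c ∧ ∃ m, c.q ∈ A (s m) m}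
  have hC : C.Countable := by
    have hinj : Set.InjOn (fun c : P I => c.q) C := by
      rintro c hc c' hc' he
      exact Subtype.ext (Prod.ext he (hc.2.1.trans hc'.2.1.symm))
    refine Set.MapsTo.countable_of_injOn (t := ⋃ m, (A (s m) m : Set (Set (Bit I)))) ?_ hinj ?_
    · rintro c ⟨_, _, _, m, hm⟩
      exact Set.mem_iUnion.2 ⟨m, hm⟩
    · exact Set.countable_iUnion fun m => (A (s m) m).countable_toSet
  have hpre : ∀ r ≤ p', ∃ c ∈ C, Con (r.q ∪ c.q) := by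
    intro r hr
    by_contra hcon
    push Not at hcon
    obtain ⟨r', hr', hΦ⟩ := hd r (hr.trans (hp' 0))
    let m := r'.q.ncard
    have hr'p : r' ≤ p' := hr'.trans hr
    let p3 : P I := p'.jn r'
    have hp3 : p3 ≤ s (m + 1) := ⟨(hq (m + 1)).subset, (hr'p.trans (hp' (m + 1))).2⟩
    have hp3q : p3.q = (s (m + 1)).q := (hq (m + 1)).symm
    have hmem : ∀ q ∈ A (s m) m, ∃ c ∈ C, c.q = q := by
      intro q hqA
      obtain ⟨_, c, hc1, hc2, hc3, hc4⟩ := hA1 (s m) m q hqA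
      have hc1' : c ≤ s (m + 1) := hc1
      have hle : c.jn p' ≤ c := by
        refine ⟨subset_rfl, ?_⟩
        change c.a ⊆ p'.a
        rw [hc3]
        exact (hp' (m + 1)).2
      refine ⟨c.jn p', ⟨⟨?_, subset_rfl⟩, rfl, hmono _ _ hc4 hle, m, ?_⟩, hc2⟩
      · change p'.q ⊆ c.q
        have h1 : (s (m + 1)).q ⊆ c.q := hc1'.1
        rw [hq (m + 1)] at h1
        exact h1
      · change c.q ∈ _
        rw [hc2]
        exact hqA
    have hincr : ∀ q ∈ A (s m) m, Inc r'.q q := by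
      intro q hqA
      obtain ⟨c, hc, rfl⟩ := hmem q hqA
      rw [inc_iff r'.2.2.1 c.2.2.1]
      intro hcc
      exact hcon c hc (hcc.mono (Set.union_subset_union_left _ hr'.1))
    have hnot : r'.q ∉ A (s m) m := fun h => not_inc_self r'.2.2.1 (hincr _ h)
    have h4 := hA3 (s m) m p3 hp3 hp3q (insert r'.q (A (s m) m)) ?_ ?_
    · rw [Finset.card_insert_of_notMem hnot] at h4
      omega
    · intro q hqA
      rcases Finset.mem_insert.1 hqA with rfl | hqA
      · refine ⟨le_rfl, r', ⟨hr'p.1, subset_rfl⟩, rfl, rfl, hΦ⟩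
      · obtain ⟨h5, c, hc1, hc2, hc3, hc4⟩ := hA1 (s m) m q hqA
        have hc1' : c ≤ s (m + 1) := hc1
        refine ⟨h5, c.jn r', ⟨?_, subset_rfl⟩, hc2, rfl, hmono _ _ hc4 ⟨subset_rfl, ?_⟩⟩
        · change p'.q ⊆ c.q
          have h1 : (s (m + 1)).q ⊆ c.q := hc1'.1
          rw [hq (m + 1)] at h1
          exact h1
        · change c.a ⊆ r'.a
          rw [hc3]
          exact (hr'p.trans (hp' (m + 1))).2
    · intro q hqA q' hqA' hne
      rcases Finset.mem_insert.1 hqA with rfl | hqA <;>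
        rcases Finset.mem_insert.1 hqA' with rfl | hqA'
      · exact absurd rfl hne
      · exact hincr _ hqA'
      · exact (hincr _ hqA).symm
      · exact hA2 (s m) m q hqA q' hqA' hne
  obtain ⟨c0, hc0, _⟩ := hpre p' le_rfl
  obtain ⟨Q, hQ⟩ := hC.exists_eq_range ⟨c0, hc0⟩
  refine ⟨p', hp' 0, hpq, Q, fun j => ?_, fun r hr => ?_⟩
  · have : Q j ∈ C := by
      rw [hQ]
      exact ⟨j, rfl⟩
    exact ⟨this.1, this.2.1, this.2.2.1⟩
  · obtain ⟨c, hc, h⟩ := hpre r hr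
    rw [hQ] at hc
    obtain ⟨j, rfl⟩ := hc
    exact ⟨j, h⟩

/-- Fusion for countably many dense properties. -/
theorem fusion_seq {Φ : ℕ → P I → Prop} (hmono : ∀ n p q, Φ n p → q ≤ p → Φ n q) {p : P I}
    (hd : ∀ n, ∀ q ≤ p, ∃ r ≤ q, Φ n r) :
    ∃ p' ≤ p, p'.q = p.q ∧ ∃ Q : ℕ → ℕ → P I,
      (∀ n j, Q n j ≤ p' ∧ (Q n j).a = p'.a ∧ Φ n (Q n j)) ∧
      ∀ n, ∀ r ≤ p', ∃ j, Con (r.q ∪ (Q n j).q) := by
  classical
  have hstep : ∀ (n : ℕ) (s : {s : P I // s ≤ p}), ∃ p' : {s : P I // s ≤ p}, p' ≤ s ∧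
      p'.1.q = s.1.q ∧ ∃ Q : ℕ → P I, (∀ j, Q j ≤ p' ∧ (Q j).a = p'.1.a ∧ Φ n (Q j)) ∧
      ∀ r ≤ p'.1, ∃ j, Con (r.q ∪ (Q j).q) := by
    rintro n ⟨s, hs⟩
    obtain ⟨p', hp', h1, h2⟩ := fusion (hmono n) (p := s) fun q hq => hd n q (hq.trans hs)
    exact ⟨⟨p', hp'.trans hs⟩, hp', h1, h2⟩
  choose f hf1 hf2 A hA1 hA2 using hstep
  let s : ℕ → {s : P I // s ≤ p} := fun n => Nat.rec ⟨p, le_rfl⟩ (fun m q => f m q) n
  have hs : ∀ n, s (n + 1) = f n (s n) := fun n => rfl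
  have hanti : Antitone fun n => (s n).1 := antitone_nat_of_succ_le fun n => by
    rw [hs]
    exact hf1 _ _
  have hq : ∀ n, (s n).1.q = (s 0).1.q := by
    intro n
    induction n with
    | zero => rfl
    | succ n ih => rw [hs, hf2, ih]
  let p' := P.lim _ hanti
  have hp' : ∀ n, p' ≤ (s n).1 := P.lim_le _ hanti hq
  have hpq : p'.q = p.q := rfl
  refine ⟨p', hp' 0, hpq, fun n j => (A n (s n) j).jn p', fun n j => ?_, fun n r hr => ?_⟩
  · obtain ⟨h1, h2, h3⟩ := hA1 n (s n) j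
    have h4 : (f n (s n)).1 = (s (n + 1)).1 := rfl
    refine ⟨⟨?_, subset_rfl⟩, rfl, hmono _ _ _ h3 ⟨subset_rfl, ?_⟩⟩
    · change p'.q ⊆ (A n (s n) j).q
      have h5 : (f n (s n)).1.q ⊆ (A n (s n) j).q := h1.1
      rw [h4, hq (n + 1)] at h5
      exact h5
    · change (A n (s n) j).a ⊆ p'.a
      rw [h2, h4]
      exact (hp' (n + 1)).2
  · exact hA2 n (s n) r (hr.trans (hp' (n + 1)))

end hom

end Pool.Agent.helper74.HY
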