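import Pool.Agent.helper74.HYName

/-!
# The coordinate of a hypergraph
-/

namespace Pool.Agent.helper74.HY

open Cardinal
open Pool.Agent.helper31.ZF Pool.Agent.helper74.Forc

section hyp

variable {I : Type} [Ix I]

theorem perm_extend {S : Set I} (hS : Sm I S) (f : I → I) (hf : Set.InjOn f S) :
    ∃ π : Equiv.Perm I, ∀ i ∈ S, π i = f i := by
  obtain ⟨g, hg⟩ := extend_function_of_lt (α := I) (β := I) (s := S)
    ⟨fun x => f x, fun x y h => Subtype.ext (hf x.2 y.2 h)⟩ hS ⟨Equiv.refl _⟩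
  exact ⟨g, fun i hi => hg ⟨i, hi⟩⟩

theorem exists_enum {C : Set I} (hC : C.Countable) :
    ∃ ε : ℕ → I, Function.Injective ε ∧ C ⊆ Set.range ε := by
  let C' : Set I := C ∪ Set.range Ix.b
  have h1 : C'.Countable := hC.union (Set.countable_range _)
  have h2 : C'.Infinite := (Set.infinite_range_of_injective Ix.inj).mono Set.subset_union_right
  have : Countable C' := h1
  have : Infinite C' := h2.to_subtype
  obtain ⟨_⟩ := nonempty_denumerable C'
  refine ⟨fun n => ((Denumerable.eqv C').symm n : C'), fun m n h => ?_, fun i hi => ?_⟩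
  · exact (Denumerable.eqv C').symm.injective (Subtype.ext h)
  · refine ⟨Denumerable.eqv C' ⟨i, Or.inl hi⟩, ?_⟩
    simp

theorem exists_perm {ε : ℕ → I} (hε : Function.Injective ε) :
    ∃ s : Equiv.Perm I, s ∘ Ix.b = ε := by
  classical
  have hinv : ∀ n, Function.invFun (Ix.b (I := I)) (Ix.b n) = n := fun n =>
    Function.leftInverse_invFun Ix.inj n
  obtain ⟨π, hπ⟩ := perm_extend (S := Set.range (Ix.b (I := I)))
    (Sm.of_countable (Set.countable_range _)) (fun i => ε (Function.invFun Ix.b i)) (by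
      rintro _ ⟨m, rfl⟩ _ ⟨n, rfl⟩ h
      have h' : ε (Function.invFun Ix.b (Ix.b (I := I) m)) =
        ε (Function.invFun Ix.b (Ix.b (I := I) n)) := h
      rw [hinv, hinv] at h'
      rw [hε h'])
  refine ⟨π, funext fun n => ?_⟩
  have h := hπ (Ix.b n) ⟨n, rfl⟩
  rw [hinv] at h
  exact h

/-- Data of the support of a name. -/
structure Supp (τ : Nm (P I)) where
  /-- indices -/
  ε : ℕ → I
  /-- enumeration of the coordinates -/
  J : Set ℕ
  /-- enumeration of the coordinates -/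
  c : J → X I
  inj : Function.Injective ε
  cl : Cl (Set.range c)
  ixs : ∀ j, ixs (c j) ⊆ Set.range ε
  fix : ∀ g : Gp I, Fix (Set.range ε) (Set.range c) g → ∀ p, feq (act g τ) τ p

theorem exists_supp (τ : HN (Gp I) (P I)) : Nonempty (Supp τ.1) := by
  obtain ⟨H, hH, h⟩ := τ.2.sym
  obtain ⟨E, F, hE, hF, hEF⟩ := big_fix.1 hH
  have hY : (clo F).Countable := clo_countable hF
  obtain ⟨ε, hε, hsub⟩ := exists_enum (C := E ∪ ⋃ x ∈ clo F, ixs x)
    (hE.union (hY.biUnion fun x _ => ixs_countable x))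
  have : Countable (clo F) := hY
  obtain ⟨f, hf⟩ := exists_injective_nat (clo F)
  have hr : Set.range (fun j : Set.range f => ((Equiv.ofInjective f hf).symm j : X I)) =
      clo F := by
    ext x
    constructor
    · rintro ⟨j, rfl⟩
      exact ((Equiv.ofInjective f hf).symm j).2
    · intro hx
      refine ⟨Equiv.ofInjective f hf ⟨x, hx⟩, ?_⟩
      simp
  refine ⟨⟨ε, Set.range f, fun j => ((Equiv.ofInjective f hf).symm j : X I), hε, ?_,
    fun j => ?_, fun g hg p => h g (hEF g ?_) p⟩⟩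
  · rw [hr]
    exact cl_clo F
  · intro i hi
    exact hsub (Or.inr (Set.mem_iUnion₂.2 ⟨_, ((Equiv.ofInjective f hf).symm j).2, hi⟩))
  · rw [hr] at hg
    exact hg.mono (Set.subset_union_left.trans hsub) (subset_clo F)

namespace Supp

variable {τ : Nm (P I)} (S : Supp τ)

/-- The template of a name. -/
def t : Tp I := {e | e.1 ≠ [] ∧ ∃ s : Equiv.Perm I, s ∘ Ix.b = S.ε ∧ ∃ p : P I,
  (∀ w ∈ p.q, ∃ w' ∈ e.2.1, mvB s w' = w) ∧
  (∀ f ∈ p.a, ∃ h ∈ e.2.2, ∃ hJ : h.1 ∈ S.J, (S.c ⟨h.1, hJ⟩, mvZ s h.2) = f) ∧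
  fmem (LN (e.1.map (mvR s))) τ p}

/-- The coordinate of a name. -/
def x : X I := .mk S.t (Ix.b 0) S.ε S.J S.c

theorem ch_x : ch S.x = Set.range S.c := by
  change (⋃ j, insert (S.c j) (ch (S.c j))) = _
  ext y
  constructor
  · intro hy
    obtain ⟨j, rfl | hy⟩ := Set.mem_iUnion.1 hy
    · exact ⟨j, rfl⟩
    · exact S.cl _ ⟨j, rfl⟩ hy
  · rintro ⟨j, rfl⟩
    exact Set.mem_iUnion.2 ⟨j, Or.inl rfl⟩

theorem range_sm : Sm I (Set.range S.c) := Sm.of_countable (Set.countable_range _)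

/-- An instance of the template forces that the list is an edge. -/
theorem inst {e : List (RN I) × Set (Bit I) × Set (ℕ × Z I)} (he : e ∈ S.t)
    {s : Equiv.Perm I} (hs : s ∘ Ix.b = S.ε) {p : P I} (h1 : ∀ w ∈ e.2.1, mvB s w ∈ p.q)
    (h2 : ∀ f ∈ e.2.2, ∃ h : f.1 ∈ S.J, (S.c ⟨f.1, h⟩, mvZ s f.2) ∈ p.a) :
    fmem (LN (e.1.map (mvR s))) τ p := by
  obtain ⟨_, s', hs', p', h3, h4, h5⟩ := he
  let π : Equiv.Perm I := s * s'⁻¹
  have hπ : ∀ i, π (s' i) = s i := fun i => by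
    change s (s'⁻¹ (s' i)) = s i
    rw [perm_inv_self]
  have hfix : ∀ i ∈ Set.range S.ε, π i = i := by
    rintro _ ⟨n, rfl⟩
    have e1 : S.ε n = s' (Ix.b n) := by rw [← hs']; rfl
    have e2 : S.ε n = s (Ix.b n) := by rw [← hs]; rfl
    rw [e1, hπ, ← e2, e1]
  let g : Gp I := exG π
  have hg1 : g.1.1 = π := rfl
  have hgc : ∀ j, g.1.2 (S.c j) = S.c j := fun j =>
    exG_fix fun i hi => hfix i (S.ixs j hi)
  have hg : Fix (Set.range S.ε) (Set.range S.c) g := by
    refine ⟨hfix, ?_⟩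
    rintro _ ⟨j, rfl⟩
    exact hgc j
  have hπs : (π : I → I) ∘ s' = s := funext hπ
  have hle : p ≤ g • p' := by
    refine ⟨?_, ?_⟩
    · rintro _ ⟨w, hw, rfl⟩
      obtain ⟨w', hw', rfl⟩ := h3 w hw
      rw [mvB_mvB, hg1, hπs]
      exact h1 w' hw'
    · rintro _ ⟨f, hf, rfl⟩
      obtain ⟨h, hh, hJ, rfl⟩ := h4 f hf
      obtain ⟨_, h6⟩ := h2 h hh
      have : mvF g (S.c ⟨h.1, hJ⟩, mvZ s' h.2) = (S.c ⟨h.1, hJ⟩, mvZ s h.2) := by
        refine Prod.ext (hgc _) ?_
        change mvZ π (mvZ s' h.2) = _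
        rw [mvZ_mvZ, hπs]
      rw [this]
      exact h6
  have h6 := (fmem_act g).2 h5
  have h7 := (h6.congr_right (S.fix g hg _)).mono hle
  have h8 := h7.congr_left (act_LN g _ _)
  rw [List.map_map] at h8
  have e3 : mvR g.1.1 ∘ mvR s' = mvR s := by
    funext r
    change mvR π (mvR s' r) = _
    rw [mvR_mvR, hπs]
  rw [e3] at h8
  exact h8

/-- Independence. -/
theorem indep {p : P I} {l : List (RN I)} (hl : l ≠ []) (h : fmem (LN l) τ p)
    (hA : ∀ r ∈ l, WA S.x r p) : False := by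
  have h0 : fmem (LN l) τ (p.rs _ S.cl) := by
    refine hom_pred (Φ := fun p => fmem (LN l) τ p) (fun p q h hq => h.mono hq)
      (fun p h => fmem.dense h) S.cl S.range_sm (fun g hg1 hg2 p h => ?_) h
    have hg : Fix (Set.range S.ε) (Set.range S.c) g := ⟨fun i _ => by rw [hg1]; rfl, hg2⟩
    have h1 := (((fmem_act g).2 h).congr_right (S.fix g hg _)).congr_left (act_LN g _ _)
    rw [hg1] at h1
    have e : l.map (mvR (1 : Equiv.Perm I)) = l := by
      have : (mvR (1 : Equiv.Perm I) : RN I → RN I) = id := funext mvR_id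
      rw [this, List.map_id]
    rw [e] at h1
    exact h1
  obtain ⟨s, hs⟩ := exists_perm S.inj
  let e : List (RN I) × Set (Bit I) × Set (ℕ × Z I) :=
    (l.map (mvR (s⁻¹ : Equiv.Perm I)), mvB (s⁻¹ : Equiv.Perm I) '' p.q,
      {h | ∃ hJ : h.1 ∈ S.J, (S.c ⟨h.1, hJ⟩, mvZ s h.2) ∈ p.a})
  have hle : e.1.map (mvR s) = l := by
    change (l.map (mvR (s⁻¹ : Equiv.Perm I))).map (mvR s) = l
    rw [List.map_map]
    have : mvR s ∘ mvR (s⁻¹ : Equiv.Perm I) = id := funext (mvR_inv' s)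
    rw [this, List.map_id]
  have he : e ∈ S.t := by
    refine ⟨?_, s, hs, p.rs _ S.cl, fun w hw => ?_, fun f hf => ?_, ?_⟩
    · change l.map _ ≠ []
      rw [ne_eq, List.map_eq_nil_iff]
      exact hl
    · exact ⟨_, ⟨w, hw, rfl⟩, mvB_inv' s w⟩
    · obtain ⟨hf, j, hj⟩ := hf
      have h1 : (S.c j, mvZ s (mvZ (s⁻¹ : Equiv.Perm I) f.2)) = f :=
        Prod.ext hj (mvZ_inv' s f.2)
      refine ⟨(j.1, mvZ (s⁻¹ : Equiv.Perm I) f.2), ⟨j.2, ?_⟩, j.2, h1⟩
      change (S.c j, mvZ s (mvZ (s⁻¹ : Equiv.Perm I) f.2)) ∈ p.a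
      rw [h1]
      exact hf
    · rw [hle]
      exact h0
  have hx := p.2.2.2.2 S.x
  refine hx.2 p.a p.2.2.2.1 (fun j => hx.1 j) (fun f hf _ => hf) p.q p.2.1 p.2.2.1 ?_
  refine ⟨e, he, he.1, s, hs, ?_, fun f hf => hf, fun r hr => ?_⟩
  · rintro _ ⟨w, hw, rfl⟩
    rw [mvB_inv']
    exact hw
  · obtain ⟨r', hr', rfl⟩ := List.mem_map.1 hr
    obtain ⟨q0, h1, h2⟩ := hA r' hr'
    refine ⟨q0, h1, ?_⟩
    rw [mvR_inv']
    exact h2

/-- Maximality. -/
theorem maxi (p : P I) (r : RN I) : ∃ p' ≤ p, WA S.x r p' ∨ ∃ l, l ≠ [] ∧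
    fmem (LN l) τ p' ∧ ∀ r' ∈ l, r' = r ∨ WA S.x r' p' := by
  by_contra hcon
  push Not at hcon
  let L : List (Bit I) := p.2.1.toFinset.toList
  have hL : ∀ w, w ∈ L ↔ w ∈ p.q := fun w => by
    change w ∈ p.2.1.toFinset.toList ↔ _
    rw [Finset.mem_toList, Set.Finite.mem_toFinset]
  let a' : Set (Fa I) := insert (S.x, (L, r)) p.a
  have hval : Valid a' := by
    intro y
    induction y using X.ch_ind with
    | h y ih =>
      by_cases hy : y = S.x
      · subst hy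
        refine ⟨fun j => ih _ (child_mem j), fun b' hb' hj hsub q hq hc hv => ?_⟩
        change Viol S.t S.ε S.J S.c (sec a' S.x) b' q at hv
        obtain ⟨e, he, h1, s, hs, h2, h3, h4⟩ := hv
        have hsub' : ∀ f ∈ p.a, f.1 ∈ ch S.x → f ∈ b' := fun f hf hfc => hsub f (Or.inr hf) hfc
        by_cases hLq : ∀ w ∈ L, w ∈ q
        · have hb : ∀ y ∈ Set.range S.c, OK y b' := by
            rintro _ ⟨j, rfl⟩
            exact hj j
          have hv' : Valid (p.a ∪ rs b' (Set.range S.c)) := by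
            refine Valid.union p.2.2.2.2 (Valid.rs_of hb S.cl) S.cl (fun f hf => hf.2) ?_
            intro f hf hfY
            refine ⟨hsub' f hf ?_, hfY⟩
            rw [S.ch_x]
            exact hfY
          let p' : P I := ⟨(q, p.a ∪ rs b' (Set.range S.c)), hq, hc,
            p.2.2.2.1.union (hb'.mono fun _ hf => hf.1), hv'⟩
          have hp' : p' ≤ p := ⟨fun w hw => hLq w ((hL w).2 hw), Set.subset_union_left⟩
          have h5 := S.inst (p := p') he hs h2 fun f hf => by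
            obtain ⟨hJ, h6⟩ := h3 f hf
            exact ⟨hJ, Or.inr ⟨h6, _, rfl⟩⟩
          have h7 := (hcon p' hp').2 (e.1.map (mvR s)) (by
            rw [ne_eq, List.map_eq_nil_iff]
            exact h1) h5
          obtain ⟨r', hr', h8, h9⟩ := h7
          obtain ⟨r1, hr1, rfl⟩ := List.mem_map.1 hr'
          obtain ⟨q0, hq0, h10⟩ := h4 r1 hr1
          rcases h10 with h10 | h10
          · have h11 : (q0, mvR s r1) = (L, r) := congrArg Prod.snd h10
            exact h8 (congrArg Prod.snd h11)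
          · exact h9 ⟨q0, hq0, Or.inl h10⟩
        · refine (p.2.2.2.2 S.x).2 b' hb' hj hsub' q hq hc ?_
          refine ⟨e, he, h1, s, hs, h2, h3, fun r1 hr1 => ?_⟩
          obtain ⟨q0, hq0, h10⟩ := h4 r1 hr1
          rcases h10 with h10 | h10
          · have h11 : (q0, mvR s r1) = (L, r) := congrArg Prod.snd h10
            have h12 : q0 = L := congrArg Prod.fst h11
            rw [h12] at hq0
            exact absurd hq0 hLq
          · exact ⟨q0, hq0, h10⟩
      · refine OK.of_le (p.2.2.2.2 y) ih ?_ fun f hf _ => Or.inr hf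
        rintro z (hz | hz)
        · exact absurd (congrArg Prod.fst hz) hy
        · exact hz
  let p' : P I := ⟨(p.q, a'), p.2.1, p.2.2.1,
    (Sm.of_countable (Set.countable_singleton _)).union p.2.2.2.1, hval⟩
  refine (hcon p' ⟨subset_rfl, Set.subset_insert _ _⟩).1 ⟨L, fun w hw => (hL w).1 hw, ?_⟩
  exact Set.mem_insert _ _

end Supp

/-- The coordinate of a hypergraph: the generic set is independent and maximal. -/
theorem exists_coord (τ : HN (Gp I) (P I)) : ∃ x : X I,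
    (∀ (p : P I) (l : List (RN I)), l ≠ [] → fmem (LN l) τ.1 p → ¬ ∀ r ∈ l, WA x r p) ∧
    ∀ (p : P I) (r : RN I), ∃ p' ≤ p, WA x r p' ∨ ∃ l, l ≠ [] ∧ fmem (LN l) τ.1 p' ∧
      ∀ r' ∈ l, r' = r ∨ WA x r' p' := by
  obtain ⟨S⟩ := exists_supp τ
  exact ⟨S.x, fun p l hl h hA => S.indep hl h hA, S.maxi⟩

end hyp

end Pool.Agent.helper74.HY
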