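import Pool.Agent.helper74.HYFinal

/-!
# DC, HYP(ℝ) and the failure of WO(ℝ) in the model
-/

namespace Pool.Agent.helper74.HY

open Cardinal
open Pool.Agent.helper31.ZF Pool.Agent.helper74.Forc

section model

variable {I : Type} [Ix I] {Γ : Gen (Gp I) (P I)}

theorem Full.opIn (hΓ : Full Γ) {x y : Nm (P I)} (hx : Γ.In x) (hy : Γ.In y) :
    Γ.In (opN x y) := hΓ.pr (hΓ.pr hx hx) (hΓ.pr hx hy)

theorem exists_In (m : Γ.Mod) : ∃ a, m = Γ.of (Γ.h a).1 := by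
  obtain ⟨a, rfl⟩ := Γ.exists_cl m
  exact ⟨a, (Gen.of_cl a).symm⟩

theorem inH (a : ℕ) : Γ.In (Γ.h a).1 := ⟨a, rfl⟩

variable [hF : Fact Γ.HasOm]

theorem Full.ofOp (hΓ : Full Γ) {x y : Nm (P I)} (hx : Γ.In x) (hy : Γ.In y) :
    Γ.of (opN x y) = op (Γ.of x) (Γ.of y) :=
  Gen.of_opN (hΓ.opIn hx hy) (hΓ.pr hx hx) (hΓ.pr hx hy) hx hy

theorem mem_of {x y : Nm (P I)} (hx : Γ.In x) (hy : Γ.In y) :
    Γ.of x ∈ Γ.of y ↔ ∃ k, fmem x y (Γ.g k) := Gen.E_of hx hy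

theorem mem_SN {W : RN I → P I → Prop} (h : Γ.In (SN W)) {z : Γ.Mod} :
    z ∈ Γ.of (SN W) ↔ ∃ r, Γ.In (RNm r) ∧ z = Γ.of (RNm r) ∧ ∃ k, Dw W r (Γ.g k) :=
  Gen.E_mk h

theorem real_sub {r : RN I} (h : Γ.In (RNm r)) : Γ.of (RNm r) ⊆ (om : Γ.Mod) := by
  intro z hz
  obtain ⟨n, _, rfl, _⟩ := (Gen.E_mk h).1 hz
  exact Gen.mem_om'.2 ⟨n, rfl⟩

theorem setOfReals_SN {W : RN I → P I → Prop} (h : Γ.In (SN W)) : SetOfReals (Γ.of (SN W)) := by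
  intro z hz
  obtain ⟨r, hr, rfl, _⟩ := (mem_SN h).1 hz
  exact real_sub hr

theorem Full.exists_rn (hΓ : Full Γ) {x : Γ.Mod} (hx : x ⊆ om) :
    ∃ r, Γ.In (RNm r) ∧ x = Γ.of (RNm r) := by
  obtain ⟨a, rfl⟩ := exists_In x
  obtain ⟨b, hb⟩ := hF.out.om
  obtain ⟨k, h1 | ⟨r, h1, h2⟩⟩ := hΓ.real a
  · exfalso
    let φ : Fml 2 := .all (fimp (.mem 2 0) (.mem 2 1))
    have hsat : Sat Γ.E φ (fun i => Γ.cl ((![a, b] : Fin 2 → ℕ) i)) := by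
      intro z
      change Sat Γ.E (fimp (.mem 2 0) (.mem 2 1)) _
      rw [sat_imp]
      intro hz
      have hz' : z ∈ Γ.of (Γ.h a).1 := by
        rw [Gen.of_cl]
        exact hz
      have h2 := hx z hz'
      obtain ⟨n, rfl⟩ := Gen.mem_om'.1 h2
      have h3 : Γ.E (Γ.N n) (Γ.cl b) := by
        rw [← Gen.of_cl, hb]
        exact (Gen.E_om hF.out).2 ⟨n, rfl⟩
      exact h3
    obtain ⟨m, hm⟩ := (Γ.truth φ _).1 hsat
    refine h1 (Γ.g (max k m)) (Γ.anti (le_max_left _ _)) fun z q hq hW => ?_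
    have h2 : F (.all (fimp (.mem 2 0) (.mem 2 1))) (fun i => Γ.h ((![a, b] : Fin 2 → ℕ) i))
      (Γ.g m) := hm
    rw [F_all] at h2
    have h3 := h2 ((Γ.h a).el z)
    rw [F_imp] at h3
    have h4 := h3 q (hq.trans (Γ.anti (le_max_right _ _))) (fmem_el (Γ.h a).1 hW)
    have h5 : fmem ((Γ.h a).1.el z) (Γ.h b).1 q := h4
    rw [hb] at h5
    exact h5
  · exact ⟨r, h1, (Gen.of_eq (inH a) h1).2 ⟨k, h2⟩⟩

/-! ### dependent choices -/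

theorem Full.dcM (hΓ : Full Γ) : DC Γ.Mod := by
  intro X R hne htot
  obtain ⟨a, rfl⟩ := exists_In X
  obtain ⟨b, rfl⟩ := exists_In R
  obtain ⟨k, h1 | ⟨c, h1, h2⟩ | ⟨A, hA, hs, h1, h2⟩⟩ := hΓ.dc a b
  · exfalso
    obtain ⟨x, hx⟩ := hne
    obtain ⟨c, rfl⟩ := exists_In x
    obtain ⟨m, hm⟩ := (mem_of (inH c) (inH a)).1 hx
    exact h1 (Γ.g (max k m)) (Γ.anti (le_max_left _ _)) (Γ.h c)
      (hm.mono (Γ.anti (le_max_right _ _)))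
  · exfalso
    obtain ⟨y, hy, hxy⟩ := htot (Γ.of (Γ.h c).1) ((mem_of (inH c) (inH a)).2 ⟨k, h1⟩)
    obtain ⟨d, rfl⟩ := exists_In y
    rw [← hΓ.ofOp (inH c) (inH d)] at hxy
    obtain ⟨m, hm⟩ := (mem_of (inH d) (inH a)).1 hy
    obtain ⟨l, hl⟩ := (mem_of (hΓ.opIn (inH c) (inH d)) (inH b)).1 hxy
    refine h2 (Γ.g (max k (max m l))) (Γ.anti (le_max_left _ _)) (Γ.h d)
      ⟨hm.mono (Γ.anti ?_), hl.mono (Γ.anti ?_)⟩
    · exact (le_max_left _ _).trans (le_max_right _ _)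
    · exact (le_max_right _ _).trans (le_max_right _ _)
  · have hmem : ∀ z : Γ.Mod, z ∈ Γ.of (Gen.seqN A) ↔ ∃ n, z = op (Γ.N n) (Γ.of (A n)) := by
      intro z
      have h3 : z ∈ Γ.of (Gen.seqN A) ↔ ∃ n, z = Γ.of (opN (nn (P I) n) (A n)) :=
        Gen.mem_mk_true hs fun n => hΓ.opIn (hF.out.nn n) (hA n)
      rw [h3]
      refine exists_congr fun n => ?_
      rw [hΓ.ofOp (hF.out.nn n) (hA n)]
      rfl
    have hfd : IsFD (Γ.of (Gen.seqN A)) (om : Γ.Mod) := by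
      refine ⟨fun z hz => ?_, fun x hx => ?_⟩
      · obtain ⟨n, rfl⟩ := (hmem z).1 hz
        exact ⟨_, Gen.mem_om'.2 ⟨n, rfl⟩, _, rfl⟩
      · obtain ⟨n, rfl⟩ := Gen.mem_om'.1 hx
        refine ⟨Γ.of (A n), (hmem _).2 ⟨n, rfl⟩, fun y hy => ?_⟩
        obtain ⟨m, hm⟩ := (hmem _).1 hy
        rw [op_inj, Gen.N_inj'] at hm
        rw [hm.2, hm.1]
    have hap : ∀ n, ap (Γ.of (Gen.seqN A)) (Γ.N n) = Γ.of (A n) := fun n =>
      hfd.ap_eq ((hmem _).2 ⟨n, rfl⟩)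
    refine ⟨Γ.of (Gen.seqN A), ⟨hfd, fun x hx => ?_⟩, fun n hn => ?_⟩
    · obtain ⟨n, rfl⟩ := Gen.mem_om'.1 hx
      rw [hap]
      exact (mem_of (hA n) (inH a)).2 ⟨k, h1 n⟩
    · obtain ⟨n, rfl⟩ := Gen.mem_om'.1 hn
      rw [← Gen.N_succ, hap, hap, ← hΓ.ofOp (hA n) (hA (n + 1))]
      exact (mem_of (hΓ.opIn (hA n) (hA (n + 1))) (inH b)).2 ⟨k, h2 n⟩

/-! ### maximal independent sets -/

theorem mem_LN {l : List (RN I)} (h : Γ.In (LN l)) {z : Γ.Mod} :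
    z ∈ Γ.of (LN l) ↔ ∃ r ∈ l, Γ.In (RNm r) ∧ z = Γ.of (RNm r) := by
  unfold LN at h ⊢
  rw [mem_SN h]
  constructor
  · rintro ⟨r, h1, h2, k, s, _, h3⟩
    exact ⟨r, h3, h1, h2⟩
  · rintro ⟨r, h1, h2, h3⟩
    exact ⟨r, h2, h3, 0, Γ.g 0, le_rfl, h1⟩

/-- Finite sets of reals have names. -/
theorem Full.exists_ln (hΓ : Full Γ) {e : Γ.Mod} (hfin : IsFinite e) (hr : SetOfReals e)
    (hne : ∃ x, x ∈ e) :
    ∃ l, l ≠ [] ∧ Γ.In (LN l) ∧ e = Γ.of (LN l) ∧ ∀ r ∈ l, Γ.In (RNm r) := by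
  obtain ⟨n, hn, f, ⟨⟨hf, _⟩, hsur⟩⟩ := hfin
  obtain ⟨k, rfl⟩ := Gen.mem_om'.1 hn
  have h1 : ∀ i : Fin k, ∃ r, Γ.In (RNm r) ∧ ap f (Γ.N i) = Γ.of (RNm r) := fun i =>
    hΓ.exists_rn (hr _ (hf.2 _ (Gen.N_mem.2 i.2)))
  choose r hr1 hr2 using h1
  obtain ⟨r', h2, h3⟩ := hΓ.ls k r hr1
  have hr1' : ∀ i, Γ.In (RNm (r' i)) := fun i => by
    rw [h2]
    exact hr1 i
  have he : e = Γ.of (LN (List.ofFn r')) := by
    refine ext fun z => ?_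
    rw [mem_LN h3]
    constructor
    · intro hz
      obtain ⟨x, hx, rfl⟩ := hsur z hz
      obtain ⟨i, hi, rfl⟩ := (Gen.E_N hF.out).1 hx
      refine ⟨r' ⟨i, hi⟩, (List.mem_ofFn' _ _).2 ⟨_, rfl⟩, hr1' _, ?_⟩
      rw [h2, ← hr2]
    · rintro ⟨s, hs, _, rfl⟩
      obtain ⟨i, rfl⟩ := (List.mem_ofFn' _ _).1 hs
      rw [h2, ← hr2]
      exact hf.2 _ (Gen.N_mem.2 i.2)
  refine ⟨List.ofFn r', ?_, h3, he, fun s hs => ?_⟩
  · intro hnil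
    obtain ⟨x, hx⟩ := hne
    rw [he, mem_LN h3, hnil] at hx
    obtain ⟨r, hr, _⟩ := hx
    simp at hr
  · obtain ⟨i, rfl⟩ := (List.mem_ofFn' _ _).1 hs
    exact hr1' i

omit hF in
theorem feq_LN {l : List (RN I)} {f : RN I → RN I} {p : P I}
    (h : ∀ r ∈ l, feq (RNm r) (RNm (f r)) p) : feq (LN l) (LN (l.map f)) p := by
  refine feq_SN (fun r q hq hr => ⟨f r, List.mem_map.2 ⟨r, hr, rfl⟩, (h r hr).mono hq⟩)
    (fun r q hq hr => ?_) (fun _ _ _ h _ => h) (fun _ _ _ h _ => h)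
  obtain ⟨r', hr', rfl⟩ := List.mem_map.1 hr
  exact ⟨r', hr', (h r' hr').mono hq⟩

theorem Full.hypM (hΓ : Full Γ) : HYP Γ.Mod := by
  classical
  intro E hE
  obtain ⟨a, rfl⟩ := exists_In E
  obtain ⟨x, hx, hco⟩ := hΓ.co a
  have hAmem : ∀ z : Γ.Mod, z ∈ Γ.of (AN x) ↔ ∃ r, Γ.In (RNm r) ∧ z = Γ.of (RNm r) ∧
      ∃ k, WA x r (Γ.g k) := by
    intro z
    have h1 : z ∈ Γ.of (AN x) ↔ _ := mem_SN hx
    rw [h1]
    refine exists_congr fun r => and_congr Iff.rfl (and_congr Iff.rfl (exists_congr fun k => ?_))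
    exact dw_WA
  refine ⟨Γ.of (AN x), setOfReals_SN hx, fun e he heA => ?_, fun B hB hBi hAB z hz => ?_⟩
  · obtain ⟨hne, hfin, hre⟩ := hE e he
    obtain ⟨l, hl, hlIn, rfl, hlr⟩ := hΓ.exists_ln hfin hre hne
    obtain ⟨k, hk⟩ := (mem_of hlIn (inH a)).1 he
    have h1 : ∀ r, ∃ r' m, r ∈ l → feq (RNm r) (RNm r') (Γ.g m) ∧ WA x r' (Γ.g m) := by
      intro r
      by_cases hr : r ∈ l
      · have h2 := heA (Γ.of (RNm r)) ((mem_LN hlIn).2 ⟨r, hr, hlr r hr, rfl⟩)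
        obtain ⟨r', h3, h4, m, h5⟩ := (hAmem _).1 h2
        obtain ⟨m', h6⟩ := (Gen.of_eq (hlr r hr) h3).1 h4
        exact ⟨r', max m m', fun _ => ⟨h6.mono (Γ.anti (le_max_right _ _)),
          h5.mono (Γ.anti (le_max_left _ _))⟩⟩
      · exact ⟨r, 0, fun h => absurd h hr⟩
    choose f m hfm using h1
    let K := max k (l.toFinset.sup m)
    have hK : ∀ r ∈ l, m r ≤ K := fun r hr =>
      (Finset.le_sup (List.mem_toFinset.2 hr)).trans (le_max_right _ _)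
    have h2 : feq (LN l) (LN (l.map f)) (Γ.g K) :=
      feq_LN fun r hr => (hfm r hr).1.mono (Γ.anti (hK r hr))
    refine hco.1 (Γ.g K) (l.map f) ?_ ((hk.mono (Γ.anti (le_max_left _ _))).congr_left h2) ?_
    · rw [ne_eq, List.map_eq_nil_iff]
      exact hl
    · intro r hr
      obtain ⟨r', hr', rfl⟩ := List.mem_map.1 hr
      exact (hfm r' hr').2.mono (Γ.anti (hK r' hr'))
  · obtain ⟨r, hr, rfl⟩ := hΓ.exists_rn (hB z hz)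
    obtain ⟨k, x', r', h1, _, h3, h4⟩ := hΓ.mx a x r hco hx hr
    have hx' : Γ.In (AN x') := by
      rw [h1]
      exact hx
    have hwa : ∀ s, Γ.In (RNm s) → ∀ k, WA x' s (Γ.g k) → Γ.of (RNm s) ∈ Γ.of (AN x) := by
      intro s hs k hk
      rw [← h1]
      have h5 : Γ.of (RNm s) ∈ Γ.of (AN x') ↔ _ := mem_SN hx'
      exact h5.2 ⟨s, hs, rfl, k, dw_WA.2 hk⟩
    have hr' : Γ.In (RNm r') := by
      rw [h3]
      exact hr
    rcases h4 with h4 | ⟨l, _, h5, h6, h7⟩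
    · rw [← h3]
      exact hwa r' hr' k h4
    · exfalso
      refine hBi (Γ.of (LN l)) ((mem_of h6 (inH a)).2 ⟨k, h5⟩) fun w hw => ?_
      obtain ⟨s, hs, hsIn, rfl⟩ := (mem_LN h6).1 hw
      rcases h7 s hs with rfl | h8
      · rw [h3]
        exact hz
      · exact hAB _ (hwa s hsIn k h8)

/-! ### no well-order -/

theorem Full.noWOM (hΓ : Full Γ) : ¬ WO Γ.Mod := by
  rintro ⟨W, hirr, htr, htri, hmin⟩
  obtain ⟨a, rfl⟩ := exists_In W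
  obtain ⟨k, ⟨r, s, hr, hs, h1⟩ | ⟨V, r, hV, hr, h1, h2⟩⟩ := hΓ.wo a
  · rcases htri _ _ (real_sub hr) (real_sub hs) with h2 | h2 | h2
    · obtain ⟨m, hm⟩ := (Gen.of_eq hr hs).1 h2
      exact (h1 (Γ.g (max k m)) (Γ.anti (le_max_left _ _))).1
        (hm.mono (Γ.anti (le_max_right _ _)))
    · rw [← hΓ.ofOp hr hs] at h2
      obtain ⟨m, hm⟩ := (mem_of (hΓ.opIn hr hs) (inH a)).1 h2
      exact (h1 (Γ.g (max k m)) (Γ.anti (le_max_left _ _))).2.1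
        (hm.mono (Γ.anti (le_max_right _ _)))
    · rw [← hΓ.ofOp hs hr] at h2
      obtain ⟨m, hm⟩ := (mem_of (hΓ.opIn hs hr) (inH a)).1 h2
      exact (h1 (Γ.g (max k m)) (Γ.anti (le_max_left _ _))).2.2
        (hm.mono (Γ.anti (le_max_right _ _)))
  · obtain ⟨m0, hm0, hm1⟩ := hmin (Γ.of (SN V)) (setOfReals_SN hV)
      ⟨Γ.of (RNm r), (mem_of hr hV).2 ⟨k, h1⟩⟩
    obtain ⟨m, hm, rfl, _⟩ := (mem_SN hV).1 hm0
    obtain ⟨l, h3⟩ := (mem_of hm hV).1 hm0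
    obtain ⟨j, h4 | ⟨s, hs, h4, h5⟩⟩ := hΓ.hk a hV hm
    · have h5 : Γ.g (max j (max k l)) ≤ Γ.g k :=
        Γ.anti ((le_max_left _ _).trans (le_max_right _ _))
      have h6 : Γ.g (max j (max k l)) ≤ Γ.g l :=
        Γ.anti ((le_max_right _ _).trans (le_max_right _ _))
      obtain ⟨q, hq, s, h7, h8⟩ := h2 _ h5 m (h3.mono h6)
      exact h4 q (hq.trans (Γ.anti (le_max_left _ _))) ⟨s, h7, h8⟩
    · have h6 : Γ.of (RNm s) ∈ Γ.of (SN V) := (mem_of hs hV).2 ⟨j, h4⟩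
      have h7 : op (Γ.of (RNm s)) (Γ.of (RNm m)) ∈ Γ.of (Γ.h a).1 := by
        rw [← hΓ.ofOp hs hm]
        exact (mem_of (hΓ.opIn hs hm) (inH a)).2 ⟨j, h5⟩
      rcases hm1 _ h6 with h8 | h8
      · rw [h8] at h7
        exact hirr _ (real_sub hm) h7
      · exact hirr _ (real_sub hm) (htr _ _ _ (real_sub hm) (real_sub hs) (real_sub hm) h8 h7)

end model

/-- If there is a Vopěnka cardinal, then some model of ZF + DC + HYP(ℝ) has no well-order of the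
reals. -/
theorem main (κ : Cardinal.{0}) (h : IsVopenka κ) :
    ∃ (M : Type) (_ : ZFModel M), DC M ∧ HYP M ∧ ¬ WO M := by
  have hI : #κ.out = κ := mk_out κ
  have hinf : ℵ₀ ≤ #κ.out := by
    rw [hI]
    exact h.1.aleph0_lt.le
  obtain ⟨b⟩ := hinf
  letI : Ix κ.out := ⟨by rw [hI]; exact h.1.isRegular, by rw [hI]; exact h.1.aleph0_lt,
    fun n => b ⟨n⟩, fun m n hmn => ULift.up_injective (b.injective hmn)⟩
  obtain ⟨Γ, hΓ⟩ := exists_full (I := κ.out) (by rw [hI]; exact h)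
  haveI : Fact Γ.HasOm := ⟨hΓ.hasOm⟩
  exact ⟨Γ.Mod, inferInstance, hΓ.dcM, hΓ.hypM, hΓ.noWOM⟩

end Pool.Agent.helper74.HY
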