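import Pool.Agent.helper74.HYHom

/-!
# Names of reals, names of sets of reals, mixing of names
-/

namespace Pool.Agent.helper74.HY

open Cardinal
open Pool.Agent.helper31.ZF Pool.Agent.helper74.Forc

section name

variable {I : Type} [Ix I]

/-! ### names of reals -/

/-- `n` is in the real with name `r`. -/
def rnW (r : RN I) (n : ℕ) (q : Set (Bit I)) : Prop := ∃ φ ∈ r.1 n, ∀ w ∈ φ, mvB r.2 w ∈ q

omit [Ix I] in
theorem rnW.mono {r : RN I} {n : ℕ} {q q' : Set (Bit I)} (h : rnW r n q) (hq : q ⊆ q') :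
    rnW r n q' := by
  obtain ⟨φ, hφ, h⟩ := h
  exact ⟨φ, hφ, fun w hw => hq (h w hw)⟩

/-- The name of the real with name `r`. -/
def RNm (r : RN I) : Nm (P I) := .mk ℕ (nn (P I)) (fun n p => rnW r n p.q)

theorem dw_rn {r : RN I} {n : ℕ} {p : P I} :
    Dw (fun (n : ℕ) (p : P I) => rnW r n p.q) n p ↔ rnW r n p.q :=
  ⟨fun ⟨_, hs, h⟩ => h.mono hs.1, fun h => ⟨p, le_rfl, h⟩⟩

theorem act_RNm (g : Gp I) (r : RN I) : act g (RNm r) = RNm (mvR g.1.1 r) := by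
  unfold RNm
  rw [act_mk]
  congr 1
  · funext n
    exact act_nn g n
  · funext n p
    apply propext
    constructor
    · rintro ⟨φ, hφ, h⟩
      refine ⟨φ, hφ, fun w hw => ?_⟩
      have h1 := h w hw
      have h2 : mvB r.2 w ∈ mvB ((g⁻¹ : Gp I).1.1) '' p.q := h1
      rw [mvB_mem] at h2
      have e : ((g⁻¹ : Gp I).1.1)⁻¹ = g.1.1 := inv_inv _
      rw [e] at h2
      exact h2
    · rintro ⟨φ, hφ, h⟩
      refine ⟨φ, hφ, fun w hw => ?_⟩
      change mvB r.2 w ∈ mvB ((g⁻¹ : Gp I).1.1) '' p.q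
      rw [mvB_mem]
      have e : ((g⁻¹ : Gp I).1.1)⁻¹ = g.1.1 := inv_inv _
      rw [e]
      exact h w hw

omit [Ix I] in
theorem mvR_fix {s : I → I} {r : RN I} (h : ∀ i ∈ Set.range r.2, s i = i) : mvR s r = r :=
  Prod.ext rfl (funext fun n => h _ ⟨n, rfl⟩)

theorem hs_RNm (r : RN I) : HS (Gp I) (RNm r) := by
  refine HS.intro ⟨stb (Set.range r.2) ∅, big_stb (Set.countable_range _)
    Set.countable_empty, fun g hg p => ?_⟩ fun n => hs_nn n
  rw [act_RNm, mvR_fix hg.1]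
  exact feq.refl _ _

/-! ### names of sets of reals -/

/-- The name of a set of reals with weights `W`. -/
def SN (W : RN I → P I → Prop) : Nm (P I) := .mk (RN I) RNm W

theorem act_SN {g : Gp I} {W W' : RN I → P I → Prop}
    (h : ∀ r p, W r (g⁻¹ • p) ↔ W' (mvR g.1.1 r) p) (p : P I) :
    feq (act g (SN W)) (SN W') p := by
  have hinv : ∀ r : RN I, mvR g.1.1 (mvR (g.1.1⁻¹ : Equiv.Perm I) r) = r := mvR_inv' g.1.1
  unfold SN
  rw [act_mk, feq_def]
  refine ⟨fun r q hq hW => ?_, fun r q hq hW => ?_⟩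
  · refine ⟨q, le_rfl, mvR g.1.1 r, ?_, ?_⟩
    · obtain ⟨s, hs, hW⟩ := hW
      exact ⟨s, hs, (h r s).1 hW⟩
    · change feq (act g (RNm r)) (RNm (mvR g.1.1 r)) q
      rw [act_RNm]
      exact feq.refl _ _
  · refine ⟨q, le_rfl, mvR (g.1.1⁻¹ : Equiv.Perm I) r, ?_, ?_⟩
    · obtain ⟨s, hs, hW⟩ := hW
      refine ⟨s, hs, ?_⟩
      change W _ (g⁻¹ • s)
      rw [h, hinv]
      exact hW
    · change feq (act g (RNm (mvR (g.1.1⁻¹ : Equiv.Perm I) r))) (RNm r) q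
      rw [act_RNm, hinv]
      exact feq.refl _ _

theorem hs_SN {W : RN I → P I → Prop} {E : Set I} {F : Set (X I)} (hE : E.Countable)
    (hF : F.Countable) (h : ∀ g, Fix E F g → ∀ r p, W r (g⁻¹ • p) ↔ W (mvR g.1.1 r) p) :
    HS (Gp I) (SN W) :=
  HS.intro ⟨stb E F, big_stb hE hF, fun g hg p => act_SN (h g hg) p⟩ fun r => hs_RNm r

/-- The weights of the generic set at `x`. -/
def WA (x : X I) (r : RN I) (p : P I) : Prop :=
  ∃ q0 : List (Bit I), (∀ w ∈ q0, w ∈ p.q) ∧ (x, (q0, r)) ∈ p.a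

theorem WA.mono {x : X I} {r : RN I} {p p' : P I} (h : WA x r p) (hp : p' ≤ p) : WA x r p' := by
  obtain ⟨q0, h1, h2⟩ := h
  exact ⟨q0, fun w hw => hp.1 (h1 w hw), hp.2 h2⟩

theorem dw_WA {x : X I} {r : RN I} {p : P I} : Dw (WA x) r p ↔ WA x r p :=
  ⟨fun ⟨_, hs, h⟩ => h.mono hs, fun h => ⟨p, le_rfl, h⟩⟩

theorem WA_act (g : Gp I) {x : X I} {r : RN I} {p : P I} (h : WA x r p) :
    WA (g.1.2 x) (mvR g.1.1 r) (g • p) := by
  obtain ⟨q0, h1, h2⟩ := h
  refine ⟨q0.map (mvB g.1.1), fun w hw => ?_, ⟨_, h2, rfl⟩⟩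
  obtain ⟨w', hw', rfl⟩ := List.mem_map.1 hw
  exact ⟨w', h1 w' hw', rfl⟩

theorem WA_act_iff (g : Gp I) {x : X I} {r : RN I} {p : P I} :
    WA x r (g⁻¹ • p) ↔ WA (g.1.2 x) (mvR g.1.1 r) p := by
  constructor
  · intro h
    have := WA_act g h
    rwa [smul_inv_smul] at this
  · intro h
    have h1 := WA_act g⁻¹ h
    have e1 : (g⁻¹ : Gp I).1.1 = g.1.1⁻¹ := rfl
    have e2 : (g⁻¹ : Gp I).1.2 = g.1.2⁻¹ := rfl
    rw [e1, e2, perm_inv_self, mvR_inv] at h1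
    exact h1

/-- The name of the generic set at `x`. -/
def AN (x : X I) : Nm (P I) := SN (WA x)

theorem hs_AN (x : X I) : HS (Gp I) (AN x) := by
  refine hs_SN (E := ∅) (F := {x}) Set.countable_empty (Set.countable_singleton x)
    fun g hg r p => ?_
  rw [WA_act_iff, hg.2 x rfl]

/-- The name of a finite set of reals. -/
def LN (l : List (RN I)) : Nm (P I) := SN fun r _ => r ∈ l

theorem act_LN (g : Gp I) (l : List (RN I)) (p : P I) :
    feq (act g (LN l)) (LN (l.map (mvR g.1.1))) p := by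
  refine act_SN (fun r p => ?_) p
  rw [List.mem_map]
  constructor
  · intro h
    exact ⟨r, h, rfl⟩
  · rintro ⟨r', h, e⟩
    have : r' = r := by
      rw [← mvR_inv g.1.1 r', e, mvR_inv]
    rwa [← this]

theorem hs_LN (l : List (RN I)) : HS (Gp I) (LN l) := by
  refine hs_SN (E := ⋃ r ∈ l, Set.range r.2) (F := ∅) ?_ Set.countable_empty
    fun g hg r p => ?_
  · have h1 : {r | r ∈ l}.Countable := (List.finite_toSet l).countable
    exact Set.Countable.biUnion h1 fun r _ => Set.countable_range _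
  · have key : ∀ r ∈ l, mvR g.1.1 r = r := fun r hr => mvR_fix fun i hi =>
      hg.1 i (Set.mem_iUnion₂.2 ⟨r, hr, hi⟩)
    constructor
    · intro h
      rw [key r h]
      exact h
    · intro h
      have h1 := key _ h
      have h2 : mvR g.1.1 r = r := by
        have := congrArg (mvR (g.1.1⁻¹ : Equiv.Perm I)) h1
        rwa [mvR_inv, mvR_inv] at this
      change mvR g.1.1 r ∈ l at h
      rwa [h2] at h

theorem feq_SN {W W' : RN I → P I → Prop} {p : P I} (h1 : ∀ r, ∀ q ≤ p, W r q → ∃ r', W' r' q ∧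
    feq (RNm r) (RNm r') q) (h2 : ∀ r, ∀ q ≤ p, W' r q → ∃ r', W r' q ∧
    feq (RNm r') (RNm r) q) (hm : ∀ r q q', W r q → q' ≤ q → W r q')
    (hm' : ∀ r q q', W' r q → q' ≤ q → W' r q') : feq (SN W) (SN W') p := by
  unfold SN
  rw [feq_def]
  refine ⟨fun r q hq hW => ?_, fun r q hq hW => ?_⟩
  · obtain ⟨s, hs, hW⟩ := hW
    obtain ⟨r', h3, h4⟩ := h1 r q hq (hm _ _ _ hW hs)
    exact ⟨q, le_rfl, r', ⟨q, le_rfl, h3⟩, h4⟩
  · obtain ⟨s, hs, hW⟩ := hW
    obtain ⟨r', h3, h4⟩ := h2 r q hq (hm' _ _ _ hW hs)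
    exact ⟨q, le_rfl, r', ⟨q, le_rfl, h3⟩, h4⟩

/-! ### Cohen reals -/

/-- The name of the Cohen real with index `i`. -/
def cR (i : I) : RN I := (fun n => {[(0, n, true)]}, fun _ => i)

omit [Ix I] in
theorem rnW_cR {i : I} {n : ℕ} {q : Set (Bit I)} : rnW (cR i) n q ↔ (i, n, true) ∈ q := by
  constructor
  · rintro ⟨φ, hφ, h⟩
    have hφ' : φ = [(0, n, true)] := hφ
    subst hφ'
    exact h _ (List.mem_singleton.2 rfl)
  · intro h
    refine ⟨_, rfl, fun w hw => ?_⟩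
    rw [List.mem_singleton.1 hw]
    exact h

omit [Ix I] in
theorem mvR_cR (s : I → I) (i : I) : mvR s (cR i) = cR (s i) := rfl

theorem cR_ne {i j : I} (h : i ≠ j) (p : P I) : ¬ feq (RNm (cR i)) (RNm (cR j)) p := by
  intro he
  obtain ⟨n, hn⟩ : ∃ n : ℕ, ∀ k b, (k, n, b) ∉ p.q := by
    have hfin : ((fun e : Bit I => e.2.1) '' p.q).Finite := p.2.1.image _
    obtain ⟨n, hn⟩ := hfin.exists_notMem
    exact ⟨n, fun k b hk => hn ⟨_, hk, rfl⟩⟩
  let q : Set (Bit I) := p.q ∪ {(i, n, true), (j, n, false)}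
  have hq : q.Finite := p.2.1.union (Set.toFinite _)
  have hc : Con q := by
    intro k m h1 h2
    rcases h1 with h1 | h1 | h1
    · rcases h2 with h2 | h2 | h2
      · exact p.2.2.1 k m h1 h2
      · simp at h2
      · obtain ⟨rfl, rfl⟩ : k = j ∧ m = n := by simpa using h2
        exact hn _ _ h1
    · obtain ⟨rfl, rfl⟩ : k = i ∧ m = n := by simpa using h1
      rcases h2 with h2 | h2 | h2
      · exact hn _ _ h2
      · simp at h2
      · have : k = j := by simpa using h2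
        exact h this
    · simp at h1
  let p' : P I := ⟨(q, p.a), hq, hc, p.2.2.2.1, p.2.2.2.2⟩
  have hp' : p' ≤ p := ⟨Set.subset_union_left, subset_rfl⟩
  have h1 : fmem (nn (P I) n) (RNm (cR i)) p' := by
    refine fmem_el (RNm (cR i)) (i := n) ?_
    refine dw_rn.2 (rnW_cR.2 ?_)
    exact Or.inr (Or.inl rfl)
  have h2 := h1.congr_right (he.mono hp')
  obtain ⟨s, hs, m, hm, hm'⟩ := h2 p' le_rfl
  have hm2 : m = n := by
    by_contra hne
    exact nn_ne (fun h => hne h.symm) s hm'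
  subst hm2
  have h3 := rnW_cR.1 (dw_rn.1 hm)
  exact s.2.2.1 j m h3 (hs.1 (Or.inr (Or.inr rfl)))

/-! ### every real has a real name -/

omit [Ix I] in
theorem exists_list {s : ℕ → I} {q : Set (Bit I)} (hq : q.Finite)
    (h : ∀ e ∈ q, e.1 ∈ Set.range s) : ∃ φ : List (Bit ℕ), (∀ w ∈ φ, mvB s w ∈ q) ∧
      ∀ e ∈ q, ∃ w ∈ φ, mvB s w = e := by
  have h' : ∀ e : Bit I, ∃ n, e ∈ q → s n = e.1 := fun e => by
    by_cases he : e ∈ q
    · obtain ⟨n, hn⟩ := h e he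
      exact ⟨n, fun _ => hn⟩
    · exact ⟨0, fun h => absurd h he⟩
  choose f hf using h'
  have key : ∀ e ∈ q, mvB s (f e, e.2) = e := fun e he => Prod.ext (hf e he) rfl
  refine ⟨hq.toFinset.toList.map fun e => (f e, e.2), fun w hw => ?_, fun e he => ?_⟩
  · obtain ⟨e, he, rfl⟩ := List.mem_map.1 hw
    have he' : e ∈ q := hq.mem_toFinset.1 (Finset.mem_toList.1 he)
    rw [key e he']
    exact he'
  · exact ⟨_, List.mem_map.2 ⟨e, Finset.mem_toList.2 (hq.mem_toFinset.2 he), rfl⟩, key e he⟩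

/-- Every name of a subset of `ω` is below every condition equal to a real name. -/
theorem exists_real {y : Nm (P I)} {p : P I}
    (h : ∀ z : y.ix, ∀ q ≤ p, Dw y.wt z q → fmem (y.el z) (omN (P I)) q) :
    ∃ p' ≤ p, ∃ r, feq y (RNm r) p' := by
  classical
  let Φ : ℕ → P I → Prop := fun n p => fmem (nn (P I) n) y p ∨ ∀ q ≤ p, ¬ fmem (nn (P I) n) y q
  obtain ⟨p', hp', hq', Q, hQ, hpre⟩ := fusion_seq (Φ := Φ) (p := p) (fun n p q hΦ hq => by
    rcases hΦ with hΦ | hΦ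
    · exact Or.inl (hΦ.mono hq)
    · exact Or.inr fun r hr => hΦ r (hr.trans hq)) (fun n q _ => by
    by_cases hr : ∃ r ≤ q, fmem (nn (P I) n) y r
    · obtain ⟨r, hr, h1⟩ := hr
      exact ⟨r, hr, Or.inl h1⟩
    · push Not at hr
      exact ⟨q, le_rfl, Or.inr hr⟩)
  obtain ⟨s, hs⟩ : ∃ s : ℕ → I, ∀ n j, ∀ e ∈ (Q n j).q, e.1 ∈ Set.range s := by
    let C : Set I := insert (Ix.b 0) (⋃ n, ⋃ j, Prod.fst '' (Q n j).q)
    have hC : C.Countable := (Set.countable_iUnion fun n => Set.countable_iUnion fun j =>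
      ((Q n j).2.1.countable.image _)).insert _
    obtain ⟨s, hs⟩ := hC.exists_eq_range ⟨Ix.b 0, Set.mem_insert _ _⟩
    refine ⟨s, fun n j e he => ?_⟩
    rw [← hs]
    exact Or.inr (Set.mem_iUnion.2 ⟨n, Set.mem_iUnion.2 ⟨j, e, he, rfl⟩⟩)
  let τ : Shape := fun n => {φ | ∃ j, fmem (nn (P I) n) y (Q n j) ∧
    (∀ w ∈ φ, mvB s w ∈ (Q n j).q) ∧ ∀ e ∈ (Q n j).q, ∃ w ∈ φ, mvB s w = e}
  refine ⟨p', hp', (τ, s), feq_of_el (fun z q hq hW => ?_) fun n q hq hW => ?_⟩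
  · refine fmem.dense fun q1 hq1 => ?_
    have h1 := h z q1 ((hq1.trans hq).trans hp') (hW.mono hq1)
    obtain ⟨q2, hq2, n, _, hn⟩ := h1 q1 le_rfl
    have hn' : feq (y.el z) (nn (P I) n) q2 := hn
    have h2 : fmem (nn (P I) n) y q2 :=
      (fmem_el y (hW.mono (hq2.trans hq1))).congr_left hn'
    obtain ⟨j, hj⟩ := hpre n q2 (hq2.trans (hq1.trans hq))
    have hle : q2.un (Q n j) hj ≤ Q n j := P.un_le_right _ _ _ (by
      rw [(hQ n j).2.1]
      exact (hq2.trans (hq1.trans hq)).2)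
    refine ⟨q2.un (Q n j) hj, (P.un_le_left _ _ _).trans hq2, ?_⟩
    refine fmem.congr_left ?_ ((hn'.mono (P.un_le_left _ _ _)).symm)
    refine fmem_el (RNm (τ, s)) (i := n) (dw_rn.2 ?_)
    have h3 : fmem (nn (P I) n) y (Q n j) := by
      rcases (hQ n j).2.2 with h3 | h3
      · exact h3
      · exact absurd (h2.mono (P.un_le_left _ _ _)) (h3 _ hle)
    obtain ⟨φ, hφ1, hφ2⟩ := exists_list (Q n j).2.1 (hs n j)
    exact ⟨φ, ⟨j, h3, hφ1, hφ2⟩, fun w hw => hle.1 (hφ1 w hw)⟩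
  · obtain ⟨φ, ⟨j, h3, hφ1, hφ2⟩, hφ⟩ := dw_rn.1 hW
    have hle : q ≤ Q n j := by
      refine ⟨fun e he => ?_, ?_⟩
      · obtain ⟨w, hw, rfl⟩ := hφ2 e he
        exact hφ w hw
      · change (Q n j).a ⊆ q.a
        rw [(hQ n j).2.1]
        exact hq.2
    exact h3.mono hle

/-! ### mixing -/

theorem exists_common (A : ℕ → HN (Gp I) (P I)) : ∃ E F, E.Countable ∧ F.Countable ∧
    ∀ g : Gp I, Fix E F g → ∀ n p, feq (act g (A n).1) (A n).1 p := by
  choose H hH h using fun n => (A n).2.sym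
  choose E F hE hF hEF using fun n => big_fix.1 (hH n)
  refine ⟨⋃ n, E n, ⋃ n, F n, Set.countable_iUnion hE, Set.countable_iUnion hF,
    fun g hg n p => h n g (hEF n g (hg.mono (Set.subset_iUnion E n)
      (Set.subset_iUnion F n))) p⟩

/-- Mixing of names. -/
theorem mix {Ψ : HN (Gp I) (P I) → P I → Prop} (hmono : ∀ B p q, Ψ B p → q ≤ p → Ψ B q)
    (hdense : ∀ B p, (∀ q ≤ p, ∃ r ≤ q, Ψ B r) → Ψ B p)
    (hcongr : ∀ B B' : HN (Gp I) (P I), ∀ p, Ψ B p → feq B.1 B'.1 p → Ψ B' p) {p : P I}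
    (h : ∀ q ≤ p, ∃ r ≤ q, ∃ B, Ψ B r) : ∃ p' ≤ p, p'.q = p.q ∧ ∃ B, Ψ B p' := by
  classical
  obtain ⟨p', hp', hq', Q, hQ, hpre⟩ := fusion (Φ := fun r => ∃ B, Ψ B r) (p := p)
    (fun p q ⟨B, hB⟩ hq => ⟨B, hmono _ _ _ hB hq⟩) h
  choose B hB using fun j => (hQ j).2.2
  let R : ℕ → P I → Prop := fun j r => (Q j).q ⊆ r.q ∧ ∀ i < j, Inc r.q (Q i).q
  have hRm : ∀ j r r', R j r → r' ≤ r → R j r' := by
    rintro j r r' ⟨h1, h2⟩ hr
    refine ⟨h1.trans hr.1, fun i hi => ?_⟩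
    obtain ⟨k, n, b, h3, h4⟩ := h2 i hi
    exact ⟨k, n, b, hr.1 h3, h4⟩
  have hRu : ∀ i j r, R i r → R j r → i = j := by
    have key : ∀ i j r, i < j → R i r → R j r → False := by
      intro i j r hij h1 h2
      obtain ⟨k, n, b, h3, h4⟩ := h2.2 i hij
      exact con_iff.1 r.2.2.1 k n b h3 (h1.1 h4)
    intro i j r h1 h2
    rcases lt_trichotomy i j with h3 | h3 | h3
    · exact absurd (key i j r h3 h1 h2) id
    · exact h3
    · exact absurd (key j i r h3 h2 h1) id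
  let A : Nm (P I) := .mk (Σ j, (B j).1.ix) (fun s => (B s.1).1.el s.2)
    (fun s r => R s.1 r ∧ Dw (B s.1).1.wt s.2 r)
  have hAB : ∀ j r, R j r → feq A (B j).1 r := by
    intro j r hr
    refine feq_of_el (fun s r' hr' hW => ?_) fun e r' hr' hW => ?_
    · obtain ⟨t, ht, hW1, hW2⟩ := hW
      obtain ⟨i, e⟩ := s
      obtain rfl : i = j := hRu i j r' (hRm _ _ _ hW1 ht) (hRm _ _ _ hr hr')
      exact fmem_el (B i).1 (hW2.mono ht)
    · exact fmem_el A (i := ⟨j, e⟩) ⟨r', le_rfl, hRm _ _ _ hr hr', hW⟩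
  obtain ⟨E, F, hE, hF, hEF⟩ := exists_common B
  let E' : Set I := ⋃ j, Prod.fst '' (Q j).q
  have hE' : E'.Countable := Set.countable_iUnion fun j => (Q j).2.1.countable.image _
  have hRg : ∀ g : Gp I, Fix (E ∪ E') F g → ∀ j r, R j r → R j (g⁻¹ • r) := by
    intro g hg j r hr
    have hfix : ∀ i, ∀ e ∈ (Q i).q, mvB g.1.1 e = e := fun i e he =>
      Prod.ext (hg.1 _ (Or.inr (Set.mem_iUnion.2 ⟨i, e, he, rfl⟩))) rfl
    have hmem : ∀ i, ∀ e ∈ (Q i).q, ∀ b, (e.1, e.2.1, b) ∈ r.q →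
        (e.1, e.2.1, b) ∈ (g⁻¹ • r).q := by
      intro i e he b hb
      change _ ∈ mvB ((g⁻¹ : Gp I).1.1) '' r.q
      rw [mvB_mem]
      have e1 : ((g⁻¹ : Gp I).1.1)⁻¹ = g.1.1 := inv_inv _
      rw [e1]
      have h3 := congrArg Prod.fst (hfix i e he)
      change g.1.1 e.1 = e.1 at h3
      have h4 : mvB g.1.1 (e.1, e.2.1, b) = (e.1, e.2.1, b) := Prod.ext h3 rfl
      rw [h4]
      exact hb
    refine ⟨fun e he => hmem j e he e.2.2 (hr.1 he), fun i hi => ?_⟩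
    obtain ⟨k, n, b, h3, h4⟩ := hr.2 i hi
    exact ⟨k, n, b, hmem i _ h4 b h3, h4⟩
  have hAg : ∀ g : Gp I, Fix (E ∪ E') F g → ∀ j r, R j r → feq (act g A) A r := by
    intro g hg j r hr
    have h1 := feq_act_aux g (hAB j _ (hRg g hg j r hr))
    rw [smul_inv_smul] at h1
    exact (h1.trans (hEF g (hg.mono Set.subset_union_left subset_rfl) j r)).trans
      (hAB j r hr).symm
  have hA : HS (Gp I) A := by
    refine HS.intro ⟨stb (E ∪ E') F, big_stb (hE.union hE') hF, fun g hg p => ?_⟩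
      fun s => (B s.1).2.el s.2
    refine feq_of_el (fun s q _ hW => ?_) fun s q _ hW => ?_
    · have hR : R s.1 q := by
        obtain ⟨t, ht, hW1, _⟩ := hW
        have h1 := hRg g⁻¹ (inv_mem (show g ∈ stb (E ∪ E') F from hg)) s.1 _ hW1
        rw [inv_inv, smul_inv_smul] at h1
        exact hRm _ _ _ h1 ht
      exact (fmem_el _ hW).congr_right (hAg g hg s.1 q hR)
    · have hR : R s.1 q := by
        obtain ⟨t, ht, hW1, _⟩ := hW
        exact hRm _ _ _ hW1 ht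
      exact (fmem_el _ hW).congr_right (hAg g hg s.1 q hR).symm
  refine ⟨p', hp', hq', ⟨A, hA⟩, hdense _ _ fun r hr => ?_⟩
  have hex := hpre r hr
  let j := Nat.find hex
  have hj : Con (r.q ∪ (Q j).q) := Nat.find_spec hex
  have hle : r.un (Q j) hj ≤ Q j := P.un_le_right _ _ _ (by
    rw [(hQ j).2.1]
    exact hr.2)
  refine ⟨r.un (Q j) hj, P.un_le_left _ _ _, ?_⟩
  have hR : R j (r.un (Q j) hj) := by
    refine ⟨Set.subset_union_right, fun i hi => ?_⟩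
    have h1 := Nat.find_min hex hi
    rw [← inc_iff r.2.2.1 (Q i).2.2.1] at h1
    obtain ⟨k, n, b, h3, h4⟩ := h1
    exact ⟨k, n, b, Or.inl h3, h4⟩
  exact hcongr (B j) _ _ (hmono _ _ _ (hB j) hle) (hAB j _ hR).symm

end name

end Pool.Agent.helper74.HY
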