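import Pool.Agent.helper74.HYVop

/-!
# No name is forced to be a well-order of the reals
-/

namespace Pool.Agent.helper74.HY

open Cardinal
open Pool.Agent.helper31.ZF Pool.Agent.helper74.Forc

section nowo

variable {I : Type} [Ix I]

theorem exists_notMem_of_sm {U : Set I} (hU : Sm I U) : ∃ i, i ∉ U := by
  by_contra hcon
  push Not at hcon
  have h1 : Sm I (Set.univ : Set I) := hU.mono fun i _ => hcon i
  unfold Sm at h1
  rw [mk_univ] at h1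
  exact lt_irrefl _ h1

theorem noWO (hV : IsVopenka #I) (τ : HN (Gp I) (P I)) (p0 : P I) : ¬ WOf τ.1 p0 := by
  classical
  intro h
  obtain ⟨S⟩ := exists_supp τ
  have hstep : ∀ b : Set (Fa I), Sm I b → Valid b → (∀ f ∈ b, f.1 ∈ Set.range S.c) →
      rs p0.a (Set.range S.c) ⊆ b → ∀ U : Set I, Sm I U → ∃ (p : P I) (i : I), i ∉ U ∧
      b ⊆ p.a ∧ (∀ f ∈ p.a, f.1 ∈ Set.range S.c) ∧ p0.q ⊆ p.q ∧ ∃ γ, Er τ.1 γ (cR i) p := by
    intro b hb hbv hbD hb0 U hU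
    obtain ⟨i, hi⟩ := exists_notMem_of_sm hU
    let c : P I := ⟨(p0.q, p0.a ∪ b), p0.2.1, p0.2.2.1, p0.2.2.2.1.union hb,
      Valid.union p0.2.2.2.2 hbv S.cl hbD fun f hf hfY => hb0 ⟨hf, hfY⟩⟩
    have hc : c ≤ p0 := ⟨subset_rfl, Set.subset_union_left⟩
    obtain ⟨q, hq, γ, hγ⟩ := h.exists_Er S hc (cR i)
    refine ⟨q.rs _ S.cl, i, hi, fun f hf => ⟨hq.2 (Or.inr hf), hbD f hf⟩, fun f hf => hf.2,
      hq.1, γ, hγ.restrict S⟩
  let K : Type := (#I).ord.ToType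
  have hK : #K = #I := mk_ord_toType _
  have hIio : ∀ ξ : K, #{η : K // η < ξ} < #I := by
    intro ξ
    have h1 : #(Set.Iio ξ) < #K := mk_Iio_lt ξ (by
      rw [hK]
      exact (Ordinal.type_toType _).symm)
    rw [hK] at h1
    exact h1
  let R : (ξ : K) → ((η : K) → η < ξ → P I × I) → P I × I → Prop := fun ξ prev a =>
    rs p0.a (Set.range S.c) ⊆ a.1.a ∧ (∀ f ∈ a.1.a, f.1 ∈ Set.range S.c) ∧ p0.q ⊆ a.1.q ∧
    (∃ γ, Er τ.1 γ (cR a.2) a.1) ∧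
    ∀ η (hη : η < ξ), (prev η hη).1.a ⊆ a.1.a ∧ (prev η hη).2 ≠ a.2
  have : Nonempty (P I × I) := ⟨(p0, Ix.b 0)⟩
  obtain ⟨d, hd⟩ := exists_chain (K := K) R (by
    intro ξ prev hprev
    let F : Option {η : K // η < ξ} → Set (Fa I) := fun o => match o with
      | none => rs p0.a (Set.range S.c)
      | some η => (prev η.1 η.2).1.a
    have hι : #(Option {η : K // η < ξ}) < #I := by
      rw [mk_option]
      exact add_lt_of_lt Ix.reg.aleph0_le (hIio ξ)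
        (one_lt_aleph0.trans_le Ix.reg.aleph0_le)
    have hFs : ∀ o, Sm I (F o) := by
      rintro (_ | η)
      · exact p0.2.2.2.1.mono fun _ hf => hf.1
      · exact (prev η.1 η.2).1.2.2.2.1
    have hFv : ∀ o, Valid (F o) := by
      rintro (_ | η)
      · exact p0.2.2.2.2.rs' S.cl
      · exact (prev η.1 η.2).1.2.2.2.2
    have hFD : ∀ o, ∀ f ∈ F o, f.1 ∈ Set.range S.c := by
      rintro (_ | η) f hf
      · exact hf.2
      · exact (hprev η.1 η.2).2.1 f hf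
    have h0 : ∀ o, F none ⊆ F o := by
      rintro (_ | η)
      · exact subset_rfl
      · exact (hprev η.1 η.2).1
    have hlt : ∀ η η' : {η : K // η < ξ}, η.1 ≤ η'.1 → F (some η) ⊆ F (some η') := by
      rintro ⟨η, hη⟩ ⟨η', hη'⟩ hle
      rcases lt_or_eq_of_le (show η ≤ η' from hle) with hlt | heq
      · exact ((hprev η' hη').2.2.2.2 η hlt).1
      · subst heq
        exact subset_rfl
    have hdir : Directed (· ⊆ ·) F := by
      rintro (_ | η) (_ | η')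
      · exact ⟨none, subset_rfl, subset_rfl⟩
      · exact ⟨some η', h0 (some η'), subset_rfl⟩
      · exact ⟨some η, subset_rfl, h0 (some η)⟩
      · rcases le_total η.1 η'.1 with hle | hle
        · exact ⟨some η', hlt _ _ hle, subset_rfl⟩
        · exact ⟨some η, subset_rfl, hlt _ _ hle⟩
    have hUs : Sm I (Set.range fun η : {η : K // η < ξ} => (prev η.1 η.2).2) :=
      mk_range_le.trans_lt (hIio ξ)
    obtain ⟨p, i, hi, h1, h2, h3, h4⟩ := hstep (⋃ o, F o) (Sm.iUnion' hι hFs)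
      (Valid.iUnion hFv hdir) (fun f hf => by
        obtain ⟨o, ho⟩ := Set.mem_iUnion.1 hf
        exact hFD o f ho) (Set.subset_iUnion F none) _ hUs
    refine ⟨(p, i), (Set.subset_iUnion F none).trans h1, h2, h3, h4, fun η hη =>
      ⟨(Set.subset_iUnion F (some ⟨η, hη⟩)).trans h1, fun he => hi ⟨⟨η, hη⟩, he⟩⟩⟩)
  obtain ⟨A, hA, hAinc⟩ := thin hK (fun ξ => (d ξ).1.q) fun ξ => ⟨(d ξ).1.2.1, (d ξ).1.2.2.1⟩
  obtain ⟨⟨ξ, hξA⟩, ⟨ζ, hζA⟩, hne, σ, h1, h2, h3, h4⟩ := vop_embed hV S hA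
    (fun ξ : A => (d ξ).1) (fun ξ : A => (d ξ).2)
  have hne' : ξ ≠ ζ := fun he => hne (Subtype.ext he)
  let g : Gp I := exG σ
  have hgε : ∀ i ∈ Set.range S.ε, σ i = i := by
    rintro _ ⟨n, rfl⟩
    exact h1 n
  have hgc : ∀ j, g.1.2 (S.c j) = S.c j := fun j => exG_fix fun i hi => hgε i (S.ixs j hi)
  have hg : Fix (Set.range S.ε) (Set.range S.c) g := ⟨hgε, by
    rintro _ ⟨j, rfl⟩
    exact hgc j⟩
  have hle : (d ζ).1 ≤ g • (d ξ).1 := by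
    refine ⟨?_, ?_⟩
    · rintro _ ⟨w, hw, rfl⟩
      exact h3 w hw
    · rintro _ ⟨⟨x, z⟩, hf, rfl⟩
      obtain ⟨j, hj⟩ := (hd ξ).2.1 _ hf
      have hj' : S.c j = x := hj
      subst hj'
      have h5 : mvF g (S.c j, z) = (S.c j, mvZ σ z) := Prod.ext (hgc j) rfl
      rw [h5]
      exact h4 j z hf
  obtain ⟨γ, hγ⟩ := (hd ξ).2.2.2.1
  obtain ⟨γ', hγ'⟩ := (hd ζ).2.2.2.1
  have h5 := (hγ.act (S.fix g hg)).mono hle
  rw [mvR_cR] at h5
  have h6 : g.1.1 (d ξ).2 = (d ζ).2 := h2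
  rw [h6] at h5
  have h7 : γ = γ' := h5.unique hγ'
  subst h7
  have hmax : (d ξ).1.a ⊆ (d (max ξ ζ)).1.a ∧ (d ζ).1.a ⊆ (d (max ξ ζ)).1.a ∧
      (d ξ).2 ≠ (d ζ).2 := by
    rcases lt_or_gt_of_ne hne' with hlt | hlt
    · rw [max_eq_right hlt.le]
      exact ⟨((hd ζ).2.2.2.2 ξ hlt).1, subset_rfl, ((hd ζ).2.2.2.2 ξ hlt).2⟩
    · rw [max_eq_left hlt.le]
      exact ⟨subset_rfl, ((hd ξ).2.2.2.2 ζ hlt).1, ((hd ξ).2.2.2.2 ζ hlt).2.symm⟩
  have hcon : Con ((d ξ).1.q ∪ (d ζ).1.q) := by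
    by_contra hc
    exact hAinc ξ hξA ζ hζA ((inc_iff (d ξ).1.2.2.1 (d ζ).1.2.2.1).2 hc)
  let m := (d (max ξ ζ)).1
  let p : P I := ⟨((d ξ).1.q ∪ (d ζ).1.q, p0.a ∪ m.a), (d ξ).1.2.1.union (d ζ).1.2.1, hcon,
    p0.2.2.2.1.union m.2.2.2.1, Valid.union p0.2.2.2.2 m.2.2.2.2 S.cl (hd (max ξ ζ)).2.1
      fun f hf hfY => (hd (max ξ ζ)).1 ⟨hf, hfY⟩⟩
  have hp0 : p ≤ p0 :=
    ⟨(hd ξ).2.2.1.trans Set.subset_union_left, Set.subset_union_left⟩
  have hpξ : p ≤ (d ξ).1 :=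
    ⟨Set.subset_union_left, hmax.1.trans Set.subset_union_right⟩
  have hpζ : p ≤ (d ζ).1 :=
    ⟨Set.subset_union_right, hmax.2.1.trans Set.subset_union_right⟩
  exact h.not_two hp0 hmax.2.2 (hγ.mono hpξ) (hγ'.mono hpζ)

end nowo

end Pool.Agent.helper74.HY
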