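import Pool.Agent.helper74.HYHyp

/-!
# Ranks of reals in a well-order
-/

namespace Pool.Agent.helper74.HY

open Cardinal
open Pool.Agent.helper31.ZF Pool.Agent.helper74.Forc

section rank

variable {I : Type} [Ix I]

/-- `p` forces that `s` is below `r` in the relation `W`. -/
def inW (W : Nm (P I)) (s r : RN I) (p : P I) : Prop := fmem (opN (RNm s) (RNm r)) W p

theorem inW.mono {W : Nm (P I)} {s r : RN I} {p q : P I} (h : inW W s r p) (hq : q ≤ p) :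
    inW W s r q := fmem.mono h hq

theorem inW.act {W : Nm (P I)} {s r : RN I} {p : P I} {g : Gp I}
    (hg : ∀ p, feq (act g W) W p) (h : inW W s r p) :
    inW W (mvR g.1.1 s) (mvR g.1.1 r) (g • p) := by
  have h1 := (fmem_act_aux g h).congr_right (hg _)
  rw [act_opN, act_RNm, act_RNm] at h1
  exact h1

theorem feq_act_inv {W : Nm (P I)} {g : Gp I} (hg : ∀ p, feq (act g W) W p) :
    ∀ p, feq (act g⁻¹ W) W p := by
  intro p
  have h1 := feq_act_aux g⁻¹ (hg (g • p))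
  rw [act_inv_act, inv_smul_smul] at h1
  exact h1.symm

/-- The rank of `r` is at most `γ`. -/
def Lr (W : Nm (P I)) (γ : Ordinal.{0}) (r : RN I) (p : P I) : Prop :=
  ∀ q ≤ p, ∀ s, inW W s r q → ∃ q' ≤ q, ∃ δ, ∃ _ : δ < γ, Lr W δ s q'
termination_by γ

theorem Lr_def (W : Nm (P I)) (γ : Ordinal.{0}) (r : RN I) (p : P I) :
    Lr W γ r p ↔ ∀ q ≤ p, ∀ s, inW W s r q → ∃ q' ≤ q, ∃ δ < γ, Lr W δ s q' := by
  rw [Lr]
  simp only [exists_prop]

variable {W : Nm (P I)}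

theorem Lr.mono {γ : Ordinal.{0}} {r : RN I} {p q : P I} (h : Lr W γ r p) (hq : q ≤ p) :
    Lr W γ r q := by
  rw [Lr_def] at h ⊢
  exact fun q' hq' => h q' (hq'.trans hq)

theorem Lr.dense {γ : Ordinal.{0}} {r : RN I} {p : P I} (h : ∀ q ≤ p, ∃ q' ≤ q, Lr W γ r q') :
    Lr W γ r p := by
  rw [Lr_def]
  intro q hq s hs
  obtain ⟨q1, hq1, h1⟩ := h q hq
  rw [Lr_def] at h1
  obtain ⟨q2, hq2, δ, hδ, h2⟩ := h1 q1 le_rfl s (hs.mono hq1)
  exact ⟨q2, hq2.trans hq1, δ, hδ, h2⟩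

theorem Lr.congr {γ : Ordinal.{0}} {r r' : RN I} {p : P I} (h : Lr W γ r p)
    (he : feq (RNm r) (RNm r') p) : Lr W γ r' p := by
  rw [Lr_def] at h ⊢
  intro q hq s hs
  refine h q hq s ?_
  exact fmem.congr_left hs (opN_congr (feq.refl _ _) (he.mono hq).symm)

theorem Lr.act {g : Gp I} (hg : ∀ p, feq (act g W) W p) {γ : Ordinal.{0}} :
    ∀ {r : RN I} {p : P I}, Lr W γ r p → Lr W γ (mvR g.1.1 r) (g • p) := by
  induction γ using WellFoundedLT.induction with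
  | ind γ ih =>
    intro r p h
    rw [Lr_def] at h ⊢
    intro q hq s hs
    have h1 := hs.act (feq_act_inv hg)
    have e1 : (g⁻¹ : Gp I).1.1 = g.1.1⁻¹ := rfl
    rw [e1, mvR_inv] at h1
    obtain ⟨q', hq', δ, hδ, h2⟩ := h (g⁻¹ • q) (by rwa [← le_smul_iff]) _ h1
    refine ⟨g • q', by rwa [smul_le_iff'], δ, hδ, ?_⟩
    have h3 := ih δ hδ h2
    rw [mvR_inv'] at h3
    exact h3

/-- The rank of `r` is exactly `γ`. -/
def Er (W : Nm (P I)) (γ : Ordinal.{0}) (r : RN I) (p : P I) : Prop :=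
  Lr W γ r p ∧ ∀ q ≤ p, ∀ δ < γ, ¬ Lr W δ r q

theorem Er.mono {γ : Ordinal.{0}} {r : RN I} {p q : P I} (h : Er W γ r p) (hq : q ≤ p) :
    Er W γ r q := ⟨h.1.mono hq, fun q' hq' => h.2 q' (hq'.trans hq)⟩

theorem Er.dense {γ : Ordinal.{0}} {r : RN I} {p : P I} (h : ∀ q ≤ p, ∃ q' ≤ q, Er W γ r q') :
    Er W γ r p := by
  refine ⟨Lr.dense fun q hq => ?_, fun q hq δ hδ hL => ?_⟩
  · obtain ⟨q', hq', h1⟩ := h q hq
    exact ⟨q', hq', h1.1⟩
  · obtain ⟨q', hq', h1⟩ := h q hq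
    exact h1.2 q' le_rfl δ hδ (hL.mono hq')

theorem Er.act {g : Gp I} (hg : ∀ p, feq (act g W) W p) {γ : Ordinal.{0}} {r : RN I} {p : P I}
    (h : Er W γ r p) : Er W γ (mvR g.1.1 r) (g • p) := by
  refine ⟨h.1.act hg, fun q hq δ hδ hL => ?_⟩
  have h1 := hL.act (feq_act_inv hg)
  have e1 : (g⁻¹ : Gp I).1.1 = g.1.1⁻¹ := rfl
  rw [e1, mvR_inv] at h1
  exact h.2 (g⁻¹ • q) (by rwa [← le_smul_iff]) δ hδ h1

theorem Er.unique {γ γ' : Ordinal.{0}} {r : RN I} {p : P I} (h : Er W γ r p)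
    (h' : Er W γ' r p) : γ = γ' := by
  rcases lt_trichotomy γ γ' with h1 | h1 | h1
  · exact absurd h.1 (h'.2 p le_rfl γ h1)
  · exact h1
  · exact absurd h'.1 (h.2 p le_rfl γ' h1)

/-- No condition below `p0` forces a failure of the well-order property of `W`. -/
structure WOf (W : Nm (P I)) (p0 : P I) : Prop where
  lin : ∀ p ≤ p0, ∀ r s : RN I, (∀ q ≤ p, ¬ feq (RNm r) (RNm s) q) →
    ∃ q ≤ p, inW W r s q ∨ inW W s r q
  min : ∀ p ≤ p0, ∀ V : RN I → P I → Prop, HS (Gp I) (SN V) → ∀ r : RN I,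
    fmem (RNm r) (SN V) p → ∃ q ≤ p, ∃ m : RN I, fmem (RNm m) (SN V) q ∧
      ∀ q' ≤ q, ∀ s : RN I, ¬ (fmem (RNm s) (SN V) q' ∧ inW W s m q')

theorem WOf.exists_Lr {W : Nm (P I)} {p0 : P I} (h : WOf W p0) (S : Supp W) {p : P I}
    (hp : p ≤ p0) (r : RN I) : ∃ q ≤ p, ∃ γ, Lr W γ r q := by
  classical
  by_contra hcon
  push Not at hcon
  let V : RN I → P I → Prop := fun s p => ∀ q ≤ p, ∀ γ, ¬ Lr W γ s q
  have hVm : ∀ s p q, V s p → q ≤ p → V s q := fun s p q h hq q' hq' => h q' (hq'.trans hq)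
  have hVa : ∀ g : Gp I, Fix (Set.range S.ε) (Set.range S.c) g → ∀ s p, V s p →
      V (mvR g.1.1 s) (g • p) := by
    intro g hg s p hV q hq γ hL
    have h1 := hL.act (feq_act_inv (S.fix g hg))
    have e1 : (g⁻¹ : Gp I).1.1 = g.1.1⁻¹ := rfl
    rw [e1, mvR_inv] at h1
    exact hV (g⁻¹ • q) (by rwa [← le_smul_iff]) γ h1
  have hHS : HS (Gp I) (SN V) := by
    refine hs_SN (E := Set.range S.ε) (F := Set.range S.c) (Set.countable_range _)
      (Set.countable_range _) fun g hg r p => ?_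
    constructor
    · intro hV
      have := hVa g hg _ _ hV
      rwa [smul_inv_smul] at this
    · intro hV
      have h1 := hVa g⁻¹ (inv_mem (show g ∈ stb _ _ from hg)) _ _ hV
      have e1 : (g⁻¹ : Gp I).1.1 = g.1.1⁻¹ := rfl
      rw [e1, mvR_inv] at h1
      exact h1
  have hel : ∀ s p, V s p → fmem (RNm s) (SN V) p := fun s p hV =>
    fmem_el (SN V) (i := s) ⟨p, le_rfl, hV⟩
  obtain ⟨q, hq, m, hm, hmin⟩ := h.min p hp V hHS r (hel r p hcon)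
  obtain ⟨q1, hq1, m', ⟨t, ht, hV⟩, he⟩ := hm q le_rfl
  have he' : feq (RNm m) (RNm m') q1 := he
  have hV' : V m' q1 := hVm _ _ _ hV ht
  let f : RN I × P I → Ordinal.{0} := fun x =>
    if h : ∃ γ, Lr W γ x.1 x.2 then h.choose else 0
  refine hV' q1 le_rfl (Ordinal.lsub f) ?_
  rw [Lr_def]
  intro q2 hq2 s hs
  have hs' : inW W s m q2 :=
    fmem.congr_left hs (opN_congr (feq.refl _ _) (he'.mono hq2).symm)
  have h1 : ¬ V s q2 := fun hVs =>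
    hmin q2 (hq2.trans hq1) s ⟨hel s q2 hVs, hs'⟩
  change ¬ ∀ q ≤ q2, ∀ γ, ¬ Lr W γ s q at h1
  push Not at h1
  obtain ⟨q3, hq3, γ, hγ⟩ := h1
  have hex : ∃ γ, Lr W γ s q3 := ⟨γ, hγ⟩
  refine ⟨q3, hq3, f (s, q3), Ordinal.lt_lsub f _, ?_⟩
  change Lr W (if h : ∃ γ, Lr W γ s q3 then h.choose else 0) s q3
  rw [dif_pos hex]
  exact hex.choose_spec

theorem WOf.exists_Er {W : Nm (P I)} {p0 : P I} (h : WOf W p0) (S : Supp W) {p : P I}
    (hp : p ≤ p0) (r : RN I) : ∃ q ≤ p, ∃ γ, Er W γ r q := by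
  obtain ⟨q, hq, γ, hγ⟩ := h.exists_Lr S hp r
  let T : Set Ordinal.{0} := {γ | ∃ q ≤ p, Lr W γ r q}
  have hT : T.Nonempty := ⟨γ, q, hq, hγ⟩
  obtain ⟨γ0, ⟨q0, hq0, h0⟩, hmin⟩ := WellFounded.has_min (wellFounded_lt (α := Ordinal.{0})) T hT
  exact ⟨q0, hq0, γ0, h0, fun q' hq' δ hδ hL => hmin δ ⟨q', hq'.trans hq0, hL⟩ hδ⟩

theorem WOf.not_two {W : Nm (P I)} {p0 : P I} (h : WOf W p0) {p : P I} (hp : p ≤ p0) {i j : I}
    (hij : i ≠ j) {γ : Ordinal.{0}} (h1 : Er W γ (cR i) p) (h2 : Er W γ (cR j) p) : False := by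
  have key : ∀ i j : I, Er W γ (cR i) p → Er W γ (cR j) p → ∀ q ≤ p,
      ¬ inW W (cR i) (cR j) q := by
    intro i j h1 h2 q hq hW
    have h3 := h2.1
    rw [Lr_def] at h3
    obtain ⟨q', hq', δ, hδ, h4⟩ := h3 q hq _ hW
    exact h1.2 q' (hq'.trans hq) δ hδ h4
  obtain ⟨q, hq, h3 | h3⟩ := h.lin p hp (cR i) (cR j) fun q _ => cR_ne hij q
  · exact key i j h1 h2 q hq h3
  · exact key j i h2 h1 q hq h3

theorem Er.restrict {W : Nm (P I)} (S : Supp W) {γ : Ordinal.{0}} {r : RN I} {p : P I}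
    (h : Er W γ r p) : Er W γ r (p.rs _ S.cl) := by
  refine hom_pred (Φ := fun p => Er W γ r p) (fun p q h hq => h.mono hq)
    (fun p h => Er.dense h) S.cl S.range_sm (fun g hg1 hg2 p h => ?_) h
  have hg : Fix (Set.range S.ε) (Set.range S.c) g := ⟨fun i _ => by rw [hg1]; rfl, hg2⟩
  have h1 := h.act (S.fix g hg)
  rw [hg1] at h1
  exact h1

end rank

end Pool.Agent.helper74.HY
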