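import Mathlib
import Pool.Agent.helper31.ZFStmt

/-!
# Statements: Vopěnka cardinals; DC, HYP(ℝ), WO(ℝ) in a model of ZF
-/

namespace Pool.Agent.helper74.HY

open Cardinal Pool.Agent.helper31.ZF

/-- `κ` is a Vopěnka cardinal: it is inaccessible, and for every first-order language of size
less than `κ` and every family of `κ` many structures of size less than `κ` there is an elementary
embedding of a member of the family into another one. -/
def IsVopenka (κ : Cardinal.{0}) : Prop :=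
  κ.IsInaccessible ∧ ∀ (L : FirstOrder.Language.{0, 0}), L.card < κ → ∀ (ι : Type), #ι = κ →
    ∀ (M : ι → Type) [∀ i, L.Structure (M i)], (∀ i, Nonempty (M i)) → (∀ i, #(M i) < κ) →
      ∃ i j, i ≠ j ∧ Nonempty (L.ElementaryEmbedding (M i) (M j))

universe u

variable (M : Type u) [ZFModel M]

/-- The principle of dependent choices in the model `M` of ZF. -/
def DC : Prop := ∀ X R : M, (∃ x, x ∈ X) → (∀ x, x ∈ X → ∃ y, y ∈ X ∧ op x y ∈ R) →
  ∃ f, IsFn f om X ∧ ∀ n, n ∈ (om : M) → op (ap f n) (ap f (suc n)) ∈ R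

variable {M} in
/-- `A` is a set of reals (subsets of `ω`) in `M`. -/
def SetOfReals (A : M) : Prop := ∀ x, x ∈ A → x ⊆ om

variable {M} in
/-- `E` is a hypergraph on the reals in `M`: a set of nonempty finite sets of reals. -/
def IsHypergraph (E : M) : Prop := ∀ e, e ∈ E → (∃ x, x ∈ e) ∧ IsFinite e ∧ SetOfReals e

variable {M} in
/-- `A` is independent for `E` in `M`. -/
def IsIndependent (E A : M) : Prop := ∀ e, e ∈ E → ¬ e ⊆ A

/-- `HYP(ℝ)` in `M`: every hypergraph on the reals has a maximal independent set. -/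
def HYP : Prop := ∀ E : M, IsHypergraph E → ∃ A, SetOfReals A ∧ IsIndependent E A ∧
  ∀ B, SetOfReals B → IsIndependent E B → A ⊆ B → B ⊆ A

/-- `WO(ℝ)` in `M`: some relation is a strict well-order of the set of reals. -/
def WO : Prop := ∃ W : M,
  (∀ x : M, x ⊆ om → op x x ∉ W) ∧
  (∀ x y z : M, x ⊆ om → y ⊆ om → z ⊆ om → op x y ∈ W → op y z ∈ W → op x z ∈ W) ∧
  (∀ x y : M, x ⊆ om → y ⊆ om → x = y ∨ op x y ∈ W ∨ op y x ∈ W) ∧
  ∀ B : M, SetOfReals B → (∃ x, x ∈ B) → ∃ m, m ∈ B ∧ ∀ y, y ∈ B → y = m ∨ op m y ∈ W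

end Pool.Agent.helper74.HY
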