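import Pool.Agent.helper74.HYRank
import Pool.Agent.helper74.HYStmt

/-!
# The set of reals has no well-order
-/

namespace Pool.Agent.helper74.HY

open Cardinal
open Pool.Agent.helper31.ZF Pool.Agent.helper74.Forc

/-! ### recursion -/

theorem exists_chain {K α : Type} [LinearOrder K] [WellFoundedLT K] [Nonempty α]
    (R : (ξ : K) → ((η : K) → η < ξ → α) → α → Prop)
    (h : ∀ ξ (prev : (η : K) → η < ξ → α),
      (∀ η (hη : η < ξ), R η (fun ζ hζ => prev ζ (hζ.trans hη)) (prev η hη)) →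
        ∃ a, R ξ prev a) :
    ∃ d : K → α, ∀ ξ, R ξ (fun η _ => d η) (d ξ) := by
  classical
  let F : (ξ : K) → ((η : K) → η < ξ → α) → α := fun ξ prev =>
    if h : ∃ a, R ξ prev a then h.choose else Classical.arbitrary α
  let d : K → α := (wellFounded_lt (α := K)).fix F
  have hd : ∀ ξ, d ξ = F ξ (fun η _ => d η) := fun ξ => WellFounded.fix_eq _ _ _
  refine ⟨d, fun ξ => ?_⟩
  induction ξ using WellFoundedLT.induction with
  | ind ξ ih =>
    have hex := h ξ (fun η _ => d η) (fun η hη => ih η hη)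
    have h1 : d ξ = hex.choose := by
      rw [hd ξ]
      exact dif_pos hex
    have h2 := hex.choose_spec
    rw [← h1] at h2
    exact h2

section vop

variable {I : Type} [Ix I]

/-! ### many compatible Cohen conditions -/

theorem thin_aux {K : Type} (n : ℕ) : ∀ (A : Set K), #A = #I → ∀ f : K → Set (Bit I),
    (∀ ξ ∈ A, (f ξ).Finite ∧ (f ξ).ncard ≤ n ∧ Con (f ξ)) →
      ∃ A' ⊆ A, #A' = #I ∧ ∀ ξ ∈ A', ∀ ζ ∈ A', ¬ Inc (f ξ) (f ζ) := by
  induction n with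
  | zero =>
    intro A hA f hf
    refine ⟨A, subset_rfl, hA, fun ξ hξ ζ hζ => ?_⟩
    rintro ⟨i, n, b, h1, _⟩
    have := (Set.ncard_eq_zero (hf ξ hξ).1).1 (Nat.le_zero.1 (hf ξ hξ).2.1)
    rw [this] at h1
    exact h1
  | succ n ih =>
    intro A hA f hf
    by_cases he : ∃ e : Bit I, #{ξ | ξ ∈ A ∧ e ∈ f ξ} = #I
    · obtain ⟨e, he⟩ := he
      obtain ⟨A', hA', hc, h⟩ := ih {ξ | ξ ∈ A ∧ e ∈ f ξ} he (fun ξ => f ξ \ {e})
        (fun ξ hξ => by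
          obtain ⟨h1, h2, h3⟩ := hf ξ hξ.1
          refine ⟨h1.diff, ?_, h3.mono Set.diff_subset⟩
          have := Set.ncard_diff_singleton_add_one hξ.2 h1
          omega)
      refine ⟨A', fun ξ hξ => (hA' hξ).1, hc, fun ξ hξ ζ hζ => ?_⟩
      rintro ⟨i, n, b, h1, h2⟩
      refine h ξ hξ ζ hζ ⟨i, n, b, ⟨h1, fun h3 => ?_⟩, h2, fun h3 => ?_⟩
      · have h3' : (i, n, b) = e := h3
        have h4 := (hA' hζ).2
        rw [← h3'] at h4
        exact con_iff.1 (hf ζ (hA' hζ).1).2.2 _ _ _ h4 h2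
      · have h3' : (i, n, !b) = e := h3
        have h4 := (hA' hξ).2
        rw [← h3'] at h4
        exact con_iff.1 (hf ξ (hA' hξ).1).2.2 _ _ _ h1 h4
    · push Not at he
      have hlt : ∀ e : Bit I, Sm I {ξ | ξ ∈ A ∧ e ∈ f ξ} := fun e =>
        lt_of_le_of_ne ((mk_le_mk_of_subset fun ξ hξ => hξ.1).trans hA.le) (he e)
      obtain ⟨m, hm⟩ := zorn_subset {A' : Set K | A' ⊆ A ∧ ∀ ξ ∈ A', ∀ ζ ∈ A',
          ¬ Inc (f ξ) (f ζ)} (fun c hc hch => by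
        refine ⟨⋃₀ c, ⟨Set.sUnion_subset fun s hs => (hc hs).1, ?_⟩,
          fun s hs => Set.subset_sUnion_of_mem hs⟩
        rintro ξ ⟨s, hs, hξ⟩ ζ ⟨t, ht, hζ⟩
        rcases hch.total hs ht with h | h
        · exact (hc ht).2 ξ (h hξ) ζ hζ
        · exact (hc hs).2 ξ hξ ζ (h hζ))
      refine ⟨m, hm.prop.1, ?_, hm.prop.2⟩
      by_contra hne
      have hms : Sm I m := lt_of_le_of_ne ((mk_le_mk_of_subset hm.prop.1).trans hA.le) hne
      let fl : Bit I → Bit I := fun e => (e.1, e.2.1, !e.2.2)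
      let C : Set K := m ∪ ⋃ e ∈ fl '' (⋃ ξ ∈ m, f ξ), {ξ | ξ ∈ A ∧ e ∈ f ξ}
      have hC : Sm I C := hms.union (Sm.biUnion (Sm.image (Sm.biUnion hms fun ξ hξ =>
        Sm.of_finite (hf ξ (hm.prop.1 hξ)).1) _) fun e _ => hlt e)
      obtain ⟨ζ, hζA, hζC⟩ : ∃ ζ ∈ A, ζ ∉ C := by
        by_contra hcon
        push Not at hcon
        exact absurd hA (hC.mono hcon : Sm I A).ne
      have h1 : ∀ ξ ∈ m, ¬ Inc (f ζ) (f ξ) := by
        rintro ξ hξ ⟨i, n, b, h2, h3⟩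
        refine hζC (Or.inr (Set.mem_iUnion₂.2 ⟨(i, n, b), ⟨(i, n, !b),
          Set.mem_iUnion₂.2 ⟨ξ, hξ, h3⟩, ?_⟩, hζA, h2⟩))
        simp [fl]
      have h2 : insert ζ m ∈ {A' : Set K | A' ⊆ A ∧ ∀ ξ ∈ A', ∀ ζ ∈ A',
          ¬ Inc (f ξ) (f ζ)} := by
        refine ⟨Set.insert_subset hζA hm.prop.1, ?_⟩
        rintro ξ (rfl | hξ) η (rfl | hη)
        · exact not_inc_self (hf _ hζA).2.2
        · exact h1 η hη
        · exact fun h => h1 ξ hξ h.symm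
        · exact hm.prop.2 ξ hξ η hη
      exact hζC (Or.inl (hm.le_of_ge h2 (Set.subset_insert _ _) (Set.mem_insert _ _)))

theorem thin {K : Type} (hK : #K = #I) (f : K → Set (Bit I))
    (hf : ∀ ξ, (f ξ).Finite ∧ Con (f ξ)) :
    ∃ A : Set K, #A = #I ∧ ∀ ξ ∈ A, ∀ ζ ∈ A, ¬ Inc (f ξ) (f ζ) := by
  obtain ⟨n, hn⟩ := infinite_pigeonhole (fun ξ => (f ξ).ncard)
    (by rw [hK]; exact Ix.reg.aleph0_le) (by
      rw [hK, Ix.reg.cof_ord, mk_nat]
      exact Ix.unc)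
  rw [hK] at hn
  obtain ⟨A', _, h1, h2⟩ := thin_aux n _ hn f fun ξ hξ => ⟨(hf ξ).1, by
    have : (f ξ).ncard = n := hξ
    exact this.le, (hf ξ).2⟩
  exact ⟨A', h1, h2⟩

/-! ### structures -/

/-- Symbols. -/
inductive Sy (J : Set ℕ) : Type
  | idx : Sy J
  | cst (n : ℕ) : Sy J
  | pt : Sy J
  | qb (l : ℕ) (b : Bool) : Sy J
  | pr (n : ℕ) : Sy J
  | fa (j : J) (τ : Shape) (f : List (Bit ℕ)) : Sy J

/-- The language. -/
def Lg (J : Set ℕ) : FirstOrder.Language.{0, 0} := ⟨fun _ => Empty, fun n => {_s : Sy J // n = 2}⟩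

theorem shape_small (h : (#I).IsInaccessible) : #Shape < #I := by
  have h1 : #Shape = 2 ^ ℵ₀ := by
    have h2 : #(Set (List (Bit ℕ))) = 2 ^ ℵ₀ := by
      rw [mk_set, mk_eq_aleph0]
    change #(ℕ → Set (List (Bit ℕ))) = _
    rw [mk_arrow, h2]
    simp only [lift_id, mk_nat]
    rw [← power_mul, aleph0_mul_aleph0]
  rw [h1]
  exact h.isStrongLimit.two_power_lt h.aleph0_lt

theorem sy_small (h : (#I).IsInaccessible) (J : Set ℕ) : #(Sy J) < #I := by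
  let F : Sy J → (ℕ × ℕ × Bool) ⊕ (J × Shape × List (Bit ℕ)) := fun s => match s with
    | .idx => .inl (0, 0, true)
    | .cst n => .inl (1, n, true)
    | .pt => .inl (2, 0, true)
    | .qb l b => .inl (3, l, b)
    | .pr n => .inl (4, n, true)
    | .fa j τ f => .inr (j, τ, f)
  have hF : Function.Injective F := by
    intro s s' hs
    cases s <;> cases s' <;> simp [F] at hs ⊢ <;> try exact hs
  refine (mk_le_of_injective hF).trans_lt ?_
  have hi := h.isRegular.aleph0_le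
  rw [mk_sum, lift_id, lift_id]
  refine add_lt_of_lt hi (mk_le_aleph0.trans_lt h.aleph0_lt) ?_
  rw [mk_prod, lift_id, lift_id]
  refine mul_lt_of_lt hi (mk_le_aleph0.trans_lt h.aleph0_lt) ?_
  rw [mk_prod, lift_id, lift_id]
  exact mul_lt_of_lt hi (shape_small h) (mk_le_aleph0.trans_lt h.aleph0_lt)

theorem lg_small (h : (#I).IsInaccessible) (J : Set ℕ) : (Lg J).card < #I := by
  let F : (Lg J).Symbols → Sy J := fun s => match s with
    | .inl ⟨_, e⟩ => (e : Empty).elim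
    | .inr ⟨_, e⟩ => e.1
  have hF : Function.Injective F := by
    rintro (⟨_, e⟩ | ⟨n, s, hs⟩) (⟨_, e'⟩ | ⟨n', s', hs'⟩) he
    · exact (e : Empty).elim
    · exact (e : Empty).elim
    · exact (e' : Empty).elim
    · subst hs hs'
      have : s = s' := he
      subst this
      rfl
  exact (mk_le_of_injective hF).trans_lt (sy_small h J)

/-- The relations of the structure. -/
def RR {τ : Nm (P I)} (S : Supp τ) (B : Set I) (p : P I) (i : I) :
    Sy S.J → B ⊕ (ℕ → B) → B ⊕ (ℕ → B) → Prop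
  | .idx, u, _ => ∃ a : B, u = .inl a
  | .cst n, u, _ => ∃ a : B, u = .inl a ∧ (a : I) = S.ε n
  | .pt, u, _ => ∃ a : B, u = .inl a ∧ (a : I) = i
  | .qb l b, u, _ => ∃ a : B, u = .inl a ∧ ((a : I), l, b) ∈ p.q
  | .pr n, u, w => ∃ v : ℕ → B, u = .inr v ∧ w = .inl (v n)
  | .fa j τ f, u, w => ∃ v s : ℕ → B, u = .inr v ∧ w = .inr s ∧
      (S.c j, (f.map (mvB fun n => (v n : I)), (τ, fun n => (s n : I)))) ∈ p.a

/-- The structure. -/
@[reducible] def Str {τ : Nm (P I)} (S : Supp τ) (B : Set I) (p : P I) (i : I) :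
    (Lg S.J).Structure (B ⊕ (ℕ → B)) where
  funMap := fun {_} f _ => (f : Empty).elim
  RelMap := fun {_} r x => RR S B p i r.1 (x ⟨0, by
    have := r.2
    omega⟩) (x ⟨1, by
    have := r.2
    omega⟩)

omit [Ix I] in
theorem exists_code {B : Set I} (b0 : B) (q : List (Bit I)) (h : ∀ w ∈ q, w.1 ∈ B) :
    ∃ (v : ℕ → B) (f : List (Bit ℕ)), f.map (mvB fun n => (v n : I)) = q := by
  induction q with
  | nil => exact ⟨fun _ => b0, [], rfl⟩
  | cons e q ih =>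
    obtain ⟨v, f, hf⟩ := ih fun w hw => h w (List.mem_cons_of_mem _ hw)
    refine ⟨fun n => Nat.casesOn n ⟨e.1, h e List.mem_cons_self⟩ v,
      (0, e.2) :: f.map (mvB Nat.succ), ?_⟩
    rw [List.map_cons, List.map_map]
    congr 1

/-- The indices that occur in a condition. -/
def sup (p : P I) : Set I := Prod.fst '' p.q ∪ ⋃ f ∈ p.a,
  ((Prod.fst '' {w | w ∈ f.2.1}) ∪ Set.range f.2.2.2)

theorem sup_small (p : P I) : Sm I (sup p) := by
  refine (Sm.of_finite (p.2.1.image _)).union (Sm.biUnion p.2.2.2.1 fun f _ => ?_)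
  exact (Sm.of_finite ((List.finite_toSet _).image _)).union
    (Sm.of_countable (Set.countable_range _))

theorem vop_embed (hV : IsVopenka #I) {τ : Nm (P I)} (S : Supp τ) {K : Type} (hK : #K = #I)
    (p : K → P I) (i : K → I) : ∃ ξ ζ : K, ξ ≠ ζ ∧ ∃ σ : Equiv.Perm I,
      (∀ n, σ (S.ε n) = S.ε n) ∧ σ (i ξ) = i ζ ∧ (∀ e ∈ (p ξ).q, mvB σ e ∈ (p ζ).q) ∧
      ∀ j z, (S.c j, z) ∈ (p ξ).a → (S.c j, mvZ σ z) ∈ (p ζ).a := by
  classical
  let B : K → Set I := fun ξ => Set.range S.ε ∪ insert (i ξ) (sup (p ξ))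
  have hB : ∀ ξ, Sm I (B ξ) := fun ξ => (Sm.of_countable (Set.countable_range _)).union
    ((Sm.of_countable (Set.countable_singleton (i ξ))).union (sup_small (p ξ)))
  have hinac := hV.1
  have hsz : ∀ ξ, #(B ξ ⊕ (ℕ → B ξ)) < #I := by
    intro ξ
    have hi := hinac.isRegular.aleph0_le
    rw [mk_sum, lift_id, lift_id]
    refine add_lt_of_lt hi (hB ξ) ?_
    rw [mk_arrow, lift_id, lift_id, mk_nat]
    have h1 : #(B ξ) * ℵ₀ < #I := mul_lt_of_lt hi (hB ξ) hinac.aleph0_lt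
    refine lt_of_le_of_lt ?_ (hinac.isStrongLimit.two_power_lt h1)
    rw [power_mul]
    exact power_le_power_right (cantor _).le
  letI : ∀ ξ, (Lg S.J).Structure (B ξ ⊕ (ℕ → B ξ)) := fun ξ => Str S (B ξ) (p ξ) (i ξ)
  have hpt : ∀ ξ, S.ε 0 ∈ B ξ := fun ξ => Or.inl ⟨0, rfl⟩
  obtain ⟨ξ, ζ, hne, ⟨e⟩⟩ := hV.2 (Lg S.J) (lg_small hinac S.J) K hK
    (fun ξ => B ξ ⊕ (ℕ → B ξ)) (fun ξ => ⟨.inl ⟨S.ε 0, hpt ξ⟩⟩) hsz
  have hrel : ∀ (s : Sy S.J) (u w : B ξ ⊕ (ℕ → B ξ)), RR S (B ξ) (p ξ) (i ξ) s u w →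
      RR S (B ζ) (p ζ) (i ζ) s (e u) (e w) := by
    intro s u w h
    have h1 := e.map_rel (n := 2) (⟨s, rfl⟩ : {_s : Sy S.J // 2 = 2}) ![u, w]
    exact h1.2 h
  have hinj : Function.Injective e := e.injective
  have h0 : ∀ a : B ξ, ∃ a' : B ζ, e (.inl a) = .inl a' := fun a =>
    hrel .idx (.inl a) (.inl a) ⟨a, rfl⟩
  choose σ0 hσ0 using h0
  have hσinj : Function.Injective σ0 := by
    intro a a' h
    have h1 : e (.inl a) = e (.inl a') := by rw [hσ0, hσ0, h]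
    exact Sum.inl_injective (hinj h1)
  have hseq : ∀ v : ℕ → B ξ, e (.inr v) = .inr fun n => σ0 (v n) := by
    intro v
    have h1 : ∀ n, ∃ v' : ℕ → B ζ, e (.inr v) = .inr v' ∧ v' n = σ0 (v n) := by
      intro n
      obtain ⟨v', h2, h3⟩ := hrel (.pr n) (.inr v) (.inl (v n)) ⟨v, rfl, rfl⟩
      rw [hσ0] at h3
      exact ⟨v', h2, (Sum.inl_injective h3).symm⟩
    obtain ⟨v', h2, _⟩ := h1 0
    rw [h2]
    congr 1
    funext n
    obtain ⟨v'', h3, h4⟩ := h1 n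
    rw [h2] at h3
    rw [Sum.inr_injective h3]
    exact h4
  obtain ⟨π, hπ⟩ := perm_extend (hB ξ) (fun a => if h : a ∈ B ξ then (σ0 ⟨a, h⟩ : I) else a) (by
    intro a ha a' ha' h
    simp only [dif_pos ha, dif_pos ha'] at h
    exact congrArg Subtype.val (hσinj (Subtype.ext h)))
  have hπ' : ∀ a : B ξ, π a = σ0 a := fun a => by
    rw [hπ a a.2, dif_pos a.2]
  refine ⟨ξ, ζ, hne, π, fun n => ?_, ?_, fun w hw => ?_, fun j z hz => ?_⟩
  · have hn : S.ε n ∈ B ξ := Or.inl ⟨n, rfl⟩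
    obtain ⟨a, h1, h2⟩ := hrel (.cst n) (.inl ⟨_, hn⟩) (.inl ⟨_, hn⟩) ⟨_, rfl, rfl⟩
    rw [hσ0] at h1
    have h3 := hπ' ⟨_, hn⟩
    rw [Sum.inl_injective h1] at h3
    exact h3.trans h2
  · have hn : i ξ ∈ B ξ := Or.inr (Or.inl rfl)
    obtain ⟨a, h1, h2⟩ := hrel .pt (.inl ⟨_, hn⟩) (.inl ⟨_, hn⟩) ⟨_, rfl, rfl⟩
    rw [hσ0] at h1
    have h3 := hπ' ⟨_, hn⟩
    rw [Sum.inl_injective h1] at h3
    exact h3.trans h2
  · obtain ⟨k, l, b⟩ := w
    have hn : k ∈ B ξ := Or.inr (Or.inr (Or.inl ⟨_, hw, rfl⟩))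
    obtain ⟨a, h1, h2⟩ := hrel (.qb l b) (.inl ⟨_, hn⟩) (.inl ⟨_, hn⟩) ⟨_, rfl, hw⟩
    rw [hσ0] at h1
    have h3 := hπ' ⟨_, hn⟩
    rw [Sum.inl_injective h1] at h3
    have h4 : π k = a := h3
    change (π k, l, b) ∈ _
    rw [h4]
    exact h2
  · obtain ⟨q0, τ0, s⟩ := z
    have hsub : ∀ k ∈ (Prod.fst '' {w | w ∈ q0}) ∪ Set.range s, k ∈ B ξ := fun k hk =>
      Or.inr (Or.inr (Or.inr (Set.mem_iUnion₂.2 ⟨_, hz, hk⟩)))
    obtain ⟨v, f, hf⟩ := exists_code (B := B ξ) ⟨S.ε 0, hpt ξ⟩ q0 fun w hw =>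
      hsub _ (Or.inl ⟨w, hw, rfl⟩)
    let s' : ℕ → B ξ := fun n => ⟨s n, hsub _ (Or.inr ⟨n, rfl⟩)⟩
    have h1 : RR S (B ξ) (p ξ) (i ξ) (.fa j τ0 f) (.inr v) (.inr s') := by
      refine ⟨v, s', rfl, rfl, ?_⟩
      rw [hf]
      exact hz
    obtain ⟨v1, s1, h2, h3, h4⟩ := hrel _ _ _ h1
    rw [hseq] at h2 h3
    rw [← Sum.inr_injective h2, ← Sum.inr_injective h3] at h4
    have e1 : f.map (mvB fun n => (σ0 (v n) : I)) = q0.map (mvB π) := by
      rw [← hf, List.map_map]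
      refine List.map_congr_left fun w _ => ?_
      refine Prod.ext ?_ rfl
      exact (hπ' (v w.1)).symm
    have e2 : (fun n => (σ0 (s' n) : I)) = π ∘ s := funext fun n => (hπ' (s' n)).symm
    rw [e1, e2] at h4
    exact h4

end vop

end Pool.Agent.helper74.HY
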