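import Pool.Agent.helper74.HYGen

/-!
# Coordinates, valid sets of facts and conditions
-/

namespace Pool.Agent.helper74.HY

open Cardinal
open Pool.Agent.helper31.ZF Pool.Agent.helper74.Forc

/-- An index set of regular uncountable size with a fixed sequence of distinct elements. -/
class Ix (I : Type) where
  reg : (#I).IsRegular
  unc : ℵ₀ < #I
  /-- a fixed sequence -/
  b : ℕ → I
  inj : Function.Injective b

/-! ### small sets -/

/-- Sets of size less than the size of `I`. -/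
def Sm (I : Type) {α : Type} (s : Set α) : Prop := #s < #I

section small

variable {I : Type} {α β : Type}

theorem Sm.mono {s t : Set α} (h : Sm I t) (hst : s ⊆ t) : Sm I s :=
  (mk_le_mk_of_subset hst).trans_lt h

theorem Sm.image {s : Set α} (h : Sm I s) (f : α → β) : Sm I (f '' s) :=
  mk_image_le.trans_lt h

variable [Ix I]

theorem Sm.union {s t : Set α} (hs : Sm I s) (ht : Sm I t) : Sm I (s ∪ t) :=
  (mk_union_le s t).trans_lt (add_lt_of_lt Ix.reg.aleph0_le hs ht)

theorem Sm.of_countable {s : Set α} (h : s.Countable) : Sm I s :=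
  (le_aleph0_iff_set_countable.2 h).trans_lt Ix.unc

theorem Sm.of_finite {s : Set α} (h : s.Finite) : Sm I s := Sm.of_countable h.countable

theorem Sm.iUnion' {ι : Type} {t : ι → Set α} (hι : #ι < #I) (h : ∀ i, Sm I (t i)) :
    Sm I (⋃ i, t i) :=
  (card_iUnion_lt_iff_forall_of_isRegular Ix.reg hι).2 h

theorem Sm.iUnion {ι : Type} [Countable ι] {t : ι → Set α} (h : ∀ i, Sm I (t i)) :
    Sm I (⋃ i, t i) :=
  Sm.iUnion' ((mk_le_aleph0 (α := ι)).trans_lt Ix.unc) h

theorem Sm.biUnion {s : Set β} {t : β → Set α} (hs : Sm I s) (h : ∀ i ∈ s, Sm I (t i)) :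
    Sm I (⋃ i ∈ s, t i) := by
  rw [Set.biUnion_eq_iUnion]
  exact Sm.iUnion' hs fun i => h i i.2

end small

/-! ### real names and facts -/

/-- Bits of information on Cohen reals. -/
abbrev Bit (I : Type) : Type := I × ℕ × Bool

/-- Shapes of names of reals. -/
abbrev Shape : Type := ℕ → Set (List (Bit ℕ))

/-- Names of reals. -/
abbrev RN (I : Type) : Type := Shape × (ℕ → I)

/-- The fact `z = (q, r)` at a coordinate says: if `q` is true, then `r` is in the set. -/
abbrev Z (I : Type) : Type := List (Bit I) × RN I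

/-- Templates. -/
abbrev Tp (I : Type) : Type := Set (List (RN I) × Set (Bit I) × Set (ℕ × Z I))

/-- Coordinates. -/
inductive X (I : Type) : Type
  | mk (t : Tp I) (k : I) (ε : ℕ → I) (J : Set ℕ) (c : J → X I) : X I

section types

variable {I : Type}

/-- Consistent sets of bits. -/
def Con (q : Set (Bit I)) : Prop := ∀ i n, (i, n, true) ∈ q → (i, n, false) ∉ q

theorem Con.mono {q q' : Set (Bit I)} (h : Con q') (hq : q ⊆ q') : Con q :=
  fun i n h1 h2 => h i n (hq h1) (hq h2)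

/-- Action of a map of indices on bits. -/
def mvB {α β : Type} (s : α → β) (e : Bit α) : Bit β := (s e.1, e.2)

/-- Action of a map of `I` on real names. -/
def mvR (s : I → I) (r : RN I) : RN I := (r.1, s ∘ r.2)

/-- Action of a map of `I` on facts. -/
def mvZ (s : I → I) (z : Z I) : Z I := (z.1.map (mvB s), mvR s z.2)

@[simp] theorem mvB_id (e : Bit I) : mvB id e = e := rfl

@[simp] theorem mvR_id (r : RN I) : mvR id r = r := rfl

@[simp] theorem mvZ_id (z : Z I) : mvZ id z = z := by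
  unfold mvZ
  have : (mvB id : Bit I → Bit I) = id := funext mvB_id
  rw [this, List.map_id, mvR_id]

theorem mvB_mvB (s s' : I → I) (e : Bit I) : mvB s (mvB s' e) = mvB (s ∘ s') e := rfl

theorem mvR_mvR (s s' : I → I) (r : RN I) : mvR s (mvR s' r) = mvR (s ∘ s') r := rfl

theorem mvZ_mvZ (s s' : I → I) (z : Z I) : mvZ s (mvZ s' z) = mvZ (s ∘ s') z := by
  unfold mvZ
  rw [List.map_map, mvR_mvR]
  rfl

/-- The coordinates on which `x` depends. -/
def ch : X I → Set (X I)
  | .mk _ _ _ _ c => ⋃ j, insert (c j) (ch (c j))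

/-- The indices on which `x` depends. -/
def ixs : X I → Set I
  | .mk _ _ ε _ c => Set.range ε ∪ ⋃ j, ixs (c j)

/-- The label of a coordinate. -/
def lab : X I → I
  | .mk _ k _ _ _ => k

theorem ch_mk (t : Tp I) (k : I) (ε : ℕ → I) (J : Set ℕ) (c : J → X I) :
    ch (.mk t k ε J c) = ⋃ j, insert (c j) (ch (c j)) := rfl

theorem ch_countable (x : X I) : (ch x).Countable := by
  induction x with
  | mk t k ε J c ih => exact Set.countable_iUnion fun j => (ih j).insert _

theorem ixs_countable (x : X I) : (ixs x).Countable := by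
  induction x with
  | mk t k ε J c ih =>
    exact (Set.countable_range ε).union (Set.countable_iUnion fun j => ih j)

theorem ch_trans {x y z : X I} (h : y ∈ ch x) (h' : z ∈ ch y) : z ∈ ch x := by
  induction x with
  | mk t k ε J c ih =>
    obtain ⟨j, hj⟩ := Set.mem_iUnion.1 h
    rcases hj with rfl | hj
    · exact Set.mem_iUnion.2 ⟨j, Or.inr h'⟩
    · exact Set.mem_iUnion.2 ⟨j, Or.inr (ih j hj)⟩

theorem ch_irrefl (x : X I) : x ∉ ch x := by
  induction x with
  | mk t k ε J c ih =>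
    intro h
    obtain ⟨j, hj⟩ := Set.mem_iUnion.1 h
    have h1 : c j ∈ ch (.mk t k ε J c) := Set.mem_iUnion.2 ⟨j, Or.inl rfl⟩
    rcases hj with hj | hj
    · rw [hj] at h1
      exact ih j h1
    · exact ih j (ch_trans hj h1)

theorem child_mem {t : Tp I} {k : I} {ε : ℕ → I} {J : Set ℕ} {c : J → X I} (j : J) :
    c j ∈ ch (.mk t k ε J c) := Set.mem_iUnion.2 ⟨j, Or.inl rfl⟩

/-- Closed sets of coordinates. -/
def Cl (Y : Set (X I)) : Prop := ∀ x ∈ Y, ch x ⊆ Y

theorem cl_ch (x : X I) : Cl (ch x) := fun _ hy _ hz => ch_trans hy hz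

theorem cl_insert_ch (x : X I) : Cl (insert x (ch x)) := by
  rintro y (rfl | hy) z hz
  · exact Or.inr hz
  · exact Or.inr (ch_trans hy hz)

/-- The closure of a set of coordinates. -/
def clo (Y : Set (X I)) : Set (X I) := ⋃ x ∈ Y, insert x (ch x)

theorem subset_clo (Y : Set (X I)) : Y ⊆ clo Y := fun x hx =>
  Set.mem_iUnion₂.2 ⟨x, hx, Or.inl rfl⟩

theorem cl_clo (Y : Set (X I)) : Cl (clo Y) := by
  intro y hy z hz
  obtain ⟨x, hx, hy⟩ := Set.mem_iUnion₂.1 hy
  exact Set.mem_iUnion₂.2 ⟨x, hx, cl_insert_ch x y hy hz⟩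

theorem clo_countable {Y : Set (X I)} (h : Y.Countable) : (clo Y).Countable :=
  h.biUnion fun x _ => (ch_countable x).insert _

theorem clo_sm [Ix I] {Y : Set (X I)} (h : Sm I Y) : Sm I (clo Y) :=
  Sm.biUnion h fun x _ => Sm.of_countable ((ch_countable x).insert _)

theorem clo_min {Y Y' : Set (X I)} (h : Y ⊆ Y') (h' : Cl Y') : clo Y ⊆ Y' := by
  intro y hy
  obtain ⟨x, hx, rfl | hy⟩ := Set.mem_iUnion₂.1 hy
  · exact h hx
  · exact h' x (h hx) hy

/-! ### valid sets of facts -/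

/-- Facts at coordinates. -/
abbrev Fa (I : Type) : Type := X I × Z I

/-- The facts at one coordinate. -/
def sec (b : Set (Fa I)) (x : X I) : Set (Z I) := {z | (x, z) ∈ b}

/-- The facts at coordinates in `Y`. -/
def rs (b : Set (Fa I)) (Y : Set (X I)) : Set (Fa I) := {f | f ∈ b ∧ f.1 ∈ Y}

variable [Ix I]

/-- A violation: by the template, `q` and `b` force that some finite set is an edge, and by `q`
and `B` this finite set is contained in the set of the coordinate. -/
def Viol (t : Tp I) (ε : ℕ → I) (J : Set ℕ) (c : J → X I) (B : Set (Z I)) (b : Set (Fa I))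
    (q : Set (Bit I)) : Prop :=
  ∃ e ∈ t, e.1 ≠ [] ∧ ∃ s : Equiv.Perm I, s ∘ Ix.b = ε ∧ (∀ w ∈ e.2.1, mvB s w ∈ q) ∧
    (∀ f ∈ e.2.2, ∃ h : f.1 ∈ J, (c ⟨f.1, h⟩, mvZ s f.2) ∈ b) ∧
    ∀ r ∈ e.1, ∃ q0 : List (Bit I), (∀ w ∈ q0, w ∈ q) ∧ (q0, mvR s r) ∈ B

/-- The facts at `x` and at the coordinates on which `x` depends are valid. -/
def OK : X I → Set (Fa I) → Prop
  | .mk t k ε J c => fun b => (∀ j, OK (c j) b) ∧
      ∀ b', Sm I b' → (∀ j, OK (c j) b') → (∀ f ∈ b, f.1 ∈ ch (.mk t k ε J c) → f ∈ b') →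
        ∀ q : Set (Bit I), q.Finite → Con q → ¬ Viol t ε J c (sec b (.mk t k ε J c)) b' q

theorem OK_mk {t : Tp I} {k : I} {ε : ℕ → I} {J : Set ℕ} {c : J → X I} {b : Set (Fa I)} :
    OK (.mk t k ε J c) b ↔ (∀ j, OK (c j) b) ∧
      ∀ b', Sm I b' → (∀ j, OK (c j) b') → (∀ f ∈ b, f.1 ∈ ch (.mk t k ε J c) → f ∈ b') →
        ∀ q : Set (Bit I), q.Finite → Con q →
          ¬ Viol t ε J c (sec b (.mk t k ε J c)) b' q := Iff.rfl

/-- Valid sets of facts. -/
def Valid (b : Set (Fa I)) : Prop := ∀ x, OK x b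

theorem OK.of_ch {x y : X I} {b : Set (Fa I)} (h : OK x b) (hy : y ∈ ch x) : OK y b := by
  induction x with
  | mk t k ε J c ih =>
    obtain ⟨j, rfl | hj⟩ := Set.mem_iUnion.1 hy
    · exact h.1 j
    · exact ih j (h.1 j) hj

theorem Viol.mono {t : Tp I} {ε : ℕ → I} {J : Set ℕ} {c : J → X I} {B B' : Set (Z I)}
    {b b' : Set (Fa I)} {q : Set (Bit I)} (h : Viol t ε J c B b q) (hB : B ⊆ B')
    (hb : ∀ f ∈ b, f.1 ∈ Set.range c → f ∈ b') : Viol t ε J c B' b' q := by
  obtain ⟨e, he, h1, s, hs, h2, h3, h4⟩ := h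
  refine ⟨e, he, h1, s, hs, h2, fun f hf => ?_, fun r hr => ?_⟩
  · obtain ⟨hJ, hf⟩ := h3 f hf
    exact ⟨hJ, hb _ hf ⟨_, rfl⟩⟩
  · obtain ⟨q0, hq0, hr⟩ := h4 r hr
    exact ⟨q0, hq0, hB hr⟩

/-- `OK x` depends only on the facts at `x` and below. -/
theorem OK.congr {x : X I} {b b' : Set (Fa I)}
    (h : ∀ f : Fa I, f.1 ∈ insert x (ch x) → (f ∈ b ↔ f ∈ b')) : OK x b ↔ OK x b' := by
  induction x generalizing b b' with
  | mk t k ε J c ih =>
    have hc : ∀ j, OK (c j) b ↔ OK (c j) b' := fun j => ih j fun f hf => h f (Or.inr (by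
      exact Set.mem_iUnion.2 ⟨j, hf⟩))
    have hs : sec b (.mk t k ε J c) = sec b' (.mk t k ε J c) := by
      ext z
      exact h (_, z) (Or.inl rfl)
    rw [OK_mk, OK_mk, hs]
    refine and_congr (forall_congr' hc) (forall_congr' fun b'' => ?_)
    refine imp_congr Iff.rfl (imp_congr Iff.rfl (imp_congr ?_ Iff.rfl))
    refine forall_congr' fun f => ?_
    constructor
    · intro h1 h2 h3
      exact h1 ((h f (Or.inr h3)).2 h2) h3
    · intro h1 h2 h3
      exact h1 ((h f (Or.inr h3)).1 h2) h3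

/-- The main case of validity. -/
theorem OK.step {t : Tp I} {k : I} {ε : ℕ → I} {J : Set ℕ} {c : J → X I} {b : Set (Fa I)}
    (h : OK (.mk t k ε J c) b) {b' : Set (Fa I)} (h1 : Sm I b')
    (h2 : ∀ y ∈ ch (.mk t k ε J c), OK y b')
    (h3 : ∀ f ∈ b, f.1 ∈ ch (.mk t k ε J c) → f ∈ b') {q : Set (Bit I)} (hq : q.Finite)
    (hc : Con q) : ¬ Viol t ε J c (sec b (.mk t k ε J c)) b' q :=
  h.2 b' h1 (fun j => h2 _ (child_mem j)) h3 q hq hc

/-- If two sets of facts are comparable at `x` and below `x`, validity passes. -/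
theorem OK.of_le {x : X I} {a b : Set (Fa I)} (h : OK x a) (hc : ∀ y ∈ ch x, OK y b)
    (h1 : sec b x ⊆ sec a x) (h2 : ∀ f ∈ a, f.1 ∈ ch x → f ∈ b) : OK x b := by
  cases x with
  | mk t k ε J c =>
    refine ⟨fun j => hc _ (child_mem j), fun b' hb' hj hsub q hq hcon hv => ?_⟩
    refine h.2 b' hb' hj (fun f hf hfc => hsub f (h2 f hf hfc) hfc) q hq hcon ?_
    exact hv.mono h1 fun f hf _ => hf

theorem OK.of_empty_sec {x : X I} {b : Set (Fa I)} (hc : ∀ y ∈ ch x, OK y b)
    (h1 : ∀ z, z ∉ sec b x) : OK x b := by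
  cases x with
  | mk t k ε J c =>
    refine ⟨fun j => hc _ (child_mem j), fun b' hb' hj hsub q hq hcon hv => ?_⟩
    obtain ⟨e, he, h2, s, hs, h3, h4, h5⟩ := hv
    obtain ⟨r, hr⟩ := List.exists_mem_of_ne_nil _ h2
    obtain ⟨q0, _, h6⟩ := h5 r hr
    exact h1 _ h6

omit [Ix I] in
theorem X.ch_ind {P : X I → Prop} (h : ∀ x, (∀ y ∈ ch x, P y) → P x) (x : X I) : P x := by
  have key : ∀ x : X I, P x ∧ ∀ y ∈ ch x, P y := by
    intro x
    induction x with
    | mk t k ε J c ih =>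
      have h1 : ∀ y ∈ ch (.mk t k ε J c), P y := by
        intro y hy
        obtain ⟨j, rfl | hj⟩ := Set.mem_iUnion.1 hy
        · exact (ih j).1
        · exact (ih j).2 y hj
      exact ⟨h _ h1, h1⟩
  exact (key x).1

/-- A set of facts is valid if it is valid on a closed set that contains all its coordinates. -/
theorem Valid.of_cl {b : Set (Fa I)} (h : ∀ x, (∃ z, (x, z) ∈ b) → OK x b) : Valid b := by
  intro x
  induction x using X.ch_ind with
  | h x ih =>
    by_cases hx : ∃ z, (x, z) ∈ b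
    · exact h x hx
    · exact OK.of_empty_sec ih fun z hz => hx ⟨z, hz⟩

/-- Restriction to a closed set. -/
theorem Valid.rs {b : Set (Fa I)} (h : ∀ x, (∃ z, (x, z) ∈ b) → OK x b) {Y : Set (X I)}
    (hY : Cl Y) : Valid (rs b Y) := by
  refine Valid.of_cl fun x hx => ?_
  obtain ⟨z, hz, hxY⟩ := hx
  refine (OK.congr (b := b) fun f hf => ?_).1 (h x ⟨z, hz⟩)
  have hfY : f.1 ∈ Y := by
    rcases hf with hf | hf
    · rw [hf]
      exact hxY
    · exact hY x hxY hf
  exact ⟨fun h => ⟨h, hfY⟩, fun h => h.1⟩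

theorem Valid.rs' {b : Set (Fa I)} (h : Valid b) {Y : Set (X I)} (hY : Cl Y) :
    Valid (HY.rs b Y) := Valid.rs (fun x _ => h x) hY

theorem Valid.rs_of {b : Set (Fa I)} {Y : Set (X I)} (h : ∀ x ∈ Y, OK x b) (hY : Cl Y) :
    Valid (HY.rs b Y) := by
  refine Valid.of_cl fun x hx => ?_
  obtain ⟨z, hz, hxY⟩ := hx
  refine (OK.congr (b := b) fun f hf => ?_).1 (h x hxY)
  have hfY : f.1 ∈ Y := by
    rcases hf with hf | hf
    · rw [hf]
      exact hxY
    · exact hY x hxY hf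
  exact ⟨fun h => ⟨h, hfY⟩, fun h => h.1⟩

theorem valid_empty : Valid (∅ : Set (Fa I)) :=
  Valid.of_cl fun _ hx => by
    obtain ⟨z, hz⟩ := hx
    exact absurd hz (Set.notMem_empty _)

/-- Directed unions. -/
theorem Valid.iUnion {ι : Type} [Nonempty ι] {a : ι → Set (Fa I)} (h : ∀ i, Valid (a i))
    (hd : Directed (· ⊆ ·) a) : Valid (⋃ i, a i) := by
  intro x
  induction x using X.ch_ind with
  | h x ih =>
    cases x with
    | mk t k ε J c =>
      refine ⟨fun j => ih _ (child_mem j), fun b' hb' hj hsub q hq hcon hv => ?_⟩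
      obtain ⟨e, he, h2, s, hs, h3, h4, h5⟩ := hv
      have key : ∀ l : List (RN I), (∀ r ∈ l, ∃ q0 : List (Bit I), (∀ w ∈ q0, w ∈ q) ∧
          (q0, mvR s r) ∈ sec (⋃ i, a i) (.mk t k ε J c)) → ∃ i, ∀ r ∈ l,
          ∃ q0 : List (Bit I), (∀ w ∈ q0, w ∈ q) ∧
          (q0, mvR s r) ∈ sec (a i) (.mk t k ε J c) := by
        intro l
        induction l with
        | nil => exact fun _ => ⟨Classical.arbitrary ι, fun r hr => by simp at hr⟩
        | cons r l ihl =>
          intro hl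
          obtain ⟨i, hi⟩ := ihl fun r' hr' => hl r' (List.mem_cons_of_mem _ hr')
          obtain ⟨q0, hq0, hr0⟩ := hl r List.mem_cons_self
          obtain ⟨i', hi'⟩ := Set.mem_iUnion.1 hr0
          obtain ⟨m, hm1, hm2⟩ := hd i i'
          refine ⟨m, fun r' hr' => ?_⟩
          rcases List.mem_cons.1 hr' with rfl | hr'
          · exact ⟨q0, hq0, hm2 hi'⟩
          · obtain ⟨q1, hq1, h6⟩ := hi r' hr'
            exact ⟨q1, hq1, hm1 h6⟩
      obtain ⟨i, hi⟩ := key e.1 h5
      refine (h i (.mk t k ε J c)).2 b' hb' hj (fun f hf hfc =>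
        hsub f (Set.mem_iUnion.2 ⟨i, hf⟩) hfc) q hq hcon ?_
      exact ⟨e, he, h2, s, hs, h3, h4, hi⟩

/-- Amalgamation over a closed set. -/
theorem Valid.union {a c : Set (Fa I)} (ha : Valid a) (hc : Valid c) {Y : Set (X I)}
    (hY : Cl Y) (hcY : ∀ f ∈ c, f.1 ∈ Y) (hac : ∀ f ∈ a, f.1 ∈ Y → f ∈ c) :
    Valid (a ∪ c) := by
  intro x
  induction x using X.ch_ind with
  | h x ih =>
    by_cases hx : x ∈ Y
    · refine (OK.congr (b := c) fun f hf => ?_).1 (hc x)
      have hfY : f.1 ∈ Y := by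
        rcases hf with hf | hf
        · rw [hf]
          exact hx
        · exact hY x hx hf
      exact ⟨Or.inr, fun h => h.elim (fun h => hac f h hfY) id⟩
    · refine OK.of_le (ha x) ih ?_ fun f hf _ => Or.inl hf
      rintro z (hz | hz)
      · exact hz
      · exact absurd (hcY _ hz) hx

end types

/-! ### conditions -/

/-- Conditions. -/
def P (I : Type) [Ix I] : Type :=
  {p : Set (Bit I) × Set (Fa I) // p.1.Finite ∧ Con p.1 ∧ Sm I p.2 ∧ Valid p.2}

section cond

variable {I : Type} [Ix I]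

instance : PartialOrder (P I) where
  le p p' := p'.1.1 ⊆ p.1.1 ∧ p'.1.2 ⊆ p.1.2
  le_refl p := ⟨subset_rfl, subset_rfl⟩
  le_trans p p' p'' h h' := ⟨h'.1.trans h.1, h'.2.trans h.2⟩
  le_antisymm p p' h h' := Subtype.ext (Prod.ext (h'.1.antisymm h.1) (h'.2.antisymm h.2))

theorem P.le_def {p p' : P I} : p ≤ p' ↔ p'.1.1 ⊆ p.1.1 ∧ p'.1.2 ⊆ p.1.2 := Iff.rfl

/-- The Cohen part of a condition. -/
abbrev P.q (p : P I) : Set (Bit I) := p.1.1

/-- The facts of a condition. -/
abbrev P.a (p : P I) : Set (Fa I) := p.1.2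

/-- Restriction of a condition to a closed set of coordinates. -/
def P.rs (p : P I) (Y : Set (X I)) (hY : Cl Y) : P I :=
  ⟨(p.q, HY.rs p.a Y), p.2.1, p.2.2.1, p.2.2.2.1.mono fun _ hf => hf.1, p.2.2.2.2.rs' hY⟩

theorem P.le_rs (p : P I) (Y : Set (X I)) (hY : Cl Y) : p ≤ p.rs Y hY :=
  ⟨subset_rfl, fun _ hf => hf.1⟩

end cond

end Pool.Agent.helper74.HY
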