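import Pool.Agent.helper31.ZFFin

/-!
# Topological spaces inside a model of ZF

Definitions only.  For a model `M` of ZF all notions are read in `M`: the variables range over
elements of `M`, and all quantifiers are quantifiers over `M`.
-/

namespace Pool.Agent.helper74.ZT

open Pool.Agent.helper31.ZF

universe u

variable {M : Type u} [ZFModel M]

/-- Intersection of two sets. -/
noncomputable def cap (U V : M) : M := sep U fun x => x ∈ V

/-- `T` is a topology on `X` (`T` is the set of open sets). -/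
def IsTop (X T : M) : Prop :=
  (∀ U, U ∈ T → U ⊆ X) ∧ X ∈ T ∧ emp ∈ T ∧ (∀ U V, U ∈ T → V ∈ T → cap U V ∈ T) ∧
    ∀ S, S ⊆ T → sUn S ∈ T

/-- `C` is clopen in `(X, T)`. -/
def IsClopen (X T C : M) : Prop := C ∈ T ∧ C ⊆ X ∧ df X C ∈ T

/-- `(X, T)` is a `T₁`-space: singletons are closed. -/
def IsT1 (X T : M) : Prop := ∀ x, x ∈ X → df X (sg x) ∈ T

/-- `(X, T)` is zero-dimensional: the clopen sets are a base. -/
def IsZeroDim (X T : M) : Prop :=
  ∀ U, U ∈ T → ∀ x, x ∈ U → ∃ C, IsClopen X T C ∧ x ∈ C ∧ C ⊆ U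

/-- The subspace topology on `S`. -/
noncomputable def subTop (T S : M) : M := img T fun U => cap U S

/-- `A` belongs to `CO_δ(X)`: it is the intersection of a sequence of clopen sets of `(X, T)`. -/
def IsCd (X T A : M) : Prop :=
  ∃ c, IsFD c om ∧ (∀ n, n ∈ (om : M) → IsClopen X T (ap c n)) ∧
    ∀ x, x ∈ A ↔ (x ∈ X ∧ ∀ n, n ∈ (om : M) → x ∈ ap c n)

/-- The subspace `S` of `(X, T)` is `c_δ`-embedded in `(X, T)`. -/
def IsCdEmb (X T S : M) : Prop :=
  ∀ A, IsCd S (subTop T S) A → ∃ B, IsCd X T B ∧ A = cap B S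

/-- The product topology on the set `ω^J` of functions from `J` to `ω`, where `ω` is discrete. -/
noncomputable def prodTop (J : M) : M :=
  sep (pw (Fn J om)) fun U => ∀ f, f ∈ U → ∃ F, IsFinite F ∧ F ⊆ J ∧
    ∀ g, g ∈ Fn J (om : M) → (∀ j, j ∈ F → ap g j = ap f j) → g ∈ U

/-- `h` is a homeomorphism from `(X, T)` onto `(Y, T')`. -/
def IsHomeo (X T Y T' h : M) : Prop :=
  IsBij h X Y ∧ ∀ U, U ⊆ X → (U ∈ T ↔ img U (fun x => ap h x) ∈ T')

/-- `(X, T)` is `ℕ`-compact: for some non-empty `J` it is homeomorphic to a closed subspace `K`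
of `ω^J`. -/
def IsNCompact (X T : M) : Prop :=
  ∃ J K h, (∃ j, j ∈ J) ∧ K ⊆ Fn J om ∧ df (Fn J om) K ∈ prodTop J ∧
    IsHomeo X T K (subTop (prodTop J) K) h

/-- The statement of Q1 for the model `M`: if `(X, T)` is a zero-dimensional `T₁`-space and `X` is
the union of a sequence `S` of subspaces, each of them `ℕ`-compact and `c_δ`-embedded in `(X, T)`,
then `(X, T)` is `ℕ`-compact. -/
def CountableUnionStatement (M : Type u) [ZFModel M] : Prop :=
  ∀ X T S : M, IsTop X T → IsZeroDim X T → IsT1 X T → IsFD S om →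
    (∀ n, n ∈ (om : M) → ap S n ⊆ X) →
    (∀ x, x ∈ X → ∃ n, n ∈ (om : M) ∧ x ∈ ap S n) →
    (∀ n, n ∈ (om : M) → IsNCompact (ap S n) (subTop T (ap S n))) →
    (∀ n, n ∈ (om : M) → IsCdEmb X T (ap S n)) → IsNCompact X T

/-- `R` is a strict linear order of `A` of order type `ℤ` (`op x y ∈ R` means `x < y`): it has no
least and no greatest element, every non-empty subset of `A` that is bounded above has a greatest
element and every non-empty subset that is bounded below has a least element. -/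
structure IsZOrder (A R : M) : Prop where
  ne : ∃ x, x ∈ A
  irr : ∀ x, x ∈ A → op x x ∉ R
  trans : ∀ x y z, x ∈ A → y ∈ A → z ∈ A → op x y ∈ R → op y z ∈ R → op x z ∈ R
  total : ∀ x y, x ∈ A → y ∈ A → op x y ∈ R ∨ x = y ∨ op y x ∈ R
  noMax : ∀ x, x ∈ A → ∃ y, y ∈ A ∧ op x y ∈ R
  noMin : ∀ x, x ∈ A → ∃ y, y ∈ A ∧ op y x ∈ R
  max : ∀ B, B ⊆ A → (∃ x, x ∈ B) → (∃ u, u ∈ A ∧ ∀ x, x ∈ B → op x u ∈ R) →
    ∃ m, m ∈ B ∧ ∀ x, x ∈ B → x = m ∨ op x m ∈ R
  min : ∀ B, B ⊆ A → (∃ x, x ∈ B) → (∃ u, u ∈ A ∧ ∀ x, x ∈ B → op u x ∈ R) →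
    ∃ m, m ∈ B ∧ ∀ x, x ∈ B → x = m ∨ op m x ∈ R

/-- Partial countable choice for linear orders of type `ℤ`: for every sequence `(A n, R n)` of
linear orders of order type `ℤ` there is an infinite set `D ⊆ ω` and a function `f` on `D` with
`f n ∈ A n` for all `n ∈ D`. -/
def PartialZChoice (M : Type u) [ZFModel M] : Prop :=
  ∀ A R : M, IsFD A om → IsFD R om → (∀ n, n ∈ (om : M) → IsZOrder (ap A n) (ap R n)) →
    ∃ D f : M, D ⊆ om ∧ ¬ IsFinite D ∧ IsFD f D ∧ ∀ n, n ∈ D → ap f n ∈ ap A n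

end Pool.Agent.helper74.ZT
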