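import Pool.Agent.helper74.ZTopSpace

/-!
# The initial closed pieces are `ℕ`-compact and `c_δ`-embedded
-/

namespace Pool.Agent.helper74.ZT

open Pool.Agent.helper31.ZF

universe u

variable {M : Type u} [ZFModel M]

theorem mem_prodTop {J U : M} : U ∈ prodTop J ↔ U ⊆ Fn J om ∧ ∀ f, f ∈ U → ∃ F, Kfin F ∧ F ⊆ J ∧
    ∀ g, g ∈ Fn J (om : M) → (∀ j, j ∈ F → ap g j = ap f j) → g ∈ U := by
  have : D1 (fun U : M => ∀ f, f ∈ U → ∃ F, IsFinite F ∧ F ⊆ J ∧
    ∀ g, g ∈ Fn J (om : M) → (∀ j, j ∈ F → ap g j = ap f j) → g ∈ U) := by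
    unfold IsFinite
    infer_instance
  unfold prodTop
  rw [mem_sep, mem_pw]
  simp only [isFinite_iff]

section emb

variable {A R : M}

open Classical in
/-- The coordinate function of the point `x`. -/
noncomputable def phi (A R x : M) : M := lam (Xs A) fun y => if Bel A R y x then one else emp

open Classical in
instance instFpPhi {n : ℕ} (A R : M) {F : (Fin n → M) → M} [Fp F] :
    Fp (fun v => phi A R (F v)) :=
  Fp.op1 (f := phi A R) (by unfold phi; infer_instance) F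

open Classical in
theorem ap_phi {x y : M} (hy : y ∈ Xs A) :
    ap (phi A R x) y = if Bel A R y x then one else emp := by
  unfold phi
  rw [ap_lam hy]

theorem ap_phi_one {x y : M} (hy : y ∈ Xs A) : ap (phi A R x) y = one ↔ Bel A R y x := by
  classical
  rw [ap_phi hy]
  by_cases h : Bel A R y x
  · simp [h]
  · simp [h, one_ne_emp.symm]

theorem phi_fn {x : M} : phi A R x ∈ Fn (Xs A) om := by
  classical
  rw [mem_Fn]
  unfold phi
  refine lam_fn fun y _ => ?_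
  by_cases h : Bel A R y x
  · simp only [h, if_true]
    exact one_mem_om
  · simp only [h, if_false]
    exact emp_mem_om

theorem phi_agree {x z y : M} (hy : y ∈ Xs A) :
    ap (phi A R z) y = ap (phi A R x) y ↔ (Bel A R y z ↔ Bel A R y x) := by
  classical
  rw [ap_phi hy, ap_phi hy]
  by_cases h : Bel A R y z <;> by_cases h' : Bel A R y x <;> simp [h, h', one_ne_emp, one_ne_emp.symm]

theorem Seq.phi_inj (h : Seq A R) {x z : M} (hx : x ∈ Xs A) (hz : z ∈ Xs A)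
    (e : phi A R z = phi A R x) : z = x :=
  h.bel_inj hx hz fun y hy => (phi_agree hy).1 (by rw [e])

/-- The image of `S` under the coordinate map. -/
noncomputable def Ks (A R S : M) : M := img S fun x => phi A R x

theorem mem_Ks {S f : M} : f ∈ Ks A R S ↔ ∃ x, x ∈ S ∧ f = phi A R x := by
  unfold Ks
  rw [mem_img]

/-- Every subspace is homeomorphic to its image under the coordinate map. -/
theorem Seq.homeo (h : Seq A R) {S : M} (hS : S ⊆ Xs A) :
    IsHomeo S (subTop (Ts A R) S) (Ks A R S) (subTop (prodTop (Xs A)) (Ks A R S))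
      (lam S fun x => phi A R x) := by
  have hap : ∀ x, x ∈ S → ap (lam S fun x => phi A R x) x = phi A R x := fun x hx => by
    rw [ap_lam hx]
  refine ⟨⟨⟨lam_fn fun x hx => mem_Ks.2 ⟨x, hx, rfl⟩, fun x hx z hz e => ?_⟩, fun f hf => ?_⟩,
    fun U hU => ?_⟩
  · rw [hap x hx, hap z hz] at e
    exact h.phi_inj (hS z hz) (hS x hx) e
  · obtain ⟨x, hx, rfl⟩ := mem_Ks.1 hf
    exact ⟨x, hx, hap x hx⟩
  have himg : ∀ f, f ∈ img U (fun x => ap (lam S fun x => phi A R x) x) ↔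
      ∃ x, x ∈ U ∧ f = phi A R x := by
    intro f
    rw [mem_img]
    constructor
    · rintro ⟨x, hx, rfl⟩
      exact ⟨x, hx, hap x (hU x hx)⟩
    · rintro ⟨x, hx, rfl⟩
      exact ⟨x, hx, (hap x (hU x hx)).symm⟩
  rw [mem_subTop, mem_subTop]
  constructor
  · rintro ⟨V, hV, hUV⟩
    refine ⟨sep (Fn (Xs A) om) fun f => ∃ F, Kfin F ∧ F ⊆ Xs A ∧ ∃ x, x ∈ U ∧
      (∀ y, y ∈ F → ap f y = ap (phi A R x) y) ∧ agr A R F x ⊆ V, ?_, ?_⟩
    · rw [mem_prodTop]
      refine ⟨fun f hf => (mem_sep.1 hf).1, fun f hf => ?_⟩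
      rw [mem_sep] at hf
      obtain ⟨_, F, hF, hFX, x, hx, hfx, hV'⟩ := hf
      refine ⟨F, hF, hFX, fun g hg hgf => mem_sep.2 ⟨hg, F, hF, hFX, x, hx, fun y hy => ?_, hV'⟩⟩
      rw [hgf y hy, hfx y hy]
    · apply ext
      intro f
      rw [himg, mem_cap, mem_sep, mem_Ks]
      constructor
      · rintro ⟨x, hx, rfl⟩
        have hxV : x ∈ V := by
          rw [hUV] at hx
          exact (mem_cap.1 hx).1
        obtain ⟨F, hF, hFX, hFV⟩ := h.exists_agr hV hxV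
        exact ⟨⟨phi_fn, F, hF, hFX, x, hx, fun y _ => rfl, hFV⟩, x, hU x hx, rfl⟩
      · rintro ⟨⟨_, F, hF, hFX, x, hx, hfx, hV'⟩, z, hz, rfl⟩
        refine ⟨z, ?_, rfl⟩
        rw [hUV, mem_cap]
        refine ⟨hV' z (mem_agr.2 ⟨hS z hz, fun y hy => ?_⟩), hz⟩
        exact (phi_agree (hFX y hy)).1 (hfx y hy)
  · rintro ⟨W, hW, hUW⟩
    rw [mem_prodTop] at hW
    refine ⟨sep (Xs A) fun z => ∃ F, Kfin F ∧ ∃ x, x ∈ U ∧ z ∈ agr A R F x ∧
      cap (agr A R F x) S ⊆ U, ?_, ?_⟩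
    · refine mem_Ts.2 ⟨fun z hz => (mem_sep.1 hz).1, fun n hn => ⟨fun hp => ?_, fun hp => ?_⟩⟩
      · rw [mem_sep] at hp
        obtain ⟨_, F, hF, x, hx, hpx, hFU⟩ := hp
        refine (((mem_Ts.1 (h.agr_open hF)).2 n hn).1 hpx).mono fun z hz => ?_
        exact mem_sep.2 ⟨(mem_agr.1 hz).1, F, hF, x, hx, hz, hFU⟩
      · rw [mem_sep] at hp
        obtain ⟨_, F, hF, x, hx, hpx, hFU⟩ := hp
        refine (((mem_Ts.1 (h.agr_open hF)).2 n hn).2 hpx).mono fun z hz => ?_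
        exact mem_sep.2 ⟨(mem_agr.1 hz).1, F, hF, x, hx, hz, hFU⟩
    · apply ext
      intro z
      rw [mem_cap, mem_sep]
      constructor
      · intro hz
        have hzS := hU z hz
        have hzK : phi A R z ∈ cap W (Ks A R S) := by
          rw [← hUW, himg]
          exact ⟨z, hz, rfl⟩
        rw [mem_cap] at hzK
        obtain ⟨F, hF, hFX, hFW⟩ := hW.2 _ hzK.1
        refine ⟨⟨hS z hzS, F, hF, z, hz, mem_agr.2 ⟨hS z hzS, fun y _ => Iff.rfl⟩, ?_⟩, hzS⟩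
        intro w hw
        rw [mem_cap, mem_agr] at hw
        have hwW : phi A R w ∈ img U (fun x => ap (lam S fun x => phi A R x) x) := by
          rw [hUW, mem_cap, mem_Ks]
          refine ⟨hFW _ phi_fn fun y hy => (phi_agree (hFX y hy)).2 (hw.1.2 y hy), w, hw.2, rfl⟩
        obtain ⟨w', hw', e⟩ := (himg _).1 hwW
        have := h.phi_inj (hS w' (hU w' hw')) hw.1.1 e
        rw [this]
        exact hw'
      · rintro ⟨⟨_, F, hF, x, hx, hzF, hFU⟩, hzS⟩
        exact hFU z (mem_cap.2 ⟨hzF, hzS⟩)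

/-! ### the initial closed pieces -/

/-- The piece `[p_0, p_n]`. -/
noncomputable def Sn (A n : M) : M :=
  sep (Xs A) fun x => x = pt A n ∨ ∃ m, m ∈ n ∧ ∃ u, x = op m u

theorem mem_Sn {n x : M} : x ∈ Sn A n ↔ x ∈ Xs A ∧ (x = pt A n ∨ ∃ m, m ∈ n ∧ ∃ u, x = op m u) := by
  unfold Sn
  rw [mem_sep]

instance instFpSn {n : ℕ} (A : M) {F : (Fin n → M) → M} [Fp F] :
    Fp (fun v => Sn A (F v)) :=
  Fp.op1 (f := Sn A) (by unfold Sn; infer_instance) F

theorem Sn_sub {n : M} : Sn A n ⊆ Xs A := fun x hx => (mem_Sn.1 hx).1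

theorem pt_mem_Sn {n m : M} (hn : n ∈ (om : M)) (hm : m ∈ n ∨ m = n) : pt A m ∈ Sn A n := by
  rcases hm with hm | rfl
  · exact mem_Sn.2 ⟨pt_mem (om_trans hn hm), Or.inr ⟨m, hm, _, rfl⟩⟩
  · exact mem_Sn.2 ⟨pt_mem hn, Or.inl rfl⟩

theorem op_mem_Sn {n m a : M} (hn : n ∈ (om : M)) (hm : m ∈ n) (ha : a ∈ ap A m) :
    op m a ∈ Sn A n :=
  mem_Sn.2 ⟨op_mem (om_trans hn hm) ha, Or.inr ⟨m, hm, _, rfl⟩⟩

theorem bel_Sn {n m a x : M} (hn : n ∈ (om : M)) (hm : m ∈ (om : M)) (ha : a ∈ ap A m)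
    (hx : x ∈ Sn A n) (hb : Bel A R (op m a) x) : m ∈ n := by
  obtain ⟨hxX, rfl | ⟨k, hk, u, rfl⟩⟩ := mem_Sn.1 hx
  · exact (bel_pt hm ha hn).1 hb
  · rw [bel_iff hm ha (om_trans hn hk)] at hb
    rcases hb with hb | ⟨rfl, _⟩
    · exact om_trans' hn hk hb
    · exact hk

/-- The image of `[p_0, p_n]` in the product is closed. -/
theorem Seq.closed (h : Seq A R) {n : M} (hn : n ∈ (om : M)) :
    df (Fn (Xs A) om) (Ks A R (Sn A n)) ∈ prodTop (Xs A) := by
  rw [mem_prodTop]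
  refine ⟨fun f hf => (mem_df.1 hf).1, fun f hf => ?_⟩
  rw [mem_df] at hf
  obtain ⟨hfn, hfK⟩ := hf
  by_contra hcon
  apply hfK
  -- `f` is in the closure
  have hcl : ∀ F, Kfin F → F ⊆ Xs A → ∃ x, x ∈ Sn A n ∧ ∀ y, y ∈ F → ap (phi A R x) y = ap f y := by
    intro F hF hFX
    by_contra hno
    refine hcon ⟨F, hF, hFX, fun g hg hgf => mem_df.2 ⟨hg, fun hgK => ?_⟩⟩
    obtain ⟨x, hx, rfl⟩ := mem_Ks.1 hgK
    exact hno ⟨x, hx, hgf⟩
  have hcl2 : ∀ y z, y ∈ Xs A → z ∈ Xs A → ∃ x, x ∈ Sn A n ∧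
      (ap f y = one ↔ Bel A R y x) ∧ (ap f z = one ↔ Bel A R z x) := by
    intro y z hy hz
    obtain ⟨x, hx, e⟩ := hcl (pr y z) (kfin_pr y z) (fun w hw => by
      rcases mem_pr.1 hw with rfl | rfl
      · exact hy
      · exact hz)
    refine ⟨x, hx, ?_, ?_⟩
    · rw [← e y (by simp), ap_phi_one hy]
    · rw [← e z (by simp), ap_phi_one hz]
  have hval : ∀ y, y ∈ Xs A → ap f y = one ∨ ap f y = emp := by
    classical
    intro y hy
    obtain ⟨x, hx, e⟩ := hcl (sg y) (kfin_sg y) (fun w hw => by rw [mem_sg] at hw; rw [hw]; exact hy)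
    have e1 := e y (by simp)
    rw [ap_phi hy] at e1
    by_cases hb : Bel A R y x
    · left
      rw [← e1, if_pos hb]
    · right
      rw [← e1, if_neg hb]
  -- it is enough to find a point with the right coordinates
  have hfin : ∀ x, x ∈ Sn A n → (∀ y, y ∈ Xs A → (ap f y = one ↔ Bel A R y x)) →
      f ∈ Ks A R (Sn A n) := by
    intro x hx hxy
    refine mem_Ks.2 ⟨x, hx, ?_⟩
    refine fn_ext (mem_Fn.1 hfn) (mem_Fn.1 phi_fn) fun y hy => ?_
    classical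
    rw [ap_phi hy]
    by_cases hb : Bel A R y x
    · rw [if_pos hb]
      exact (hxy y hy).2 hb
    · rw [if_neg hb]
      rcases hval y hy with h1 | h1
      · exact absurd ((hxy y hy).1 h1) hb
      · exact h1
  have hform : ∀ y, y ∈ Xs A → ap f y = one → ∃ m, m ∈ n ∧ ∃ a, a ∈ ap A m ∧ y = op m a := by
    intro y hy h1
    obtain ⟨x, hx, e, _⟩ := hcl2 y y hy hy
    obtain ⟨m, hm, a, ha, rfl⟩ := (e.1 h1).form
    exact ⟨m, bel_Sn hn hm ha hx (e.1 h1), a, ha, rfl⟩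
  -- monotonicity
  have hmono : ∀ m, m ∈ (om : M) → ∀ a, a ∈ ap A m → ∀ m', m' ∈ (om : M) → ∀ a', a' ∈ ap A m' →
      (m ∈ m' ∨ (m = m' ∧ op a a' ∈ ap R m)) → ap f (op m' a') = one → ap f (op m a) = one := by
    intro m hm a ha m' hm' a' ha' hlt h1
    obtain ⟨x, hx, e1, e2⟩ := hcl2 _ _ (op_mem hm ha) (op_mem hm' ha')
    exact e1.2 (h.bel_trans hm ha hm' ha' hlt (Sn_sub x hx) (e2.1 h1))
  by_cases hall : ∀ m, m ∈ n → ∀ a, a ∈ ap A m → ap f (op m a) = one
  · refine hfin (pt A n) (pt_mem_Sn hn (Or.inr rfl)) fun y hy => ⟨fun h1 => ?_, fun h1 => ?_⟩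
    · obtain ⟨m, hm, a, ha, rfl⟩ := hform y hy h1
      exact (bel_pt (om_trans hn hm) ha hn).2 hm
    · obtain ⟨m, hm, a, ha, rfl⟩ := h1.form
      exact hall m ((bel_pt hm ha hn).1 h1) a ha
  · push Not at hall
    obtain ⟨m0, hm0, hm0'⟩ := hall
    obtain ⟨⟨hm, hmn, a0, ha0, hfa0⟩, hleast⟩ := least_spec
      (P := fun m => m ∈ n ∧ ∃ a, a ∈ ap A m ∧ ap f (op m a) ≠ one)
      ⟨m0, om_trans hn hm0, hm0, hm0'⟩
    set m := least (fun m => m ∈ n ∧ ∃ a, a ∈ ap A m ∧ ap f (op m a) ≠ one) with hmdef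
    clear_value m
    have Z := h m hm
    have hlow : ∀ k, k ∈ m → ∀ a, a ∈ ap A k → ap f (op k a) = one := by
      intro k hk a ha
      by_contra hne
      exact hleast k hk ⟨om_trans' hn hmn hk, a, ha, hne⟩
    have hhigh : ∀ k, k ∈ (om : M) → m ∈ k → ∀ a, a ∈ ap A k → ap f (op k a) ≠ one := by
      intro k hk hmk a ha h1
      exact hfa0 (hmono m hm a0 ha0 k hk a ha (Or.inl hmk) h1)
    by_cases hB : ∃ a, a ∈ ap A m ∧ ap f (op m a) = one
    · obtain ⟨b, hb, hbmax⟩ := Z.max (sep (ap A m) fun a => ap f (op m a) = one)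
        (fun z hz => (mem_sep.1 hz).1) (by obtain ⟨a, ha⟩ := hB; exact ⟨a, mem_sep.2 ha⟩)
        ⟨a0, ha0, fun a ha => by
          rw [mem_sep] at ha
          rcases Z.total a a0 ha.1 ha0 with h1 | rfl | h1
          · exact h1
          · exact absurd ha.2 hfa0
          · exact absurd (hmono m hm a0 ha0 m hm a ha.1 (Or.inr ⟨rfl, h1⟩) ha.2) hfa0⟩
      rw [mem_sep] at hb
      obtain ⟨c0, hc0, hbc0⟩ := Z.noMax b hb.1
      obtain ⟨c, hc, hcmin⟩ := Z.min (sep (ap A m) fun a => op b a ∈ ap R m)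
        (fun z hz => (mem_sep.1 hz).1) ⟨c0, mem_sep.2 ⟨hc0, hbc0⟩⟩
        ⟨b, hb.1, fun z hz => (mem_sep.1 hz).2⟩
      rw [mem_sep] at hc
      have hpm : ∀ a, a ∈ ap A m → (ap f (op m a) = one ↔ op a c ∈ ap R m) := by
        intro a ha
        constructor
        · intro h1
          rcases hbmax a (mem_sep.2 ⟨ha, h1⟩) with rfl | h2
          · exact hc.2
          · exact Z.trans _ _ _ ha hb.1 hc.1 h2 hc.2
        · intro h1
          rcases Z.total a b ha hb.1 with h2 | rfl | h2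
          · exact hmono m hm a ha m hm b hb.1 (Or.inr ⟨rfl, h2⟩) hb.2
          · exact hb.2
          · rcases hcmin a (mem_sep.2 ⟨ha, h2⟩) with rfl | h3
            · exact absurd h1 (Z.irr _ ha)
            · exact absurd h1 (h.asymm hm hc.1 ha h3)
      refine hfin (op m c) (op_mem_Sn hn hmn hc.1) fun y hy => ⟨fun h1 => ?_, fun h1 => ?_⟩
      · obtain ⟨k, hk, a, ha, rfl⟩ := hform y hy h1
        have hk' := om_trans hn hk
        rw [bel_iff hk' ha hm]
        rcases om_tri hk' hm with h2 | rfl | h2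
        · exact Or.inl h2
        · exact Or.inr ⟨rfl, hc.1, (hpm a ha).1 h1⟩
        · exact absurd h1 (hhigh k hk' h2 a ha)
      · obtain ⟨k, hk, a, ha, rfl⟩ := h1.form
        rw [bel_iff hk ha hm] at h1
        rcases h1 with h1 | ⟨rfl, _, h1⟩
        · exact hlow k h1 a ha
        · exact (hpm a ha).2 h1
    · push Not at hB
      refine hfin (pt A m) (pt_mem_Sn hn (Or.inl hmn)) fun y hy => ⟨fun h1 => ?_, fun h1 => ?_⟩
      · obtain ⟨k, hk, a, ha, rfl⟩ := hform y hy h1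
        have hk' := om_trans hn hk
        rw [bel_pt hk' ha hm]
        rcases om_tri hk' hm with h2 | rfl | h2
        · exact h2
        · exact absurd h1 (hB a ha)
        · exact absurd h1 (hhigh k hk' h2 a ha)
      · obtain ⟨k, hk, a, ha, rfl⟩ := h1.form
        rw [bel_pt hk ha hm] at h1
        exact hlow k h1 a ha

theorem Seq.nCompact (h : Seq A R) {n : M} (hn : n ∈ (om : M)) :
    IsNCompact (Sn A n) (subTop (Ts A R) (Sn A n)) := by
  refine ⟨Xs A, Ks A R (Sn A n), lam (Sn A n) fun x => phi A R x, ⟨pt A emp, pt_mem emp_mem_om⟩,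
    fun f hf => ?_, h.closed hn, h.homeo Sn_sub⟩
  obtain ⟨x, _, rfl⟩ := mem_Ks.1 hf
  exact phi_fn

/-! ### `c_δ`-embedding -/

/-- The inverse image of `C ⊆ [p_0, p_n]` under the retraction. -/
noncomputable def xt (A n C : M) : M := sep (Xs A) fun x => x ∈ C ∨ (x ∉ Sn A n ∧ pt A n ∈ C)

theorem mem_xt {n C x : M} : x ∈ xt A n C ↔ x ∈ Xs A ∧ (x ∈ C ∨ (x ∉ Sn A n ∧ pt A n ∈ C)) := by
  unfold xt
  rw [mem_sep]

instance instFpXt {n : ℕ} (A : M) {F G : (Fin n → M) → M} [Fp F] [Fp G] :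
    Fp (fun v => xt A (F v) (G v)) :=
  Fp.op2 (f := xt A) (by unfold xt; infer_instance) F G

theorem Seq.xt_open (h : Seq A R) {n C : M} (hn : n ∈ (om : M))
    (hC : C ∈ subTop (Ts A R) (Sn A n)) : xt A n C ∈ Ts A R := by
  obtain ⟨V, hV, rfl⟩ := mem_subTop.1 hC
  have hV' := hV
  rw [mem_Ts] at hV'
  refine mem_Ts.2 ⟨fun x hx => (mem_xt.1 hx).1, fun m hm => ?_⟩
  -- all `(m, a)` with `n ≤ m` are outside the piece
  have hout : ∀ a, a ∈ ap A m → m ∉ n → op m a ∉ Sn A n := by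
    intro a ha hmn hin
    obtain ⟨_, e | ⟨k, hk, u, e⟩⟩ := mem_Sn.1 hin
    · exact pt_ne ha e.symm
    · obtain ⟨rfl, _⟩ := op_inj.1 e
      exact hmn hk
  have hall : pt A n ∈ cap V (Sn A n) → m ∉ n → ∀ a, a ∈ ap A m → op m a ∈ xt A n (cap V (Sn A n)) :=
    fun hp hmn a ha => mem_xt.2 ⟨op_mem hm ha, Or.inr ⟨hout a ha hmn, hp⟩⟩
  have hin : ∀ a, a ∈ ap A m → m ∈ n → op m a ∈ V → op m a ∈ xt A n (cap V (Sn A n)) :=
    fun a ha hmn hV => mem_xt.2 ⟨op_mem hm ha, Or.inl (mem_cap.2 ⟨hV, op_mem_Sn hn hmn ha⟩)⟩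
  constructor
  · intro hp
    rw [mem_xt, mem_cap] at hp
    by_cases hmn : m ∈ n
    · have hpV : pt A m ∈ V := by
        rcases hp.2 with h1 | h1
        · exact h1.1
        · exact absurd (pt_mem_Sn hn (Or.inl hmn)) h1.1
      obtain ⟨c, hc, hcV⟩ := (hV'.2 m hm).1 hpV
      exact ⟨c, hc, fun a ha hac => hin a ha hmn (hcV a ha hac)⟩
    · have hpn : pt A n ∈ cap V (Sn A n) := by
        rcases hp.2 with h1 | h1
        · obtain ⟨_, e | ⟨k, hk, u, e⟩⟩ := mem_Sn.1 h1.2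
          · rw [← e]
            exact mem_cap.2 h1
          · obtain ⟨rfl, _⟩ := op_inj.1 e
            exact absurd hk hmn
        · exact h1.2
      obtain ⟨c, hc⟩ := (h m hm).ne
      exact ⟨c, hc, fun a ha _ => hall hpn hmn a ha⟩
  · intro hp
    rw [mem_xt, mem_cap] at hp
    by_cases hmn : m ∈ n
    · have hsm : suc m ∈ n ∨ suc m = n := by
        rcases om_tri (suc_mem_om hm) hn with h1 | h1 | h1
        · exact Or.inl h1
        · exact Or.inr h1
        · rcases mem_suc.1 h1 with rfl | h1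
          · exact absurd hmn (not_mem_self _)
          · exact absurd h1 (not_mem_cycle hmn)
      have hpV : pt A (suc m) ∈ V := by
        rcases hp.2 with h1 | h1
        · exact h1.1
        · exact absurd (pt_mem_Sn hn hsm) h1.1
      obtain ⟨c, hc, hcV⟩ := (hV'.2 m hm).2 hpV
      exact ⟨c, hc, fun a ha hac => hin a ha hmn (hcV a ha hac)⟩
    · have hpn : pt A n ∈ cap V (Sn A n) := by
        rcases hp.2 with h1 | h1
        · obtain ⟨_, e | ⟨k, hk, u, e⟩⟩ := mem_Sn.1 h1.2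
          · rw [← e]
            exact mem_cap.2 h1
          · obtain ⟨rfl, _⟩ := op_inj.1 e
            exact absurd (om_trans' hn hk (by simp)) hmn
        · exact h1.2
      obtain ⟨c, hc⟩ := (h m hm).ne
      exact ⟨c, hc, fun a ha _ => hall hpn hmn a ha⟩

theorem Seq.xt_clopen (h : Seq A R) {n C : M} (hn : n ∈ (om : M))
    (hC : IsClopen (Sn A n) (subTop (Ts A R) (Sn A n)) C) :
    IsClopen (Xs A) (Ts A R) (xt A n C) := by
  refine ⟨h.xt_open hn hC.1, fun x hx => (mem_xt.1 hx).1, ?_⟩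
  have : df (Xs A) (xt A n C) = xt A n (df (Sn A n) C) := by
    apply ext
    intro x
    rw [mem_df, mem_xt, mem_xt, mem_df, mem_df]
    have h1 : x ∈ Sn A n → x ∈ Xs A := Sn_sub x
    have h2 : pt A n ∈ Sn A n := pt_mem_Sn hn (Or.inr rfl)
    have h3 : x ∈ C → x ∈ Sn A n := hC.2.1 x
    tauto
  rw [this]
  exact h.xt_open hn hC.2.2

theorem Seq.cdEmb (h : Seq A R) {n : M} (hn : n ∈ (om : M)) :
    IsCdEmb (Xs A) (Ts A R) (Sn A n) := by
  rintro D ⟨c, hc, hcl, hD⟩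
  have hap : ∀ k, k ∈ (om : M) → ap (lam om fun k => xt A n (ap c k)) k = xt A n (ap c k) :=
    fun k hk => by rw [ap_lam hk]
  refine ⟨sep (Xs A) fun x => ∀ k, k ∈ (om : M) → x ∈ xt A n (ap c k),
    ⟨lam om fun k => xt A n (ap c k), lam_fd, fun k hk => ?_, fun x => ?_⟩, ?_⟩
  · rw [hap k hk]
    exact h.xt_clopen hn (hcl k hk)
  · rw [mem_sep]
    constructor
    · rintro ⟨h1, h2⟩
      refine ⟨h1, fun k hk => ?_⟩
      rw [hap k hk]
      exact h2 k hk
    · rintro ⟨h1, h2⟩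
      refine ⟨h1, fun k hk => ?_⟩
      rw [← hap k hk]
      exact h2 k hk
  · apply ext
    intro x
    rw [hD, mem_cap, mem_sep]
    constructor
    · rintro ⟨h1, h2⟩
      exact ⟨⟨Sn_sub x h1, fun k hk => mem_xt.2 ⟨Sn_sub x h1, Or.inl (h2 k hk)⟩⟩, h1⟩
    · rintro ⟨⟨h1, h2⟩, h3⟩
      refine ⟨h3, fun k hk => ?_⟩
      rcases (mem_xt.1 (h2 k hk)).2 with h4 | h4
      · exact h4
      · exact absurd h3 h4.1

end emb

end Pool.Agent.helper74.ZT
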