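import Pool.Agent.helper74.ZTopDefs

/-!
# A space built from a sequence of linear orders of type `ℤ`
-/

namespace Pool.Agent.helper74.ZT

open Pool.Agent.helper31.ZF

universe u

variable {M : Type u} [ZFModel M]

@[simp] theorem mem_cap {U V x : M} : x ∈ cap U V ↔ x ∈ U ∧ x ∈ V := by
  unfold cap
  rw [mem_sep]

instance instFpCap {n : ℕ} {F G : (Fin n → M) → M} [Fp F] [Fp G] :
    Fp (fun v => cap (F v) (G v)) := Fp.op2 (by unfold cap; infer_instance) F G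

theorem mem_subTop {T S U : M} : U ∈ subTop T S ↔ ∃ V, V ∈ T ∧ U = cap V S := by
  unfold subTop
  rw [mem_img]

theorem one_ne_emp : (one : M) ≠ emp := by
  intro h
  have : (emp : M) ∈ (one : M) := by
    unfold one
    simp
  rw [h] at this
  exact not_mem_emp _ this

theorem one_mem_om : (one : M) ∈ (om : M) := suc_mem_om emp_mem_om

theorem kfin_pr (x y : M) : Kfin (pr x y) := by
  have : pr x y = ins x (sg y) := ext fun z => by simp
  rw [this]
  exact kfin_ins (kfin_sg y) x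

/-! ### the underlying set -/

/-- The point `p_n`. -/
noncomputable def pt (A n : M) : M := op n (ap A n)

instance instFpPt {n : ℕ} (A : M) {F : (Fin n → M) → M} [Fp F] :
    Fp (fun v => pt A (F v)) := by unfold pt; infer_instance

/-- The underlying set: the points `p_n` and the pairs `(n, a)` with `a ∈ A n`. -/
noncomputable def Xs (A : M) : M :=
  sUn (img om fun n => img (ins (ap A n) (ap A n)) fun u => op n u)

theorem mem_Xs {A x : M} : x ∈ Xs A ↔
    ∃ n, n ∈ (om : M) ∧ ∃ u, (u ∈ ap A n ∨ u = ap A n) ∧ x = op n u := by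
  unfold Xs
  rw [mem_sUn]
  constructor
  · rintro ⟨y, hy, hx⟩
    rw [mem_img] at hy
    obtain ⟨n, hn, rfl⟩ := hy
    rw [mem_img] at hx
    obtain ⟨u, hu, rfl⟩ := hx
    exact ⟨n, hn, u, (mem_ins.1 hu).symm, rfl⟩
  · rintro ⟨n, hn, u, hu, rfl⟩
    refine ⟨_, mem_img.2 ⟨n, hn, rfl⟩, ?_⟩
    rw [mem_img]
    exact ⟨u, mem_ins.2 hu.symm, rfl⟩

theorem pt_mem {A n : M} (hn : n ∈ (om : M)) : pt A n ∈ Xs A :=
  mem_Xs.2 ⟨n, hn, _, Or.inr rfl, rfl⟩

theorem op_mem {A n a : M} (hn : n ∈ (om : M)) (ha : a ∈ ap A n) : op n a ∈ Xs A :=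
  mem_Xs.2 ⟨n, hn, _, Or.inl ha, rfl⟩

theorem Xs_cases {A x : M} (hx : x ∈ Xs A) : ∃ n, n ∈ (om : M) ∧
    (x = pt A n ∨ ∃ a, a ∈ ap A n ∧ x = op n a) := by
  obtain ⟨n, hn, u, hu | hu, rfl⟩ := mem_Xs.1 hx
  · exact ⟨n, hn, Or.inr ⟨u, hu, rfl⟩⟩
  · subst hu
    exact ⟨n, hn, Or.inl rfl⟩

theorem pt_ne {A n m a : M} (ha : a ∈ ap A m) : pt A n ≠ op m a := by
  intro h
  obtain ⟨rfl, rfl⟩ := op_inj.1 h
  exact not_mem_self _ ha

theorem pt_inj {A n m : M} (h : pt A n = pt A m) : n = m := (op_inj.1 h).1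

/-! ### the topology -/

/-- `U` contains all sufficiently small elements of `A n`. -/
def Dn (A R n U : M) : Prop :=
  ∃ c, c ∈ ap A n ∧ ∀ a, a ∈ ap A n → op a c ∈ ap R n → op n a ∈ U

/-- `U` contains all sufficiently large elements of `A n`. -/
def Up (A R n U : M) : Prop :=
  ∃ c, c ∈ ap A n ∧ ∀ a, a ∈ ap A n → op c a ∈ ap R n → op n a ∈ U

instance instDpDn {n : ℕ} (A R : M) {F G : (Fin n → M) → M} [Fp F] [Fp G] :
    Dp (fun v => Dn A R (F v) (G v)) :=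
  Dp.subst2 (R := Dn A R) (by unfold Dn; infer_instance) F G

instance instDpUp {n : ℕ} (A R : M) {F G : (Fin n → M) → M} [Fp F] [Fp G] :
    Dp (fun v => Up A R (F v) (G v)) :=
  Dp.subst2 (R := Up A R) (by unfold Up; infer_instance) F G

theorem Dn.mono {A R n U V : M} (h : Dn A R n U) (hUV : U ⊆ V) : Dn A R n V := by
  obtain ⟨c, hc, h⟩ := h
  exact ⟨c, hc, fun a ha hac => hUV _ (h a ha hac)⟩

theorem Up.mono {A R n U V : M} (h : Up A R n U) (hUV : U ⊆ V) : Up A R n V := by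
  obtain ⟨c, hc, h⟩ := h
  exact ⟨c, hc, fun a ha hac => hUV _ (h a ha hac)⟩

/-- Openness. -/
def Opn (A R U : M) : Prop :=
  ∀ n, n ∈ (om : M) → (pt A n ∈ U → Dn A R n U) ∧ (pt A (suc n) ∈ U → Up A R n U)

instance instDpOpn {n : ℕ} (A R : M) {F : (Fin n → M) → M} [Fp F] :
    Dp (fun v => Opn A R (F v)) :=
  Dp.subst1 (R := Opn A R) (by unfold Opn; infer_instance) F

/-- The topology. -/
noncomputable def Ts (A R : M) : M := sep (pw (Xs A)) fun U => Opn A R U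

theorem mem_Ts {A R U : M} : U ∈ Ts A R ↔ U ⊆ Xs A ∧ Opn A R U := by
  unfold Ts
  rw [mem_sep, mem_pw]

/-- Standing assumption: a sequence of linear orders of type `ℤ`. -/
def Seq (A R : M) : Prop := ∀ n, n ∈ (om : M) → IsZOrder (ap A n) (ap R n)

section basic

variable {A R : M}

theorem Seq.dn_cap (h : Seq A R) {n U V : M} (hn : n ∈ (om : M)) (hU : Dn A R n U)
    (hV : Dn A R n V) : Dn A R n (cap U V) := by
  obtain ⟨c, hc, hU⟩ := hU
  obtain ⟨d, hd, hV⟩ := hV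
  have Z := h n hn
  rcases Z.total c d hc hd with hcd | rfl | hcd
  · exact ⟨c, hc, fun a ha hac => mem_cap.2 ⟨hU a ha hac, hV a ha (Z.trans _ _ _ ha hc hd hac hcd)⟩⟩
  · exact ⟨c, hc, fun a ha hac => mem_cap.2 ⟨hU a ha hac, hV a ha hac⟩⟩
  · exact ⟨d, hd, fun a ha hac => mem_cap.2 ⟨hU a ha (Z.trans _ _ _ ha hd hc hac hcd), hV a ha hac⟩⟩

theorem Seq.up_cap (h : Seq A R) {n U V : M} (hn : n ∈ (om : M)) (hU : Up A R n U)
    (hV : Up A R n V) : Up A R n (cap U V) := by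
  obtain ⟨c, hc, hU⟩ := hU
  obtain ⟨d, hd, hV⟩ := hV
  have Z := h n hn
  rcases Z.total c d hc hd with hcd | rfl | hcd
  · exact ⟨d, hd, fun a ha hac => mem_cap.2 ⟨hU a ha (Z.trans _ _ _ hc hd ha hcd hac), hV a ha hac⟩⟩
  · exact ⟨c, hc, fun a ha hac => mem_cap.2 ⟨hU a ha hac, hV a ha hac⟩⟩
  · exact ⟨c, hc, fun a ha hac => mem_cap.2 ⟨hU a ha hac, hV a ha (Z.trans _ _ _ hd hc ha hcd hac)⟩⟩

theorem Seq.isTop (h : Seq A R) : IsTop (Xs A) (Ts A R) := by
  refine ⟨fun U hU => (mem_Ts.1 hU).1, ?_, ?_, ?_, ?_⟩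
  · refine mem_Ts.2 ⟨Sub.refl _, fun n hn => ⟨fun _ => ?_, fun _ => ?_⟩⟩
    · obtain ⟨c, hc⟩ := (h n hn).ne
      exact ⟨c, hc, fun a ha _ => op_mem hn ha⟩
    · obtain ⟨c, hc⟩ := (h n hn).ne
      exact ⟨c, hc, fun a ha _ => op_mem hn ha⟩
  · refine mem_Ts.2 ⟨emp_sub _, fun n hn => ⟨fun hp => ?_, fun hp => ?_⟩⟩
    · exact absurd hp (not_mem_emp _)
    · exact absurd hp (not_mem_emp _)
  · intro U V hU hV
    rw [mem_Ts] at hU hV
    refine mem_Ts.2 ⟨fun x hx => hU.1 x (mem_cap.1 hx).1, fun n hn => ⟨fun hp => ?_, fun hp => ?_⟩⟩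
    · rw [mem_cap] at hp
      exact h.dn_cap hn ((hU.2 n hn).1 hp.1) ((hV.2 n hn).1 hp.2)
    · rw [mem_cap] at hp
      exact h.up_cap hn ((hU.2 n hn).2 hp.1) ((hV.2 n hn).2 hp.2)
  · intro S hS
    refine mem_Ts.2 ⟨fun x hx => ?_, fun n hn => ⟨fun hp => ?_, fun hp => ?_⟩⟩
    · obtain ⟨U, hU, hx⟩ := mem_sUn.1 hx
      exact (mem_Ts.1 (hS U hU)).1 x hx
    · obtain ⟨U, hU, hx⟩ := mem_sUn.1 hp
      exact (((mem_Ts.1 (hS U hU)).2 n hn).1 hx).mono fun z hz => mem_sUn.2 ⟨U, hU, hz⟩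
    · obtain ⟨U, hU, hx⟩ := mem_sUn.1 hp
      exact (((mem_Ts.1 (hS U hU)).2 n hn).2 hx).mono fun z hz => mem_sUn.2 ⟨U, hU, hz⟩

theorem Seq.asymm (h : Seq A R) {n a b : M} (hn : n ∈ (om : M)) (ha : a ∈ ap A n)
    (hb : b ∈ ap A n) (hab : op a b ∈ ap R n) : op b a ∉ ap R n := fun hba =>
  (h n hn).irr a ha ((h n hn).trans _ _ _ ha hb ha hab hba)

theorem Seq.isT1 (h : Seq A R) : IsT1 (Xs A) (Ts A R) := by
  intro x hx
  refine mem_Ts.2 ⟨fun z hz => (mem_df.1 hz).1, fun n hn => ⟨fun _ => ?_, fun _ => ?_⟩⟩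
  · by_cases hc : ∃ c, c ∈ ap A n ∧ x = op n c
    · obtain ⟨c, hc, rfl⟩ := hc
      refine ⟨c, hc, fun a ha hac => mem_df.2 ⟨op_mem hn ha, fun hax => ?_⟩⟩
      rw [mem_sg] at hax
      obtain ⟨-, rfl⟩ := op_inj.1 hax
      exact (h n hn).irr a ha hac
    · obtain ⟨c, hc'⟩ := (h n hn).ne
      refine ⟨c, hc', fun a ha _ => mem_df.2 ⟨op_mem hn ha, fun hax => ?_⟩⟩
      rw [mem_sg] at hax
      exact hc ⟨a, ha, hax.symm⟩
  · by_cases hc : ∃ c, c ∈ ap A n ∧ x = op n c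
    · obtain ⟨c, hc, rfl⟩ := hc
      refine ⟨c, hc, fun a ha hac => mem_df.2 ⟨op_mem hn ha, fun hax => ?_⟩⟩
      rw [mem_sg] at hax
      obtain ⟨-, rfl⟩ := op_inj.1 hax
      exact (h n hn).irr a ha hac
    · obtain ⟨c, hc'⟩ := (h n hn).ne
      refine ⟨c, hc', fun a ha _ => mem_df.2 ⟨op_mem hn ha, fun hax => ?_⟩⟩
      rw [mem_sg] at hax
      exact hc ⟨a, ha, hax.symm⟩

end basic

/-! ### the coordinates -/

/-- `y` is a pair `(m, a)` with `a ∈ A m` that lies strictly below the point `x`. -/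
def Bel (A R y x : M) : Prop :=
  ∃ m, m ∈ (om : M) ∧ ∃ a, a ∈ ap A m ∧ y = op m a ∧ ∃ k, k ∈ (om : M) ∧ ∃ u, x = op k u ∧
    (m ∈ k ∨ (m = k ∧ u ∈ ap A m ∧ op a u ∈ ap R m))

instance instDpBel {n : ℕ} (A R : M) {F G : (Fin n → M) → M} [Fp F] [Fp G] :
    Dp (fun v => Bel A R (F v) (G v)) :=
  Dp.subst2 (R := Bel A R) (by unfold Bel; infer_instance) F G

section coord

variable {A R : M}

theorem bel_iff {m a k u : M} (hm : m ∈ (om : M)) (ha : a ∈ ap A m) (hk : k ∈ (om : M)) :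
    Bel A R (op m a) (op k u) ↔ (m ∈ k ∨ (m = k ∧ u ∈ ap A m ∧ op a u ∈ ap R m)) := by
  constructor
  · rintro ⟨m', hm', a', ha', e, k', hk', u', e', h⟩
    obtain ⟨rfl, rfl⟩ := op_inj.1 e
    obtain ⟨rfl, rfl⟩ := op_inj.1 e'
    exact h
  · intro h
    exact ⟨m, hm, a, ha, rfl, k, hk, u, rfl, h⟩

theorem bel_pt {m a k : M} (hm : m ∈ (om : M)) (ha : a ∈ ap A m) (hk : k ∈ (om : M)) :
    Bel A R (op m a) (pt A k) ↔ m ∈ k := by
  unfold pt
  rw [bel_iff hm ha hk]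
  constructor
  · rintro (h | ⟨rfl, h, _⟩)
    · exact h
    · exact absurd h (not_mem_self _)
  · exact Or.inl

theorem Bel.form {y x : M} (h : Bel A R y x) : ∃ m, m ∈ (om : M) ∧ ∃ a, a ∈ ap A m ∧ y = op m a := by
  obtain ⟨m, hm, a, ha, e, _⟩ := h
  exact ⟨m, hm, a, ha, e⟩

theorem Seq.bel_trans (h : Seq A R) {m a m' a' x : M} (hm : m ∈ (om : M)) (ha : a ∈ ap A m)
    (hm' : m' ∈ (om : M)) (ha' : a' ∈ ap A m') (hlt : m ∈ m' ∨ (m = m' ∧ op a a' ∈ ap R m))
    (hx : x ∈ Xs A) (hb : Bel A R (op m' a') x) : Bel A R (op m a) x := by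
  obtain ⟨k, hk, u, _, rfl⟩ := mem_Xs.1 hx
  rw [bel_iff hm' ha' hk] at hb
  rw [bel_iff hm ha hk]
  rcases hb with hb | ⟨rfl, hu, hb⟩
  · rcases hlt with hlt | ⟨rfl, _⟩
    · exact Or.inl (om_trans' hk hb hlt)
    · exact Or.inl hb
  · rcases hlt with hlt | ⟨rfl, hlt⟩
    · exact Or.inl hlt
    · exact Or.inr ⟨rfl, hu, (h m hm).trans _ _ _ ha ha' hu hlt hb⟩

/-- The points above `y` form an open set. -/
theorem Seq.above_open (h : Seq A R) {m a : M} (hm : m ∈ (om : M)) (ha : a ∈ ap A m) :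
    sep (Xs A) (fun x => Bel A R (op m a) x) ∈ Ts A R := by
  refine mem_Ts.2 ⟨fun x hx => (mem_sep.1 hx).1, fun k hk => ⟨fun hp => ?_, fun hp => ?_⟩⟩
  · rw [mem_sep, bel_pt hm ha hk] at hp
    obtain ⟨c, hc⟩ := (h k hk).ne
    refine ⟨c, hc, fun a' ha' _ => mem_sep.2 ⟨op_mem hk ha', (bel_iff hm ha hk).2 (Or.inl hp.2)⟩⟩
  · rw [mem_sep, bel_pt hm ha (suc_mem_om hk), mem_suc] at hp
    rcases hp.2 with rfl | hp
    · exact ⟨a, ha, fun a' ha' haa' => mem_sep.2 ⟨op_mem hk ha',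
        (bel_iff hm ha hk).2 (Or.inr ⟨rfl, ha', haa'⟩)⟩⟩
    · obtain ⟨c, hc⟩ := (h k hk).ne
      refine ⟨c, hc, fun a' ha' _ => mem_sep.2 ⟨op_mem hk ha', (bel_iff hm ha hk).2 (Or.inl hp)⟩⟩

/-- The points not above `y` form an open set. -/
theorem Seq.below_open (h : Seq A R) {m a : M} (hm : m ∈ (om : M)) (ha : a ∈ ap A m) :
    sep (Xs A) (fun x => ¬ Bel A R (op m a) x) ∈ Ts A R := by
  refine mem_Ts.2 ⟨fun x hx => (mem_sep.1 hx).1, fun k hk => ⟨fun hp => ?_, fun hp => ?_⟩⟩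
  · rw [mem_sep, bel_pt hm ha hk] at hp
    by_cases hmk : m = k
    · subst hmk
      refine ⟨a, ha, fun a' ha' haa' => mem_sep.2 ⟨op_mem hk ha', ?_⟩⟩
      rw [bel_iff hm ha hk]
      rintro (h1 | ⟨_, _, h1⟩)
      · exact hp.2 h1
      · exact h.asymm hk ha' ha haa' h1
    · obtain ⟨c, hc⟩ := (h k hk).ne
      refine ⟨c, hc, fun a' ha' _ => mem_sep.2 ⟨op_mem hk ha', ?_⟩⟩
      rw [bel_iff hm ha hk]
      rintro (h1 | ⟨h1, _⟩)
      · exact hp.2 h1
      · exact hmk h1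
  · rw [mem_sep, bel_pt hm ha (suc_mem_om hk), mem_suc, not_or] at hp
    obtain ⟨c, hc⟩ := (h k hk).ne
    refine ⟨c, hc, fun a' ha' _ => mem_sep.2 ⟨op_mem hk ha', ?_⟩⟩
    rw [bel_iff hm ha hk]
    rintro (h1 | ⟨h1, _⟩)
    · exact hp.2.2 h1
    · exact hp.2.1 h1

/-- The points that agree with `x` on `F`. -/
noncomputable def agr (A R F x : M) : M :=
  sep (Xs A) fun z => ∀ y, y ∈ F → (Bel A R y z ↔ Bel A R y x)

theorem mem_agr {F x z : M} : z ∈ agr A R F x ↔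
    z ∈ Xs A ∧ ∀ y, y ∈ F → (Bel A R y z ↔ Bel A R y x) := by
  unfold agr
  rw [mem_sep]

instance instFpAgr {n : ℕ} (A R : M) {F G : (Fin n → M) → M} [Fp F] [Fp G] :
    Fp (fun v => agr A R (F v) (G v)) :=
  Fp.op2 (f := agr A R) (by unfold agr; infer_instance) F G

theorem Seq.agr_open (h : Seq A R) {F x : M} (hF : Kfin F) : agr A R F x ∈ Ts A R := by
  refine fin_ind (P := fun F => agr A R F x ∈ Ts A R) ?_ ?_ hF
  · have : agr A R emp x = Xs A := ext fun z => by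
      rw [mem_agr]
      exact ⟨fun hz => hz.1, fun hz => ⟨hz, fun y hy => absurd hy (not_mem_emp y)⟩⟩
    rw [this]
    exact h.isTop.2.1
  · intro F _ ih y _
    by_cases hy : ∃ m, m ∈ (om : M) ∧ ∃ a, a ∈ ap A m ∧ y = op m a
    · obtain ⟨m, hm, a, ha, rfl⟩ := hy
      by_cases hb : Bel A R (op m a) x
      · have : agr A R (ins (op m a) F) x =
            cap (sep (Xs A) fun z => Bel A R (op m a) z) (agr A R F x) := ext fun z => by
          rw [mem_cap, mem_agr, mem_agr, mem_sep]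
          constructor
          · rintro ⟨h1, h2⟩
            exact ⟨⟨h1, (h2 _ (by simp)).2 hb⟩, h1, fun y hy => h2 y (mem_ins.2 (Or.inr hy))⟩
          · rintro ⟨⟨h1, h2⟩, _, h3⟩
            refine ⟨h1, fun y hy => ?_⟩
            rcases mem_ins.1 hy with rfl | hy
            · exact ⟨fun _ => hb, fun _ => h2⟩
            · exact h3 y hy
        rw [this]
        exact h.isTop.2.2.2.1 _ _ (h.above_open hm ha) ih
      · have : agr A R (ins (op m a) F) x =
            cap (sep (Xs A) fun z => ¬ Bel A R (op m a) z) (agr A R F x) := ext fun z => by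
          rw [mem_cap, mem_agr, mem_agr, mem_sep]
          constructor
          · rintro ⟨h1, h2⟩
            exact ⟨⟨h1, fun h3 => hb ((h2 _ (by simp)).1 h3)⟩, h1,
              fun y hy => h2 y (mem_ins.2 (Or.inr hy))⟩
          · rintro ⟨⟨h1, h2⟩, _, h3⟩
            refine ⟨h1, fun y hy => ?_⟩
            rcases mem_ins.1 hy with rfl | hy
            · exact ⟨fun h4 => absurd h4 h2, fun h4 => absurd h4 hb⟩
            · exact h3 y hy
        rw [this]
        exact h.isTop.2.2.2.1 _ _ (h.below_open hm ha) ih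
    · have : agr A R (ins y F) x = agr A R F x := ext fun z => by
        rw [mem_agr, mem_agr]
        constructor
        · rintro ⟨h1, h2⟩
          exact ⟨h1, fun y hy => h2 y (mem_ins.2 (Or.inr hy))⟩
        · rintro ⟨h1, h2⟩
          refine ⟨h1, fun y' hy' => ?_⟩
          rcases mem_ins.1 hy' with rfl | hy'
          · exact ⟨fun h3 => absurd h3.form hy, fun h3 => absurd h3.form hy⟩
          · exact h2 y' hy'
      rw [this]
      exact ih

/-- The sets `agr F x` are neighbourhood bases. -/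
theorem Seq.exists_agr (h : Seq A R) {V x : M} (hV : V ∈ Ts A R) (hx : x ∈ V) :
    ∃ F, Kfin F ∧ F ⊆ Xs A ∧ agr A R F x ⊆ V := by
  rw [mem_Ts] at hV
  obtain ⟨m, hm, rfl | ⟨a, ha, rfl⟩⟩ := Xs_cases (hV.1 x hx)
  · have Z := h m hm
    obtain ⟨c, hc, hcV⟩ := (hV.2 m hm).1 hx
    obtain ⟨c', hc', hcc⟩ := Z.noMin c hc
    -- points not above `c'`
    have key : ∀ k, k ∈ (om : M) → ∀ u, (u ∈ ap A k ∨ u = ap A k) →
        ¬ Bel A R (op m c') (op k u) → k ∈ m ∨ op k u ∈ V := by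
      intro k hk u hu hb
      rw [bel_iff hm hc' hk, not_or] at hb
      rcases om_tri hk hm with h1 | rfl | h1
      · exact Or.inl h1
      · right
        rcases hu with hu | rfl
        · refine hcV u hu ?_
          rcases Z.total c' u hc' hu with h2 | rfl | h2
          · exact absurd ⟨rfl, hu, h2⟩ hb.2
          · exact hcc
          · exact Z.trans _ _ _ hu hc' hc h2 hcc
        · exact hx
      · exact absurd h1 hb.1
    have hbm : ¬ Bel A R (op m c') (pt A m) := by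
      rw [bel_pt hm hc' hm]
      exact not_mem_self _
    rcases om_cases hm with rfl | ⟨j, hj, rfl⟩
    · refine ⟨sg (op emp c'), kfin_sg _, ?_, ?_⟩
      · intro z hz
        rw [mem_sg] at hz
        rw [hz]
        exact op_mem hm hc'
      · intro z hz
        rw [mem_agr] at hz
        obtain ⟨k, hk, u, hu, rfl⟩ := mem_Xs.1 hz.1
        rcases key k hk u hu (fun hb => hbm ((hz.2 _ (by simp)).1 hb)) with h1 | h1
        · exact absurd h1 (not_mem_emp _)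
        · exact h1
    · obtain ⟨b, hb, hbV⟩ := (hV.2 j hj).2 hx
      refine ⟨pr (op (suc j) c') (op j b), kfin_pr _ _, ?_, ?_⟩
      · intro z hz
        rcases mem_pr.1 hz with rfl | rfl
        · exact op_mem hm hc'
        · exact op_mem hj hb
      · intro z hz
        rw [mem_agr] at hz
        obtain ⟨k, hk, u, hu, rfl⟩ := mem_Xs.1 hz.1
        rcases key k hk u hu (fun hb => hbm ((hz.2 _ (by simp)).1 hb)) with h1 | h1
        · have h2 := (hz.2 (op j b) (by simp)).2 ((bel_pt hj hb hm).2 (by simp))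
          rw [bel_iff hj hb hk] at h2
          rcases h2 with h2 | ⟨rfl, h2, h3⟩
          · rcases mem_suc.1 h1 with rfl | h1
            · exact absurd h2 (not_mem_self _)
            · exact absurd h2 (not_mem_cycle h1)
          · exact hbV u h2 h3
        · exact h1
  · have Z := h m hm
    obtain ⟨b0, hb0, hb0a⟩ := Z.noMin a ha
    obtain ⟨b, hb, hbmax⟩ := Z.max (sep (ap A m) fun z => op z a ∈ ap R m)
      (fun z hz => (mem_sep.1 hz).1) ⟨b0, mem_sep.2 ⟨hb0, hb0a⟩⟩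
      ⟨a, ha, fun z hz => (mem_sep.1 hz).2⟩
    rw [mem_sep] at hb
    refine ⟨pr (op m a) (op m b), kfin_pr _ _, ?_, ?_⟩
    · intro z hz
      rcases mem_pr.1 hz with rfl | rfl
      · exact op_mem hm ha
      · exact op_mem hm hb.1
    · intro z hz
      rw [mem_agr] at hz
      obtain ⟨k, hk, u, hu, rfl⟩ := mem_Xs.1 hz.1
      have h1 : ¬ Bel A R (op m a) (op k u) := by
        intro h1
        have h2 := (hz.2 (op m a) (by simp)).1 h1
        rw [bel_iff hm ha hm] at h2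
        rcases h2 with h2 | ⟨_, _, h2⟩
        · exact not_mem_self _ h2
        · exact Z.irr a ha h2
      have h2 : Bel A R (op m b) (op k u) := by
        refine (hz.2 (op m b) (by simp)).2 ?_
        rw [bel_iff hm hb.1 hm]
        exact Or.inr ⟨rfl, ha, hb.2⟩
      rw [bel_iff hm ha hk, not_or] at h1
      rw [bel_iff hm hb.1 hk] at h2
      rcases h2 with h2 | ⟨rfl, hu', h2⟩
      · exact absurd h2 h1.1
      · rcases Z.total u a hu' ha with h3 | rfl | h3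
        · rcases hbmax u (mem_sep.2 ⟨hu', h3⟩) with rfl | h4
          · exact absurd h2 (Z.irr _ hu')
          · exact absurd h4 (h.asymm hm hb.1 hu' h2)
        · exact hx
        · exact absurd ⟨rfl, hu', h3⟩ h1.2

theorem Seq.bel_inj (h : Seq A R) {x z : M} (hx : x ∈ Xs A) (hz : z ∈ Xs A)
    (e : ∀ y, y ∈ Xs A → (Bel A R y z ↔ Bel A R y x)) : z = x := by
  by_contra hne
  obtain ⟨F, _, hFX, hF⟩ := h.exists_agr (V := df (Xs A) (sg z)) (x := x) (h.isT1 z hz)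
    (mem_df.2 ⟨hx, fun h1 => hne (mem_sg.1 h1).symm⟩)
  have := hF z (mem_agr.2 ⟨hz, fun y hy => e y (hFX y hy)⟩)
  rw [mem_df, mem_sg] at this
  exact this.2 rfl

theorem Seq.isZeroDim (h : Seq A R) : IsZeroDim (Xs A) (Ts A R) := by
  intro U hU x hx
  obtain ⟨F, hF, _, hFU⟩ := h.exists_agr hU hx
  have hxX : x ∈ Xs A := (mem_Ts.1 hU).1 x hx
  refine ⟨agr A R F x, ⟨h.agr_open hF, fun z hz => (mem_agr.1 hz).1, ?_⟩,
    mem_agr.2 ⟨hxX, fun y _ => Iff.rfl⟩, hFU⟩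
  -- the complement is a union of sets of the same form
  have : df (Xs A) (agr A R F x) = sUn (sep (Ts A R) fun V => V ⊆ df (Xs A) (agr A R F x)) := by
    apply ext
    intro z
    rw [mem_sUn]
    constructor
    · intro hz
      have hz' := hz
      rw [mem_df, mem_agr] at hz'
      refine ⟨agr A R F z, mem_sep.2 ⟨h.agr_open hF, ?_⟩, mem_agr.2 ⟨hz'.1, fun y _ => Iff.rfl⟩⟩
      intro w hw
      rw [mem_agr] at hw
      refine mem_df.2 ⟨hw.1, fun hw' => hz'.2 ⟨hz'.1, fun y hy => ?_⟩⟩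
      rw [mem_agr] at hw'
      exact (hw.2 y hy).symm.trans (hw'.2 y hy)
    · rintro ⟨V, hV, hz⟩
      exact (mem_sep.1 hV).2 z hz
  rw [this]
  exact h.isTop.2.2.2.2 _ fun V hV => (mem_sep.1 hV).1

end coord

end Pool.Agent.helper74.ZT
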